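import Pool.Agent.MP_c69980_ag.E1.SpecB

/-!
An algebraic form of the theorem of Sard. The first lemma is copied from a file of helper48.
-/

set_option autoImplicit false

namespace Pool.Agent.MP_c69980_ag.E1

open MvPolynomial H60 H4

namespace AlgB

open scoped IntermediateField.algebraAdjoinAdjoin in
lemma exists_der {K L σ : Type} [Field K] [Field L] [CharZero L] [Algebra K L] [DecidableEq σ]
    {v : σ → L} (hv : IsTranscendenceBasis K v) (j : σ) :
    ∃ D : Derivation K L L, D (v j) = 1 := by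
  have h1 : Algebra.FormallyEtale (Algebra.adjoin K (Set.range v))
      (IntermediateField.adjoin K (Set.range v)) := .of_isLocalization (nonZeroDivisors _)
  have h2 := hv.isAlgebraic_field
  have h3 : Algebra.FormallyEtale (IntermediateField.adjoin K (Set.range v)) L :=
    Algebra.FormallyEtale.of_isSeparable _ L
  have h4 : Algebra.FormallyEtale (Algebra.adjoin K (Set.range v)) L :=
    .comp _ (IntermediateField.adjoin K (Set.range v)) _
  have he : ∀ a : Algebra.adjoin K (Set.range v),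
      MvPolynomial.aeval v (hv.1.aevalEquiv.symm a) = (a : L) := by
    intro a
    rw [← hv.1.algebraMap_aevalEquiv, AlgEquiv.apply_symm_apply]; rfl
  let δ : Derivation K (Algebra.adjoin K (Set.range v)) L := Derivation.mk'
    ((MvPolynomial.aeval v).toLinearMap ∘ₗ (MvPolynomial.pderiv j).toLinearMap ∘ₗ
      hv.1.aevalEquiv.symm.toLinearMap) (fun a b => by
      simp [Derivation.leibniz, he, Algebra.smul_def])
  refine ⟨((δ.liftKaehlerDifferential.liftBaseChange L) ∘ₗ
    (KaehlerDifferential.tensorKaehlerEquivOfFormallyEtale K (Algebra.adjoin K (Set.range v))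
      L).symm.toLinearMap).compDer (KaehlerDifferential.D K L), ?_⟩
  have e : v j = algebraMap (Algebra.adjoin K (Set.range v)) L
      (hv.1.aevalEquiv (MvPolynomial.X j)) := by
    rw [hv.1.algebraMap_aevalEquiv, MvPolynomial.aeval_X]
  have := KaehlerDifferential.tensorKaehlerEquivOfFormallyEtale_symm_D_algebraMap K
    (Algebra.adjoin K (Set.range v)) L (hv.1.aevalEquiv (MvPolynomial.X j))
  rw [← e] at this
  change (δ.liftKaehlerDifferential.liftBaseChange L)
    ((KaehlerDifferential.tensorKaehlerEquivOfFormallyEtale K (Algebra.adjoin K (Set.range v))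
      L).symm (KaehlerDifferential.D K L (v j))) = _
  rw [this, LinearMap.liftBaseChange_tmul, one_smul, Derivation.liftKaehlerDifferential_comp_D]
  change MvPolynomial.aeval v (MvPolynomial.pderiv j
    (hv.1.aevalEquiv.symm (hv.1.aevalEquiv (MvPolynomial.X j)))) = _
  rw [AlgEquiv.symm_apply_apply, MvPolynomial.pderiv_X, Pi.single_apply]
  simp

lemma exists_der_one {L : Type} [Field L] [Algebra ℂ L] {g : L}
    (hg : ∀ c : ℂ, g ≠ algebraMap ℂ L c) : ∃ D : Derivation ℂ L L, D g = 1 := by
  classical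
  have : CharZero L := charZero_of_injective_algebraMap (algebraMap ℂ L).injective
  have h1 : Transcendental ℂ g := fun h => by
    obtain ⟨c, hc⟩ := minpoly.mem_range_of_degree_eq_one ℂ g
      (IsAlgClosed.degree_eq_one_of_irreducible ℂ (minpoly.irreducible h.isIntegral))
    exact hg c hc.symm
  have h2 : AlgebraicIndependent ℂ fun _ : Unit => g := algebraicIndependent_unique_type_iff.2 h1
  obtain ⟨t, ht, hb⟩ := exists_isTranscendenceBasis_superset (R := ℂ) (s := Set.range _)
    h2.to_subtype_range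
  exact exists_der hb ⟨g, ht ⟨(), rfl⟩⟩

lemma chain {n : ℕ} {L : Type} [Field L] [Algebra ℂ L] (π : PR n →ₐ[ℂ] L) (D : Derivation ℂ L L)
    (P : PR n) : D (π P) = ∑ i, π (pderiv i P) * D (π (X i)) := by
  classical
  induction P using MvPolynomial.induction_on with
  | C a => simp [← algebraMap_eq]
  | add P Q hP hQ => simp [hP, hQ, add_mul, Finset.sum_add_distrib]
  | mul_X P j hP =>
    simp only [map_mul, Derivation.leibniz, smul_eq_mul, hP, map_add, add_mul,
      Finset.sum_add_distrib, pderiv_X, Finset.mul_sum, mul_assoc]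
    congr 1
    rw [Finset.sum_eq_single j (fun i _ hi => by simp [Pi.single_apply, hi.symm]) (by simp)]
    simp

lemma core {n : ℕ} {L : Type} [Field L] [Algebra ℂ L] (π : PR n →ₐ[ℂ] L)
    (hfr : ∀ x : L, ∃ a b, π b ≠ 0 ∧ x = π a / π b) (A B : PR n) (hB : π B ≠ 0)
    (hg : ∀ c : ℂ, π A / π B ≠ algebraMap ℂ L c) : ∃ V : Fin n → PR n,
    (∀ P, π P = 0 → π (∑ i, pderiv i P * V i) = 0) ∧
      π ((∑ i, pderiv i A * V i) * B - A * ∑ i, pderiv i B * V i) ≠ 0 := by
  classical
  obtain ⟨D, hD⟩ := exists_der_one hg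
  choose a b hb hab using fun i => hfr (D (π (X i)))
  have hq : π (∏ j, b j) ≠ 0 := by
    rw [map_prod]; exact Finset.prod_ne_zero_iff.2 fun j _ => hb j
  have key : ∀ P, π (∑ i, pderiv i P * (a i * ∏ j ∈ Finset.univ.erase i, b j)) =
      π (∏ j, b j) * D (π P) := by
    intro P
    rw [chain, map_sum, Finset.mul_sum]
    refine Finset.sum_congr rfl fun i _ => ?_
    rw [hab i, ← Finset.mul_prod_erase _ _ (Finset.mem_univ i), map_mul, map_mul, map_mul]
    field_simp [hb i]
  refine ⟨fun i => a i * ∏ j ∈ Finset.univ.erase i, b j, fun P hP => by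
    rw [key, hP, map_zero, mul_zero], fun h => ?_⟩
  rw [map_sub, map_mul, map_mul, key, key] at h
  have h1 : π B * D (π A) - π A * D (π B) = 0 :=
    (mul_eq_zero.1 (show π (∏ j, b j) * (π B * D (π A) - π A * D (π B)) = 0 by
      linear_combination h)).resolve_left hq
  rw [Derivation.leibniz_div, smul_eq_mul, smul_eq_mul, smul_eq_mul, h1, mul_zero] at hD
  exact zero_ne_one hD

end AlgB

open AlgB in
theorem sard : SardStmt := by
  classical
  intro n S A B hB hS
  let I : Ideal (PR n) := ⨅ y ∈ S, RingHom.ker (eval y)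
  have hI : ∀ P, P ∈ I ↔ ∀ y ∈ S, eval y P = 0 := fun P => by simp [I, RingHom.mem_ker]
  have hfin := Ideal.finite_minimalPrimes_of_isNoetherianRing (PR n) I
  have hrad : ∀ P, (∀ p ∈ I.minimalPrimes, P ∈ p) → P ∈ I := by
    intro P hP
    have h1 : P ∈ I.radical := by
      rw [← Ideal.sInf_minimalPrimes]; exact Ideal.mem_sInf.2 fun {p} hp => hP p hp
    obtain ⟨k, hk⟩ := h1
    refine (hI P).2 fun y hy => ?_
    have := (hI _).1 hk y hy
    rw [map_pow] at this
    exact pow_eq_zero_iff'.1 this |>.1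
  have key : ∀ p ∈ I.minimalPrimes, ∃ c : ℂ, ∀ y ∈ S, p ≤ RingHom.ker (eval y) →
      eval y A / eval y B = c := by
    intro p hp
    have hp1 : p.IsPrime := hp.1.1
    by_cases hBp : B ∈ p
    · exact ⟨0, fun y hy h => (hB y hy (h hBp)).elim⟩
    let π : PR n →ₐ[ℂ] FractionRing (PR n ⧸ p) :=
      (IsScalarTower.toAlgHom ℂ (PR n ⧸ p) _).comp (Ideal.Quotient.mkₐ ℂ p)
    have hπ : ∀ P, π P = 0 ↔ P ∈ p := fun P => by
      change algebraMap (PR n ⧸ p) (FractionRing (PR n ⧸ p)) (Ideal.Quotient.mk p P) = 0 ↔ _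
      rw [IsFractionRing.to_map_eq_zero_iff, Ideal.Quotient.eq_zero_iff_mem]
    have hB' : π B ≠ 0 := (hπ B).not.2 hBp
    by_contra hc
    have hg : ∀ c : ℂ, π A / π B ≠ algebraMap ℂ _ c := fun c h => hc ⟨c, fun y hy hle => by
      have h1 : A - C c * B ∈ p := (hπ _).1 (by
        rw [map_sub, map_mul, ← algebraMap_eq, AlgHom.commutes, ← h, div_mul_cancel₀ _ hB',
          sub_self])
      have h2 : eval y (A - C c * B) = 0 := hle h1
      rw [map_sub, map_mul, eval_C, sub_eq_zero] at h2
      rw [h2, mul_div_cancel_right₀ _ (hB y hy)]⟩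
    obtain ⟨V, hV, hW⟩ := core π (fun x => by
      obtain ⟨a, b, hb, rfl⟩ := IsFractionRing.div_surjective (A := PR n ⧸ p) x
      obtain ⟨a, rfl⟩ := Ideal.Quotient.mk_surjective a
      obtain ⟨b, rfl⟩ := Ideal.Quotient.mk_surjective b
      exact ⟨a, b, fun h => nonZeroDivisors.ne_zero hb
        (Ideal.Quotient.eq_zero_iff_mem.2 ((hπ b).1 h)), rfl⟩) A B hB' hg
    have h3 : ¬ (hfin.toFinset.erase p).inf id ≤ p := fun h => by
      obtain ⟨q, hq, hle⟩ := hp1.inf_le'.1 h
      rw [Finset.mem_erase, Set.Finite.mem_toFinset] at hq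
      exact hq.1 (le_antisymm hle (hp.2 hq.2.1 hle))
    obtain ⟨r, hr, hrp⟩ := SetLike.not_le_iff_exists.1 h3
    have hrI : ∀ P ∈ p, r * P ∈ I := fun P hP => hrad _ fun q hq => by
      by_cases h : q = p
      · exact h ▸ Ideal.mul_mem_left _ _ hP
      · exact Ideal.mul_mem_right _ _ ((Finset.inf_le (f := id)
          (Finset.mem_erase.2 ⟨h, hfin.mem_toFinset.2 hq⟩) : _ ≤ q) hr)
    refine (hp1.mem_or_mem (hp.1.2 ((hI (r * _)).2 fun y hy => ?_))).elim hrp
      ((hπ _).not.1 hW)
    by_cases hr0 : eval y r = 0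
    · rw [map_mul, hr0, zero_mul]
    have h4 := hS y hy (fun i => eval y (V i)) fun P hP => by
      have h5 := (hI _).1 (hrI _ ((hπ _).1 (hV P ((hπ P).2 (hp.1.2 ((hI P).2 hP)))))) y hy
      rw [map_mul, mul_eq_zero, or_iff_right hr0, map_sum] at h5
      simpa only [map_mul] using h5
    simp only [map_mul, map_sub, map_sum]
    rw [h4, sub_self, mul_zero]
  choose! c hc using key
  refine (hfin.image c).subset ?_
  rintro _ ⟨y, hy, rfl⟩
  have : (RingHom.ker (eval y : PR n →+* ℂ)).IsPrime := RingHom.ker_isPrime _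
  obtain ⟨p, hp, hle⟩ := Ideal.exists_minimalPrimes_le (I := I) (J := RingHom.ker (eval y))
    fun P hP => (hI P).1 hP y hy
  exact ⟨p, hp, (hc p hp y hy hle).symm⟩

end Pool.Agent.MP_c69980_ag.E1
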