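import Pool.Agent.MP_c69980_ag.E1.SpecC

/-!
Bounded rational functions take finitely many values; discs centred at a point stay in a chart.
-/

set_option autoImplicit false

noncomputable section

namespace Pool.Agent.MP_c69980_ag.E1

open MvPolynomial Metric Set Filter Topology
open H60 H4

namespace BFX

/-- The functions `1 / (f - c)` are linearly independent if `f` has infinitely many values. -/
lemma li {Z : Type} (f : Z → ℂ) (hf : (range f).Infinite) (T : Set ℂ)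
    (hT : ∀ c ∈ T, ∀ z, f z ≠ c) :
    LinearIndependent ℂ fun (c : T) (z : Z) => (f z - c)⁻¹ := by
  classical
  rw [linearIndependent_iff']
  intro s g hg c hc
  let p : Polynomial ℂ :=
    ∑ a ∈ s, Polynomial.C (g a) * ∏ b ∈ s.erase a, (Polynomial.X - Polynomial.C (b : ℂ))
  have hev : ∀ t : ℂ, p.eval t = ∑ a ∈ s, g a * ∏ b ∈ s.erase a, (t - b) := fun t => by
    simp only [p, Polynomial.eval_finsetSum, Polynomial.eval_mul, Polynomial.eval_C,
      Polynomial.eval_prod, Polynomial.eval_sub, Polynomial.eval_X]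
  have hp : p = 0 := by
    refine Polynomial.eq_zero_of_infinite_isRoot p (hf.mono ?_)
    rintro _ ⟨z, rfl⟩
    have h1 : ∑ a ∈ s, g a * (f z - a)⁻¹ = 0 := by
      simpa only [Finset.sum_apply, Pi.smul_apply, smul_eq_mul, Pi.zero_apply] using congrFun hg z
    have h2 : p.eval (f z) = (∏ b ∈ s, (f z - b)) * ∑ a ∈ s, g a * (f z - a)⁻¹ := by
      rw [hev, Finset.mul_sum]
      refine Finset.sum_congr rfl fun a ha => ?_
      have h3 : f z - a ≠ 0 := sub_ne_zero.2 (hT a a.2 z)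
      rw [← Finset.mul_prod_erase _ _ ha]
      field_simp
    rw [h1, mul_zero] at h2
    exact h2
  have h3 := hev c
  rw [hp, Polynomial.eval_zero, Finset.sum_eq_single c (fun a _ hac => by
    rw [Finset.prod_eq_zero (Finset.mem_erase.2 ⟨hac.symm, hc⟩) (sub_self _), mul_zero])
    (fun h => (h hc).elim)] at h3
  refine (mul_eq_zero.1 h3.symm).resolve_right (Finset.prod_ne_zero_iff.2 fun b hb => ?_)
  exact sub_ne_zero.2 fun h => (Finset.mem_erase.1 hb).1 (Subtype.ext h.symm)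

/-- Nullstellensatz: `1 / (A / B - c)` is regular if `c` is not a value. -/
lemma inv_reg {ι : Type} [Finite ι] (I : Set (MvPolynomial ι ℂ)) (A B : MvPolynomial ι ℂ) (c : ℂ)
    (h : ∀ v : ι → ℂ, (∀ P ∈ I, eval v P = 0) → eval v B ≠ 0 → eval v A / eval v B ≠ c) :
    ∃ (G : MvPolynomial ι ℂ) (N : ℕ), ∀ v : ι → ℂ, (∀ P ∈ I, eval v P = 0) → eval v B ≠ 0 →
      (eval v A / eval v B - c)⁻¹ = eval v G / eval v B ^ N := by
  have h1 : B ∈ (Ideal.span I ⊔ Ideal.span {A - C c * B}).radical := by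
    rw [← vanishingIdeal_zeroLocus_eq_radical (K := ℂ)]
    intro v hv
    by_contra hB
    have h2 : eval v (A - C c * B) = 0 :=
      hv _ (Ideal.mem_sup_right (Ideal.mem_span_singleton_self _))
    rw [map_sub, map_mul, eval_C, sub_eq_zero] at h2
    refine h v (fun P hP => hv P (Ideal.mem_sup_left (Ideal.subset_span hP))) hB ?_
    rw [h2]
    exact mul_div_cancel_right₀ _ hB
  obtain ⟨N, hN⟩ := h1
  obtain ⟨i, hi, j, hj, hij⟩ := Submodule.mem_sup.1 hN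
  obtain ⟨G, rfl⟩ := Ideal.mem_span_singleton'.1 hj
  refine ⟨G * B, N, fun v hv hB => ?_⟩
  have h3 : eval v i = 0 :=
    (Ideal.span_le.2 (fun P hP => hv P hP) : Ideal.span I ≤ RingHom.ker (eval v)) hi
  have h4 := congrArg (eval v) hij
  rw [map_add, h3, zero_add, map_mul, map_sub, map_mul, eval_C, map_pow] at h4
  refine inv_eq_of_mul_eq_one_right ?_
  have h5 : eval v B ^ N ≠ 0 := pow_ne_zero _ hB
  rw [map_mul]
  field_simp
  linear_combination h4

variable {n : ℕ} {W : Set (PS n)}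

lemma mk_smul {y : V n} (h : y ≠ 0) {c : ℂ} (h' : c • y ≠ 0) :
    Projectivization.mk ℂ (c • y) h' = Projectivization.mk ℂ y h :=
  (Projectivization.mk_eq_mk_iff' ℂ _ _ h' h).2 ⟨c, rfl⟩

lemma cone_lim (hW : IsZClosed W) {u : ℕ → V n} {y : V n} (hu : ∀ k, u k ∈ Cone W)
    (hl : Tendsto u atTop (𝓝 y)) (y0 : y ≠ 0) : y ∈ Cone W := by
  obtain ⟨S, hS, hW⟩ := hW
  have hm : ∀ P : PS n, P ∈ W ↔ ∀ F ∈ S, eval P.rep F = 0 := fun P => by rw [hW]; rfl
  refine ⟨y0, (hm _).2 fun F hF => ?_⟩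
  obtain ⟨d, hd⟩ := hS F hF
  refine (eval_mk hd y0).2 ?_
  have h0 : Continuous fun v : V n => eval v F := MvPolynomial.continuous_eval F
  have h1 : Tendsto (fun k => eval (u k) F) atTop (𝓝 (eval y F)) := (h0.tendsto y).comp hl
  have h2 : ∀ k, eval (u k) F = 0 := fun k => by
    obtain ⟨a, b⟩ := hu k
    exact (eval_mk hd a).1 ((hm _).1 b F hF)
  exact tendsto_nhds_unique (h1.congr h2) tendsto_const_nhds

open Classical in
/-- A chain of two discs. -/
lemma two {a b j : Fin n} {U : Set (ℂ × ℂ)} {Y : ℂ × ℂ → V n} (hY : WCh W a b j U Y)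
    {p p' : ℂ × ℂ} {r t : ℝ} (hr : ball p r ⊆ U) (t0 : 0 < t) (t1 : t < 1)
    (hp : (1 + t⁻¹) * ‖p - p'‖ < r) {f : ℂ → PS n} (hf : Holo (ball 0 1) f)
    (hm : MapsTo f (ball 0 1) W) {s : ℂ} (hs : ‖s‖ ≤ t) (h0 : Y p ≠ 0) (h1 : Y p' ≠ 0)
    (h2 : f s = Projectivization.mk ℂ (Y p') h1) :
    kob W (f 0) (Projectivization.mk ℂ (Y p) h0) ≤
      ENNReal.ofReal (Real.artanh t) + ENNReal.ofReal (Real.artanh t) := by
  have a2 : (t : ℂ) ≠ 0 := Complex.ofReal_ne_zero.2 t0.ne'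
  have n1 : ‖(t : ℂ)‖ = t := by simp [t0.le]
  let φ : ℂ → ℂ × ℂ := fun w => p' + (w / t) • (p - p')
  have hφ : ∀ w, AnalyticAt ℂ φ w := fun w =>
    analyticAt_const.add ((analyticAt_id.div analyticAt_const a2).smul analyticAt_const)
  have hU : ∀ w ∈ ball (0 : ℂ) 1, φ w ∈ U := fun w hw => hr (by
    have e : φ w - p = (w / t) • (p - p') - (p - p') := by simp only [φ]; abel
    have w1 : ‖w / t‖ ≤ t⁻¹ := by
      rw [norm_div, n1, div_eq_mul_inv]
      exact mul_le_of_le_one_left (inv_nonneg.2 t0.le) (mem_ball_zero_iff.1 hw).le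
    rw [mem_ball_iff_norm, e]
    refine (norm_sub_le _ _).trans_lt (lt_of_le_of_lt ?_ hp)
    rw [norm_smul]
    linarith [mul_le_mul_of_nonneg_right w1 (norm_nonneg (p - p'))])
  let g : ℂ → PS n := fun w => if h : Y (φ w) ≠ 0 then Projectivization.mk ℂ (Y (φ w)) h else f 0
  have hg : ∀ w ∈ ball (0 : ℂ) 1, ∃ h : Y (φ w) ≠ 0, g w = Projectivization.mk ℂ (Y (φ w)) h :=
    fun w hw => ⟨(hY.2.2 _ (hU w hw)).2.2.2.1.1, dif_pos _⟩
  have g0 : g 0 = f s := by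
    have e : φ 0 = p' := by simp [φ]
    rw [h2]
    simp only [g, e]
    exact dif_pos h1
  have g1 : g t = Projectivization.mk ℂ (Y p) h0 := by
    have e : φ t = p := by simp [φ, a2]
    simp only [g, e]
    exact dif_pos h0
  refine le_trans (sInf_le ⟨2, fun i => if i = 0 then f 0 else if i = 1 then f s else g t,
    fun i => if i = 0 then f else g, fun i => if i = 0 then s else t, rfl, g1, fun i hi => ?_,
    rfl⟩) ?_
  · interval_cases i
    · exact ⟨hf, hm, hs.trans_lt t1, rfl, rfl⟩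
    · refine ⟨fun w hw => ⟨fun w => Y (φ w), (hY.2.1 _ (hU w hw)).comp (hφ w),
        mem_of_superset (isOpen_ball.mem_nhds hw) hg⟩, fun w hw => ?_, n1.trans_lt t1, g0, rfl⟩
      obtain ⟨h, e⟩ := hg w hw
      show g w ∈ W
      rw [e]
      exact (hY.2.2 _ (hU w hw)).2.2.2.1.2
  · rw [Finset.sum_range_succ, Finset.sum_range_one]
    refine add_le_add (ENNReal.ofReal_le_ofReal (Real.artanh_le_artanh ?_ t1 hs))
      (le_of_eq (congrArg (fun x => ENNReal.ofReal (Real.artanh x)) n1))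
    exact neg_one_lt_zero.trans_le (norm_nonneg _)

end BFX

open BFX in
theorem bf : BFStmt := by
  intro ι _ I A B M hM
  by_contra hinf
  let Z := {v : ι → ℂ // (∀ P ∈ I, eval v P = 0) ∧ eval v B ≠ 0}
  let f : Z → ℂ := fun v => eval v.1 A / eval v.1 B
  have h1 : (range f).Infinite := fun h => hinf (h.subset fun c ⟨v, a, b, e⟩ => ⟨⟨v, a, b⟩, e⟩)
  have h2 : ∀ c ∈ {c : ℂ | M < ‖c‖}, ∀ v : ι → ℂ, (∀ P ∈ I, eval v P = 0) → eval v B ≠ 0 →
      eval v A / eval v B ≠ c := fun c hc v a b e => (hM v a b).not_gt (e ▸ hc)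
  have h3 := li f h1 {c : ℂ | M < ‖c‖} fun c hc z => h2 c hc z.1 z.2.1 z.2.2
  let w : (ι →₀ ℕ) × ℕ → Z → ℂ := fun q v => (q.1.prod fun i k => v.1 i ^ k) / eval v.1 B ^ q.2
  have h4 : ∀ (N : ℕ) (G : MvPolynomial ι ℂ),
      (fun v : Z => eval v.1 G / eval v.1 B ^ N) ∈ Submodule.span ℂ (range w) := fun N G => by
    induction G using MvPolynomial.induction_on' with
    | monomial u a =>
      have e : (fun v : Z => eval v.1 (monomial u a) / eval v.1 B ^ N) = a • w (u, N) :=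
        funext fun v => by rw [eval_monomial, mul_div_assoc]; rfl
      rw [e]
      exact Submodule.smul_mem _ _ (Submodule.subset_span ⟨_, rfl⟩)
    | add P Q hP hQ =>
      have e : (fun v : Z => eval v.1 (P + Q) / eval v.1 B ^ N) =
          (fun v : Z => eval v.1 P / eval v.1 B ^ N) + fun v : Z => eval v.1 Q / eval v.1 B ^ N :=
        funext fun v => by rw [map_add, add_div]; rfl
      rw [e]
      exact Submodule.add_mem _ hP hQ
  have h5 : ∀ c : {c : ℂ | M < ‖c‖},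
      (fun z : Z => (f z - c)⁻¹) ∈ Submodule.span ℂ (range w) := fun c => by
    obtain ⟨G, N, hG⟩ := inv_reg I A B c (h2 c c.2)
    have e : (fun z : Z => (f z - c)⁻¹) = fun v : Z => eval v.1 G / eval v.1 B ^ N :=
      funext fun v => hG v.1 v.2.1 v.2.2
    rw [e]
    exact h4 N G
  have h6 : LinearIndependent ℂ fun c : {c : ℂ | M < ‖c‖} =>
      (⟨_, h5 c⟩ : Submodule.span ℂ (range w)) :=
    LinearIndependent.of_comp (Submodule.span ℂ (range w)).subtype h3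
  have h7 : {c : ℂ | M < ‖c‖}.Countable := Cardinal.le_aleph0_iff_set_countable.1
    (h6.cardinal_le_rank.trans ((rank_span_le _).trans
      (Cardinal.le_aleph0_iff_set_countable.2 (countable_range w))))
  obtain ⟨c, hc, hc'⟩ := (h7.dense_compl ℂ).inter_open_nonempty {c : ℂ | M < ‖c‖}
    (isOpen_lt continuous_const continuous_norm) ⟨((|M| + 1 : ℝ) : ℂ), by
      show M < ‖((|M| + 1 : ℝ) : ℂ)‖
      rw [Complex.norm_real, Real.norm_eq_abs]
      exact (le_abs_self M).trans_lt ((lt_add_one _).trans_le (le_abs_self _))⟩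
  exact hc' hc

open BFX in
theorem kb : KBStmt := by
  intro n W x hW hC hk b hb
  by_contra hn
  have b0 : 0 < ‖x.rep b‖ := norm_pos_iff.2 hb
  have key : ∀ k : ℕ, ∃ (f : ℂ → PS n) (s : ℂ), Holo (ball 0 1) f ∧ MapsTo f (ball 0 1) W ∧
      f 0 = x ∧ ‖s‖ < 1 / ((k : ℝ) + 1) ∧ f s ∈ W ∧
      (‖x.rep‖ / ‖x.rep b‖ + 1) * ‖(f s).rep b‖ ≤ ‖(f s).rep‖ := fun k => by
    have k1 : 1 / ((k : ℝ) + 1) ≤ 1 := by
      rw [div_le_one (by positivity)]
      exact le_add_of_nonneg_left (Nat.cast_nonneg k)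
    by_contra h
    refine hn ⟨1 / ((k : ℝ) + 1), ‖x.rep‖ / ‖x.rep b‖ + 1, by positivity, k1,
      fun f f1 f2 f3 s hs a => le_of_not_gt fun q => h ⟨f, s, f1, f2, f3, mem_ball_zero_iff.1 hs,
        f2 (ball_subset_ball k1 hs), q.le.trans (norm_le_pi_norm _ a)⟩⟩
  choose f s f1 f2 f3 f4 f5 f6 using key
  have r0 : ∀ k, 0 < ‖(f k (s k)).rep‖ := fun k => norm_pos_iff.2 (f k (s k)).rep_nonzero
  let u : ℕ → V n := fun k => ((‖(f k (s k)).rep‖⁻¹ : ℝ) : ℂ) • (f k (s k)).rep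
  have un : ∀ k, ‖((‖(f k (s k)).rep‖⁻¹ : ℝ) : ℂ)‖ = ‖(f k (s k)).rep‖⁻¹ := fun k => by
    rw [Complex.norm_real, Real.norm_eq_abs, abs_of_pos (inv_pos.2 (r0 k))]
  have u1 : ∀ k, u k ∈ sphere (0 : V n) 1 := fun k => by
    rw [mem_sphere_zero_iff_norm, norm_smul, un, inv_mul_cancel₀ (r0 k).ne']
  have u0 : ∀ k, u k ≠ 0 := fun k => ne_zero_of_mem_unit_sphere ⟨_, u1 k⟩
  have u2 : ∀ k, Projectivization.mk ℂ (u k) (u0 k) = f k (s k) := fun k =>
    (mk_smul (f k (s k)).rep_nonzero (u0 k)).trans (Projectivization.mk_rep _)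
  have u3 : ∀ k, (‖x.rep‖ / ‖x.rep b‖ + 1) * ‖u k b‖ ≤ 1 := fun k => by
    have e : ‖u k b‖ = ‖(f k (s k)).rep‖⁻¹ * ‖(f k (s k)).rep b‖ := by
      rw [← un, ← norm_mul]; rfl
    rw [e, mul_left_comm, inv_mul_le_iff₀ (r0 k), mul_one]
    exact f6 k
  obtain ⟨y, y1, φ, hφ, hl⟩ := (isCompact_sphere (0 : V n) 1).tendsto_subseq u1
  have y0 : y ≠ 0 := ne_zero_of_mem_unit_sphere ⟨_, y1⟩
  have uc : ∀ k, u k ∈ Cone W := fun k => ⟨u0 k, (u2 k).symm ▸ f5 k⟩
  have yc : y ∈ Cone W := cone_lim hW (fun k => uc (φ k)) hl y0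
  have y3 : (‖x.rep‖ / ‖x.rep b‖ + 1) * ‖y b‖ ≤ 1 :=
    le_of_tendsto' ((((continuous_apply b).tendsto y).comp hl).norm.const_mul _) fun k => u3 (φ k)
  have hne : x ≠ Projectivization.mk ℂ y y0 := fun e => by
    obtain ⟨t, t0, ht⟩ := rep_mk y0
    rw [← e] at ht
    have e1 : ‖x.rep‖ = ‖t‖ := by rw [ht, norm_smul, mem_sphere_zero_iff_norm.1 y1, mul_one]
    have e2 : ‖x.rep b‖ = ‖t‖ * ‖y b‖ := by rw [ht, ← norm_mul]; rfl
    have t1 : 0 < ‖t‖ := norm_pos_iff.2 t0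
    have y4 : 0 < ‖y b‖ := (mul_pos_iff_of_pos_left t1).1 (b0.trans_eq e2)
    rw [e1, e2, add_mul, one_mul] at y3
    have e3 : ‖t‖ / (‖t‖ * ‖y b‖) * ‖y b‖ = 1 := by field_simp
    linarith
  obtain ⟨a', b', j, U, Y, hY, p, hp, c, c0, hc⟩ := hC y yc
  obtain ⟨p1, p2, p3, p4, p5⟩ := hY.2.2 p hp
  have hq : Projectivization.mk ℂ y y0 = Projectivization.mk ℂ (Y p) p4.1 := by
    subst hc
    exact mk_smul p4.1 y0
  obtain ⟨ρ, -, r1, r2⟩ := ENNReal.lt_iff_exists_real_btwn.1 (hk _ yc.2 hne)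
  have ρ0 := half_pos (ENNReal.ofReal_pos.1 r1)
  have t0 : 0 < Real.tanh (ρ / 2) := by
    rw [Real.tanh_eq_sinh_div_cosh]
    exact div_pos (Real.sinh_pos_iff.2 ρ0) (Real.cosh_pos _)
  obtain ⟨r, hr0, hr⟩ := Metric.isOpen_iff.1 hY.1 p hp
  have z1 : Tendsto (fun k => c⁻¹ • u (φ k)) atTop (𝓝 (Y p)) := by
    have := hl.const_smul c⁻¹
    rwa [hc, inv_smul_smul₀ c0] at this
  have z2 : ∀ i, Tendsto (fun k => (c⁻¹ • u (φ k)) i / (c⁻¹ • u (φ k)) j) atTop (𝓝 (Y p i)) :=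
    fun i => by
    have := (((continuous_apply i).tendsto _).comp z1).div
      (((continuous_apply j).tendsto _).comp z1) (p1.trans_ne one_ne_zero)
    rwa [p1, div_one] at this
  have z3 : Tendsto (fun k => ((c⁻¹ • u (φ k)) a' / (c⁻¹ • u (φ k)) j,
      (c⁻¹ • u (φ k)) b' / (c⁻¹ • u (φ k)) j)) atTop (𝓝 p) := by
    have := (z2 a').prodMk_nhds (z2 b')
    rwa [p2, p3] at this
  have z4 := ((tendsto_const_nhds (x := p)).sub z3).norm.const_mul (1 + (Real.tanh (ρ / 2))⁻¹)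
  rw [sub_self, norm_zero, mul_zero] at z4
  have z5 : Tendsto (fun k => 1 / ((φ k : ℝ) + 1)) atTop (𝓝 0) :=
    tendsto_one_div_add_atTop_nhds_zero_nat.comp hφ.tendsto_atTop
  obtain ⟨k, ⟨k1, k2⟩, k3⟩ := (((z1.eventually p5).and (z4.eventually (gt_mem_nhds hr0))).and
    (z5.eventually (gt_mem_nhds t0))).exists
  have k0 : c⁻¹ • u (φ k) ≠ 0 := smul_ne_zero (inv_ne_zero c0) (u0 _)
  have k4 := (mk_smul (u0 (φ k)) k0).trans (u2 _)
  have k5 := k1 ⟨k0, k4.symm ▸ f5 _⟩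
  have k6 := right_ne_zero_of_smul (k5 ▸ k0)
  have k7 := two hY hr t0 (Real.tanh_lt_one _) k2 (f1 (φ k)) (f2 (φ k)) ((f4 _).le.trans k3.le)
    p4.1 k6 (k4.symm.trans ((Projectivization.mk_eq_mk_iff' ℂ _ _ k0 k6).2 ⟨_, k5.symm⟩))
  rw [f3, ← hq, Real.artanh_tanh, ← ENNReal.ofReal_add ρ0.le ρ0.le, add_halves] at k7
  exact r2.not_ge k7

end Pool.Agent.MP_c69980_ag.E1
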