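import Pool.Agent.MP_c69980_ag.E1.BarA

/-!
Extension over a puncture of maps whose coordinates are algebraic over the meromorphic germs.
-/

set_option autoImplicit false

noncomputable section

namespace Pool.Agent.MP_c69980_ag.E1

open Metric Filter Topology MeasureTheory Set
open scoped ComplexConjugate
open H60 H4

namespace Bar

theorem punct (c : ℂ) (r : ℝ) : IsPreconnected (ball c r \ {c}) := by
  have h : ball c r \ {c} = (fun p : ℝ × ℝ => c + (p.1 : ℂ) * Complex.exp (p.2 * Complex.I)) ''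
      (Ioo 0 r ×ˢ univ) := by
    ext z
    constructor
    · rintro ⟨h1, h2⟩
      refine ⟨(‖z - c‖, Complex.arg (z - c)), ⟨⟨norm_pos_iff.mpr (sub_ne_zero.mpr h2), ?_⟩,
        mem_univ _⟩, ?_⟩
      · rwa [mem_ball, dist_eq_norm] at h1
      · dsimp only
        rw [Complex.norm_mul_exp_arg_mul_I]; ring
    · rintro ⟨p, ⟨⟨h1, h2⟩, -⟩, rfl⟩
      have h3 : ‖c + (p.1 : ℂ) * Complex.exp (p.2 * Complex.I) - c‖ = p.1 := by
        rw [add_sub_cancel_left, norm_mul, Complex.norm_exp_ofReal_mul_I, mul_one,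
          Complex.norm_real, Real.norm_of_nonneg h1.le]
      refine ⟨by rwa [mem_ball, dist_eq_norm, h3], fun h => ?_⟩
      rw [mem_singleton_iff] at h
      dsimp only at h
      rw [h, sub_self, norm_zero] at h3
      exact h1.ne h3
  rw [h]
  exact (isPreconnected_Ioo.prod isPreconnected_univ).image _ (by fun_prop)

variable {n : ℕ}

theorem pp_zero {x y : V n} (h : Pp x y) (j : Fin n) : x j = 0 ↔ y j = 0 := by
  obtain ⟨a, ha, rfl⟩ := h
  simp [ha]

theorem pp_div {x y : V n} (h : Pp x y) (b j : Fin n) : x b / x j = y b / y j := by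
  obtain ⟨a, ha, rfl⟩ := h
  simp only [Pi.smul_apply, smul_eq_mul]
  exact mul_div_mul_left _ _ ha

theorem isol {O : Set ℂ} (hO : IsPreconnected O) {g : ℂ → V n} {j : Fin n} (hg : LH O g)
    (h1 : ∃ t ∈ O, g t j ≠ 0) : ∀ t ∈ O, ∀ᶠ w in 𝓝[≠] t, g w j ≠ 0 := by
  have hU : IsOpen {t | ∀ᶠ w in 𝓝 t, g w j = 0} := isOpen_setOfPred_eventually_nhds
  have hV : IsOpen {t | ∀ᶠ w in 𝓝[≠] t, g w j ≠ 0} := isOpen_setOfPred_eventually_nhdsWithin
  have hd : Disjoint {t | ∀ᶠ w in 𝓝[≠] t, g w j ≠ 0} {t | ∀ᶠ w in 𝓝 t, g w j = 0} := by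
    rw [Set.disjoint_left]
    intro t h2 h3
    have h2' : ∀ᶠ w in 𝓝[≠] t, g w j ≠ 0 := h2
    have h3' : ∀ᶠ w in 𝓝[≠] t, g w j = 0 := nhdsWithin_le_nhds h3
    obtain ⟨w, h4, h5⟩ := (h2'.and h3').exists
    exact h4 h5
  have hs : O ⊆ {t | ∀ᶠ w in 𝓝[≠] t, g w j ≠ 0} ∪ {t | ∀ᶠ w in 𝓝 t, g w j = 0} := by
    intro t ht
    obtain ⟨G, r, hr, hG, hp⟩ := hg t ht
    have ha : AnalyticAt ℂ (fun w => G w j) t :=
      ((differentiableOn_pi.mp hG.1) j).analyticAt (ball_mem_nhds t hr)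
    rcases ha.eventually_eq_zero_or_eventually_ne_zero with h | h
    · right
      filter_upwards [h, ball_mem_nhds t hr] with w h2 h3
      exact (pp_zero (hp w h3) j).mpr h2
    · left
      filter_upwards [h, nhdsWithin_le_nhds (ball_mem_nhds t hr)] with w h2 h3
      exact fun h4 => h2 ((pp_zero (hp w h3) j).mp h4)
  obtain ⟨t, ht, h2⟩ := h1
  refine hO.subset_left_of_subset_union hV hU hd hs ⟨t, ht, ?_⟩
  rcases hs ht with h | h
  · exact h
  · exact absurd (Eventually.self_of_nhds h) h2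

theorem root {d : ℕ} {B : ℕ → ℂ} {X : ℂ} {K : ℝ} (hB : ∀ i ∈ Finset.range (d + 1), ‖B i‖ ≤ K)
    (h : ∑ i ∈ Finset.range (d + 1), B i * X ^ i = 0) : ‖B d * X‖ ≤ (d + 1) * K := by
  have hd := hB d (Finset.self_mem_range_succ d)
  have hK : 0 ≤ K := (norm_nonneg _).trans hd
  have hd0 : (0 : ℝ) ≤ d := Nat.cast_nonneg d
  rcases le_or_gt ‖X‖ 1 with h1 | h1
  · rw [norm_mul]
    nlinarith [norm_nonneg (B d), norm_nonneg X]
  · rw [Finset.sum_range_succ] at h
    have h2 : B d * X ^ d * X = -∑ i ∈ Finset.range d, B i * X ^ i * X := by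
      rw [← Finset.sum_mul, ← neg_mul]
      congr 1
      linear_combination h
    have h3 : ‖B d * X ^ d * X‖ ≤ d * (K * ‖X‖ ^ d) := by
      rw [h2, norm_neg]
      refine (norm_sum_le _ _).trans ?_
      refine (Finset.sum_le_card_nsmul _ _ (K * ‖X‖ ^ d) fun i hi => ?_).trans (by simp)
      have hi' := Finset.mem_range.mp hi
      rw [mul_assoc, ← pow_succ, norm_mul, norm_pow]
      exact mul_le_mul (hB i (Finset.mem_range.mpr (by omega)))
        (pow_le_pow_right₀ h1.le (by omega)) (by positivity) hK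
    have h4 : 0 < ‖X‖ ^ d := by positivity
    have h5 : ‖B d * X ^ d * X‖ = ‖B d * X‖ * ‖X‖ ^ d := by
      rw [← norm_pow, ← norm_mul]; congr 1; ring
    rw [h5, ← mul_assoc] at h3
    have := le_of_mul_le_mul_right h3 h4
    nlinarith

theorem bound {c : ℂ} {d : ℕ} {A : ℕ → ℂ → ℂ} {X : ℂ → ℂ} {p : ℂ → Prop}
    (hA : ∀ i, MeromorphicAt (A i) c) (hd : ∀ᶠ t in 𝓝[≠] c, A d t ≠ 0)
    (h : ∀ᶠ t in 𝓝[≠] c, p t → ∑ i ∈ Finset.range (d + 1), A i t * X t ^ i = 0) :
    ∃ (β : ℂ → ℂ) (K : ℝ), AnalyticAt ℂ β c ∧ (∀ᶠ t in 𝓝[≠] c, β t ≠ 0) ∧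
      ∀ᶠ t in 𝓝[≠] c, p t → ‖β t * X t‖ ≤ K := by
  choose m hm using hA
  set N := ∑ i ∈ Finset.range (d + 1), m i with hN
  have hB : ∀ i ∈ Finset.range (d + 1), AnalyticAt ℂ (fun z => (z - c) ^ N * A i z) c := by
    intro i hi
    have h1 : m i ≤ N := Finset.single_le_sum (f := m) (fun _ _ => Nat.zero_le _) hi
    have h2 : (fun z => (z - c) ^ N * A i z) =
        fun z => (z - c) ^ (N - m i) * ((z - c) ^ m i • A i z) := by
      funext z
      rw [smul_eq_mul, ← mul_assoc, ← pow_add, Nat.sub_add_cancel h1]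
    rw [h2]
    exact ((analyticAt_id.sub analyticAt_const).pow _).mul (hm i)
  set K := ∑ i ∈ Finset.range (d + 1), (‖(c - c) ^ N * A i c‖ + 1) with hK
  have hb : ∀ᶠ z in 𝓝 c, ∀ i ∈ Finset.range (d + 1), ‖(z - c) ^ N * A i z‖ ≤ K := by
    rw [eventually_all_finset]
    intro i hi
    have h1 : ‖(c - c) ^ N * A i c‖ + 1 ≤ K :=
      Finset.single_le_sum (f := fun i => ‖(c - c) ^ N * A i c‖ + 1)
        (fun _ _ => by positivity) hi
    exact (hB i hi).continuousAt.norm.eventually_le_const (by linarith)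
  refine ⟨fun z => (z - c) ^ N * A d z, (d + 1) * K, hB d (Finset.self_mem_range_succ d), ?_, ?_⟩
  · filter_upwards [hd, self_mem_nhdsWithin] with t h1 h2
    exact mul_ne_zero (pow_ne_zero _ (sub_ne_zero.mpr h2)) h1
  · filter_upwards [h, nhdsWithin_le_nhds hb] with t h1 h2 h3
    refine root (B := fun i => (t - c) ^ N * A i t) h2 ?_
    simp only [mul_assoc]
    rw [← Finset.mul_sum, h1 h3, mul_zero]

theorem mer_of_bdd {c : ℂ} {F : ℂ → ℂ} {K : ℝ} (hd : ∀ᶠ t in 𝓝[≠] c, DifferentiableAt ℂ F t)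
    (hb : ∀ᶠ t in 𝓝[≠] c, ‖F t‖ ≤ K) : MeromorphicAt F c := by
  have h1 : Tendsto F (𝓝[≠] c) (𝓝 (limUnder (𝓝[≠] c) F)) := by
    refine Complex.tendsto_limUnder_of_differentiable_on_punctured_nhds_of_bounded_under hd
      ⟨K + ‖F c‖, eventually_map.mpr ?_⟩
    filter_upwards [hb] with t ht
    exact norm_sub_le_of_le ht le_rfl
  have he : Function.update F c (limUnder (𝓝[≠] c) F) =ᶠ[𝓝[≠] c] F := by
    filter_upwards [self_mem_nhdsWithin] with t ht
    exact Function.update_of_ne ht _ _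
  have h2 : AnalyticAt ℂ (Function.update F c (limUnder (𝓝[≠] c) F)) c := by
    refine Complex.analyticAt_of_differentiable_on_punctured_nhds_of_continuousAt ?_
      (continuousAt_update_same.mpr h1)
    filter_upwards [hd, self_mem_nhdsWithin] with t h3 h4
    refine h3.congr_of_eventuallyEq ?_
    filter_upwards [isOpen_ne.mem_nhds h4] with w hw
    exact Function.update_of_ne hw _ _
  exact h2.meromorphicAt.congr he

end Bar

theorem mer : MerStmt := by
  intro n c r g j hr hg h1 hA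
  have hiso := Bar.isol (Bar.punct c r) hg h1
  have hO : ∀ᶠ t in 𝓝[≠] c, t ∈ ball c r \ {c} := by
    filter_upwards [nhdsWithin_le_nhds (ball_mem_nhds c hr), self_mem_nhdsWithin] with t h2 h3
    exact ⟨h2, h3⟩
  have hβ : ∀ b, ∃ (β : ℂ → ℂ) (K : ℝ), AnalyticAt ℂ β c ∧ (∀ᶠ t in 𝓝[≠] c, β t ≠ 0) ∧
      ∀ᶠ t in 𝓝[≠] c, g t j ≠ 0 → ‖β t * (g t b / g t j)‖ ≤ K := by
    intro b
    obtain ⟨d, A, h2, h3, h4⟩ := hA b
    exact Bar.bound (X := fun t => g t b / g t j) h2 h3 h4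
  choose β K hβa hβn hβb using hβ
  have hne : ∀ᶠ t in 𝓝[≠] c, g t j ≠ 0 := by
    have e1 : ∀ᶠ t in 𝓝[≠] c, ∀ b, AnalyticAt ℂ (β b) t :=
      eventually_all.mpr fun b => nhdsWithin_le_nhds (hβa b).eventually_analyticAt
    have e2 : ∀ᶠ t in 𝓝[≠] c, ∀ b, β b t ≠ 0 := eventually_all.mpr hβn
    have e3 : ∀ᶠ t in 𝓝[≠] c, ∀ b, ∀ᶠ w in 𝓝[{c}ᶜ] t,
        g w j ≠ 0 → ‖β b w * (g w b / g w j)‖ ≤ K b :=
      eventually_all.mpr fun b => eventually_eventually_nhdsWithin.mpr (hβb b)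
    filter_upwards [e1, e2, e3, hO] with t h2 h3 h4 h5 h0
    obtain ⟨G, ρ, hρ, hG, hp⟩ := hg t h5
    obtain ⟨b, hb⟩ := Function.ne_iff.mp (hG.2 t (mem_ball_self hρ))
    have hGc : ∀ i, ContinuousAt (fun w => G w i) t := fun i =>
      (((differentiableOn_pi.mp hG.1) i).differentiableAt (ball_mem_nhds t hρ)).continuousAt
    have h6 := h4 b
    rw [(isOpen_compl_singleton (x := c)).nhdsWithin_eq h5.2] at h6
    have h7 : ∀ᶠ w in 𝓝[≠] t, ‖β b w * G w b‖ ≤ K b * ‖G w j‖ := by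
      filter_upwards [hiso t h5, nhdsWithin_le_nhds h6, nhdsWithin_le_nhds (ball_mem_nhds t hρ)]
        with w h8 h9 h10
      have h11 := h9 h8
      have h12 : G w j ≠ 0 := fun h => h8 ((Bar.pp_zero (hp w h10) j).mpr h)
      rwa [Bar.pp_div (hp w h10), ← mul_div_assoc, norm_div,
        div_le_iff₀ (norm_pos_iff.mpr h12)] at h11
    have h13 : ‖β b t * G t b‖ ≤ K b * ‖G t j‖ :=
      le_of_tendsto_of_tendsto
        (((h2 b).continuousAt.mul (hGc b)).norm.tendsto.mono_left nhdsWithin_le_nhds)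
        ((continuousAt_const.mul (hGc j).norm).tendsto.mono_left nhdsWithin_le_nhds) h7
    rw [(Bar.pp_zero (hp t (mem_ball_self hρ)) j).mp h0, norm_zero, mul_zero,
      norm_le_zero_iff] at h13
    exact mul_ne_zero (h3 b) hb h13
  have hX : ∀ b, MeromorphicAt (fun t => g t b / g t j) c := by
    intro b
    have hd : ∀ᶠ t in 𝓝[≠] c, DifferentiableAt ℂ (fun t => β b t * (g t b / g t j)) t := by
      filter_upwards [nhdsWithin_le_nhds (hβa b).eventually_analyticAt, hne, hO] with t h2 h3 h5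
      obtain ⟨G, ρ, hρ, hG, hp⟩ := hg t h5
      have hGd : ∀ i, DifferentiableAt ℂ (fun w => G w i) t := fun i =>
        ((differentiableOn_pi.mp hG.1) i).differentiableAt (ball_mem_nhds t hρ)
      have h12 : G t j ≠ 0 := fun h => h3 ((Bar.pp_zero (hp t (mem_ball_self hρ)) j).mpr h)
      refine h2.differentiableAt.mul (((hGd b).div (hGd j) h12).congr_of_eventuallyEq ?_)
      filter_upwards [ball_mem_nhds t hρ] with w hw
      exact Bar.pp_div (hp w hw) b j
    have hb : ∀ᶠ t in 𝓝[≠] c, ‖β b t * (g t b / g t j)‖ ≤ K b := by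
      filter_upwards [hβb b, hne] with t h2 h3 using h2 h3
    refine ((Bar.mer_of_bdd hd hb).div (hβa b).meromorphicAt).congr ?_
    filter_upwards [hβn b] with t ht
    simp only [Pi.div_apply]
    exact mul_div_cancel_left₀ _ ht
  set X : ℂ → V n := fun t => ∑ b, (g t b / g t j) • (Pi.single b 1 : V n) with hXd
  have hXa : ∀ t b, X t b = g t b / g t j := by
    intro t b
    simp [hXd, Finset.sum_apply, Pi.single_apply]
  have hXm : MeromorphicAt X c :=
    MeromorphicAt.fun_sum fun b _ => (hX b).smul (MeromorphicAt.const _ c)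
  have ho : meromorphicOrderAt X c ≠ ⊤ := by
    rw [meromorphicOrderAt_ne_top_iff_eventually_ne_zero hXm]
    filter_upwards [hne] with t ht h0
    have := hXa t j
    rw [h0, div_self ht] at this
    exact zero_ne_one this
  obtain ⟨g', h2, h3, h4⟩ := (meromorphicOrderAt_ne_top_iff hXm).mp ho
  refine ⟨g', h2, h3, ?_⟩
  filter_upwards [h4, hne, self_mem_nhdsWithin] with t h5 h6 h7
  refine ⟨g t j * (t - c) ^ (meromorphicOrderAt X c).untop₀,
    mul_ne_zero h6 (zpow_ne_zero _ (sub_ne_zero.mpr h7)), ?_⟩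
  rw [mul_smul, ← h5]
  funext b
  rw [Pi.smul_apply, hXa, smul_eq_mul, mul_div_cancel₀ _ h6]

end Pool.Agent.MP_c69980_ag.E1
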