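import Pool.Agent.MP_c69980_ag.E1.SpecB

/-!
The barrier argument on half-planes.
-/

set_option autoImplicit false

noncomputable section

namespace Pool.Agent.MP_c69980_ag.E1

open Metric Filter Topology MeasureTheory Set
open scoped ComplexConjugate

namespace Bar

theorem odd_int (t e : ℂ) (ρ : ℝ) : ∫ w in ball t ρ, ((w - t) * conj e).re = 0 := by
  rw [← integral_indicator measurableSet_ball]
  set f : ℂ → ℝ := (ball t ρ).indicator fun w => ((w - t) * conj e).re with hf
  have h1 : ∫ w, f (2 * t - w) = ∫ w, f w := integral_sub_left_eq_self f volume (2 * t)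
  have h2 : ∀ w, f (2 * t - w) = -f w := by
    intro w
    have h3 : 2 * t - w - t = -(w - t) := by ring
    have h4 : (2 * t - w ∈ ball t ρ) ↔ w ∈ ball t ρ := by
      rw [mem_ball, mem_ball, dist_eq_norm, dist_eq_norm, h3, norm_neg]
    by_cases hw : w ∈ ball t ρ
    · rw [hf, indicator_of_mem hw, indicator_of_mem (h4.mpr hw), h3, neg_mul, Complex.neg_re]
    · rw [hf, indicator_of_notMem hw, indicator_of_notMem (fun h => hw (h4.mp h)), neg_zero]
  simp only [h2, integral_neg] at h1
  linarith

theorem vol_ball (t : ℂ) {ρ : ℝ} (h : 0 < ρ) : volume.real (ball t ρ) = Real.pi * ρ ^ 2 := by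
  rw [Measure.real, Complex.volume_ball, ENNReal.toReal_mul, ENNReal.toReal_pow,
    ENNReal.toReal_ofReal h.le, ENNReal.coe_toReal, NNReal.coe_real_pi, mul_comm]

theorem re_le {e : ℂ} (he : ‖e‖ = 1) (z : ℂ) : |(z * conj e).re| ≤ ‖z‖ := by
  have := Complex.abs_re_le_norm (z * conj e)
  rwa [norm_mul, Complex.norm_conj, he, mul_one] at this

theorem mean {u : ℂ → ℝ} {t e : ℂ} {ρ α β v : ℝ} (hρ : 0 < ρ) (hi : IntegrableOn u (ball t ρ))
    (hb : ∀ᵐ w, w ∈ ball t ρ → u w ≤ α + β * ((w - t) * conj e).re)
    (hv : Real.pi * ρ ^ 2 * v ≤ ∫ w in ball t ρ, u w) : v ≤ α := by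
  have hc : Continuous fun w : ℂ => β * ((w - t) * conj e).re := by fun_prop
  have i1 : IntegrableOn (fun w : ℂ => β * ((w - t) * conj e).re) (ball t ρ) :=
    (hc.continuousOn.integrableOn_compact (isCompact_closedBall t ρ)).mono_set
      ball_subset_closedBall
  have i0 : IntegrableOn (fun _ : ℂ => α) (ball t ρ) :=
    integrableOn_const measure_ball_lt_top.ne
  have h1 : ∫ w in ball t ρ, u w ≤ ∫ w in ball t ρ, (α + β * ((w - t) * conj e).re) :=
    setIntegral_mono_on_ae hi (i0.add i1) measurableSet_ball hb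
  rw [integral_add i0 i1, integral_const_mul, odd_int, setIntegral_const, vol_ball t hρ,
    smul_eq_mul, mul_zero, add_zero] at h1
  exact le_of_mul_le_mul_left (hv.trans h1) (by positivity)

end Bar

theorem bar : BarStmt := by
  intro u Z e y₀ ρ c C he hρ hc hC hm t₀ ht₀
  by_contra hlt
  rw [not_le] at hlt
  set y : ℂ → ℝ := fun t => (t * conj e).re - y₀ with hy
  set κ : ℝ := c / (2 * ρ ^ 2) with hκ
  have hκ0 : 0 < κ := by positivity
  have hκρ : κ * ρ ^ 2 = c / 2 := by rw [hκ]; field_simp
  have key : ∀ Y : ℝ, 0 < Y → ∀ t ∈ Z, 0 < y t → y t < Y →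
      u t + κ * (y t * (Y - y t)) ≤ C + κ * (ρ * Y) := by
    intro Y hY
    have step : ∀ k : ℕ, ∀ t ∈ Z, 0 < y t → y t < Y →
        u t + κ * (y t * (Y - y t)) ≤ max (C + κ * Y ^ 2 - k * (c / 2)) (C + κ * (ρ * Y)) := by
      intro k
      induction k with
      | zero =>
        intro t ht h0 h1
        have h2 := hC t ht (by simp only [hy] at h0; linarith)
        have h3 : y t * (Y - y t) ≤ Y ^ 2 := by nlinarith
        have h4 := mul_le_mul_of_nonneg_left h3 hκ0.le
        refine le_trans ?_ (le_max_left _ _)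
        simp only [Nat.cast_zero, zero_mul, sub_zero]
        linarith
      | succ k ih =>
        intro t ht h0 h1
        have h2 := hC t ht (by simp only [hy] at h0; linarith)
        by_cases ha : ρ ≤ y t ∧ y t ≤ Y - ρ
        · set M := max (C + κ * Y ^ 2 - k * (c / 2)) (C + κ * (ρ * Y)) with hM
          obtain ⟨hz, hi, hv⟩ := hm t ht (by have := ha.1; simp only [hy] at this; linarith)
          have hb : ∀ᵐ w, w ∈ ball t ρ → u w ≤ (M - κ * (y t * (Y - y t)) + c / 2) +
              (-(κ * (Y - 2 * y t))) * ((w - t) * conj e).re := by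
            filter_upwards [hz] with w hw hwb
            set s := ((w - t) * conj e).re with hs
            have hs1 : |s| < ρ := (Bar.re_le he _).trans_lt (by rwa [mem_ball, dist_eq_norm] at hwb)
            have hyw : y w = y t + s := by
              simp only [hy, hs, sub_mul, Complex.sub_re]; ring
            have hs2 := abs_lt.mp hs1
            have h5 := ih w (hw hwb) (by linarith [ha.1]) (by linarith [ha.2])
            have h6 : s ^ 2 ≤ ρ ^ 2 := by nlinarith
            have h7 := mul_le_mul_of_nonneg_left h6 hκ0.le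
            rw [hyw] at h5
            nlinarith
          have h8 := Bar.mean hρ hi hb hv
          have h9 : M - c / 2 ≤
              max (C + κ * Y ^ 2 - ((k + 1 : ℕ) : ℝ) * (c / 2)) (C + κ * (ρ * Y)) := by
            rcases le_total (C + κ * Y ^ 2 - k * (c / 2)) (C + κ * (ρ * Y)) with h | h
            · rw [hM, max_eq_right h]
              exact le_trans (by linarith) (le_max_right _ _)
            · rw [hM, max_eq_left h]
              refine le_trans ?_ (le_max_left _ _)
              push_cast
              linarith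
          linarith
        · refine le_trans ?_ (le_max_right _ _)
          have h3 : y t * (Y - y t) ≤ ρ * Y := by
            rw [not_and_or, not_le, not_le] at ha
            rcases ha with ha | ha <;> nlinarith
          have h4 := mul_le_mul_of_nonneg_left h3 hκ0.le
          linarith
    intro t ht h0 h1
    obtain ⟨k, hk⟩ := exists_nat_ge (κ * Y ^ 2 / (c / 2))
    rw [div_le_iff₀ (by positivity)] at hk
    have h5 : 0 ≤ κ * (ρ * Y) := by positivity
    have := step k t ht h0 h1
    rwa [max_eq_right (by linarith)] at this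
  have hy0 : ρ < y t₀ := by simp only [hy]; linarith
  have hd : 0 < κ * (y t₀ - ρ) := mul_pos hκ0 (by linarith)
  obtain ⟨Y, hY1, hY2⟩ : ∃ Y : ℝ, y t₀ < Y ∧
      (C - u t₀ + κ * y t₀ ^ 2) / (κ * (y t₀ - ρ)) < Y :=
    ⟨max (y t₀) ((C - u t₀ + κ * y t₀ ^ 2) / (κ * (y t₀ - ρ))) + 1,
      lt_add_of_le_of_pos (le_max_left _ _) one_pos, lt_add_of_le_of_pos (le_max_right _ _) one_pos⟩
  rw [div_lt_iff₀ hd] at hY2
  have := key Y (by linarith) t₀ ht₀ (by linarith) hY1
  nlinarith

end Pool.Agent.MP_c69980_ag.E1
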