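import Pool.Agent.MP_c69980_ag.E1.SpecB
import Pool.Agent.MP_c69980_ag.H66.Rep
import Pool.Agent.MP_c69980_ag.H18.Lim1
import Pool.Agent.MP_c69980_ag.H84.Alg

/-!
Surfaces fibred over an elliptic curve: common facts.
-/

set_option autoImplicit false

noncomputable section

namespace Pool.Agent.MP_c69980_ag.E1

open MvPolynomial Metric Filter Topology Set
open H60 H4

section gen

variable {E : Type} [NormedAddCommGroup E] [NormedSpace ℂ E] {y w x : E}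

lemma Pp.refl (y : E) : Pp y y := ⟨1, one_ne_zero, (one_smul _ _).symm⟩

lemma Pp.symm (h : Pp y w) : Pp w y := by
  obtain ⟨c, c0, rfl⟩ := h
  exact ⟨c⁻¹, inv_ne_zero c0, by rw [inv_smul_smul₀ c0]⟩

lemma Pp.trans (h : Pp y w) (h' : Pp w x) : Pp y x := by
  obtain ⟨c, c0, rfl⟩ := h
  obtain ⟨e, e0, rfl⟩ := h'
  exact ⟨c * e, mul_ne_zero c0 e0, smul_smul _ _ _⟩

lemma Pp.ne (h : Pp y w) (h0 : w ≠ 0) : y ≠ 0 := by
  obtain ⟨c, c0, rfl⟩ := h
  exact smul_ne_zero c0 h0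

lemma Pp.smul {c : ℂ} (hc : c ≠ 0) (y : E) : Pp (c • y) y := ⟨c, hc, rfl⟩

lemma Pp.of_eq (h : y = w) : Pp y w := h ▸ Pp.refl y

/-- Proportionality passes to nonzero limits. -/
lemma pp_lim {β : Type*} {l : Filter β} [l.NeBot] {f g : β → E} (hf : Tendsto f l (𝓝 y))
    (hg : Tendsto g l (𝓝 w)) (y0 : y ≠ 0) (w0 : w ≠ 0) (h : ∀ᶠ k in l, Pp (f k) (g k)) :
    Pp y w := by
  obtain ⟨φ, -, hφ⟩ := exists_dual_vector ℂ w (norm_ne_zero_iff.2 w0)
  have p0 : φ w ≠ 0 := by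
    rw [hφ]
    exact RCLike.ofReal_ne_zero.2 (norm_ne_zero_iff.2 w0)
  have a1 := (φ.continuous.tendsto _).comp hf
  have a2 := (φ.continuous.tendsto _).comp hg
  have e : y = (φ y / φ w) • w := tendsto_nhds_unique hf (((a1.div a2 p0).smul hg).congr' (by
    filter_upwards [h, a2.eventually_ne p0] with k ⟨c, _, hc⟩ b
    simp only [Pi.div_apply, Function.comp_apply] at b ⊢
    rw [hc, map_smul, smul_eq_mul, mul_div_cancel_right₀ _ b]))
  exact ⟨_, fun q => y0 (by rw [e, q, zero_smul]), e⟩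

variable {α β : Type} [TopologicalSpace α] [TopologicalSpace β] {K K' : Set α} {v v' g g' : α → E}

lemma Lf.pc (h : Lf K v g) : PC K v := fun _ _ => ⟨K, self_mem_nhdsWithin, g, h.1, h.2⟩

lemma PC.of_cont (h : ContinuousOn g K) (h0 : ∀ x ∈ K, g x ≠ 0) : PC K g :=
  Lf.pc ⟨h, fun x hx => ⟨h0 x hx, .refl _⟩⟩

lemma PC.ne (h : PC K v) {a : α} (ha : a ∈ K) : v a ≠ 0 := by
  obtain ⟨U, hU, g, -, hg⟩ := h a ha
  have := hg a (mem_of_mem_nhdsWithin ha hU)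
  exact this.2.ne this.1

lemma PC.congr (h : PC K v) (H : ∀ a ∈ K, Pp (v' a) (v a)) : PC K v' := fun a ha => by
  obtain ⟨U, hU, g, g1, g2⟩ := h a ha
  exact ⟨U ∩ K, inter_mem hU self_mem_nhdsWithin, g, g1.mono inter_subset_left,
    fun b hb => ⟨(g2 b hb.1).1, (H b hb.2).trans (g2 b hb.1).2⟩⟩

lemma PC.comp {L : Set β} {φ : β → α} (h : PC K v) (hφ : ContinuousOn φ L) (hm : MapsTo φ L K) :
    PC L fun b => v (φ b) := fun b hb => by
  obtain ⟨U, hU, g, g1, g2⟩ := h _ (hm hb)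
  exact ⟨L ∩ φ ⁻¹' U, inter_mem self_mem_nhdsWithin ((hφ b hb).tendsto_nhdsWithin hm hU),
    fun b => g (φ b), g1.comp (hφ.mono inter_subset_left) fun _ a => a.2, fun c hc => g2 _ hc.2⟩

lemma PC.mono (h : PC K v) (H : K' ⊆ K) : PC K' v := h.comp continuousOn_id H

lemma Lf.congr (h : Lf K v g) (H : ∀ a ∈ K, Pp (v' a) (v a)) : Lf K v' g :=
  ⟨h.1, fun a ha => ⟨(h.2 a ha).1, (H a ha).trans (h.2 a ha).2⟩⟩

lemma Lf.comp {L : Set β} {φ : β → α} (h : Lf K v g) (hφ : ContinuousOn φ L) (hm : MapsTo φ L K) :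
    Lf L (fun b => v (φ b)) fun b => g (φ b) := ⟨h.1.comp hφ hm, fun _ hb => h.2 _ (hm hb)⟩

/-- The local form of `PC` at a point: a generator that is continuous within `K`. -/
lemma PC.loc (h : PC K v) {a : α} (ha : a ∈ K) : ∃ g : α → E, ContinuousWithinAt g K a ∧
    g a ≠ 0 ∧ ∀ᶠ b in 𝓝[K] a, Pp (v b) (g b) := by
  obtain ⟨U, hU, g, g1, g2⟩ := h a ha
  have := mem_of_mem_nhdsWithin ha hU
  exact ⟨g, (g1 a this).mono_of_mem_nhdsWithin hU, (g2 a this).1,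
    mem_of_superset hU fun b hb => (g2 b hb).2⟩

/-- Two continuous proportional vector functions differ by a continuous scalar. -/
lemma ratio (hg : ContinuousOn g K) (hg' : ContinuousOn g' K) (h0 : ∀ a ∈ K, g' a ≠ 0)
    (h : ∀ a ∈ K, Pp (g a) (g' a)) :
    ∃ c : α → ℂ, ContinuousOn c K ∧ ∀ a ∈ K, c a ≠ 0 ∧ g a = c a • g' a := by
  classical
  choose! c hc using h
  refine ⟨c, fun a ha => ?_, hc⟩
  obtain ⟨φ, -, hφ⟩ := exists_dual_vector ℂ (g' a) (norm_ne_zero_iff.2 (h0 a ha))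
  have p0 : φ (g' a) ≠ 0 := by
    rw [hφ]
    exact RCLike.ofReal_ne_zero.2 (norm_ne_zero_iff.2 (h0 a ha))
  have a1 := φ.continuous.continuousAt.comp_continuousWithinAt (hg a ha)
  have a2 := φ.continuous.continuousAt.comp_continuousWithinAt (hg' a ha)
  have key : ∀ b ∈ K, φ (g' b) ≠ 0 → c b = φ (g b) / φ (g' b) := fun b hb q => by
    rw [(hc b hb).2, map_smul, smul_eq_mul, mul_div_cancel_right₀ _ q]
  refine (a1.div a2 p0).congr_of_eventuallyEq ?_ (key a ha p0)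
  filter_upwards [self_mem_nhdsWithin, a2.tendsto.eventually_ne p0] with b b1 b2 using key b b1 b2

/-- A continuous generator on a dense part is a generator. -/
lemma PC.pp_of_freq (h : PC K v) {a : α} (ha : a ∈ K) (hg : ContinuousWithinAt g K a)
    (g0 : g a ≠ 0) (H : ∃ᶠ b in 𝓝[K] a, Pp (v b) (g b)) : Pp (v a) (g a) := by
  obtain ⟨f, f1, f2, f3⟩ := h.loc ha
  have := frequently_iff_neBot.1 H
  refine (f3.self_of_nhdsWithin ha).trans (pp_lim (l := 𝓝[K] a ⊓ 𝓟 {b | Pp (v b) (g b)})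
    (f1.tendsto.mono_left inf_le_left) (hg.tendsto.mono_left inf_le_left) f2 g0 ?_)
  filter_upwards [mem_inf_of_left f3, mem_inf_of_right (mem_principal_self _)] with b b1 b2
  exact b1.symm.trans b2

lemma Dg.congr {c : ℂ} {ρ : ℝ} {a a' b b' : ℂ → E} {e e' : ℝ × ℂ → E} {k : ℤ}
    (h : Dg c ρ a b e k) (h1 : ∀ t ∈ closedBall c ρ, Pp (a' t) (a t))
    (h2 : ∀ t ∈ closedBall c ρ, Pp (b' t) (b t)) (h3 : ∀ q ∈ Bn c ρ, Pp (e' q) (e q)) :
    Dg c ρ a' b' e' k := by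
  obtain ⟨g, g', G, κ, κ', a1, a2, a3, a4⟩ := h
  exact ⟨g, g', G, κ, κ', a1.congr h1, a2.congr h2, a3.congr h3, a4⟩

/-- The identity theorem for properties that are locally the vanishing of an analytic function. -/
lemma iden [CompleteSpace E] {O : Set ℂ} (hO : IsPreconnected O) {P : ℂ → Prop}
    (h : ∀ t ∈ O, ∃ φ : ℂ → E, AnalyticAt ℂ φ t ∧ ∀ᶠ w in 𝓝 t, (P w ↔ φ w = 0)) :
    (∀ t ∈ O, ∀ᶠ w in 𝓝 t, P w) ∨ ∀ t ∈ O, ∀ᶠ w in 𝓝[≠] t, ¬P w := by
  have k : ∀ t ∈ O, (∀ᶠ w in 𝓝 t, P w) ∨ ∀ᶠ w in 𝓝[≠] t, ¬P w := fun t ht => by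
    obtain ⟨φ, a, b⟩ := h t ht
    refine a.eventually_eq_zero_or_eventually_ne_zero.imp (fun q => ?_) fun q => ?_
    · filter_upwards [q, b] with w w1 w2 using w2.2 w1
    · filter_upwards [q, nhdsWithin_le_nhds b] with w w1 w2 using fun e => w1 (w2.1 e)
  have o2 : IsOpen {t : ℂ | ∀ᶠ w in 𝓝[≠] t, ¬P w} := isOpen_iff_mem_nhds.2 fun t ht => by
    have := eventually_eventually_nhds.2 (eventually_nhdsWithin_iff.1 ht)
    filter_upwards [this] with s hs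
    by_cases e : s = t
    · exact e ▸ ht
    · filter_upwards [nhdsWithin_le_nhds hs, nhdsWithin_le_nhds (eventually_ne_nhds e)] with w a b
      exact a b
  refine hO.subset_or_subset isOpen_setOfPred_eventually_nhds o2
    (Set.disjoint_left.2 fun t a b => ?_) k
  have a' : ∀ᶠ w in 𝓝[≠] t, P w := nhdsWithin_le_nhds a
  obtain ⟨w, w1, w2⟩ := (a'.and b).exists
  exact w2 w1

end gen

lemma punct_conn (c : ℂ) (r : ℝ) : IsPreconnected (ball c r \ {c}) := by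
  have : ball c r \ {c} = (fun q : ℝ × ℝ => circleMap c q.1 q.2) '' (Ioo 0 r ×ˢ univ) := by
    ext z
    constructor
    · rintro ⟨h1, h2⟩
      refine ⟨(‖z - c‖, (z - c).arg), ⟨⟨norm_pos_iff.2 (sub_ne_zero.2 h2),
        mem_ball_iff_norm.1 h1⟩, trivial⟩, ?_⟩
      simp [circleMap, Complex.norm_mul_exp_arg_mul_I]
    · rintro ⟨q, ⟨⟨h1, h2⟩, -⟩, rfl⟩
      refine ⟨?_, circleMap_ne_center h1.ne'⟩
      rw [mem_ball_iff_norm, circleMap_sub_center, norm_circleMap_zero, abs_of_pos h1]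
      exact h2
  rw [this]
  refine (isPreconnected_Ioo.prod isPreconnected_univ).image _ (Continuous.continuousOn ?_)
  unfold circleMap
  fun_prop

/-- A circle that avoids a discrete set. -/
lemma gen_rad {O : Set ℂ} {P : ℂ → Prop} (h : ∀ t ∈ O, ∀ᶠ w in 𝓝[≠] t, ¬P w) (c : ℂ) {r r' : ℝ}
    (hr : r < r') : ∃ ρ ∈ Ioo r r', ∀ t ∈ O, t ∈ sphere c ρ → ¬P t := by
  have h1 : {t ∈ O | P t}.Countable :=
    (HereditarilyLindelofSpace.isLindelof _).countable_of_isDiscrete (isDiscrete_iff_nhdsNE.2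
      fun t ht => inf_principal_eq_bot.2 ((h t ht.1).mono fun w a b => a b.2))
  obtain ⟨ρ, h2, h3⟩ := (h1.image fun t => ‖t - c‖).dense_compl ℝ |>.exists_between hr
  exact ⟨ρ, h3, fun t ht hs hp => h2 ⟨t, ⟨ht, hp⟩, mem_sphere_iff_norm.1 hs⟩⟩

variable {n : ℕ} {y w x : V n}

lemma wg_smul (a b : ℂ) (y w : V n) : wg (a • y) (b • w) = (a * b) • wg y w := by
  funext p; simp only [wg, Pi.smul_apply, smul_eq_mul]; ring

lemma wg_smul_left (a : ℂ) (y w : V n) : wg (a • y) w = a • wg y w := by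
  simpa using wg_smul a 1 y w

lemma wg_smul_right (a : ℂ) (y w : V n) : wg y (a • w) = a • wg y w := by
  simpa using wg_smul 1 a y w

lemma wg_comb (a b : ℂ) (y w : V n) : wg y (a • w + b • y) = a • wg y w := by
  funext p; simp only [wg, Pi.smul_apply, Pi.add_apply, smul_eq_mul]; ring

lemma wg_self (y : V n) : wg y y = 0 := by
  funext p; simp only [wg, Pi.zero_apply]; ring

lemma wg_anti (y w : V n) : wg y w = -wg w y := by
  funext p; simp only [wg, Pi.neg_apply]; ring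

lemma wg_eq_zero (y0 : y ≠ 0) (w0 : w ≠ 0) : wg y w = 0 ↔ Pp w y := by
  refine ⟨fun h => ?_, fun ⟨c, _, hc⟩ => by rw [hc, wg_smul_right, wg_self, smul_zero]⟩
  obtain ⟨j, hj⟩ := Function.ne_iff.1 y0
  have hj : y j ≠ 0 := hj
  have e : w = (w j / y j) • y := funext fun i => by
    have : y j * w i - y i * w j = 0 := congrFun h (j, i)
    simp only [Pi.smul_apply, smul_eq_mul]
    field_simp
    linear_combination this
  exact ⟨_, fun q => w0 (by rw [e, q, zero_smul]), e⟩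

lemma Pp.wg {y' w' : V n} (h : Pp y y') (h' : Pp w w') : Pp (wg y w) (wg y' w') := by
  obtain ⟨c, c0, rfl⟩ := h
  obtain ⟨e, e0, rfl⟩ := h'
  exact ⟨_, mul_ne_zero c0 e0, wg_smul _ _ _ _⟩

@[fun_prop]
lemma wg_cont : Continuous fun q : V n × V n => wg q.1 q.2 := by
  unfold wg
  fun_prop

lemma wg_contOn {α : Type*} [TopologicalSpace α] {f g : α → V n} {K : Set α}
    (hf : ContinuousOn f K) (hg : ContinuousOn g K) : ContinuousOn (fun a => wg (f a) (g a)) K :=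
  wg_cont.comp_continuousOn (hf.prodMk hg)

lemma wg_an {f g : ℂ → V n} {t : ℂ} (hf : AnalyticAt ℂ f t) (hg : AnalyticAt ℂ g t) :
    AnalyticAt ℂ (fun a => wg (f a) (g a)) t := analyticAt_pi_iff.2 fun p =>
  ((analyticAt_pi_iff.1 hf p.1).mul (analyticAt_pi_iff.1 hg p.2)).sub
    ((analyticAt_pi_iff.1 hf p.2).mul (analyticAt_pi_iff.1 hg p.1))

lemma Pp.div (h : Pp y w) (a j : Fin n) : y a / y j = w a / w j := by
  obtain ⟨c, c0, rfl⟩ := h
  exact mul_div_mul_left _ _ c0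

lemma Pp.coord (h : Pp y w) (j : Fin n) : y j ≠ 0 ↔ w j ≠ 0 := by
  obtain ⟨c, c0, rfl⟩ := h
  simp [c0]

lemma Pp.eq_smul (h : Pp y w) {j : Fin n} (hj : w j = 1) : y j ≠ 0 ∧ y = y j • w := by
  obtain ⟨c, c0, rfl⟩ := h
  simp [hj, c0]

lemma Pp.eval (h : Pp y w) {B : PR n} {e : ℕ} (hB : B.IsHomogeneous e) :
    eval y B = 0 ↔ eval w B = 0 := by
  obtain ⟨c, c0, rfl⟩ := h
  simp [eval_smul_hom hB, c0]

lemma Pp.d2 {y' w' : V n} (h : Pp y y') (h' : Pp w w') : d2 y w = d2 y' w' := by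
  obtain ⟨c, c0, rfl⟩ := h
  obtain ⟨e, e0, rfl⟩ := h'
  exact H84.d2_smul c0 e0 _ _

lemma d2_symm (y w : V n) : d2 y w = d2 w y := by
  rw [d2, d2, ← H84.ip_conj y w, Complex.norm_conj, mul_comm]

lemma d2_eq_zero (y0 : y ≠ 0) (w0 : w ≠ 0) : d2 y w = 0 ↔ Pp y w := by
  refine ⟨fun h => ?_, fun h => ?_⟩
  · have e := H84.d2_mul y0 w0
    rw [h, zero_mul] at e
    have e2 : y = (ip y w / H4.sq w) • w :=
      sub_eq_zero.1 (by_contra fun q => (H84.sq_pos' q).ne e)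
    exact ⟨_, fun q => y0 (by rw [e2, q, zero_smul]), e2⟩
  · have := H84.sq_pos' w0
    rw [h.d2 (.refl w), d2, H84.ip_self, Complex.norm_real, Real.norm_of_nonneg this.le]
    field_simp
    ring

lemma d2_pos (y0 : y ≠ 0) (w0 : w ≠ 0) (h : ¬Pp y w) : 0 < d2 y w :=
  (H84.d2_nonneg y0 w0).lt_of_ne fun e => h ((d2_eq_zero y0 w0).1 e.symm)

lemma d2_lamv (y0 : y ≠ 0) (w0 : w ≠ 0) : d2 y w = lamv y w * H4.sq y / H4.sq w := by
  have := H84.sq_pos' y0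
  have := H84.sq_pos' w0
  rw [d2, lamv, ← H84.ip_conj y w, Complex.norm_conj]
  field_simp

lemma sq_cont : Continuous (H4.sq : V n → ℝ) := by
  unfold H4.sq
  fun_prop

lemma d2_cont (y0 : y ≠ 0) (w0 : w ≠ 0) :
    ContinuousAt (fun q : V n × V n => d2 q.1 q.2) (y, w) := by
  have a : Continuous fun q : V n × V n => ip q.1 q.2 := by
    unfold ip
    fun_prop
  exact continuousAt_const.sub ((a.norm.pow 2).continuousAt.div
    ((sq_cont.comp continuous_fst).mul (sq_cont.comp continuous_snd)).continuousAt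
    (mul_pos (H84.sq_pos' y0) (H84.sq_pos' w0)).ne')

lemma d2_lim {β : Type*} {l : Filter β} {f g : β → V n} (hf : Tendsto f l (𝓝 y))
    (hg : Tendsto g l (𝓝 w)) (y0 : y ≠ 0) (w0 : w ≠ 0) :
    Tendsto (fun k => d2 (f k) (g k)) l (𝓝 (d2 y w)) :=
  Tendsto.comp (g := fun q : V n × V n => d2 q.1 q.2) (f := fun k => (f k, g k)) (d2_cont y0 w0)
    (hf.prodMk_nhds hg)

lemma lamv_cont (y0 : y ≠ 0) (w : V n) :
    ContinuousAt (fun q : V n × V n => lamv q.1 q.2) (y, w) := by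
  have a : Continuous fun q : V n × V n => ip q.2 q.1 := by
    unfold ip
    fun_prop
  exact (((sq_cont.comp continuous_fst).mul (sq_cont.comp continuous_snd)).sub
    (a.norm.pow 2)).continuousAt.div ((sq_cont.comp continuous_fst).pow 2).continuousAt
    (pow_pos (H84.sq_pos' y0) 2).ne'

lemma lamv_comb (y0 : y ≠ 0) {c : ℂ} (hc : c ≠ 0) (a b : ℂ) (w : V n) :
    lamv (c • y) (a • w + b • y) = ‖a / c‖ ^ 2 * lamv y w := by
  rw [← R1.lamv_smul, ← (R1.minor n y ((a / c) • w) y0).2.2.2.1 c b hc, smul_smul,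
    mul_div_cancel₀ _ hc]

variable {O O' : Set ℂ} {s s' g g' F : ℂ → V n} {t : ℂ}

/-- The density does not depend on the lift. -/
lemma lam_eq (hg : AnalyticAt ℂ g t) (hg' : AnalyticAt ℂ g' t) (h0 : g' t ≠ 0)
    (h : ∀ᶠ w in 𝓝 t, Pp (g w) (g' w)) : lam g t = lam g' t := by
  obtain ⟨j, hj⟩ := Function.ne_iff.1 h0
  have hj : g' t j ≠ 0 := hj
  have a := analyticAt_pi_iff.1 hg j
  have b := analyticAt_pi_iff.1 hg' j
  have e : g =ᶠ[𝓝 t] fun w => (g w j / g' w j) • g' w := by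
    filter_upwards [h, b.continuousAt.eventually_ne hj] with w ⟨c, _, hc⟩ q
    rw [hc, Pi.smul_apply, smul_eq_mul, mul_div_cancel_right₀ _ q]
  have d := (a.div b hj).differentiableAt.hasDerivAt.smul hg'.differentiableAt.hasDerivAt
  have c0 : g t j / g' t j ≠ 0 := div_ne_zero ((h.self_of_nhds.coord j).2 hj) hj
  rw [lam, e.deriv_eq, e.self_of_nhds]
  refine (congrArg _ d.deriv).trans ?_
  exact (R1.minor n _ _ h0).2.2.2.1 _ _ c0

lemma Crv.an (h : Crv O g) (hO : IsOpen O) (ht : t ∈ O) : AnalyticAt ℂ g t :=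
  h.1.analyticAt (hO.mem_nhds ht)

lemma crv_lam (h : Crv O g) (h' : Crv O g') (hO : IsOpen O) (H : ∀ w ∈ O, Pp (g w) (g' w))
    (ht : t ∈ O) : lam g t = lam g' t :=
  lam_eq (Crv.an h hO ht) (Crv.an h' hO ht) (h'.2 t ht) (mem_of_superset (hO.mem_nhds ht) H)

lemma crv_mono (h : Crv O g) (H : O' ⊆ O) : Crv O' g := ⟨h.1.mono H, fun z hz => h.2 z (H hz)⟩

lemma LH.mono (h : LH O s) (H : O' ⊆ O) : LH O' s := fun t ht => h t (H ht)

lemma lh_iff : LH O s ↔ ∀ t ∈ O, ∃ g : ℂ → V n, AnalyticAt ℂ g t ∧ g t ≠ 0 ∧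
    ∀ᶠ w in 𝓝 t, Pp (s w) (g w) := by
  refine forall₂_congr fun t _ => ⟨fun ⟨g, r, r0, a, b⟩ => ⟨g, Crv.an a isOpen_ball
    (mem_ball_self r0), a.2 t (mem_ball_self r0), mem_of_superset (ball_mem_nhds t r0) b⟩,
    fun ⟨g, a, b, c⟩ => ?_⟩
  obtain ⟨r, r0, hr⟩ := Metric.eventually_nhds_iff_ball.1
    (a.eventually_analyticAt.and ((a.continuousAt.eventually_ne b).and c))
  exact ⟨g, r, r0, ⟨fun w hw => (hr w hw).1.differentiableAt.differentiableWithinAt,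
    fun w hw => (hr w hw).2.1⟩, fun w hw => (hr w hw).2.2⟩

lemma crv_lh (h : Crv O g) (hO : IsOpen O) : LH O g := lh_iff.2 fun t ht =>
  ⟨g, Crv.an h hO ht, h.2 t ht, .of_forall fun _ => .refl _⟩

lemma LH.ne (h : LH O s) (ht : t ∈ O) : s t ≠ 0 := by
  obtain ⟨g, -, a, b⟩ := lh_iff.1 h t ht
  exact b.self_of_nhds.ne a

lemma LH.pc (h : LH O s) : PC O s := fun t ht => by
  obtain ⟨g, r, r0, a, b⟩ := h t ht
  exact ⟨ball t r, nhdsWithin_le_nhds (ball_mem_nhds t r0), g, a.1.continuousOn,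
    fun w hw => ⟨a.2 w hw, b w hw⟩⟩

lemma LH.comp {φ : ℂ → ℂ} (h : LH O s) (hφ : ∀ t ∈ O', AnalyticAt ℂ φ t) (hm : MapsTo φ O' O) :
    LH O' fun t => s (φ t) := lh_iff.2 fun t ht => by
  obtain ⟨g, a, b, c⟩ := lh_iff.1 h _ (hm ht)
  exact ⟨fun t => g (φ t), a.comp (hφ t ht), b, (hφ t ht).continuousAt.eventually c⟩

lemma LH.ratio (h : LH O s) (ht : t ∈ O) (a : Fin n) {j : Fin n} (hj : s t j ≠ 0) :
    AnalyticAt ℂ (fun w => s w a / s w j) t ∧ ∀ᶠ w in 𝓝 t, s w j ≠ 0 := by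
  obtain ⟨g, g1, -, g3⟩ := lh_iff.1 h t ht
  have b := (g3.self_of_nhds.coord j).1 hj
  refine ⟨((analyticAt_pi_iff.1 g1 a).div (analyticAt_pi_iff.1 g1 j) b).congr
    (g3.mono fun w q => (q.div a j).symm), ?_⟩
  filter_upwards [g3, (analyticAt_pi_iff.1 g1 j).continuousAt.eventually_ne b] with w q q'
  exact (q.coord j).2 q'

lemma PC.ratio {α : Type} [TopologicalSpace α] {K : Set α} {v : α → V n} (h : PC K v)
    (a : Fin n) {j : Fin n} (hj : ∀ b ∈ K, v b j ≠ 0) : ContinuousOn (fun b => v b a / v b j) K :=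
  fun b hb => by
    obtain ⟨g, g1, -, g3⟩ := h.loc hb
    have e := g3.self_of_nhdsWithin hb
    exact ((continuousWithinAt_pi.1 g1 a).div (continuousWithinAt_pi.1 g1 j)
      ((e.coord j).1 (hj b hb))).congr_of_eventuallyEq (g3.mono fun w q => q.div a j) (e.div a j)

lemma eval_an (hg : AnalyticAt ℂ g t) (B : PR n) : AnalyticAt ℂ (fun w => eval (g w) B) t := by
  obtain ⟨r, r0, hr⟩ := Metric.eventually_nhds_iff_ball.1 hg.eventually_analyticAt
  exact (H18.evd (fun w hw => (hr w hw).differentiableAt.differentiableWithinAt) B).analyticAt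
    (ball_mem_nhds t r0)

lemma LH.iden_eval (h : LH O s) (hO : IsPreconnected O) {B : PR n} {e : ℕ}
    (hB : B.IsHomogeneous e) :
    (∀ t ∈ O, eval (s t) B = 0) ∨ ∀ t ∈ O, ∀ᶠ w in 𝓝[≠] t, eval (s w) B ≠ 0 :=
  (iden (E := ℂ) (P := fun w => eval (s w) B = 0) hO fun t ht => by
    obtain ⟨g, a, -, c⟩ := lh_iff.1 h t ht
    exact ⟨_, eval_an a B, c.mono fun w q => q.eval hB⟩).imp_left
      fun q t ht => (q t ht).self_of_nhds

lemma LH.iden_pp (h : LH O s) (h' : LH O s') (hO : IsPreconnected O) :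
    (∀ t ∈ O, Pp (s t) (s' t)) ∨ ∀ t ∈ O, ∀ᶠ w in 𝓝[≠] t, ¬Pp (s w) (s' w) :=
  (iden (E := Wg n) (P := fun w => Pp (s w) (s' w)) hO fun t ht => by
    obtain ⟨g, a, b, c⟩ := lh_iff.1 h t ht
    obtain ⟨g', a', b', c'⟩ := lh_iff.1 h' t ht
    refine ⟨_, wg_an a' a, ?_⟩
    filter_upwards [c, c', a.continuousAt.eventually_ne b, a'.continuousAt.eventually_ne b']
      with w w1 w2 w3 w4
    rw [wg_eq_zero w4 w3]
    exact ⟨fun q => w1.symm.trans (q.trans w2), fun q => w1.trans (q.trans w2.symm)⟩).imp_left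
      fun q t ht => (q t ht).self_of_nhds

variable {u : Filter ℕ} {Fs : ℕ → ℂ → V n} {G : ℂ → V n}

lemma Cv.lh (h : Cv u O Fs G) : LH O G := fun t ht => by
  obtain ⟨r, -, G', a, b, c, -⟩ := h t ht
  exact ⟨G', r, a, b, c⟩

lemma Cv.mono (h : Cv u O Fs G) (H : O' ⊆ O) : Cv u O' Fs G := fun t ht => h t (H ht)

/-- Values at moving points converge after scaling. -/
lemma Cv.pt (h : Cv u O Fs G) (ht : t ∈ O) {w : ℕ → ℂ} (hw : Tendsto w u (𝓝 t)) :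
    ∃ y : ℕ → V n, Tendsto y u (𝓝 (G t)) ∧ ∀ᶠ k in u, Pp (Fs k (w k)) (y k) := by
  obtain ⟨r, g, G', r0, a, b, c, d⟩ := h t ht
  obtain ⟨e, e0, he⟩ := b t (mem_ball_self r0)
  have m := hw.eventually (ball_mem_nhds t r0)
  refine ⟨fun k => e • g k (w k), he ▸ (d.tendsto_comp (a.1.continuousOn t (mem_ball_self r0))
    (tendsto_nhdsWithin_iff.2 ⟨hw, m⟩)).const_smul e, ?_⟩
  filter_upwards [m, c] with k k1 k2 using (k2.2 _ k1).trans (Pp.smul e0 _).symm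

lemma Cv.d2 {Fs' : ℕ → ℂ → V n} {G' : ℂ → V n} (h : Cv u O Fs G) (h' : Cv u O Fs' G') (ht : t ∈ O)
    {w : ℕ → ℂ} (hw : Tendsto w u (𝓝 t)) :
    Tendsto (fun k => H4.d2 (Fs k (w k)) (Fs' k (w k))) u (𝓝 (H4.d2 (G t) (G' t))) := by
  obtain ⟨y, y1, y2⟩ := h.pt ht hw
  obtain ⟨y', y1', y2'⟩ := h'.pt ht hw
  refine (d2_lim y1 y1' (h.lh.ne ht) (h'.lh.ne ht)).congr' ?_
  filter_upwards [y2, y2'] with k a b using (a.d2 b).symm

/-- Uniform convergence on compact sets. -/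
lemma Cv.unif (h : Cv u O Fs G) {K : Set ℂ} (hK : IsCompact K) (H : K ⊆ O) {η : ℝ} (hη : 0 < η) :
    ∀ᶠ k in u, ∀ t ∈ K, H4.d2 (Fs k t) (G t) ≤ η := by
  refine (Eventually.curry (p := fun q : ℕ × ℂ => H4.d2 (Fs q.1 q.2) (G q.2) ≤ η)
    (hK.mem_prod_nhdsSet_of_forall fun t ht => ?_)).mono fun _ q => q.self_of_nhdsSet
  obtain ⟨r, g, G', r0, a, b, c, d⟩ := h t (H ht)
  have m : ∀ᶠ q : ℕ × ℂ in u ×ˢ 𝓝 t, q.2 ∈ ball t r := tendsto_snd.eventually (ball_mem_nhds t r0)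
  have c1 : Tendsto (fun q : ℕ × ℂ => G' q.2) (u ×ˢ 𝓝 t) (𝓝 (G' t)) :=
    (Crv.an a isOpen_ball (mem_ball_self r0)).continuousAt.tendsto.comp tendsto_snd
  have c2 : Tendsto (fun q : ℕ × ℂ => g q.1 q.2) (u ×ˢ 𝓝 t) (𝓝 (G' t)) := by
    refine c1.congr_dist (Metric.tendsto_nhds.2 fun ε hε => ?_)
    filter_upwards [m, tendsto_fst.eventually (Metric.tendstoUniformlyOn_iff.1 d ε hε)] with q q1 q2
    simpa using q2 _ q1
  have g0 := a.2 t (mem_ball_self r0)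
  have c3 := d2_lim c2 c1 g0 g0
  rw [(d2_eq_zero g0 g0).2 (.refl _)] at c3
  filter_upwards [m, tendsto_fst.eventually c, c3.eventually (ge_mem_nhds hη)] with q q1 q2 q3
  rwa [(q2.2 _ q1).d2 (b _ q1)]

/-- The densities converge. -/
lemma Cv.lam (h : Cv u O Fs G) (ht : t ∈ O) {f : ℕ → ℂ → V n} (hg : AnalyticAt ℂ g t)
    (hG : ∀ᶠ w in 𝓝 t, Pp (G w) (g w))
    (hf : ∀ᶠ k in u, AnalyticAt ℂ (f k) t ∧ ∀ᶠ w in 𝓝 t, Pp (Fs k w) (f k w)) :
    Tendsto (fun k => H4.lam (f k) t) u (𝓝 (H4.lam g t)) := by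
  obtain ⟨r, g₁, G', r0, a, b, c, d⟩ := h t ht
  have t0 := mem_ball_self (x := t) r0
  have m := ball_mem_nhds t r0
  have d1 := (d.tendstoLocallyUniformlyOn.deriv (c.mono fun k q => q.1.1) isOpen_ball).tendsto_at t0
  rw [lam_eq hg (Crv.an a isOpen_ball t0) (a.2 t t0) (by
    filter_upwards [hG, m] with w w1 w2 using w1.symm.trans (b w w2))]
  refine ((lamv_cont (a.2 t t0) _).tendsto.comp ((d.tendsto_at t0).prodMk_nhds d1)).congr' ?_
  filter_upwards [c, hf] with k k1 k2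
  exact (lam_eq k2.1 (Crv.an k1.1 isOpen_ball t0) (k1.1.2 t t0) (by
    filter_upwards [k2.2, m] with w w1 w2 using w1.symm.trans (k1.2 w w2))).symm

variable {X : Set (Pt n)}

lemma Cn.pp (h : Cn X) (hy : (t, y) ∈ X) (H : Pp w y) : (t, w) ∈ X := by
  obtain ⟨c, c0, rfl⟩ := H
  exact h.scal _ hy c c0

lemma Cn.lim (h : Cn X) {β : Type*} {l : Filter β} [l.NeBot] {f : β → Pt n} {p : Pt n}
    (hf : Tendsto f l (𝓝 p)) (h0 : p.2 ≠ 0) (H : ∀ᶠ k in l, f k ∈ X) : p ∈ X :=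
  h.closed p (mem_closure_of_tendsto hf H) h0

/-- Limits of discs in `X` are in `X`. -/
lemma Cv.mem [u.NeBot] (h : Cv u O Fs G) (hX : Cn X) (ht : t ∈ O) {τ : ℕ → ℂ} {τ₀ : ℂ}
    (hτ : Tendsto τ u (𝓝 τ₀)) (H : ∀ᶠ k in u, (τ k, Fs k t) ∈ X) : (τ₀, G t) ∈ X := by
  obtain ⟨y, y1, y2⟩ := h.pt ht tendsto_const_nhds
  refine hX.lim (hτ.prodMk_nhds y1) (h.lh.ne ht) ?_
  filter_upwards [y2, H] with k a b using hX.pp b a.symm

lemma Nm.mono {h : ℂ → ℂ} (H : Nm X O F h) (h' : O' ⊆ O) : Nm X O' F h :=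
  ⟨crv_mono H.1 h', H.2.1.mono h', fun z hz => H.2.2 z (h' hz)⟩

lemma Nm.sc (H : Nm X O s id) (hO : IsOpen O) : Sc X O s := ⟨crv_lh H.1 hO, H.2.2⟩

lemma Sc.mono (H : Sc X O s) (h' : O' ⊆ O) : Sc X O' s := ⟨H.1.mono h', fun z hz => H.2 z (h' hz)⟩

lemma Sc.nm (H : Sc X O s) (hX : Cn X) (hg : Crv O g) (h : ∀ w ∈ O, Pp (s w) (g w)) :
    Nm X O g id := ⟨hg, differentiableOn_id, fun z hz => hX.pp (H.2 z hz) (h z hz).symm⟩

/-- Translation by a period. -/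
lemma Sc.shift {L : PeriodPair} {W : Set (PS n)} (hX : Cov L W X) (H : Sc X O s) {l : ℂ}
    (hl : l ∈ L.lattice) (hm : ∀ t ∈ O', t + l ∈ O) : Sc X O' fun t => s (t + l) :=
  ⟨H.1.comp (fun _ _ => analyticAt_id.add analyticAt_const) hm, fun t ht => by
    simpa using hX.per _ (H.2 _ (hm t ht)) (-l) (neg_mem hl)⟩

lemma lam_shift (F : ℂ → V n) (c z : ℂ) : lam (fun t => F (t + c)) z = lam F (z + c) := by
  simp only [lam, deriv_comp_add_const]

end Pool.Agent.MP_c69980_ag.E1
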