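import Pool.Agent.MP_c69980_ag.E1.Base
import Pool.Agent.MP_c69980_ag.H4.M1

/-!
Surfaces fibred over an elliptic curve: common facts on charts.
-/

set_option autoImplicit false

noncomputable section

namespace Pool.Agent.MP_c69980_ag.E1

open MvPolynomial Metric Filter Topology Set
open H60 H4

variable {n : ℕ} {X : Set (Pt n)} {a j : Fin n} {U : Set (ℂ × ℂ)} {Y : ℂ × ℂ → V n} {p : ℂ × ℂ}
  {y y' v : V n} {t z z' : ℂ} {x : Pt n}

lemma fd_apply {E : Type} [NormedAddCommGroup E] [NormedSpace ℂ E] (L : ℂ × ℂ →L[ℂ] E)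
    (α β : ℂ) : L (α, β) = α • L (1, 0) + β • L (0, 1) := by
  rw [← map_smul, ← map_smul, ← map_add]
  simp

/-- The chain rule along a curve in the chart. -/
lemma hasDerivAt_comp {f g : ℂ → ℂ} {f' g' w : ℂ} (hY : DifferentiableAt ℂ Y (f w, g w))
    (hf : HasDerivAt f f' w) (hg : HasDerivAt g g' w) : HasDerivAt (fun w => Y (f w, g w))
      (f' • dt Y (f w, g w) + g' • dz Y (f w, g w)) w := by
  have := hY.hasFDerivAt.comp_hasDerivAt w (hf.prodMk hg)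
  rwa [fd_apply] at this

lemma hasDerivAt_dz (hY : DifferentiableAt ℂ Y (t, z)) :
    HasDerivAt (fun w => Y (t, w)) (dz Y (t, z)) z := by
  simpa using hasDerivAt_comp (f := fun _ => t) (g := id) hY (hasDerivAt_const z t)
    (hasDerivAt_id z)

lemma hasDerivAt_dt (hY : DifferentiableAt ℂ Y (t, z)) :
    HasDerivAt (fun w => Y (w, z)) (dt Y (t, z)) t := by
  simpa using hasDerivAt_comp (f := id) (g := fun _ => z) hY (hasDerivAt_id t)
    (hasDerivAt_const t z)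

lemma dz_an (h : AnalyticAt ℂ Y p) : AnalyticAt ℂ (dz Y) p :=
  ((ContinuousLinearMap.apply ℂ (V n) ((0, 1) : ℂ × ℂ)).analyticAt _).comp h.fderiv

lemma dt_an (h : AnalyticAt ℂ Y p) : AnalyticAt ℂ (dt Y) p :=
  ((ContinuousLinearMap.apply ℂ (V n) ((1, 0) : ℂ × ℂ)).analyticAt _).comp h.fderiv

lemma fd_coord (h : AnalyticAt ℂ Y p) (i : Fin n) (q : ℂ × ℂ) :
    fderiv ℂ (fun q => Y q i) p q = fderiv ℂ Y p q i := by
  rw [(hasFDerivAt_pi'.1 h.differentiableAt.hasFDerivAt i).fderiv]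
  rfl

namespace Chart

lemma an (h : Chart X a j U Y) (hp : p ∈ U) : AnalyticAt ℂ Y p := h.2.1 p hp
lemma nhds (h : Chart X a j U Y) (hp : p ∈ U) : U ∈ 𝓝 p := h.1.mem_nhds hp
lemma yj (h : Chart X a j U Y) (hp : p ∈ U) : Y p j = 1 := (h.2.2 p hp).1
lemma ya (h : Chart X a j U Y) (hp : p ∈ U) : Y p a = p.2 := (h.2.2 p hp).2.1
lemma mem (h : Chart X a j U Y) (hp : p ∈ U) : (p.1, Y p) ∈ X := (h.2.2 p hp).2.2.1
lemma ne (h : Chart X a j U Y) (hp : p ∈ U) : Y p ≠ 0 := fun e => by simpa [e] using h.yj hp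
lemma cont (h : Chart X a j U Y) : ContinuousOn Y U := h.2.1.continuousOn

lemma mono (h : Chart X a j U Y) {U' : Set (ℂ × ℂ)} (o : IsOpen U') (H : U' ⊆ U) :
    Chart X a j U' Y := ⟨o, h.2.1.mono H, fun p hp => h.2.2 p (H hp)⟩

lemma rg (h : Chart X a j U Y) (hp : p ∈ U) (hy : Pp y (Y p)) : (p.1, y) ∈ Rg X a j :=
  ⟨U, Y, h, p.2, hp, hy⟩

lemma rx (h : Chart X a j U Y) (hp : p ∈ U) (hy : Pp y (Y p)) : (p.1, y) ∈ Rx X :=
  ⟨a, j, h.rg hp hy⟩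

lemma div (h : Chart X a j U Y) (hp : p ∈ U) (hy : Pp y (Y p)) : y a / y j = p.2 := by
  rw [hy.div, h.yj hp, h.ya hp, div_one]

lemma eq (h : Chart X a j U Y) (hp : p ∈ U) (hy : Pp y (Y p)) : y j ≠ 0 ∧ y = y j • Y p :=
  hy.eq_smul (h.yj hp)

lemma fd_j (h : Chart X a j U Y) (hp : p ∈ U) (q : ℂ × ℂ) : fderiv ℂ Y p q j = 0 := by
  have e : (fun q => Y q j) =ᶠ[𝓝 p] fun _ => 1 := mem_of_superset (h.nhds hp) fun _ => h.yj
  rw [← fd_coord (h.an hp), e.fderiv_eq]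
  simp

lemma fd_a (h : Chart X a j U Y) (hp : p ∈ U) (q : ℂ × ℂ) : fderiv ℂ Y p q a = q.2 := by
  have e : (fun q => Y q a) =ᶠ[𝓝 p] Prod.snd := mem_of_superset (h.nhds hp) fun _ => h.ya
  rw [← fd_coord (h.an hp), e.fderiv_eq, fderiv_snd]
  rfl

lemma dz_j (h : Chart X a j U Y) (hp : p ∈ U) : dz Y p j = 0 := h.fd_j hp _
lemma dz_a (h : Chart X a j U Y) (hp : p ∈ U) : dz Y p a = 1 := h.fd_a hp _
lemma dt_j (h : Chart X a j U Y) (hp : p ∈ U) : dt Y p j = 0 := h.fd_j hp _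
lemma dt_a (h : Chart X a j U Y) (hp : p ∈ U) : dt Y p a = 0 := h.fd_a hp _

lemma wg_dz (h : Chart X a j U Y) (hp : p ∈ U) : wg (Y p) (dz Y p) (j, a) = 1 := by
  simp [wg, h.yj hp, h.dz_a hp, h.dz_j hp]

lemma wg_ne (h : Chart X a j U Y) (hp : p ∈ U) : wg (Y p) (dz Y p) ≠ 0 := fun e => by
  simpa [e] using h.wg_dz hp

/-- The chart coordinates are continuous at the points of the chart. -/
lemma tend (h : Chart X a j U Y) (hp : p ∈ U) (hy : Pp y (Y p)) :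
    Tendsto (fun x : Pt n => (x.1, x.2 a / x.2 j)) (𝓝 (p.1, y)) (𝓝 p) := by
  have c : ContinuousAt (fun x : Pt n => (x.1, x.2 a / x.2 j)) (p.1, y) :=
    continuousAt_fst.prodMk (ContinuousAt.div (by fun_prop) (by fun_prop) (h.eq hp hy).1)
  have := c.tendsto
  rwa [h.div hp hy] at this

/-- Points of `X` near a point of the chart lie in the chart. -/
lemma ev (h : Chart X a j U Y) (hX : Cn X) (hp : p ∈ U) (hy : Pp y (Y p)) :
    ∀ᶠ x in 𝓝 ((p.1, y) : Pt n), x ∈ X → x.2 j ≠ 0 ∧ (x.1, x.2 a / x.2 j) ∈ U ∧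
      x.2 = x.2 j • Y (x.1, x.2 a / x.2 j) := by
  obtain ⟨c, c0, hc⟩ := hy.symm
  have c1 : Tendsto (fun x : Pt n => ((x.1, c • x.2) : Pt n)) (𝓝 (p.1, y)) (𝓝 (p.1, Y p)) := by
    rw [hc]
    exact Continuous.tendsto' (by fun_prop) _ _ rfl
  have c2 : ContinuousAt (fun x : Pt n => x.2 j) (p.1, y) := by fun_prop
  filter_upwards [c1.eventually (h.2.2 p hp).2.2.2, c2.eventually_ne (h.eq hp hy).1,
    (h.tend hp hy).eventually (h.nhds hp)] with x x1 x2 x3 hx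
  have := x1 (hX.scal x hx c c0)
  simp only [Pi.smul_apply, smul_eq_mul, mul_div_mul_left _ _ c0, mul_smul] at this
  exact ⟨x2, x3, smul_right_injective _ c0 this⟩

/-- The same along continuous families of points of `X`. -/
lemma ev_pc {α : Type} [TopologicalSpace α] {K : Set α} {τ : α → ℂ} {s : α → V n} {q : α}
    (h : Chart X a j U Y) (hX : Cn X) (hp : p ∈ U) (hq : q ∈ K) (hτ : ContinuousWithinAt τ K q)
    (hs : PC K s) (hm : ∀ᶠ b in 𝓝[K] q, (τ b, s b) ∈ X) (e : τ q = p.1) (hy : Pp (s q) (Y p)) :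
    Tendsto (fun b => (τ b, s b a / s b j)) (𝓝[K] q) (𝓝 p) ∧ ∀ᶠ b in 𝓝[K] q,
      (τ b, s b a / s b j) ∈ U ∧ Pp (s b) (Y (τ b, s b a / s b j)) := by
  obtain ⟨g, g1, -, g3⟩ := hs.loc hq
  have g4 := (g3.self_of_nhdsWithin hq).symm.trans hy
  have c : Tendsto (fun b => ((τ b, g b) : Pt n)) (𝓝[K] q) (𝓝 (p.1, g q)) :=
    e ▸ hτ.tendsto.prodMk_nhds g1
  refine ⟨((h.tend hp g4).comp c).congr' (g3.mono fun b hb => by
    simp only [Function.comp_apply, hb.div]), ?_⟩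
  filter_upwards [c.eventually (h.ev hX hp g4), g3, hm] with b b1 b2 b3
  obtain ⟨b4, b5, b6⟩ := b1 (hX.pp b3 b2.symm)
  rw [b2.div]
  exact ⟨b5, b2.trans ⟨_, b4, b6⟩⟩

/-- Vertical tangent vectors in a chart. -/
lemma vt_iff (h : Chart X a j U Y) (hX : Cn X) (hp : p ∈ U) (hy : Pp y (Y p)) :
    Vt X (p.1, y) v ↔ ∃ α β : ℂ, α ≠ 0 ∧ v = α • dz Y p + β • Y p := by
  obtain ⟨c0, hc⟩ := h.eq hp hy
  have dY := (h.an hp).differentiableAt
  constructor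
  · rintro ⟨w0, g, g1, g2, rfl, g4⟩
    have g2 : g 0 = y := g2
    have c : Tendsto (fun w => ((p.1, g w) : Pt n)) (𝓝 0) (𝓝 (p.1, y)) :=
      tendsto_const_nhds.prodMk_nhds (g2 ▸ g1.continuousAt)
    have e : g =ᶠ[𝓝 0] fun w => g w j • Y (p.1, g w a / g w j) := by
      filter_upwards [c.eventually (h.ev hX hp hy), g4] with w w1 w2 using (w1 w2).2.2
    have dj := (analyticAt_pi_iff.1 g1 j).differentiableAt.hasDerivAt
    have dq := (((analyticAt_pi_iff.1 g1 a).div (analyticAt_pi_iff.1 g1 j)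
      (by rwa [g2])).differentiableAt).hasDerivAt
    have ep : ((p.1, g 0 a / g 0 j) : ℂ × ℂ) = p := by rw [g2, h.div hp hy]
    have d := dj.smul (hasDerivAt_comp (Y := Y) (f := fun _ => p.1) (g := fun w => g w a / g w j)
      (by rwa [ep]) (hasDerivAt_const _ _) dq)
    have e2 := e.deriv_eq.trans d.deriv
    simp only [ep, zero_smul, zero_add, smul_smul] at e2
    refine ⟨_, _, fun q => w0 ?_, e2⟩
    rw [e2, q]
    change wg y _ = 0
    rw [hc, wg_smul_left, wg_comb, zero_smul, smul_zero]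
  · rintro ⟨α, β, α0, rfl⟩
    have d1 : HasDerivAt (fun w : ℂ => y j + β * w) β 0 := by
      simpa using ((hasDerivAt_id (0 : ℂ)).const_mul β).const_add (y j)
    have d2 : HasDerivAt (fun w : ℂ => p.2 + α / y j * w) (α / y j) 0 := by
      simpa using ((hasDerivAt_id (0 : ℂ)).const_mul (α / y j)).const_add p.2
    have a2 : AnalyticAt ℂ (fun w : ℂ => ((p.1, p.2 + α / y j * w) : ℂ × ℂ)) 0 := by fun_prop
    have d := d1.smul (hasDerivAt_comp (Y := Y) (f := fun _ => p.1)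
      (g := fun w => p.2 + α / y j * w) (by simpa using dY) (hasDerivAt_const _ _) d2)
    refine ⟨?_, fun w => (y j + β * w) • Y (p.1, p.2 + α / y j * w),
      AnalyticAt.smul (f := fun w => y j + β * w) (by fun_prop)
        ((h.an hp).comp_of_eq a2 (by simp)),
      by simpa using hc.symm, d.deriv.trans ?_, ?_⟩
    · change wg y _ ≠ 0
      rw [hc, wg_smul_left, wg_comb]
      exact smul_ne_zero c0 (smul_ne_zero α0 (h.wg_ne hp))
    · simp [smul_smul, mul_div_cancel₀ _ c0]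
    · filter_upwards [d1.continuousAt.eventually_ne (by simpa using c0),
        a2.continuousAt.eventually (show U ∈ 𝓝 _ by simpa using h.nhds hp)] with w w1 w2
      exact hX.scal _ (h.mem w2) _ w1

lemma vt_dz (h : Chart X a j U Y) (hX : Cn X) (hp : p ∈ U) : Vt X (p.1, Y p) (dz Y p) :=
  (h.vt_iff hX hp (.refl _)).2 ⟨1, 0, one_ne_zero, by simp⟩

/-- Translation of a chart by a period. -/
lemma shift (h : Chart X a j U Y) {l : ℂ} (h1 : ∀ x ∈ X, (x.1 + l, x.2) ∈ X)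
    (h2 : ∀ x ∈ X, (x.1 - l, x.2) ∈ X) :
    Chart X a j {p | (p.1 - l, p.2) ∈ U} fun p => Y (p.1 - l, p.2) := by
  refine ⟨h.1.preimage (by fun_prop), fun p hp => (h.an hp).comp_of_eq
    (f := fun p : ℂ × ℂ => (p.1 - l, p.2))
    ((analyticAt_fst.sub analyticAt_const).prod analyticAt_snd) rfl, fun p hp =>
    ⟨h.yj hp, h.ya hp, by simpa using h1 _ (h.mem hp), ?_⟩⟩
  have c : Tendsto (fun x : Pt n => ((x.1 - l, x.2) : Pt n)) (𝓝 (p.1, Y (p.1 - l, p.2)))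
      (𝓝 (p.1 - l, Y (p.1 - l, p.2))) := Continuous.tendsto' (by fun_prop) _ _ rfl
  filter_upwards [c.eventually (h.2.2 _ hp).2.2.2] with x x1 hx using x1 (h2 x hx)

end Chart

lemma dz_shift (Y : ℂ × ℂ → V n) (l : ℂ) (p : ℂ × ℂ) :
    dz (fun p => Y (p.1 - l, p.2)) p = dz Y (p.1 - l, p.2) := by
  have e : (fun p : ℂ × ℂ => Y (p.1 - l, p.2)) = fun p => Y (p - (l, 0)) :=
    funext fun p => congrArg Y (by ext <;> simp)
  rw [dz, e, fderiv_comp_sub, dz]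
  congr 2
  ext <;> simp

lemma dd_self (Y : ℂ × ℂ → V n) (t z : ℂ) : dd Y t z z = dz Y (t, z) := if_pos rfl

lemma dd_symm (Y : ℂ × ℂ → V n) (t z z' : ℂ) : dd Y t z z' = dd Y t z' z := by
  by_cases e : z = z'
  · rw [e]
  · rw [dd, dd, if_neg e, if_neg (Ne.symm e), ← neg_sub z, inv_neg, neg_smul, ← smul_neg, neg_sub]

lemma dd_eq (Y : ℂ × ℂ → V n) (t z z' : ℂ) : Y (t, z') = (z' - z) • dd Y t z z' + Y (t, z) := by
  by_cases e : z = z'
  · simp [e]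
  · rw [dd, if_neg e, smul_inv_smul₀ (sub_ne_zero.2 (Ne.symm e)), sub_add_cancel]

lemma wg_dd (Y : ℂ × ℂ → V n) (t z z' : ℂ) :
    wg (Y (t, z)) (Y (t, z')) = (z' - z) • wg (Y (t, z)) (dd Y t z z') := by
  rw [← wg_comb _ 1, one_smul, ← dd_eq]

lemma wg_dd' (Y : ℂ × ℂ → V n) (t z z' : ℂ) :
    wg (Y (t, z')) (dd Y t z z') = wg (Y (t, z)) (dd Y t z z') := by
  rw [wg_anti, wg_anti (Y (t, z)), dd_eq Y t z z', add_comm, ← one_smul ℂ (Y (t, z)), wg_comb,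
    one_smul, one_smul]

lemma Chart.wg_dd (h : Chart X a j U Y) (hz : (t, z) ∈ U) (hz' : (t, z') ∈ U) :
    wg (Y (t, z)) (dd Y t z z') (j, a) = 1 := by
  by_cases e : z = z'
  · rw [← e, dd_self, h.wg_dz hz]
  · simp [wg, dd, if_neg e, h.yj hz, h.yj hz', h.ya hz, h.ya hz', sub_ne_zero.2 (Ne.symm e)]

lemma Chart.wg_dd_ne (h : Chart X a j U Y) (hz : (t, z) ∈ U) (hz' : (t, z') ∈ U) :
    wg (Y (t, z)) (dd Y t z z') ≠ 0 := fun e => by simpa [e] using h.wg_dd hz hz'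

lemma Chart.pp_iff (h : Chart X a j U Y) (hz : (t, z) ∈ U) (hz' : (t, z') ∈ U) :
    Pp (Y (t, z')) (Y (t, z)) ↔ z' = z :=
  ⟨fun q => (h.div hz' (.refl _)).symm.trans (h.div hz q), fun q => q ▸ .refl _⟩

/-- The divided difference is continuous. -/
lemma dd_cont (h : AnalyticOnNhd ℂ Y U) : ContinuousOn
    (fun q : ℂ × ℂ × ℂ => dd Y q.1 q.2.1 q.2.2) {q | (q.1, q.2.1) ∈ U ∧ (q.1, q.2.2) ∈ U} := by
  rintro ⟨t, z, z'⟩ ⟨h1, h2⟩
  refine ContinuousAt.continuousWithinAt ?_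
  have c1 : ContinuousAt (fun q : ℂ × ℂ × ℂ => (q.1, q.2.1)) (t, z, z') := by fun_prop
  have c2 : ContinuousAt (fun q : ℂ × ℂ × ℂ => (q.1, q.2.2)) (t, z, z') := by fun_prop
  by_cases e : z = z'
  · subst e
    refine Metric.tendsto_nhds.2 fun ε hε => ?_
    have s := (h _ h1).hasStrictFDerivAt.isLittleO.def (half_pos hε)
    filter_upwards [(c2.prodMk c1).tendsto.eventually s,
      c1.tendsto.eventually (Metric.tendsto_nhds.1 (dz_an (h _ h1)).continuousAt ε hε)] with q q1 q2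
    simp only [dd_self]
    by_cases e : q.2.1 = q.2.2
    · rwa [← e, dd_self]
    have e' := sub_ne_zero.2 (Ne.symm e)
    simp only [Prod.mk_sub_mk, sub_self] at q1
    rw [fd_apply, zero_smul, zero_add, Prod.norm_mk, norm_zero, max_eq_right (norm_nonneg _),
      dd_eq Y q.1 q.2.1 q.2.2, add_sub_cancel_right, ← smul_sub, norm_smul, mul_comm] at q1
    rw [dist_eq_norm]
    exact (le_of_mul_le_mul_right q1 (norm_pos_iff.2 e')).trans_lt (half_lt_self hε)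
  · have c3 : ContinuousAt (fun q : ℂ × ℂ × ℂ => q.2.2 - q.2.1) (t, z, z') := by fun_prop
    have e' := sub_ne_zero.2 (Ne.symm e)
    refine ((c3.inv₀ e').smul (((h _ h2).continuousAt.comp_of_eq c2 rfl).sub
      ((h _ h1).continuousAt.comp_of_eq c1 rfl))).congr ?_
    filter_upwards [c3.eventually_ne e'] with q hq
    exact (if_neg fun q => hq (by rw [q, sub_self])).symm

lemma Rg.pp (h : (t, y) ∈ Rg X a j) (H : Pp y' y) : (t, y') ∈ Rg X a j := by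
  obtain ⟨U, Y, c, z, z1, z2⟩ := h
  exact ⟨U, Y, c, z, z1, H.trans z2⟩

lemma Rx.pp (h : (t, y) ∈ Rx X) (H : Pp y' y) : (t, y') ∈ Rx X := by
  obtain ⟨a, j, h⟩ := h
  exact ⟨a, j, Rg.pp h H⟩

lemma Rg.mem (hX : Cn X) (h : x ∈ Rg X a j) : x ∈ X := by
  obtain ⟨U, Y, c, z, z1, z2⟩ := h
  exact hX.pp (c.mem z1) z2

lemma Rx.mem (hX : Cn X) (h : x ∈ Rx X) : x ∈ X := by
  obtain ⟨a, j, h⟩ := h
  exact Rg.mem hX h

lemma Rg.coord (h : x ∈ Rg X a j) : x.2 j ≠ 0 := by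
  obtain ⟨U, Y, c, z, z1, z2⟩ := h
  exact (c.eq z1 z2).1

lemma Rg.ev (hX : Cn X) (h : x ∈ Rg X a j) : ∀ᶠ x' in 𝓝 x, x' ∈ X → x' ∈ Rg X a j := by
  obtain ⟨U, Y, c, z, z1, z2⟩ := h
  filter_upwards [c.ev hX z1 z2] with x' q hx
  exact ⟨U, Y, c, _, (q hx).2.1, _, (q hx).1, (q hx).2.2⟩

lemma Rx.ev (hX : Cn X) (h : x ∈ Rx X) : ∀ᶠ x' in 𝓝 x, x' ∈ X → x' ∈ Rx X := by
  obtain ⟨a, j, h⟩ := h
  exact (Rg.ev hX h).mono fun x' q hx => ⟨a, j, q hx⟩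

lemma Rg.shift {L : PeriodPair} {W : Set (PS n)} (hX : Cov L W X) (h : (t, y) ∈ Rg X a j) {l : ℂ}
    (hl : l ∈ L.lattice) : (t + l, y) ∈ Rg X a j := by
  obtain ⟨U, Y, c, z, z1, z2⟩ := h
  exact ⟨_, _, c.shift (fun x hx => hX.per x hx l hl) fun x hx => by
    simpa [sub_eq_add_neg] using hX.per x hx _ (neg_mem hl), z, by simpa using z1,
    by simpa using z2⟩

lemma Rx.shift {L : PeriodPair} {W : Set (PS n)} (hX : Cov L W X) (h : (t, y) ∈ Rx X) {l : ℂ}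
    (hl : l ∈ L.lattice) : (t + l, y) ∈ Rx X := by
  obtain ⟨a, j, h⟩ := h
  exact ⟨a, j, Rg.shift hX h hl⟩

lemma Rx.vt (hX : Cn X) (h : x ∈ Rx X) : Vt X x (tv X x) := by
  obtain ⟨a, j, U, Y, c, z, z1, z2⟩ := h
  exact Classical.epsilon_spec ⟨_, (c.vt_iff hX z1 z2).2 ⟨1, 0, one_ne_zero, rfl⟩⟩

/-- The tangent line in a chart. -/
lemma Chart.vt_pp (h : Chart X a j U Y) (hX : Cn X) (hp : p ∈ U) (hy : Pp y (Y p))
    (hv : Vt X (p.1, y) v) : Pp (wg y v) (wg (Y p) (dz Y p)) := by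
  obtain ⟨α, β, α0, rfl⟩ := (h.vt_iff hX hp hy).1 hv
  obtain ⟨c, c0, rfl⟩ := hy
  exact ⟨c * α, mul_ne_zero c0 α0, by rw [wg_smul_left, wg_comb, smul_smul]⟩

lemma Rx.vt_pp (hX : Cn X) (h : (t, y) ∈ Rx X) (H : Pp y' y) {v' : V n} (hv : Vt X (t, y) v)
    (hv' : Vt X (t, y') v') : Pp (wg y' v') (wg y v) := by
  obtain ⟨a, j, U, Y, c, z, z1, z2⟩ := h
  exact (c.vt_pp hX z1 (H.trans z2) hv').trans (c.vt_pp hX z1 z2 hv).symm

/-- The values of the forms on a vertical vector. -/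
lemma Frm.vt {N m : ℕ} {L : PeriodPair} {Φ : Fin N → Pt n → V n → ℂ} (F : Frm L X m Φ) (hX : Cn X)
    (h : Chart X a j U Y) (hp : p ∈ U) (hy : Pp y (Y p)) (hv : Vt X (p.1, y) v) :
    ∃ κ : ℂ, κ ≠ 0 ∧ wg y v = (y j ^ 2 * κ) • wg (Y p) (dz Y p) ∧
      lamv y v = ‖κ‖ ^ 2 * lamv (Y p) (dz Y p) ∧ ∀ i, Φ i (p.1, y) v = κ ^ m * fc Φ Y i p := by
  obtain ⟨α, β, α0, rfl⟩ := (h.vt_iff hX hp hy).1 hv
  obtain ⟨c, c0, rfl⟩ := hy
  refine ⟨α / c, div_ne_zero α0 c0, ?_, lamv_comb (h.ne hp) c0 _ _ _, fun i => by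
    simpa using F.hom a j U Y h p hp 0 (zero_mem _) c α β i c0⟩
  rw [wg_smul_left, wg_comb, smul_smul, Pi.smul_apply, h.yj hp]
  congr 1
  simp only [smul_eq_mul]
  field_simp

lemma Frm.shift {N m : ℕ} {L : PeriodPair} {Φ : Fin N → Pt n → V n → ℂ} (F : Frm L X m Φ)
    (h : Chart X a j U Y) {l : ℂ} (hl : l ∈ L.lattice) (hp : (p.1 - l, p.2) ∈ U) (i : Fin N) :
    fc Φ (fun p => Y (p.1 - l, p.2)) i p = fc Φ Y i (p.1 - l, p.2) := by
  simpa [fc, dz_shift] using F.hom a j U Y h _ hp l hl 1 1 0 i one_ne_zero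

/-- Sections pass through regular points only. -/
lemma Sc.rx {O : Set ℂ} {s : ℂ → V n} (hs : Sc X O s) (hX : Cn X) (hN : NonregP X) (o : IsOpen O)
    (ht : t ∈ O) : (t, s t) ∈ Rx X := by
  obtain ⟨g, g1, -, g3⟩ := lh_iff.1 hs.1 t ht
  refine Rx.pp (by_contra fun q => ?_) g3.self_of_nhds
  have c : Tendsto (fun w : ℂ => t + w) (𝓝 0) (𝓝 t) :=
    Continuous.tendsto' (by fun_prop) _ _ (by simp)
  have := hN _ (hX.pp (hs.2 t ht) g3.self_of_nhds.symm) q (fun w => g (t + w)) (fun w => t + w)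
    (AnalyticAt.comp (by simpa using g1) (by fun_prop)) (by fun_prop) (by
      filter_upwards [c.eventually g3, c.eventually (o.mem_nhds ht)] with w w1 w2
      exact hX.pp (hs.2 _ w2) w1.symm) (by simp)
  simp at this

lemma Nm.rx {O : Set ℂ} {s : ℂ → V n} (hs : Nm X O s id) (hX : Cn X) (hN : NonregP X) (o : IsOpen O)
    (ht : t ∈ O) : (t, s t) ∈ Rx X := (hs.sc o).rx hX hN o ht

/-- The domain of the coordinates `(t, y a / y j)`. -/
lemma rg_iff (hG : GenStmt) (hX : Cn X) (h : x ∈ Rx X) (hv : Vt X x v) :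
    x ∈ Rg X a j ↔ x.2 j ≠ 0 ∧ wg x.2 v (j, a) ≠ 0 := by
  obtain ⟨t, y⟩ := x
  have key : ∀ {y w : Wg n}, Pp y w → (y (j, a) ≠ 0 ↔ w (j, a) ≠ 0) := by
    rintro _ w ⟨c, c0, rfl⟩
    simp [c0]
  constructor
  · rintro ⟨U, Y, c, z, z1, z2⟩
    exact ⟨(c.eq z1 z2).1, (key (c.vt_pp hX z1 z2 hv)).2 (by simp [c.wg_dz z1])⟩
  · rintro ⟨h1, h2⟩
    obtain ⟨a', j', U, Y, c, z, z1, z2⟩ := h
    refine Rg.pp (hG n X a j Y Prod.fst (fun x => (x.1, x.2 a' / x.2 j')) (t, z) hX (c.an z1)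
      analyticAt_fst ((z2.coord j).1 h1) (mem_of_superset (c.nhds z1) fun _ => c.mem)
      (c.tend z1 (.refl _)) ((c.ev hX z1 (.refl _)).mono fun x q hx =>
        ⟨rfl, _, (q hx).1, (q hx).2.2⟩) ?_) z2
    have := (key (c.vt_pp hX z1 z2 hv)).1 h2
    rw [fderiv_fst]
    simpa [wg, mul_comm] using this

lemma Cl.symm (h : Cl X t y y') : Cl X t y' y := by
  obtain ⟨A, a1, a2, a3, a4⟩ := h
  exact ⟨A, a1, a2, a4, a3⟩

lemma Cl.trans (h : Cl X t y y') (h' : Cl X t y' v) : Cl X t y v := by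
  obtain ⟨A, a1, a2, a3, a4⟩ := h
  obtain ⟨B, b1, b2, b3, b4⟩ := h'
  exact ⟨A ∪ B, a1.union y' a4 b3 b1, fun w hw => hw.elim (a2 w) (b2 w), .inl a3, .inr b4⟩

lemma Cl.of_pp (h : (t, y) ∈ Rx X) (H : Pp y' y) : Cl X t y y' := by
  obtain ⟨c, c0, rfl⟩ := H
  refine ⟨(fun c : ℂ => c • y) '' {0}ᶜ, (isConnected_compl_singleton_of_one_lt_rank
    (by simp) _).isPreconnected.image _ (by fun_prop), ?_, ⟨1, one_ne_zero, one_smul _ _⟩,
    c, c0, rfl⟩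
  rintro _ ⟨e, e0, rfl⟩
  exact Rx.pp h (.smul e0 _)

lemma Cl.left (h : Cl X t y y') : (t, y) ∈ Rx X := by
  obtain ⟨A, -, a2, a3, -⟩ := h
  exact a2 y a3

lemma Cl.pp (h : Cl X t y y') (H : Pp v y') : Cl X t y v := h.trans (.of_pp h.symm.left H)

/-- The chain rule for Jacobian determinants. -/
lemma jb_comp {f g : ℂ × ℂ → ℂ} {φ : ℂ × ℂ → ℂ × ℂ} (hf : DifferentiableAt ℂ f (φ p))
    (hg : DifferentiableAt ℂ g (φ p)) (hφ : DifferentiableAt ℂ φ p) :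
    jb (fun q => f (φ q)) (fun q => g (φ q)) p =
      jb f g (φ p) * jb (fun q => (φ q).1) (fun q => (φ q).2) p := by
  rw [jb, jb, jb, fderiv_fun_comp p hf hφ, fderiv_fun_comp p hg hφ, fderiv.fst hφ, fderiv.snd hφ]
  simp only [ContinuousLinearMap.comp_apply, ContinuousLinearMap.coe_fst',
    ContinuousLinearMap.coe_snd']
  rw [← Prod.mk.eta (p := fderiv ℂ φ p (1, 0)), ← Prod.mk.eta (p := fderiv ℂ φ p (0, 1)),
    fd_apply (fderiv ℂ f (φ p)) (fderiv ℂ φ p (1, 0)).1,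
    fd_apply (fderiv ℂ f (φ p)) (fderiv ℂ φ p (0, 1)).1,
    fd_apply (fderiv ℂ g (φ p)) (fderiv ℂ φ p (1, 0)).1,
    fd_apply (fderiv ℂ g (φ p)) (fderiv ℂ φ p (0, 1)).1]
  simp only [smul_eq_mul]
  ring

lemma jb_congr {f g f' g' : ℂ × ℂ → ℂ} (hf : f =ᶠ[𝓝 p] f') (hg : g =ᶠ[𝓝 p] g') :
    jb f g p = jb f' g' p := by rw [jb, jb, hf.fderiv_eq, hg.fderiv_eq]

lemma jb_id (p : ℂ × ℂ) : jb Prod.fst Prod.snd p = 1 := by
  rw [jb, fderiv_fst, fderiv_snd]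
  simp

variable {K : Type} [Field K] [Algebra ℂ K] {ζ : Fin n → K} {f : K}

lemma Pp.on (H : Pp y' y) (h : On ζ y) : On ζ y' := fun G d hG q => (H.eval hG).2 (h G d hG q)

lemma Pp.reg (H : Pp y' y) (h : Reg ζ y f) : Reg ζ y' f := by
  obtain ⟨F, G, d, hF, hG, q, e⟩ := h
  exact ⟨F, G, d, hF, hG, fun r => q ((H.eval hG).1 r), e⟩

lemma Pp.vl (H : Pp y' y) (hy : On ζ y) (h : Reg ζ y f) : vl ζ f y' = vl ζ f y := by
  obtain ⟨F, G, d, hF, hG, q, rfl⟩ := h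
  rw [vl_eq hy hF hG q, vl_eq (H.on hy) hF hG fun r => q ((H.eval hG).1 r)]
  obtain ⟨c, c0, rfl⟩ := H
  rw [eval_smul_hom hF, eval_smul_hom hG, mul_div_mul_left _ _ (pow_ne_zero _ c0)]

/-- Values of regular functions along analytic maps to the cone. -/
lemma vl_an {E : Type} [NormedAddCommGroup E] [NormedSpace ℂ E] {G : E → V n} {q : E}
    (hG : AnalyticAt ℂ G q) (ho : ∀ᶠ w in 𝓝 q, On ζ (G w)) (h : Reg ζ (G q) f) :
    AnalyticAt ℂ (fun w => vl ζ f (G w)) q ∧ ∀ᶠ w in 𝓝 q, Reg ζ (G w) f := by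
  obtain ⟨A, B, d, hA, hB, b, rfl⟩ := h
  have e : ∀ P : PR n, AnalyticAt ℂ (fun w => eval (G w) P) q := fun P => by
    simpa [aeval_eq_eval] using AnalyticAt.aeval_mvPolynomial (analyticAt_pi_iff.1 hG) P
  have m := (e B).continuousAt.eventually_ne b
  refine ⟨((e A).div (e B) b).congr ?_, m.mono fun w q => ⟨A, B, d, hA, hB, q, rfl⟩⟩
  filter_upwards [m, ho] with w w1 w2 using (vl_eq w2 hA hB w1).symm

end Pool.Agent.MP_c69980_ag.E1
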