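import Pool.Agent.MP_c69980_ag.E1.BaseC

/-!
Surfaces fibred over an elliptic curve: no bubble when the limit section extends.
-/

set_option autoImplicit false

noncomputable section

namespace Pool.Agent.MP_c69980_ag.E1

open MvPolynomial Metric Filter Topology Set
open H60 H4

namespace BetaX

variable {n : ℕ} {D : Fib n} {c : ℂ} {ε : ℝ} {a j : Fin n} {U : Set (ℂ × ℂ)} {Y : ℂ × ℂ → V n}
  {i : Fin D.N} {zg : ℂ → ℂ} {σ S : ℂ → V n}

lemma zv0 {E : Type} [NormedAddCommGroup E] [NormedSpace ℂ E] {ρ : ℝ} {G : ℂ → E}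
    (h : ContinuousOn G (closedBall c ρ)) (h0 : ∀ t ∈ closedBall c ρ, G t ≠ 0) : Zv c ρ G 0 :=
  ⟨Fin.elim0, G, fun i => i.elim0, h, fun t ht => ⟨h0 t ht, by simp⟩⟩

lemma ua {E : Type} [NormedAddCommGroup E] [NormedSpace ℂ E] {O : Set ℂ} {G : ℂ → E}
    (h : ∀ t ∈ O, AnalyticAt ℂ G t) : UA O G := fun t ht =>
  ⟨fun _ => 1, G, h t ht, .of_forall fun _ => ⟨continuousAt_const, one_ne_zero, by simp⟩⟩

lemma cl_ball {X : Set (Pt n)} (h : Chart X a j U Y) {z w : ℂ}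
    (H : ∀ w ∈ closedBall (0 : ℂ) ε, (c, z + w) ∈ U) (hw : w ∈ closedBall (0 : ℂ) ε) :
    Cl X c (Y (c, z + w)) (Y (c, z + 0)) := by
  refine ⟨(fun w => Y (c, z + w)) '' closedBall 0 ε, (convex_closedBall _ _).isPreconnected.image _
    (h.cont.comp (by fun_prop) H), ?_, ⟨w, hw, rfl⟩, 0,
    mem_closedBall_self (dist_nonneg.trans hw), rfl⟩
  rintro _ ⟨w, hw, rfl⟩
  exact h.rx (H w hw) (.refl _)

variable (D c ε a j U Y i zg σ) in
/-- A tube around the limit section. -/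
structure Tube : Prop where
  ch : Chart D.X a j U Y
  pos : 0 < ε
  an : ∀ t ∈ closedBall c ε, AnalyticAt ℂ zg t
  sa : ∀ t ∈ closedBall c ε, AnalyticAt ℂ σ t
  sx : ∀ t ∈ closedBall c ε, (t, σ t) ∈ D.X
  mem : ∀ t ∈ closedBall c ε, ∀ w ∈ closedBall (0 : ℂ) ε, (t, zg t + w) ∈ U
  fc : ∀ t ∈ closedBall c ε, ∀ w ∈ closedBall (0 : ℂ) ε, fc D.Φ Y i (t, zg t + w) ≠ 0
  off : ∀ t ∈ closedBall c ε, ∀ w ∈ closedBall (0 : ℂ) ε, ¬Pp (σ t) (Y (t, zg t + w))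

lemma Tube.zan (h : Tube D c ε a j U Y i zg σ) {q : ℂ × ℂ} (h1 : q.1 ∈ closedBall c ε)
    (h2 : q.2 ∈ closedBall (0 : ℂ) ε) :
    AnalyticAt ℂ (fun q : ℂ × ℂ => Y (q.1, zg q.1 + q.2)) q :=
  (h.ch.an (h.mem _ h1 _ h2)).comp_of_eq (f := fun q : ℂ × ℂ => (q.1, zg q.1 + q.2))
    (analyticAt_fst.prod (((h.an _ h1).comp analyticAt_fst).add analyticAt_snd)) rfl

lemma Tube.gan (h : Tube D c ε a j U Y i zg σ) {t w : ℂ} (h1 : t ∈ closedBall c ε)
    (h2 : w ∈ closedBall (0 : ℂ) ε) : AnalyticAt ℂ (fun t => Y (t, zg t + w)) t :=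
  (h.zan (q := (t, w)) h1 h2).comp_of_eq (f := fun t : ℂ => (t, w)) (by fun_prop) rfl

lemma nm_of {X : Set (Pt n)} (hX : Cn X) {G : ℂ → V n}
    (h : ∀ t ∈ closedBall c ε, AnalyticAt ℂ G t) (hm : ∀ t ∈ closedBall c ε, (t, G t) ∈ X) :
    Nm X (ball c ε) G id :=
  ⟨⟨fun t ht => (h t (ball_subset_closedBall ht)).differentiableAt.differentiableWithinAt,
    fun t ht => hX.nz _ (hm t (ball_subset_closedBall ht))⟩, differentiableOn_id,
    fun t ht => hm t (ball_subset_closedBall ht)⟩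

/-- The section misses the boundary of the tube. -/
lemma miss (h2 : StarStmt) (h3 : VLStmt) (h4 : FacStmt) (h : Tube D c ε a j U Y i zg σ)
    (hP : Pun D.X c (ε / 2)) (hS : ∀ t ∈ closedBall c ε, AnalyticAt ℂ S t)
    (hm : ∀ t ∈ closedBall c ε, (t, S t) ∈ D.X) (hc : Cl D.X c (σ c) (S c))
    (hs : ∀ t ∈ sphere c (ε / 2), ∃ w : ℂ, ‖w‖ < ε ∧ Pp (S t) (Y (t, zg t + w))) {ζ : ℂ}
    (hζ : ‖ζ‖ = ε) : ∀ t ∈ closedBall c (ε / 2), ¬Pp (S t) (Y (t, zg t + ζ)) := by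
  have hX := D.cov.cn
  have e0 := h.pos
  have r0 : 0 < ε / 2 := half_pos e0
  have r1 : ε / 2 < ε := half_lt_self e0
  have sub : closedBall c (ε / 2) ⊆ closedBall c ε := closedBall_subset_closedBall r1.le
  have sub' : sphere c (ε / 2) ⊆ closedBall c ε := sphere_subset_closedBall.trans sub
  have m0 : (0 : ℂ) ∈ closedBall (0 : ℂ) ε := mem_closedBall_self e0.le
  have mζ : ζ ∈ closedBall (0 : ℂ) ε := mem_closedBall_zero_iff.2 hζ.le
  have ml : ∀ {w : ℂ}, ‖w‖ < ε → w ∈ closedBall (0 : ℂ) ε := fun q =>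
    mem_closedBall_zero_iff.2 q.le
  have nG : ∀ w ∈ closedBall (0 : ℂ) ε, Nm D.X (ball c ε) (fun t => Y (t, zg t + w)) id :=
    fun w hw => nm_of hX (fun t ht => h.gan ht hw) fun t ht => h.ch.mem (h.mem t ht w hw)
  have nS := nm_of hX hS hm
  have ne : ∀ t ∈ closedBall c ε, ∀ w : ℂ, ‖w‖ < ε →
      ¬Pp (Y (t, zg t + ζ)) (Y (t, zg t + w)) := fun t ht w hw q => by
    have := add_left_cancel ((h.ch.pp_iff (h.mem t ht w (ml hw)) (h.mem t ht ζ mζ)).1 q)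
    rw [← this] at hw
    exact hw.ne hζ
  have band : ∀ q ∈ Bn c (ε / 2), ∃ w : ℂ, ‖w‖ < ε ∧
      zb a j S (fun t => Y (t, zg t + 0)) q = zg q.2 + w := by
    rintro ⟨θ, t⟩ ⟨hθ, ht⟩
    obtain ⟨w, w1, w2⟩ := hs t ht
    refine ⟨((1 - θ : ℝ) : ℂ) * w, ?_, ?_⟩
    · rw [norm_mul, Complex.norm_real, Real.norm_of_nonneg (sub_nonneg.2 hθ.2)]
      exact (mul_le_of_le_one_left (norm_nonneg _) (by linarith [hθ.1])).trans_lt w1
    · simp only [zb]
      rw [h.ch.div (h.mem t (sub' ht) w (ml w1)) w2, h.ch.div (h.mem t (sub' ht) 0 m0) (.refl _)]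
      push_cast
      ring
  obtain ⟨v, v1, v2⟩ := h3 n D c _ ε S r0 r1 nS
  obtain ⟨v', v1', v2'⟩ := h3 n D c _ ε _ r0 r1 (nG 0 m0)
  have fz : ∀ {t w : ℂ} {y v : V n}, t ∈ closedBall c ε → ‖w‖ < ε → Pp y (Y (t, zg t + w)) →
      Vt D.X (t, y) v → D.Φ i (t, y) v ≠ 0 := fun {t w y v} ht hw hy hv => by
    obtain ⟨κ, k0, -, -, k1⟩ := D.frm.vt hX h.ch (h.mem t ht w (ml hw)) hy hv
    exact (k1 i).trans_ne (mul_ne_zero (pow_ne_zero _ k0) (h.fc t ht w (ml hw)))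
  have wz : ∀ {f g : ℂ → V n} {t : ℂ}, (t, f t) ∈ D.X → (t, g t) ∈ D.X → ¬Pp (f t) (g t) →
      wg (f t) (g t) ≠ 0 := fun a1 a2 a3 q =>
    a3 ((wg_eq_zero (hX.nz _ a1) (hX.nz _ a2)).1 q).symm
  have wc : ∀ {f g : ℂ → V n}, (∀ t ∈ closedBall c ε, AnalyticAt ℂ f t) →
      (∀ t ∈ closedBall c ε, AnalyticAt ℂ g t) →
      ContinuousOn (fun t => wg (f t) (g t)) (closedBall c (ε / 2)) := fun a1 a2 t ht =>
    (wg_an (a1 t (sub ht)) (a2 t (sub ht))).continuousAt.continuousWithinAt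
  have gm : ∀ w ∈ closedBall (0 : ℂ) ε, ∀ t ∈ closedBall c ε, (t, Y (t, zg t + w)) ∈ D.X :=
    fun w hw t ht => h.ch.mem (h.mem t ht w hw)
  obtain ⟨k, hk⟩ := h4 ℂ c _ _ r0 (v2 i).1 (fun t ht => by
    obtain ⟨w, w1, w2⟩ := hs t ht
    exact fz (sub' ht) w1 w2 (v1.2 t (sphere_subset_closedBall ht))) (v2 i).2
  obtain ⟨I, hI⟩ := h4 (Wg n) c _ (fun t => wg (σ t) (S t)) r0 (wc h.sa hS) (fun t ht => by
      obtain ⟨w, w1, w2⟩ := hs t ht
      exact wz (h.sx t (sub' ht)) (hm t (sub' ht)) fun q =>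
        h.off t (sub' ht) w (ml w1) (q.trans w2))
    (ua fun t ht => wg_an (h.sa t (sub (ball_subset_closedBall ht)))
      (hS t (sub (ball_subset_closedBall ht))))
  obtain ⟨I', hI'⟩ := h4 (Wg n) c _ (fun t => wg (Y (t, zg t + ζ)) (S t)) r0
    (wc (fun t ht => h.gan ht mζ) hS) (fun t ht => by
      obtain ⟨w, w1, w2⟩ := hs t ht
      exact wz (f := fun t => Y (t, zg t + ζ)) (gm ζ mζ t (sub' ht)) (hm t (sub' ht)) fun q =>
        ne t (sub' ht) w w1 (q.trans w2))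
    (ua fun t ht => wg_an (h.gan (sub (ball_subset_closedBall ht)) mζ)
      (hS t (sub (ball_subset_closedBall ht))))
  have n0 : ‖(0 : ℂ)‖ < ε := by simpa using e0
  have key := h2 n D a j U Y c _ ε S _ σ _ v v' i k 0 I I' 0 0 r0 r1 hP h.ch nS (nG 0 m0)
    (nm_of hX h.sa h.sx) (nG ζ mζ) ⟨fun t ht => ?_, fun q hq => ?_⟩ (fun q hq => ?_) hc
    (cl_ball h.ch (h.mem c (mem_closedBall_self e0.le)) mζ) v1 v1' hk
    (zv0 (v2' i).1 fun t ht => fz (sub ht) n0 (.refl _) (v1'.2 t ht)) hI hI'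
    (zv0 (wc h.sa fun t ht => h.gan ht m0) fun t ht => wz (g := fun t => Y (t, zg t + 0))
      (h.sx t (sub ht)) (gm 0 m0 t (sub ht)) (h.off t (sub ht) 0 m0))
    (zv0 (wc (fun t ht => h.gan ht mζ) fun t ht => h.gan ht m0) fun t ht =>
      wz (f := fun t => Y (t, zg t + ζ)) (g := fun t => Y (t, zg t + 0)) (gm ζ mζ t (sub ht))
        (gm 0 m0 t (sub ht)) (ne t (sub ht) 0 n0))
  · have m1 := D.frm.m0
    have e : I' = 0 := by
      by_contra q
      have := Nat.mul_pos m1 (show 0 < I + I' by omega)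
      omega
    subst e
    obtain ⟨b, W, -, -, hW⟩ := hI'
    intro t ht q
    have e2 := (hW t ht).2.symm.trans
      ((wg_eq_zero (hX.nz _ (gm ζ mζ t (sub ht))) (hX.nz _ (hm t (sub ht)))).2 q)
    exact (hW t ht).1 (by simpa using e2)
  · obtain ⟨w, w1, w2⟩ := hs t ht
    rw [h.ch.div (h.mem t (sub' ht) w (ml w1)) w2, h.ch.div (h.mem t (sub' ht) 0 m0) (.refl _)]
    exact ⟨w2, .refl _⟩
  · obtain ⟨w, w1, w2⟩ := band q hq
    rw [w2]
    exact h.mem _ (sub' hq.2) w (ml w1)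
  · obtain ⟨w, w1, w2⟩ := band q hq
    rw [w2]
    exact ⟨h.fc _ (sub' hq.2) w (ml w1), h.off _ (sub' hq.2) w (ml w1), ne _ (sub' hq.2) w w1⟩

/-- The section stays in the tube. -/
lemma stay (h : Tube D c ε a j U Y i zg σ) (hS : ∀ t ∈ closedBall c ε, AnalyticAt ℂ S t)
    (hm : ∀ t ∈ closedBall c ε, (t, S t) ∈ D.X)
    (hs : ∀ t ∈ sphere c (ε / 2), ∃ w : ℂ, ‖w‖ < ε ∧ Pp (S t) (Y (t, zg t + w)))
    (hn : ∀ ζ : ℂ, ‖ζ‖ = ε → ∀ t ∈ closedBall c (ε / 2), ¬Pp (S t) (Y (t, zg t + ζ))) :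
    ∀ t ∈ closedBall c (ε / 2), ∃ w : ℂ, ‖w‖ < ε ∧ Pp (S t) (Y (t, zg t + w)) := by
  have hX := D.cov.cn
  have e0 := h.pos
  have r0 : 0 < ε / 2 := half_pos e0
  have r1 : ε / 2 < ε := half_lt_self e0
  have nS := nm_of hX hS hm
  have ho : IsOpen {t | t ∈ ball c ε ∧ ∃ w : ℂ, ‖w‖ < ε ∧ Pp (S t) (Y (t, zg t + w))} := by
    refine isOpen_iff_mem_nhds.2 ?_
    rintro t ⟨ht, w, w1, w2⟩
    have ht' := ball_subset_closedBall ht
    obtain ⟨a1, a2⟩ := h.ch.ev_pc (τ := fun t => t) hX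
      (h.mem t ht' w (mem_closedBall_zero_iff.2 w1.le)) ht continuousWithinAt_id
      (nS.sc isOpen_ball).1.pc (mem_of_superset self_mem_nhdsWithin nS.2.2) rfl w2
    rw [isOpen_ball.nhdsWithin_eq ht] at a1 a2
    have a3 : Tendsto (fun b => ‖S b a / S b j - zg b‖) (𝓝 t) (𝓝 ‖zg t + w - zg t‖) :=
      (((continuous_snd.tendsto _).comp a1).sub (h.an t ht').continuousAt).norm
    rw [add_sub_cancel_left] at a3
    filter_upwards [a2, isOpen_ball.mem_nhds ht, a3.eventually (gt_mem_nhds w1)] with b b1 b2 b3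
    exact ⟨b2, _, b3, by rw [add_sub_cancel]; exact b1.2⟩
  have hK : IsCompact (closedBall c ε ×ˢ closedBall (0 : ℂ) ε) :=
    (isCompact_closedBall _ _).prod (isCompact_closedBall _ _)
  have hc : ContinuousOn (fun q : ℂ × ℂ => wg (Y (q.1, zg q.1 + q.2)) (S q.1))
      (closedBall c ε ×ˢ closedBall (0 : ℂ) ε) :=
    wg_contOn (fun q hq => (h.zan hq.1 hq.2).continuousAt.continuousWithinAt) fun q hq =>
      ((hS _ hq.1).continuousAt.comp continuousAt_fst).continuousWithinAt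
  have hC := (hK.of_isClosed_subset (hc.preimage_isClosed_of_isClosed hK.isClosed
    (isClosed_singleton (x := 0))) inter_subset_left).image continuous_fst
  intro t ht
  refine ((convex_closedBall c (ε / 2)).isPreconnected.subset_of_closure_inter_subset ho ?_ ?_
    ht).2
  · obtain ⟨t, ht⟩ := (NormedSpace.sphere_nonempty (x := c)).2 r0.le
    exact ⟨t, sphere_subset_closedBall ht, sphere_subset_ball r1 ht, hs t ht⟩
  · rintro t ⟨h1, h2⟩
    obtain ⟨⟨t, w⟩, ⟨q1, q2⟩, rfl⟩ := hC.isClosed.closure_subset_iff.2 (by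
      rintro b ⟨b1, w, w1, w2⟩
      have b2 := ball_subset_closedBall b1
      have w3 := mem_closedBall_zero_iff.2 w1.le
      exact ⟨(b, w), ⟨⟨b2, w3⟩, (wg_eq_zero (h.ch.ne (h.mem b b2 w w3))
        (hX.nz _ (hm b b2))).2 w2⟩, rfl⟩) h1
    have q3 := (wg_eq_zero (h.ch.ne (h.mem t q1.1 w q1.2)) (hX.nz _ (hm t q1.1))).1 q2
    exact ⟨closedBall_subset_ball r1 h2, w,
      (mem_closedBall_zero_iff.1 q1.2).lt_of_ne fun e => hn w e t h2 q3, q3⟩

/-- Sections in the tube have bounded derivative. -/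
lemma bound (h : Tube D c ε a j U Y i zg σ) : ∃ A : ℝ, ∀ S : ℂ → V n,
    (∀ t ∈ closedBall c ε, AnalyticAt ℂ S t) →
    (∀ t ∈ closedBall c (ε / 2), ∃ w : ℂ, ‖w‖ < ε ∧ Pp (S t) (Y (t, zg t + w))) →
    ∀ t ∈ ball c (ε / 4), lam S t ≤ A := by
  have e0 := h.pos
  have sub : closedBall c (ε / 2) ⊆ closedBall c ε :=
    closedBall_subset_closedBall (half_lt_self e0).le
  obtain ⟨Z, hZ⟩ : ∃ Z : ℂ × ℂ → V n, Z = fun q => Y (q.1, zg q.1 + q.2) := ⟨_, rfl⟩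
  have zan : ∀ q ∈ closedBall c ε ×ˢ closedBall (0 : ℂ) ε, AnalyticAt ℂ Z q := fun q hq =>
    hZ ▸ h.zan hq.1 hq.2
  have z0 : ∀ q ∈ closedBall c ε ×ˢ closedBall (0 : ℂ) ε, Z q ≠ 0 := fun q hq =>
    hZ ▸ h.ch.ne (h.mem _ hq.1 _ hq.2)
  have hK : IsCompact ((closedBall c ε ×ˢ closedBall (0 : ℂ) ε) ×ˢ closedBall (0 : ℂ) 4) :=
    ((isCompact_closedBall _ _).prod (isCompact_closedBall _ _)).prod (isCompact_closedBall _ _)
  have hc : ContinuousOn (fun q : (ℂ × ℂ) × ℂ => lamv (Z q.1) ((1 : ℂ) • dt Z q.1 + q.2 • dz Z q.1))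
      ((closedBall c ε ×ˢ closedBall (0 : ℂ) ε) ×ˢ closedBall (0 : ℂ) 4) := fun q hq => by
    have c1 := (zan _ hq.1).continuousAt
    have c2 := (dt_an (zan _ hq.1)).continuousAt
    have c3 := (dz_an (zan _ hq.1)).continuousAt
    exact ((lamv_cont (z0 _ hq.1) _).comp_of_eq
      (f := fun q : (ℂ × ℂ) × ℂ => (Z q.1, (1 : ℂ) • dt Z q.1 + q.2 • dz Z q.1)) (by fun_prop)
      rfl).continuousWithinAt
  obtain ⟨A, hA⟩ := hK.bddAbove_image hc
  refine ⟨A, fun S hS hs t ht => ?_⟩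
  have key : ∀ b ∈ closedBall c (ε / 2), AnalyticAt ℂ (fun b => S b a / S b j - zg b) b ∧
      ‖S b a / S b j - zg b‖ < ε ∧ Pp (S b) (Z (b, S b a / S b j - zg b)) := fun b hb => by
    obtain ⟨w, w1, w2⟩ := hs b hb
    have m := h.mem b (sub hb) w (mem_closedBall_zero_iff.2 w1.le)
    refine ⟨((analyticAt_pi_iff.1 (hS b (sub hb)) a).div (analyticAt_pi_iff.1 (hS b (sub hb)) j)
      (h.ch.eq m w2).1).sub (h.an b (sub hb)), ?_⟩
    rw [h.ch.div m w2, add_sub_cancel_left, hZ]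
    exact ⟨w1, w2⟩
  have s1 : closedBall t (ε / 4) ⊆ closedBall c (ε / 2) :=
    closedBall_subset_closedBall' (by linarith [mem_ball.1 ht])
  have t0 : t ∈ closedBall c (ε / 2) := s1 (mem_closedBall_self (by positivity))
  have m : (t, S t a / S t j - zg t) ∈ closedBall c ε ×ˢ closedBall (0 : ℂ) ε :=
    ⟨sub t0, mem_closedBall_zero_iff.2 (key t t0).2.1.le⟩
  have d := Complex.norm_deriv_le_of_forall_mem_sphere_norm_le (c := t) (R := ε / 4) (C := ε)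
    (f := fun b => S b a / S b j - zg b) (by positivity)
    (DifferentiableOn.diffContOnCl fun b hb => (key b (s1 (closure_ball_subset_closedBall
      hb))).1.differentiableAt.differentiableWithinAt)
    fun b hb => (key b (s1 (sphere_subset_closedBall hb))).2.1.le
  rw [show ε / (ε / 4) = 4 by field_simp] at d
  have d2 := hasDerivAt_comp (Y := Z) (f := fun b => b) (g := fun b => S b a / S b j - zg b)
    (zan _ m).differentiableAt (hasDerivAt_id t) (key t t0).1.differentiableAt.hasDerivAt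
  rw [lam_eq (g' := fun b => Z (b, S b a / S b j - zg b)) (hS t (sub t0))
    ((zan _ m).comp_of_eq (f := fun b => (b, S b a / S b j - zg b))
      (analyticAt_id.prod (key t t0).1) rfl) (z0 _ m)
    (mem_of_superset (closedBall_mem_nhds t (show 0 < ε / 4 by positivity)) fun b hb =>
      (key b (s1 hb)).2.2), lam, d2.deriv]
  exact hA ⟨(_, _), ⟨m, mem_closedBall_zero_iff.2 d⟩, rfl⟩

/-- The tube exists. -/
lemma tube {r : ℝ} {g s : ℂ → V n} {y : V n} (r0 : 0 < r) (hg : Sc D.X (ball c r \ {c}) g)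
    (hE : Ext c g) (hs : Nm D.X (ball c r) s id) (hy : Cl D.X c y (s c)) :
    ∃ ε a j U Y i zg σ, Tube D c ε a j U Y i zg σ ∧ ε < r ∧ Cl D.X c y (σ c) ∧
      ∀ t ∈ closedBall c ε, t ≠ c → Pp (g t) (Y (t, zg t)) := by
  have hX := D.cov.cn
  obtain ⟨g', g1, g2, g3⟩ := hE
  have b0 := ball_mem_nhds c r0
  have x1 : ∀ᶠ t in 𝓝[≠] c, (t, g' t) ∈ D.X := by
    filter_upwards [g3, nhdsWithin_le_nhds b0, self_mem_nhdsWithin] with t t1 t2 t3
    exact hX.pp (hg.2 t ⟨t2, t3⟩) t1.symm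
  have x2 : (c, g' c) ∈ D.X := hX.lim (l := 𝓝[≠] c) (f := fun t => (t, g' t))
    ((continuousAt_id.prodMk g1.continuousAt).tendsto.mono_left nhdsWithin_le_nhds) g2 x1
  have x3 : ∀ᶠ t in 𝓝 c, (t, g' t) ∈ D.X := by
    filter_upwards [eventually_nhdsWithin_iff.1 x1] with t ht
    by_cases e : t = c
    · exact e ▸ x2
    · exact ht e
  obtain ⟨r1, r2, r3⟩ := nhds_basis_closedBall.eventually_iff.1 (g1.eventually_analyticAt.and x3)
  have nG := nm_of hX (fun t ht => (r3 ht).1) fun t ht => (r3 ht).2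
  obtain ⟨a, j, U, Y, ch, z, z1, z2⟩ := nG.rx hX D.nonreg isOpen_ball (mem_ball_self r2)
  obtain ⟨i, hi⟩ := D.frm.bpf a j U Y ch _ z1
  obtain ⟨-, a2⟩ := ch.ev_pc (τ := fun t => t) hX z1 (mem_ball_self r2) continuousWithinAt_id
    (nG.sc isOpen_ball).1.pc (mem_of_superset self_mem_nhdsWithin nG.2.2) rfl z2
  rw [isOpen_ball.nhdsWithin_eq (mem_ball_self r2)] at a2
  obtain ⟨zg, za, zc, a3⟩ : ∃ zg : ℂ → ℂ, AnalyticAt ℂ zg c ∧ zg c = z ∧
      ∀ᶠ t in 𝓝 c, Pp (g' t) (Y (t, zg t)) := ⟨fun t => g' t a / g' t j,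
    (analyticAt_pi_iff.1 g1 a).div (analyticAt_pi_iff.1 g1 j) (ch.eq z1 z2).1, ch.div z1 z2,
    a2.mono fun _ q => q.2⟩
  subst zc
  have z1 : (c, zg c) ∈ U := z1
  have zz := za.continuousAt
  obtain ⟨σ, s1, s2, s3, s4⟩ : ∃ σ : ℂ → V n, AnalyticAt ℂ σ c ∧ (∀ᶠ t in 𝓝 c, (t, σ t) ∈ D.X) ∧
      Cl D.X c y (σ c) ∧ ¬Pp (σ c) (Y (c, zg c)) := by
    by_cases q : Pp (s c) (Y (c, zg c))
    · have c1 : Tendsto (fun w : ℂ => (c, zg c + w)) (𝓝 0) (𝓝 (c, zg c)) :=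
        Continuous.tendsto' (by fun_prop) _ _ (by simp)
      obtain ⟨δ, d0, d1⟩ := nhds_basis_closedBall.eventually_iff.1 (c1.eventually (ch.nhds z1))
      have d2 : (δ : ℂ) ∈ closedBall (0 : ℂ) δ := by simp [abs_of_pos d0]
      have c2 : AnalyticAt ℂ (fun t : ℂ => (t, zg t + δ)) c :=
        analyticAt_id.prod (za.add analyticAt_const)
      refine ⟨fun t => Y (t, zg t + δ), (ch.an (d1 d2)).comp_of_eq c2 rfl,
        (c2.continuousAt.eventually (ch.nhds (d1 d2))).mono fun t ht => ch.mem ht,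
        (hy.pp ?_).trans (cl_ball ch (fun w hw => d1 hw) d2).symm, fun e => ?_⟩
      · rw [add_zero]
        exact q.symm
      · simpa [d0.ne'] using (ch.pp_iff z1 (d1 d2)).1 e
    · exact ⟨s, Crv.an hs.1 isOpen_ball (mem_ball_self r0), mem_of_superset b0 hs.2.2, hy, q⟩
  have c1 : Tendsto (fun q : ℂ × ℂ => (q.1, zg q.1 + q.2)) (𝓝 (c, 0)) (𝓝 (c, zg c)) := by
    have : ContinuousAt (fun q : ℂ × ℂ => (q.1, zg q.1 + q.2)) (c, 0) :=
      continuousAt_fst.prodMk ((zz.comp_of_eq continuousAt_fst rfl).add continuousAt_snd)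
    simpa using this.tendsto
  have c2 : Tendsto (fun q : ℂ × ℂ => q.1) (𝓝 (c, 0)) (𝓝 c) := continuous_fst.tendsto _
  have c3 : ContinuousAt (fun p : ℂ × ℂ => wg (σ p.1) (Y p)) (c, zg c) :=
    wg_cont.continuousAt.comp (f := fun p : ℂ × ℂ => (σ p.1, Y p))
      ((s1.continuousAt.comp_of_eq continuousAt_fst rfl).prodMk (ch.an z1).continuousAt)
  have c4 := c3.eventually_ne (y := 0) fun q =>
    s4 ((wg_eq_zero (hX.nz _ s2.self_of_nhds) (ch.ne z1)).1 q).symm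
  obtain ⟨δ, d0, d1⟩ := nhds_basis_closedBall.eventually_iff.1
    ((c2.eventually (za.eventually_analyticAt.and (s1.eventually_analyticAt.and (s2.and
      (a3.and (eventually_nhdsWithin_iff.1 g3)))))).and (c1.eventually (c4.and
        (((D.frm.an a j U Y ch i _ z1).continuousAt.eventually_ne hi).and (ch.nhds z1)))))
  have d2 := fun t (ht : t ∈ closedBall c (min δ (r / 2))) w
      (hw : w ∈ closedBall (0 : ℂ) (min δ (r / 2))) => d1 (x := (t, w)) (by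
    rw [← closedBall_prod_same]
    exact ⟨closedBall_subset_closedBall (min_le_left _ _) ht,
      closedBall_subset_closedBall (min_le_left _ _) hw⟩)
  have d3 : 0 < min δ (r / 2) := lt_min d0 (half_pos r0)
  have d4 := fun t ht => (d2 t ht 0 (mem_closedBall_self d3.le)).1
  refine ⟨min δ (r / 2), a, j, U, Y, i, zg, σ, ⟨ch, d3, fun t ht => (d4 t ht).1,
    fun t ht => (d4 t ht).2.1, fun t ht => (d4 t ht).2.2.1, fun t ht w hw => (d2 t ht w hw).2.2.2,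
    fun t ht w hw => (d2 t ht w hw).2.2.1, fun t ht w hw q => (d2 t ht w hw).2.1 ?_⟩,
    (min_le_right _ _).trans_lt (half_lt_self r0), s3,
    fun t ht e => ((d4 t ht).2.2.2.2 e).trans (d4 t ht).2.2.2.1⟩
  exact (wg_eq_zero (hX.nz _ (d4 t ht).2.2.1) (ch.ne (d2 t ht w hw).2.2.2)).2 q.symm

end BetaX

open BetaX in
theorem beta (h1 : NearStmt) (h2 : StarStmt) (h3 : VLStmt) (h4 : FacStmt) : BetaStmt := by
  rintro n D u c r s g ⟨r0, hP, hs, hg, hC, y, hy⟩ hE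
  have hX := D.cov.cn
  obtain ⟨k₀, hk₀⟩ := hy.exists
  obtain ⟨ε, a, j, U, Y, i, zg, σ, h, er, hσ, hgY⟩ := tube r0 hg hE (hs k₀) hk₀
  obtain ⟨A, hA⟩ := bound h
  have e0 := h.pos
  have sub : closedBall c ε ⊆ ball c r := closedBall_subset_ball er
  have sub' : sphere c (ε / 2) ⊆ closedBall c ε :=
    sphere_subset_closedBall.trans (closedBall_subset_closedBall (half_lt_self e0).le)
  have nc : ∀ t ∈ sphere c (ε / 2), t ≠ c := fun t ht => ne_of_mem_sphere ht (half_pos e0).ne'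
  obtain ⟨η, η0, hη⟩ := h1 n D.X a j U ((fun t => (t, zg t)) '' sphere c (ε / 2)) Y (ε / 2) hX h.ch
    ((isCompact_sphere _ _).image_of_continuousOn fun t ht =>
      (continuousAt_id.prodMk (h.an t (sub' ht)).continuousAt).continuousWithinAt)
    (by
      rintro _ ⟨t, ht, rfl⟩
      simpa using h.mem t (sub' ht) 0 (mem_closedBall_self e0.le)) (half_pos e0)
  refine ⟨ε / 4, A, by positivity, ?_⟩
  filter_upwards [hy, hC.unif (isCompact_sphere c (ε / 2))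
    (fun t ht => ⟨sub (sub' ht), nc t ht⟩) η0] with k k1 k2
  have hS : ∀ t ∈ closedBall c ε, AnalyticAt ℂ (s k) t := fun t ht =>
    Crv.an (hs k).1 isOpen_ball (sub ht)
  have hm : ∀ t ∈ closedBall c ε, (t, s k t) ∈ D.X := fun t ht => (hs k).2.2 t (sub ht)
  have hsp : ∀ t ∈ sphere c (ε / 2), ∃ w : ℂ, ‖w‖ < ε ∧ Pp (s k t) (Y (t, zg t + w)) := by
    intro t ht
    obtain ⟨b1, b2, -, b4⟩ := hη _ ⟨t, ht, rfl⟩ _ (hm t (sub' ht)) (by simpa using η0.le)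
      (((Pp.refl _).d2 (hgY t (sub' ht) (nc t ht))).symm.trans_le (k2 t ht))
    exact ⟨_, b2.trans_lt (half_lt_self e0), _, b1, by rw [add_sub_cancel]; exact b4⟩
  exact hA _ hS (stay h hS hm hsp fun ζ hζ => miss h2 h3 h4 h
    (fun x hx => hP x ⟨hx.1, hx.2.trans (by linarith)⟩) hS hm (hσ.symm.trans k1) hsp hζ)

end Pool.Agent.MP_c69980_ag.E1
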