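import Pool.Agent.MP_c69980_ag.E1.BaseC

/-!
The coefficients of the relative forms blow up at the boundary of the domain of a chart.
-/

set_option autoImplicit false

noncomputable section

namespace Pool.Agent.MP_c69980_ag.E1

open MvPolynomial Metric Filter Topology Set
open H60 H4

namespace BlowX

variable {n : ℕ} {K : Type} [Field K] [Algebra ℂ K] {z : Fin n → K} {y : V n}
  {Y : ℂ × ℂ → V n} {p : ℂ × ℂ}

lemma coord (hy : On z y) {j : Fin n} (hj : y j ≠ 0) (i : Fin n) :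
    Reg z y (z i / z j) ∧ vl z (z i / z j) y = y i / y j := by
  have h1 : eval y (X j : PR n) ≠ 0 := by simpa using hj
  refine ⟨⟨X i, X j, 1, isHomogeneous_X _ _, isHomogeneous_X _ _, h1, by simp⟩, ?_⟩
  simpa using vl_eq hy (isHomogeneous_X ℂ i) (isHomogeneous_X ℂ j) h1

lemma ratio_an (h : AnalyticAt ℂ Y p) (a : Fin n) {j : Fin n} (hj : Y p j ≠ 0) :
    AnalyticAt ℂ (fun q => Y q a / Y q j) p :=
  (analyticAt_pi_iff.1 h a).div (analyticAt_pi_iff.1 h j) hj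

lemma fd_ratio (h : AnalyticAt ℂ Y p) (a : Fin n) {j : Fin n} (hj : Y p j ≠ 0) (v : ℂ × ℂ) :
    fderiv ℂ (fun q => Y q a / Y q j) p v * Y p j ^ 2 =
      fderiv ℂ Y p v a * Y p j - Y p a * fderiv ℂ Y p v j := by
  have hs := (ratio_an h a hj).differentiableAt
  have hd := (analyticAt_pi_iff.1 h j).differentiableAt
  have e : (fun q => Y q a) =ᶠ[𝓝 p] fun q => Y q a / Y q j * Y q j := by
    filter_upwards [hd.continuousAt.eventually_ne hj] with q hq using (div_mul_cancel₀ _ hq).symm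
  have e2 := DFunLike.congr_fun (e.fderiv_eq.trans (fderiv_fun_mul hs hd)) v
  simp only [add_apply, smul_apply, smul_eq_mul, fd_coord h] at e2
  rw [e2]
  field_simp
  ring

lemma jb_cont {f g : ℂ × ℂ → ℂ} (hf : AnalyticAt ℂ f p) (hg : AnalyticAt ℂ g p) :
    ContinuousAt (jb f g) p := by
  have e : ∀ {f : ℂ × ℂ → ℂ}, AnalyticAt ℂ f p → ∀ v : ℂ × ℂ,
      ContinuousAt (fun q => fderiv ℂ f q v) p := fun h v =>
    h.fderiv.continuousAt.clm_apply continuousAt_const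
  exact ((e hf _).mul (e hg _)).sub ((e hf _).mul (e hg _))

lemma tendQ (t : ℂ) (a b : Fin n) {j : Fin n} (hj : y j ≠ 0) :
    Tendsto (fun x : Pt n => ((x.2 a / x.2 j, x.2 b / x.2 j) : ℂ × ℂ)) (𝓝 (t, y))
      (𝓝 (y a / y j, y b / y j)) := by
  have c : ∀ k, ContinuousAt (fun x : Pt n => x.2 k) (t, y) := fun k => by fun_prop
  exact (((c a).div (c j) hj).prodMk ((c b).div (c j) hj)).tendsto

/-- The two Jacobian determinants are inverse to each other. -/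
lemma jb_inv {X : Set (Pt n)} {a j a' b' j' : Fin n} {U : Set (ℂ × ℂ)} {Y' : ℂ × ℂ → V n}
    {T : ℂ × ℂ → ℂ} (hX : Cn X) (h : Chart X a j U Y) (hp : p ∈ U) (hy : Pp y (Y p))
    (hj : Y p j' ≠ 0) (hT : AnalyticAt ℂ T (Y p a' / Y p j', Y p b' / Y p j'))
    (hs : AnalyticAt ℂ (fun q => Y' q a / Y' q j) (Y p a' / Y p j', Y p b' / Y p j'))
    (H : ∀ᶠ x in 𝓝 ((p.1, y) : Pt n), x ∈ X → x.1 = T (x.2 a' / x.2 j', x.2 b' / x.2 j') ∧
      Pp x.2 (Y' (x.2 a' / x.2 j', x.2 b' / x.2 j'))) :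
    jb T (fun q => Y' q a / Y' q j) (Y p a' / Y p j', Y p b' / Y p j') *
      jb (fun q => Y q a' / Y q j') (fun q => Y q b' / Y q j') p = 1 := by
  obtain ⟨c, c0, rfl⟩ := hy
  have c1 : ContinuousAt (fun q : ℂ × ℂ => ((q.1, c • Y q) : Pt n)) p :=
    continuousAt_fst.prodMk ((h.an hp).continuousAt.const_smul c)
  have e : ∀ᶠ q in 𝓝 p, T (Y q a' / Y q j', Y q b' / Y q j') = q.1 ∧
      Y' (Y q a' / Y q j', Y q b' / Y q j') a / Y' (Y q a' / Y q j', Y q b' / Y q j') j = q.2 := by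
    filter_upwards [c1.tendsto.eventually H, h.nhds hp] with q q1 q2
    have q3 := q1 (hX.scal _ (h.mem q2) c c0)
    simp only [(Pp.smul c0 (Y q)).div] at q3
    exact ⟨q3.1.symm, h.div q2 (q3.2.symm.trans (.smul c0 _))⟩
  have e2 := jb_comp (f := T) (g := fun q => Y' q a / Y' q j)
    (φ := fun q => (Y q a' / Y q j', Y q b' / Y q j')) (p := p) hT.differentiableAt
    hs.differentiableAt
    ((ratio_an (h.an hp) a' hj).prod (ratio_an (h.an hp) b' hj)).differentiableAt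
  rw [← e2, ← jb_id p]
  exact jb_congr (e.mono fun q hq => hq.1) (e.mono fun q hq => hq.2)

end BlowX

open BlowX

theorem blow (h1 : WTStmt) (h2 : GenStmt) (h3 : JacStmt) (h4 : WCStmt) (h5 : CovStmt) :
    BlowStmt := by
  rintro K _ _ n d Φ hΦ a j ⟨t, y⟩ hx hj hR M
  have hC := h5 K n d
  have hX := hC.cn
  have on : ∀ x ∈ d.X, On d.z x.2 := fun x hx => Cone.on d.gen ((hC.cone _).2 ⟨x.1, hx⟩)
  obtain ⟨a', b', j', U', Y', hW, q₀, hq, hy⟩ := h4 n d.W d.sm y ((hC.cone y).2 ⟨t, hx⟩)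
  obtain ⟨T, T1, rfl, T3, T4, -⟩ :=
    h1 n d.L d.W d.X a' b' j' U' Y' q₀ t hC hW hq (hX.pp hx hy.symm)
  obtain ⟨w0, -, w1, i, w2⟩ := h3 K n d a' b' j' U' Y' hW q₀ hq
  have aY := hW.2.1 q₀ hq
  have mU := hW.1.mem_nhds hq
  have Yj : Y' q₀ j ≠ 0 := (hy.coord j).1 hj
  have Yj' : Y' q₀ j' ≠ 0 := by
    rw [(hW.2.2 q₀ hq).1]
    exact one_ne_zero
  have eq₀ : ((Y' q₀ a' / Y' q₀ j', Y' q₀ b' / Y' q₀ j') : ℂ × ℂ) = q₀ := by
    rw [(hW.2.2 q₀ hq).1, (hW.2.2 q₀ hq).2.1, (hW.2.2 q₀ hq).2.2.1, div_one, div_one]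
  have as := ratio_an aY a Yj
  have δ0 : jb T (fun q => Y' q a / Y' q j) q₀ = 0 := by
    have e := mt (h2 n d.X a j Y' T (fun x => (x.2 a' / x.2 j', x.2 b' / x.2 j')) q₀ hX aY T1 Yj
      T3 (by simpa only [eq₀] using tendQ (T q₀) a' b' Yj') T4) fun q => hR (Rg.pp q hy)
    refine (mul_eq_zero.1 ?_).resolve_right (pow_ne_zero 2 Yj)
    rw [jb, sub_mul, mul_assoc, mul_assoc, fd_ratio aY a Yj, fd_ratio aY a Yj]
    exact sub_eq_zero.2 (not_not.1 e)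
  obtain ⟨v1, v2⟩ := vl_an aY (mem_of_superset mU fun q hq' =>
    Cone.on d.gen (hW.2.2 q hq').2.2.2.1) (w1 i)
  have bd : ∀ᶠ q in 𝓝 q₀, M * ‖jb T (fun q => Y' q a / Y' q j) q‖ ^ d.m <
      ‖vl d.z (d.h i / d.wd a' b' j' ^ d.m) (Y' q)‖ := by
    refine ContinuousAt.eventually_lt
      (continuousAt_const.mul ((jb_cont T1 as).norm.pow _)) v1.continuousAt.norm ?_
    rw [δ0, norm_zero, zero_pow d.m0.ne', mul_zero]
    exact norm_pos_iff.2 w2
  have tQ := tendQ (T q₀) a' b' ((hy.coord j').2 Yj')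
  rw [hy.div, hy.div, eq₀] at tQ
  have T5 : ∀ᶠ x in 𝓝 ((T q₀, y) : Pt n), x ∈ d.X →
      x.1 = T (x.2 a' / x.2 j', x.2 b' / x.2 j') ∧
        Pp x.2 (Y' (x.2 a' / x.2 j', x.2 b' / x.2 j')) := by
    obtain ⟨c, c0, hc⟩ := hy.symm
    have c1 : Tendsto (fun x : Pt n => ((x.1, c • x.2) : Pt n)) (𝓝 (T q₀, y))
        (𝓝 (T q₀, Y' q₀)) := by
      rw [hc]
      exact Continuous.tendsto' (by fun_prop) _ _ rfl
    filter_upwards [c1.eventually T4] with x x1 x2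
    have x3 := x1 (hX.scal x x2 c c0)
    simp only [(Pp.smul c0 x.2).div] at x3
    exact ⟨x3.1, (Pp.smul c0 x.2).symm.trans x3.2⟩
  have cj : ∀ k, ContinuousAt (fun x : Pt n => x.2 k) (T q₀, y) := fun k => by fun_prop
  filter_upwards [T5.eventually_nhds, (cj j).eventually_ne hj,
    (cj j').eventually_ne ((hy.coord j').2 Yj'), tQ.eventually mU, tQ.eventually bd,
    tQ.eventually v2, tQ.eventually T1.eventually_analyticAt,
    tQ.eventually as.eventually_analyticAt] with x x1 x2 x3 x4 x5 x6 x7 x8 U Y ζ hc hp e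
  have p1 : Pp x.2 (Y (x.1, ζ)) := ⟨_, x2, e⟩
  have p2 : Pp (Y (x.1, ζ)) (Y' (x.2 a' / x.2 j', x.2 b' / x.2 j')) :=
    p1.symm.trans (x1.self_of_nhds (hX.pp (hc.mem hp) p1)).2
  have p3 : Y (x.1, ζ) j' ≠ 0 := (p1.coord j').1 x3
  have o1 := on _ (hc.mem hp)
  have k1 := hΦ a j U Y hc _ hp 0 (zero_mem _) 1 1 0 i (d.z a' / d.z j') (d.z b' / d.z j')
    one_ne_zero (coord o1 p3 a').1 (coord o1 p3 b').1 w0 (p2.reg x6)
  have e1 : ∀ k, (fun q => vl d.z (d.z k / d.z j') (Y q)) =ᶠ[𝓝 (x.1, ζ)]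
      fun q => Y q k / Y q j' := fun k => by
    filter_upwards [hc.nhds hp,
      (analyticAt_pi_iff.1 (hc.an hp) j').continuousAt.eventually_ne p3] with q q1 q2
    exact (coord (on _ (hc.mem q1)) q2 k).2
  rw [jb_congr (e1 a') (e1 b')] at k1
  simp only [add_zero, one_smul, zero_smul, div_one, one_pow, one_mul] at k1
  have k2 := p2.vl (Cone.on d.gen (hW.2.2 _ x4).2.2.2.1) x6
  rw [p1.div a' j', p1.div b' j'] at x5 x7 x8 k2
  have k3 := jb_inv hX hc hp p1 p3 x7 x8 x1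
  refine ⟨i, ?_⟩
  rw [fc, k1, norm_mul, norm_pow]
  refine le_trans (le_of_eq ?_) (mul_le_mul_of_nonneg_right (x5.le.trans_eq
    (congrArg norm k2.symm)) (by positivity))
  rw [mul_assoc, ← mul_pow, ← norm_mul, k3, norm_one, one_pow, mul_one]

end Pool.Agent.MP_c69980_ag.E1
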