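import Pool.Agent.MP_c69980_ag.E1.Base

/-!
Charts: the inverse function theorem, charts along compact curves, uniform neighbourhoods.
-/

set_option autoImplicit false

noncomputable section

namespace Pool.Agent.MP_c69980_ag.E1

open Metric Filter Topology Set
open scoped ContDiff
open H60 H4

namespace ChartAux

variable {n : ℕ}

/-- The analytic inverse function theorem. -/
lemma ift {ψ : ℂ × ℂ → ℂ × ℂ} {p : ℂ × ℂ} (h : AnalyticAt ℂ ψ p)
    (hi : ∀ v, fderiv ℂ ψ p v = 0 → v = 0) : ∃ φ : ℂ × ℂ → ℂ × ℂ, AnalyticAt ℂ φ (ψ p) ∧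
      (∀ᶠ q in 𝓝 p, φ (ψ q) = q) ∧ ∀ᶠ q in 𝓝 (ψ p), ψ (φ q) = q := by
  have i1 : Function.Injective (fderiv ℂ ψ p : ℂ × ℂ →ₗ[ℂ] ℂ × ℂ) :=
    (injective_iff_map_eq_zero _).2 hi
  let L := (LinearEquiv.ofInjectiveEndo _ i1).toContinuousLinearEquiv
  have d : HasFDerivAt ψ (L : ℂ × ℂ →L[ℂ] ℂ × ℂ) p := h.differentiableAt.hasFDerivAt
  have c : ContDiffAt ℂ ω ψ p := h.contDiffAt
  have w : (ω : WithTop ℕ∞) ≠ 0 := by simp
  exact ⟨c.localInverse d w, (c.to_localInverse d w).analyticAt,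
    (c.hasStrictFDerivAt' d w).eventually_left_inverse,
    (c.hasStrictFDerivAt' d w).eventually_right_inverse⟩

lemma ker {a j : Fin n} {Y : ℂ × ℂ → V n} {T : ℂ × ℂ → ℂ} {p : ℂ × ℂ} (hY : AnalyticAt ℂ Y p)
    (hT : AnalyticAt ℂ T p) (hj : Y p j ≠ 0)
    (hd : fderiv ℂ T p (1, 0) * (dz Y p a * Y p j - Y p a * dz Y p j) ≠
      fderiv ℂ T p (0, 1) * (dt Y p a * Y p j - Y p a * dt Y p j)) (v : ℂ × ℂ)
    (hv : fderiv ℂ (fun q => (T q, Y q a / Y q j)) p v = 0) : v = 0 := by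
  have y := hasFDerivAt_pi'.1 hY.differentiableAt.hasFDerivAt
  have aj := analyticAt_pi_iff.1 hY j
  have r := ((analyticAt_pi_iff.1 hY a).div aj hj).differentiableAt.hasFDerivAt
  have e := (y a).unique ((r.mul (y j)).congr_of_eventuallyEq (by
    filter_upwards [aj.continuousAt.eventually_ne hj] with q hq
    exact (div_mul_cancel₀ _ hq).symm))
  have f := (hT.differentiableAt.hasFDerivAt.prodMk r).fderiv
  have hv' := (congrArg (fun L => L v) f).symm.trans hv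
  have s : v = v.1 • ((1, 0) : ℂ × ℂ) + v.2 • ((0, 1) : ℂ × ℂ) := by ext <;> simp
  have h1 : v.1 * fderiv ℂ T p (1, 0) + v.2 * fderiv ℂ T p (0, 1) = 0 := by
    have : fderiv ℂ T p v = 0 := congrArg Prod.fst hv'
    rw [s] at this
    simpa only [map_add, map_smul, smul_eq_mul] using this
  have h2 := congrArg (fun L => L v) e
  have h3 : fderiv ℂ Y p v = v.1 • dt Y p + v.2 • dz Y p := by
    nth_rewrite 1 [s]
    rw [map_add, map_smul, map_smul, dt, dz]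
  have h4 := congrArg Prod.snd hv'
  simp only [ContinuousLinearMap.prod_apply, Prod.snd_zero] at h4
  simp only [ContinuousLinearMap.comp_apply, ContinuousLinearMap.proj_apply, h3, h4,
    add_apply, smul_apply, Pi.add_apply, Pi.smul_apply,
    smul_eq_mul, Pi.div_apply, mul_zero, add_zero] at h2
  have h5 : v.1 * (dt Y p a * Y p j - Y p a * dt Y p j) +
      v.2 * (dz Y p a * Y p j - Y p a * dz Y p j) = 0 := by
    field_simp at h2
    linear_combination h2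
  have d0 := sub_ne_zero.2 hd
  refine Prod.ext (mul_right_cancel₀ d0 ?_) (mul_right_cancel₀ d0 ?_)
  · rw [Prod.fst_zero]
    linear_combination (dz Y p a * Y p j - Y p a * dz Y p j) * h1 - fderiv ℂ T p (0, 1) * h5
  · rw [Prod.snd_zero]
    linear_combination fderiv ℂ T p (1, 0) * h5 - (dt Y p a * Y p j - Y p a * dt Y p j) * h1

/-- The chart equation does not see scalars. -/
lemma sca {a j : Fin n} {Y : ℂ × ℂ → V n} {t : ℂ} {y w : V n} (h : Pp y w)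
    (H : w = w j • Y (t, w a / w j)) : y = y j • Y (t, y a / y j) := by
  rw [h.div a j]
  obtain ⟨c, -, rfl⟩ := h
  rw [Pi.smul_apply, smul_eq_mul, ← smul_smul, ← H]

lemma rat_cont {a j : Fin n} {x : Pt n} (h : x.2 j ≠ 0) :
    ContinuousAt (fun x : Pt n => (x.1, x.2 a / x.2 j)) x :=
  continuousAt_fst.prodMk (ContinuousAt.div (by fun_prop) (by fun_prop) h)

end ChartAux

open ChartAux

theorem gen : GenStmt := fun n X a j Y T Q p hX hY hT hj h1 hQ h2 hd => by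
  have aj := analyticAt_pi_iff.1 hY j
  obtain ⟨φ, a1, a2, a3⟩ := ift (ψ := fun q => (T q, Y q a / Y q j))
    (hT.prod ((analyticAt_pi_iff.1 hY a).div aj hj)) (ker hY hT hj hd)
  set p' : ℂ × ℂ := (T p, Y p a / Y p j) with hp'
  have e0 : φ p' = p := a2.self_of_nhds
  have tφ : Tendsto φ (𝓝 p') (𝓝 p) := e0 ▸ a1.continuousAt.tendsto
  let Z : ℂ × ℂ → V n := fun q => (Y (φ q) j)⁻¹ • Y (φ q)
  have aZ : AnalyticAt ℂ Z p' :=
    ((aj.inv hj).comp_of_eq a1 e0).smul (hY.comp_of_eq a1 e0)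
  have eZ : Z p' = (Y p j)⁻¹ • Y p := by simp only [Z, e0]
  have nj := aj.continuousAt.eventually_ne hj
  have b1 : ∀ᶠ x in 𝓝 ((T p, Y p) : Pt n), x ∈ X → x.2 = x.2 j • Z (x.1, x.2 a / x.2 j) := by
    filter_upwards [h2, hQ.eventually a2, hQ.eventually nj] with x x1 x2 x3 hx
    obtain ⟨x4, x5⟩ := x1 hx
    refine sca x5 ?_
    simp only [Z, x4, x2, smul_inv_smul₀ x3]
  have b2 : ∀ᶠ x in 𝓝 ((p'.1, Z p') : Pt n), x ∈ X → x.2 = x.2 j • Z (x.1, x.2 a / x.2 j) := by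
    have c : Tendsto (fun x : Pt n => (x.1, Y p j • x.2)) (𝓝 (p'.1, Z p')) (𝓝 (T p, Y p)) :=
      Continuous.tendsto' (by fun_prop) _ _ (by rw [eZ, smul_inv_smul₀ hj])
    filter_upwards [c.eventually b1] with x hx xX
    exact sca (Pp.smul hj _).symm (hx (hX.scal x xX _ hj))
  have b3 := (continuousAt_fst.prodMk aZ.continuousAt).tendsto.eventually
    (eventually_eventually_nhds.2 b2)
  obtain ⟨U, u1, u2, u3⟩ := _root_.eventually_nhds_iff.1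
    (aZ.eventually_analyticAt.and (b3.and (a3.and ((tφ.eventually nj).and (tφ.eventually h1)))))
  refine ⟨U, Z, ⟨u2, fun q hq => (u1 q hq).1, fun q hq => ?_⟩, _, u3, ?_⟩
  · obtain ⟨-, v1, v2, v3, v4⟩ := u1 q hq
    refine ⟨inv_mul_cancel₀ v3, ?_, ?_, v1⟩
    · rw [← congrArg Prod.snd v2]
      exact (div_eq_inv_mul _ _).symm
    · rw [← congrArg Prod.fst v2]
      exact hX.scal _ v4 _ (inv_ne_zero v3)
  · exact (eZ ▸ Pp.smul (inv_ne_zero hj) (Y p) : Pp (Z p') (Y p)).symm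

theorem tube : TubeStmt := fun n X a j K g hX hK hg h => by
  choose! U Y hc z hz hp using h
  have g1 : ∀ t ∈ K, g t j ≠ 0 := fun t ht => ((hp t ht).eq_smul ((hc t ht).2.2 _ (hz t ht)).1).1
  let γ : ℂ → Pt n := fun t => (t, fun i => g t i / g t j)
  have cγ : ContinuousOn γ K :=
    continuousOn_id.prodMk (continuousOn_pi.2 fun i => hg.ratio i g1)
  have eγ : ∀ t ∈ K, γ t = (t, Y t (t, z t)) := fun t ht => Prod.ext rfl (funext fun i => by
    have := (hp t ht).div i j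
    rwa [((hc t ht).2.2 _ (hz t ht)).1, div_one] at this)
  let π : Pt n → ℂ × ℂ := fun x => (x.1, x.2 a)
  have cπ : Continuous π := by fun_prop
  let A : Set (Pt n) := {x | x ∈ X ∧ x.2 j = 1}
  have l1 : ∀ t ∈ K, ∀ᶠ x in 𝓝 (γ t), x ∈ A → π x ∈ U t ∧ x.2 = Y t (π x) := fun t ht => by
    obtain ⟨-, q2, -, q4⟩ := (hc t ht).2.2 _ (hz t ht)
    have m : π (γ t) ∈ U t := by
      rw [eγ t ht]
      simpa only [π, q2] using hz t ht
    filter_upwards [eγ t ht ▸ q4, cπ.continuousAt.eventually ((hc t ht).1.mem_nhds m)]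
      with x x1 x2 hx
    refine ⟨x2, ?_⟩
    simpa only [hx.2, one_smul, div_one] using x1 hx.1
  have hC := hK.image_of_continuousOn cγ
  have l2 : ∀ᶠ q : Pt n × Pt n in 𝓝ˢ (γ '' K) ×ˢ 𝓝ˢ (γ '' K), q.1 ∈ A →
      (∃ t ∈ K, π q.1 ∈ U t ∧ q.1.2 = Y t (π q.1)) ∧ (q.2 ∈ A → π q.1 = π q.2 → q.1 = q.2) := by
    rw [← hC.nhdsSet_prod_eq hC, eventually_nhdsSet_iff_forall]
    rintro ⟨_, _⟩ ⟨⟨t, ht, rfl⟩, s, hs, rfl⟩
    have k1 := (continuous_fst.tendsto (γ t, γ s)).eventually (l1 t ht)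
    have k2 := (continuous_snd.tendsto (γ t, γ s)).eventually (l1 s hs)
    by_cases e : t = s
    · subst e
      filter_upwards [k1, k2] with q q1 q2 m
      refine ⟨⟨t, ht, q1 m⟩, fun m' e => Prod.ext (Prod.ext_iff.1 e).1 ?_⟩
      rw [(q1 m).2, (q2 m').2, e]
    · have k3 : ∀ᶠ q : Pt n × Pt n in 𝓝 (γ t, γ s), q.1.1 ≠ q.2.1 :=
        (isOpen_ne_fun (by fun_prop) (by fun_prop)).mem_nhds e
      filter_upwards [k1, k3] with q q1 q3 m
      exact ⟨⟨t, ht, q1 m⟩, fun _ e => (q3 (Prod.ext_iff.1 e).1).elim⟩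
  obtain ⟨N', n1, n2⟩ := (eventually_prod_self_iff (r := fun x x' : Pt n => x ∈ A →
    (∃ t ∈ K, π x ∈ U t ∧ x.2 = Y t (π x)) ∧ (x' ∈ A → π x = π x' → x = x'))).1 l2
  obtain ⟨N, o1, o2, o3⟩ := mem_nhdsSet_iff_exists.1 n1
  have inj : InjOn π (A ∩ N) := fun x hx x' hx' => (n2 x (o3 hx.2) x' (o3 hx'.2) hx.1).2 hx'.1
  let Z : ℂ × ℂ → V n := fun p => (Function.invFunOn π (A ∩ N) p).2
  have eZ : ∀ x ∈ A ∩ N, Z (π x) = x.2 := fun x hx => congrArg Prod.snd (inj.leftInvOn_invFunOn hx)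
  have key : ∀ x ∈ A ∩ N, ∃ t ∈ K, π x ∈ U t ∧
      ∀ᶠ p in 𝓝 (π x), p ∈ π '' (A ∩ N) ∧ Z p = Y t p := fun x hx => by
    obtain ⟨t, ht, q1, q2⟩ := (n2 x (o3 hx.2) x (o3 hx.2) hx.1).1
    refine ⟨t, ht, q1, ?_⟩
    have c : Tendsto (fun p : ℂ × ℂ => ((p.1, Y t p) : Pt n)) (𝓝 (π x)) (𝓝 x) := by
      have := (continuousAt_fst.prodMk ((hc t ht).2.1 _ q1).continuousAt).tendsto
      rwa [← q2] at this
    filter_upwards [(hc t ht).1.mem_nhds q1, c.eventually (o1.mem_nhds hx.2)] with p p1 p2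
    obtain ⟨r1, r2, r3, -⟩ := (hc t ht).2.2 p p1
    have e : π (p.1, Y t p) = p := Prod.ext rfl r2
    exact ⟨⟨_, ⟨⟨r3, r1⟩, p2⟩, e⟩, by simpa only [e] using eZ _ ⟨⟨r3, r1⟩, p2⟩⟩
  refine ⟨π '' (A ∩ N), Z, ⟨isOpen_iff_mem_nhds.2 ?_, ?_, ?_⟩, fun t ht => ?_⟩
  · rintro _ ⟨x, hx, rfl⟩
    obtain ⟨t, -, -, q⟩ := key x hx
    exact q.mono fun _ r => r.1
  · rintro _ ⟨x, hx, rfl⟩
    obtain ⟨t, ht, q1, q⟩ := key x hx
    exact ((hc t ht).2.1 _ q1).congr (q.mono fun _ r => r.2.symm)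
  · rintro _ ⟨x, hx, rfl⟩
    obtain ⟨t, ht, q1, q⟩ := key x hx
    obtain ⟨r1, r2, r3, r4⟩ := (hc t ht).2.2 _ q1
    rw [q.self_of_nhds.2]
    refine ⟨r1, r2, r3, ?_⟩
    have c := (rat_cont (a := a) (j := j) (x := ((π x).1, Y t (π x))) (by simp [r1])).tendsto
    simp only [r1, r2, div_one] at c
    filter_upwards [r4, c.eventually q] with y y1 y2 hy
    rw [y2.2]
    exact y1 hy
  · have m : γ t ∈ A ∩ N := by
      refine ⟨?_, o2 (mem_image_of_mem _ ht)⟩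
      rw [eγ t ht]
      exact ⟨((hc t ht).2.2 _ (hz t ht)).2.2.1, ((hc t ht).2.2 _ (hz t ht)).1⟩
    refine ⟨⟨_, m, rfl⟩, g t j, g1 t ht, ?_⟩
    rw [show Z (t, g t a / g t j) = (γ t).2 from eZ _ m]
    exact funext fun i => (mul_div_cancel₀ _ (g1 t ht)).symm

theorem near : NearStmt := fun n X a j U K Y ε hX hc hK hU hε => by
  have key := (hK.prod (isCompact_sphere (0 : V n) 1)).eventually_forall_of_forall_eventually
    (x₀ := ((0, 0) : ℂ × ℝ)) (P := fun s q => (q.1.1 + s.1, q.2) ∈ X → d2 q.2 (Y q.1) ≤ s.2 →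
      q.2 j ≠ 0 ∧ ‖q.2 a / q.2 j - q.1.2‖ ≤ ε ∧ (q.1.1 + s.1, q.2 a / q.2 j) ∈ U ∧
        q.2 = q.2 j • Y (q.1.1 + s.1, q.2 a / q.2 j)) (by
    rintro ⟨p, y⟩ ⟨hp, hy⟩
    obtain ⟨r1, r2, r3, r4⟩ := hc.2.2 p (hU hp)
    have y0 : y ≠ 0 := ne_zero_of_mem_unit_sphere ⟨y, hy⟩
    by_cases e : Pp y (Y p)
    · obtain ⟨c0, ec⟩ := e.eq_smul r1
      have c1 : Tendsto (fun w : (ℂ × ℝ) × (ℂ × ℂ) × V n => ((w.2.1.1 + w.1.1, (y j)⁻¹ • w.2.2) :
          Pt n)) (𝓝 ((0, 0), p, y)) (𝓝 (p.1, Y p)) := Continuous.tendsto' (by fun_prop) _ _ (by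
        rw [add_zero, (inv_smul_eq_iff₀ c0).2 ec])
      have c2 := (rat_cont (a := a) (j := j) (x := (p.1, Y p)) (by simp [r1])).tendsto.comp c1
      simp only [r1, r2, div_one] at c2
      have c3 : Tendsto (fun w : (ℂ × ℝ) × (ℂ × ℂ) × V n => w.2.1.2) (𝓝 ((0, 0), p, y))
        (𝓝 p.2) := Continuous.tendsto' (by fun_prop) _ _ rfl
      have c4 := (((continuous_snd.tendsto _).comp c2).sub c3).norm
      rw [sub_self, norm_zero] at c4
      have c5 : ∀ᶠ w : (ℂ × ℝ) × (ℂ × ℂ) × V n in 𝓝 ((0, 0), p, y), w.2.2 j ≠ 0 :=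
        ContinuousAt.eventually_ne (by fun_prop) c0
      filter_upwards [c1.eventually r4, c2.eventually (hc.1.mem_nhds (hU hp)),
        c4.eventually (ge_mem_nhds hε), c5] with w w1 w2 w3 w4 m _
      have pw := (Pp.smul (inv_ne_zero c0) w.2.2).symm
      rw [pw.div a j]
      refine ⟨w4, w3, w2, ?_⟩
      rw [← pw.div a j]
      exact sca pw (w1 (hX.scal _ m _ (inv_ne_zero c0)))
    · have Y0 := hX.nz _ r3
      have c1 : Tendsto (fun w : (ℂ × ℝ) × (ℂ × ℂ) × V n => w.2.1) (𝓝 ((0, 0), p, y)) (𝓝 p) :=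
        Continuous.tendsto' (by fun_prop) _ _ rfl
      have c2 : Tendsto (fun w : (ℂ × ℝ) × (ℂ × ℂ) × V n => w.2.2) (𝓝 ((0, 0), p, y)) (𝓝 y) :=
        Continuous.tendsto' (by fun_prop) _ _ rfl
      have c3 : Tendsto (fun w : (ℂ × ℝ) × (ℂ × ℂ) × V n => w.1.2) (𝓝 ((0, 0), p, y)) (𝓝 0) :=
        Continuous.tendsto' (by fun_prop) _ _ rfl
      have c4 := d2_lim c2 ((hc.2.1 p (hU hp)).continuousAt.tendsto.comp c1) y0 Y0
      filter_upwards [c3.eventually_lt c4 (d2_pos y0 Y0 e)] with w w1 _ w2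
      exact (w1.not_ge w2).elim)
  obtain ⟨δ, δ0, hδ⟩ := Metric.eventually_nhds_iff.1 key
  refine ⟨δ / 2, half_pos δ0, fun p hp x hx h1 h2 => ?_⟩
  have x0 := norm_ne_zero_iff.2 (hX.nz x hx)
  have c0 : ((‖x.2‖⁻¹ : ℝ) : ℂ) ≠ 0 := Complex.ofReal_ne_zero.2 (inv_ne_zero x0)
  have pw := (Pp.smul c0 x.2).symm
  have := hδ (y := (x.1 - p.1, δ / 2)) (by
    rw [Prod.dist_eq, dist_zero_right, dist_zero_right, Real.norm_of_nonneg (half_pos δ0).le]
    exact (max_le h1 le_rfl).trans_lt (half_lt_self δ0)) (p, ((‖x.2‖⁻¹ : ℝ) : ℂ) • x.2) ⟨hp, by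
      simp [norm_smul, x0]⟩
  simp only [add_sub_cancel] at this
  obtain ⟨k1, k2, k3, k4⟩ := this (hX.scal x hx _ c0) (pw.d2 (.refl _) ▸ h2)
  exact ⟨(pw.coord j).2 k1, pw.div a j ▸ k2, pw.div a j ▸ k3, sca pw k4⟩

end Pool.Agent.MP_c69980_ag.E1
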