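import Pool.Agent.MP_c69980_ag.E1.BaseC

/-!
Surfaces fibred over an elliptic curve: finitely many classes in each fibre.
-/

set_option autoImplicit false

noncomputable section

namespace Pool.Agent.MP_c69980_ag.E1

open Metric Filter Topology Set

namespace ClsX

variable {n : ℕ} {X : Set (Pt n)} {a j : Fin n} {t : ℂ} {y : V n} {S : Finset ℂ}

lemma loc (hX : Cn X) (h : (t, y) ∈ Rg X a j) (h1 : y j = 1) :
    (∀ᶠ w in 𝓝 y, (t, w) ∈ X → Cl X t y w) ∧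
      ∀ᶠ ζ in 𝓝 (y a), ∃ w, ((t, w) ∈ Rg X a j ∧ w j = 1 ∧ w a = ζ) ∧ Cl X t y w := by
  obtain ⟨U, Y, c, z, z1, z2⟩ := h
  have ez : y a = z := by simpa [h1] using c.div z1 z2
  obtain ⟨r, r0, hr⟩ := Metric.mem_nhds_iff.1
    ((Continuous.prodMk_right t).continuousAt.preimage_mem_nhds (c.nhds z1))
  have k : ∀ ζ ∈ ball z r, Cl X t y (Y (t, ζ)) := fun ζ hζ => by
    refine (Cl.pp (y' := Y (t, z)) ⟨(fun ζ => Y (t, ζ)) '' ball z r,
      (convex_ball z r).isPreconnected.image _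
        (c.cont.comp (Continuous.prodMk_right t).continuousOn hr), ?_, ⟨ζ, hζ, rfl⟩,
      z, mem_ball_self r0, rfl⟩ z2).symm
    rintro _ ⟨w, hw, rfl⟩
    exact c.rx (hr hw) (.refl _)
  have m := (Continuous.prodMk_right (Y := V n) t).tendsto y
  refine ⟨?_, ?_⟩
  · filter_upwards [m.eventually (c.ev hX z1 z2), ((continuous_snd.tendsto _).comp
      ((c.tend z1 z2).comp m)).eventually (ball_mem_nhds z r0)] with w w1 w2 hw
    exact (k _ w2).pp ⟨_, (w1 hw).1, (w1 hw).2.2⟩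
  · rw [ez]
    filter_upwards [ball_mem_nhds z r0] with ζ hζ
    exact ⟨_, ⟨c.rg (hr hζ) (.refl _), c.yj (hr hζ), c.ya (hr hζ)⟩, k ζ hζ⟩

/-- Every point over `ζ` is joined to a point over `ζ'`. -/
def Jn (X : Set (Pt n)) (t : ℂ) (a j : Fin n) (ζ ζ' : ℂ) : Prop :=
  ∀ y, (t, y) ∈ Rg X a j ∧ y j = 1 ∧ y a = ζ →
    ∃ w, ((t, w) ∈ Rg X a j ∧ w j = 1 ∧ w a = ζ') ∧ Cl X t y w

lemma near (hX : Cn X) (h : Prp X t a j S) {ζ : ℂ} (hζ : ζ ∉ S) :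
    ∀ᶠ ζ' in 𝓝 ζ, Jn X t a j ζ ζ' ∧ Jn X t a j ζ' ζ := by
  refine Eventually.and ((eventually_all_finite (h ζ hζ).1).2 fun y hy =>
    hy.2.2 ▸ (loc hX hy.1 hy.2.1).2) (by_contra fun q => ?_)
  let B : Set (V n) := {y | ((t, y) ∈ Rg X a j ∧ y j = 1) ∧
    ¬ ∃ w, ((t, w) ∈ Rg X a j ∧ w j = 1 ∧ w a = ζ) ∧ Cl X t y w}
  have ne : (comap (fun y : V n => y a) (𝓝 ζ) ⊓ 𝓟 B).NeBot := by
    refine frequently_iff_neBot.1 (frequently_comap.2 ((not_eventually.1 q).mono fun ζ' q' => ?_))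
    by_contra q2
    exact q' fun y hy => by_contra fun q3 => q2 ⟨y, hy.2.2, ⟨hy.1, hy.2.1⟩, q3⟩
  obtain ⟨u, hu⟩ := Ultrafilter.exists_le (comap (fun y : V n => y a) (𝓝 ζ) ⊓ 𝓟 B)
  have uB : ∀ᶠ y in u, y ∈ B := (hu.trans inf_le_right) (mem_principal_self B)
  have ua : Tendsto (fun y : V n => y a) u (𝓝 ζ) := tendsto_comap.mono_left (hu.trans inf_le_left)
  obtain ⟨y, y1, y2⟩ := (h ζ hζ).2 u (uB.mono fun y hy => hy.1) ua
  have c : ∀ i, Tendsto (fun w : V n => w i) u (𝓝 (y i)) := fun i =>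
    ((continuous_apply i).tendsto y).mono_left y2
  have yj : y j = 1 := tendsto_nhds_unique (c j)
    (tendsto_const_nhds.congr' (uB.mono fun w hw => hw.1.2.symm))
  obtain ⟨w, w1, w2⟩ := (uB.and (y2 (loc hX y1 yj).1)).exists
  exact w1.2 ⟨y, ⟨y1, yj, tendsto_nhds_unique (c a) ua⟩, (w2 (Rg.mem hX w1.1.1)).symm⟩

lemma far (hX : Cn X) (h : Prp X t a j S) {ζ ζ' : ℂ} (hζ : ζ ∉ S) (hζ' : ζ' ∉ S) :
    Jn X t a j ζ ζ' := by
  refine (S.finite_toSet.countable.isConnected_compl_of_one_lt_rank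
    (by simp)).isPreconnected.induction₂' _ (fun x hx => nhdsWithin_le_nhds (near hX h hx))
    (fun x y z _ _ _ p q w hw => ?_) hζ hζ'
  obtain ⟨w1, a1, a2⟩ := p w hw
  obtain ⟨w2, b1, b2⟩ := q w1 a1
  exact ⟨w2, b1, a2.trans b2⟩

end ClsX

open ClsX in
theorem cls : ClsStmt := by
  intro n X hX h t
  choose S hS using h t
  choose ζ hζ using fun a j => Infinite.exists_notMem_finset (S a j)
  refine ⟨(fun y => {w | Cl X t y w}) ''
    ⋃ a, ⋃ j, {y | (t, y) ∈ Rg X a j ∧ y j = 1 ∧ y a = ζ a j},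
    (finite_iUnion fun a => finite_iUnion fun j => (hS a j _ (hζ a j)).1).image _, ?_, ?_⟩
  · rintro _ ⟨y, -, rfl⟩
    refine ⟨isPreconnected_of_forall y ?_, fun w hw => hw.symm.left⟩
    rintro w ⟨A, a1, a2, a3, a4⟩
    exact ⟨A, fun v hv => ⟨A, a1, a2, a3, hv⟩, a3, a4, a1⟩
  · rintro y ⟨a, j, hy⟩
    have y0 : y j ≠ 0 := Rg.coord hy
    have p : Pp ((y j)⁻¹ • y) y := .smul (inv_ne_zero y0) y
    obtain ⟨z, z1, w, w1, w2⟩ := ((S a j).finite_toSet.countable.dense_compl ℂ).inter_nhds_nonempty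
      (loc hX (Rg.pp hy p) (by simp [y0])).2
    obtain ⟨v, v1, v2⟩ := far hX (hS a j) z1 (hζ a j) w w1
    exact ⟨_, ⟨v, mem_iUnion₂.2 ⟨a, j, v1⟩, rfl⟩, (w2.trans v2).symm.pp p.symm⟩

end Pool.Agent.MP_c69980_ag.E1
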