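import Pool.Agent.MP_c69980_ag.H4.DefsB

/-!
Smooth projective surfaces and elliptic curves.
-/

set_option autoImplicit false

namespace Pool.Agent.MP_c69980_ag.E1

open MvPolynomial H60

/-- Smooth surfaces (Jacobian criterion): near each of its points, `W` is the common zero set of
`n - 3` forms in the `n` homogeneous coordinates with linearly independent differentials. -/
def Smo {n : ℕ} (W : Set (PS n)) : Prop :=
  ∀ x ∈ W, ∃ (c e : ℕ) (P : Fin c → MvPolynomial (Fin n) ℂ) (d : Fin c → ℕ)
    (g : MvPolynomial (Fin n) ℂ), c + 3 = n ∧ (∀ k, (P k).IsHomogeneous (d k)) ∧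
    g.IsHomogeneous e ∧ eval x.rep g ≠ 0 ∧
    (LinearIndependent ℂ fun k i => eval x.rep (pderiv i (P k))) ∧
    ∀ y : PS n, eval y.rep g ≠ 0 → (y ∈ W ↔ ∀ k, eval y.rep (P k) = 0)

open Classical in
/-- Homogeneous coordinates of the point `t` of `ℂ / L` on the Weierstrass cubic. -/
noncomputable def th (L : PeriodPair) (t : ℂ) : Fin 3 → ℂ :=
  if t ∈ L.lattice then ![0, 1, 0] else ![L.weierstrassP t, L.derivWeierstrassP t, 1]

/-- The elliptic curve `ℂ / L` in the projective plane. -/
def Ell (L : PeriodPair) : Set (PS 3) := {p | ∃ t h, p = Projectivization.mk ℂ (th L t) h}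

end Pool.Agent.MP_c69980_ag.E1
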