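import Pool.Agent.MP_c69980_ag.E1.SpecB

/-!
The Weierstrass parametrisation of an elliptic curve is a holomorphic embedding of `ℂ / L`.
-/

set_option autoImplicit false

namespace Pool.Agent.MP_c69980_ag.E1

open Metric Filter Topology Set PeriodPair

namespace Ell

variable (L : PeriodPair)

theorem pp_symm {y w : V 3} (h : Pp y w) : Pp w y := by
  obtain ⟨c, hc, rfl⟩ := h
  exact ⟨c⁻¹, inv_ne_zero hc, (inv_smul_smul₀ hc w).symm⟩

theorem pp_trans {y w u : V 3} (h : Pp y w) (h' : Pp w u) : Pp y u := by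
  obtain ⟨c, hc, rfl⟩ := h
  obtain ⟨e, he, rfl⟩ := h'
  exact ⟨c * e, mul_ne_zero hc he, smul_smul c e u⟩

theorem pp_div {y w : V 3} (h : Pp y w) (a j : Fin 3) :
    (y j ≠ 0 ↔ w j ≠ 0) ∧ y a / y j = w a / w j := by
  obtain ⟨c, hc, rfl⟩ := h
  exact ⟨by simp [hc], mul_div_mul_left _ _ hc⟩

theorem near {x : ℂ} (hx : x ∉ L.lattice) : ∀ᶠ z in 𝓝 x, z ∉ L.lattice :=
  L.isClosed_lattice.isOpen_compl.mem_nhds hx

theorem cnt : (L.lattice : Set ℂ).Countable :=
  Set.countable_coe_iff.1 L.latticeEquivProd.injective.countable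

theorem hasP {x : ℂ} (hx : x ∉ L.lattice) : HasDerivAt ℘[L] (℘'[L] x) x := by
  rw [← L.deriv_weierstrassP]
  exact (L.analyticOnNhd_weierstrassP x hx).differentiableAt.hasDerivAt

theorem ode (h : LatStmt) {x : ℂ} (hx : x ∉ L.lattice) :
    HasDerivAt ℘'[L] (6 * ℘[L] x ^ 2 - L.g₂ / 2) x := by
  have h0 := L.analyticOnNhd_derivWeierstrassP
  have h1 : AnalyticOnNhd ℂ (fun z => 2 * deriv ℘'[L] z - (12 * ℘[L] z ^ 2 - L.g₂))
      (L.lattice : Set ℂ)ᶜ := (analyticOnNhd_const.mul h0.deriv).sub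
    ((analyticOnNhd_const.mul (L.analyticOnNhd_weierstrassP.pow 2)).sub analyticOnNhd_const)
  have hc := ((cnt L).isConnected_compl_of_one_lt_rank (by simp)).isPreconnected
  rcases h0.eq_zero_or_eq_zero_of_mul_eq_zero h1 (fun z hz => by
    have h2 := (h0 z hz).differentiableAt.hasDerivAt.fun_pow 2
    have h3 := ((((hasP L hz).fun_pow 3).const_mul 4).fun_sub
      ((hasP L hz).const_mul L.g₂)).sub_const L.g₃
    have h4 := (h3.congr_of_eventuallyEq
      ((near L hz).mono fun z hz => L.derivWeierstrassP_sq z hz)).unique h2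
    simp only [Nat.cast_ofNat, Nat.add_one_sub_one, pow_one] at h4
    linear_combination -h4) hc with h2 | h2
  · obtain ⟨c, hc'⟩ := L.isClosed_lattice.isOpen_compl.exists_is_const_of_deriv_eq_zero hc
      L.differentiableOn_weierstrassP fun w hw => by simpa using h2 w hw
    obtain ⟨t, h3, h4⟩ := ((h L).2.1 (Polynomial.X - Polynomial.C c) 0
      (Polynomial.X_sub_C_ne_zero c)).exists
    exact absurd (by simp [hc' t h3]) h4
  · refine (h0 x hx).differentiableAt.hasDerivAt.congr_deriv ?_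
    linear_combination h2 x hx / 2

/-- Uniqueness for `v'' = v w`. -/
theorem ord0 {v w : ℂ → ℂ} {a : ℂ} (hv : AnalyticAt ℂ v a) (hw : AnalyticAt ℂ w a)
    (h : deriv (deriv v) =ᶠ[𝓝 a] v * w) (h0 : v a = 0) (h1 : deriv v a = 0) :
    ∀ᶠ z in 𝓝 a, v z = 0 := by
  have e1 := hv.analyticOrderAt_deriv_add_one
  have e2 := hv.deriv.analyticOrderAt_deriv_add_one
  simp only [h0, h1, sub_zero] at e1 e2
  rw [analyticOrderAt_congr h, analyticOrderAt_mul hv hw] at e2
  have e3 : analyticOrderAt v a + analyticOrderAt w a + 1 + 1 = analyticOrderAt v a := by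
    rw [e2]
    exact e1
  rw [← analyticOrderAt_eq_top]
  generalize analyticOrderAt v a = m at e3
  generalize analyticOrderAt w a = k at e3
  cases m with
  | top => rfl
  | coe m =>
    cases k with
    | top => simp at e3
    | coe k =>
      norm_cast at e3
      omega

theorem key (h : LatStmt) {a c : ℂ} (ha : a ∉ L.lattice) (hb : a + c ∉ L.lattice)
    (e0 : ℘[L] a = ℘[L] (a + c)) (e1 : ℘'[L] a = ℘'[L] (a + c)) : c ∈ L.lattice := by
  have hS : ((L.lattice : Set ℂ) ∪ (fun z => z + c) ⁻¹' L.lattice).Countable :=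
    (cnt L).union ((cnt L).preimage (add_left_injective c))
  have hO : IsOpen ((L.lattice : Set ℂ) ∪ (fun z => z + c) ⁻¹' L.lattice)ᶜ :=
    (L.isClosed_lattice.union (L.isClosed_lattice.preimage (by fun_prop))).isOpen_compl
  have an : ∀ z, z + c ∉ L.lattice → AnalyticAt ℂ (fun z => ℘[L] (z + c)) z := fun z hz =>
    (L.analyticOnNhd_weierstrassP _ hz).comp (f := fun z => z + c) (by fun_prop)
  have hv : AnalyticOnNhd ℂ (fun z => ℘[L] z - ℘[L] (z + c))
      ((L.lattice : Set ℂ) ∪ (fun z => z + c) ⁻¹' L.lattice)ᶜ := fun z hz =>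
    (L.analyticOnNhd_weierstrassP z fun h => hz (Or.inl h)).sub (an z fun h => hz (Or.inr h))
  have d1 : ∀ z ∈ ((L.lattice : Set ℂ) ∪ (fun z => z + c) ⁻¹' L.lattice)ᶜ,
      deriv (fun z => ℘[L] z - ℘[L] (z + c)) z = ℘'[L] z - ℘'[L] (z + c) := fun z hz =>
    ((hasP L fun h => hz (Or.inl h)).fun_sub
      ((hasP L fun h => hz (Or.inr h)).comp_add_const z c)).deriv
  have hm : a ∈ ((L.lattice : Set ℂ) ∪ (fun z => z + c) ⁻¹' L.lattice)ᶜ := fun h => h.elim ha hb
  have h1 := ord0 (w := fun z => 6 * (℘[L] z + ℘[L] (z + c))) (hv a hm)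
    (analyticAt_const.mul ((L.analyticOnNhd_weierstrassP a ha).add (an a hb))) (by
      filter_upwards [hO.mem_nhds hm] with z hz
      rw [Filter.EventuallyEq.deriv_eq (mem_of_superset (hO.mem_nhds hz) d1),
        ((ode L h fun h => hz (Or.inl h)).fun_sub
          ((ode L h fun h => hz (Or.inr h)).comp_add_const z c)).deriv, Pi.mul_apply]
      ring) (sub_eq_zero.2 e0) (by rw [d1 a hm, e1, sub_self])
  have h2 := hv.eqOn_zero_of_preconnected_of_eventuallyEq_zero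
    (hS.isConnected_compl_of_one_lt_rank (by simp)).isPreconnected hm h1
  by_contra hc
  have hc' : 0 + c ∉ L.lattice := by rwa [zero_add]
  have h3 : ℘[L] =ᶠ[𝓝[≠] 0] fun z => ℘[L] (z + c) := by
    filter_upwards [self_mem_nhdsWithin,
      nhdsWithin_le_nhds (L.compl_lattice_sdiff_singleton_mem_nhds 0),
      nhdsWithin_le_nhds (((continuous_add_const c).tendsto 0).eventually (near L hc'))]
      with z h3 h4 h5
    exact sub_eq_zero.1 (h2 fun h6 => h6.elim (fun h6 => h4 ⟨h6, h3⟩) h5)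
  have h4 := (an 0 hc').meromorphicOrderAt_nonneg
  rw [← meromorphicOrderAt_congr h3, L.order_weierstrassP 0 (zero_mem _)] at h4
  exact absurd h4 (by decide)

theorem crit (h : LatStmt) {a : ℂ} (ha : a ∉ L.lattice) (e1 : ℘'[L] a = 0) :
    deriv ℘'[L] a ≠ 0 := fun e2 => by
  have hp := L.analyticOnNhd_weierstrassP a ha
  have d1 : deriv (fun z => ℘[L] z - ℘[L] a) = ℘'[L] := by
    funext z
    rw [deriv_sub_const, L.deriv_weierstrassP]
  rw [(ode L h ha).deriv] at e2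
  have h1 := ord0 (v := fun z => ℘[L] z - ℘[L] a) (w := fun z => 6 * (℘[L] z + ℘[L] a))
    (hp.sub analyticAt_const) (analyticAt_const.mul (hp.add analyticAt_const)) (by
      filter_upwards [near L ha] with z hz
      rw [d1, (ode L h hz).deriv, Pi.mul_apply]
      linear_combination e2) (sub_self _) (by rw [d1, e1])
  obtain ⟨t, h3, h4⟩ := (((h L).2.1 (Polynomial.X - Polynomial.C (℘[L] a)) a
    (Polynomial.X_sub_C_ne_zero _)).and (nhdsWithin_le_nhds h1)).exists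
  exact h3.2 (by simpa using h4)

theorem th_in {t : ℂ} (h : t ∈ L.lattice) : th L t = ![0, 1, 0] := if_pos h

theorem th_out {t : ℂ} (h : t ∉ L.lattice) : th L t = ![℘[L] t, ℘'[L] t, 1] := if_neg h

theorem th_sub (t : ℂ) {l : ℂ} (h : l ∈ L.lattice) : th L (t - l) = th L t := by
  by_cases ht : t ∈ L.lattice
  · rw [th_in L ht, th_in L (sub_mem ht h)]
  · rw [th_out L ht, th_out L fun h' => ht (by simpa using add_mem h' h),
      L.weierstrassP_sub_coe t ⟨l, h⟩, L.derivWeierstrassP_sub_coe t ⟨l, h⟩]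

theorem inj (h : LatStmt) (t t' : ℂ) (hp : Pp (th L t) (th L t')) : t - t' ∈ L.lattice := by
  by_cases ht : t ∈ L.lattice <;> by_cases ht' : t' ∈ L.lattice
  · exact sub_mem ht ht'
  · have h1 := (pp_div hp 0 2).1
    rw [th_in L ht, th_out L ht'] at h1
    simp at h1
  · have h1 := (pp_div hp 0 2).1
    rw [th_out L ht, th_in L ht'] at h1
    simp at h1
  · have h1 := (pp_div hp 0 2).2
    have h2 := (pp_div hp 1 2).2
    rw [th_out L ht, th_out L ht'] at h1 h2
    refine key L h ht' ?_ ?_ ?_ <;> rw [add_sub_cancel]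
    · exact ht
    · simpa using h1.symm
    · simpa using h2.symm

/-- Local holomorphic coordinates. -/
theorem loc (h : LatStmt) (t₀ : ℂ) : ∃ (g : ℂ → V 3) (a j : Fin 3), AnalyticAt ℂ g t₀ ∧
    g t₀ j ≠ 0 ∧ deriv (fun t => g t a / g t j) t₀ ≠ 0 ∧ ∀ᶠ t in 𝓝 t₀, Pp (th L t) (g t) := by
  by_cases ht : t₀ ∈ L.lattice
  · have a0 : AnalyticAt ℂ (fun t => (t - t₀) * (1 + (t - t₀) ^ 2 *
        (L.weierstrassPExcept t₀ t - 1 / t₀ ^ 2))) t₀ := by fun_prop
    have a1 : AnalyticAt ℂ (fun t => -2 + (t - t₀) ^ 3 * L.derivWeierstrassPExcept t₀ t) t₀ := by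
      fun_prop
    have a2 : AnalyticAt ℂ (fun t => (t - t₀) ^ 3) t₀ := by fun_prop
    refine ⟨fun t => ![(t - t₀) * (1 + (t - t₀) ^ 2 * (L.weierstrassPExcept t₀ t - 1 / t₀ ^ 2)),
      -2 + (t - t₀) ^ 3 * L.derivWeierstrassPExcept t₀ t, (t - t₀) ^ 3], 0, 1,
      analyticAt_pi_iff.2 fun i => ?_, by simp, ?_, ?_⟩
    · fin_cases i
      exacts [a0, a1, a2]
    · have a3 : AnalyticAt ℂ (fun t => 1 + (t - t₀) ^ 2 *
          (L.weierstrassPExcept t₀ t - 1 / t₀ ^ 2)) t₀ := by fun_prop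
      have h1 := ((((hasDerivAt_id' t₀).sub_const t₀).fun_mul a3.differentiableAt.hasDerivAt).fun_div
        a1.differentiableAt.hasDerivAt (by simp)).deriv
      refine fun h2 => absurd (h1.symm.trans h2) ?_
      simp
    · filter_upwards [L.compl_lattice_sdiff_singleton_mem_nhds t₀] with t h1
      by_cases e : t = t₀
      · refine ⟨-2⁻¹, by norm_num, ?_⟩
        rw [e, th_in L ht]
        ext i
        fin_cases i <;> simp
      · have h2 : t - t₀ ≠ 0 := sub_ne_zero.2 e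
        refine ⟨((t - t₀) ^ 3)⁻¹, inv_ne_zero (pow_ne_zero _ h2), ?_⟩
        rw [th_out L fun h3 => h1 ⟨h3, e⟩, ← L.weierstrassPExcept_add ⟨t₀, ht⟩,
          ← L.derivWeierstrassPExcept_sub ⟨t₀, ht⟩]
        ext i
        fin_cases i
        · simp only [Fin.zero_eta, Matrix.cons_val_zero, Pi.smul_apply, smul_eq_mul]
          field_simp
          ring
        · simp only [Fin.mk_one, Matrix.cons_val_one, Matrix.cons_val_zero, Pi.smul_apply,
            smul_eq_mul]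
          field_simp
          ring
        · simp [h2]
  · have a0 : AnalyticAt ℂ (fun t => (![℘[L] t, ℘'[L] t, 1] : V 3)) t₀ :=
      analyticAt_pi_iff.2 fun i => by
        fin_cases i
        exacts [L.analyticOnNhd_weierstrassP t₀ ht, L.analyticOnNhd_derivWeierstrassP t₀ ht,
          analyticAt_const]
    have a1 : ∀ᶠ t in 𝓝 t₀, Pp (th L t) ![℘[L] t, ℘'[L] t, 1] := (near L ht).mono fun t h1 =>
      ⟨1, one_ne_zero, by rw [th_out L h1, one_smul]⟩
    by_cases e : ℘'[L] t₀ = 0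
    · exact ⟨_, 1, 2, a0, by simp, by simpa using crit L h ht e, a1⟩
    · exact ⟨_, 0, 2, a0, by simp, by simpa using e, a1⟩

theorem coord (h : LatStmt) (t₀ : ℂ) : ∃ (a j : Fin 3) (ψ : ℂ → ℂ), AnalyticAt ℂ ψ t₀ ∧
    deriv ψ t₀ ≠ 0 ∧ ∀ᶠ t in 𝓝 t₀, th L t j ≠ 0 ∧ ψ t = th L t a / th L t j := by
  obtain ⟨g, a, j, h1, h2, h3, h4⟩ := loc L h t₀
  have h5 := analyticAt_pi_iff.1 h1
  refine ⟨a, j, _, (h5 a).div (h5 j) h2, h3, ?_⟩
  filter_upwards [h4, (h5 j).continuousAt.eventually_ne h2] with t h6 h7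
  exact ⟨(pp_div h6 a j).1.2 h7, (pp_div h6 a j).2.symm⟩

/-- Not being proportional is an open condition. -/
theorem opn (h : LatStmt) {w₀ : V 3} (h0 : w₀ ≠ 0) {t₁ : ℂ} (hn : ¬ Pp w₀ (th L t₁)) :
    ∀ᶠ z : V 3 × ℂ in 𝓝 (w₀, t₁), ¬ Pp z.1 (th L z.2) := by
  obtain ⟨g, -, j, h1, h2, -, h4⟩ := loc L h t₁
  obtain ⟨i, hi⟩ : ∃ i, w₀ i * g t₁ j - w₀ j * g t₁ i ≠ 0 := by
    by_contra h5
    have h6 : w₀ = (w₀ j / g t₁ j) • g t₁ := funext fun i => by
      have h7 := sub_eq_zero.1 (not_not.1 (not_exists.1 h5 i))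
      rw [Pi.smul_apply, smul_eq_mul, div_mul_eq_mul_div, ← h7, mul_div_cancel_right₀ _ h2]
    refine hn (pp_trans ⟨_, fun h7 => h0 ?_, h6⟩ (pp_symm h4.self_of_nhds))
    rw [h6, h7, zero_smul]
  have c1 : ContinuousAt (fun z : V 3 × ℂ => g z.2) (w₀, t₁) :=
    h1.continuousAt.comp_of_eq continuousAt_snd rfl
  have c2 : ContinuousAt (fun z : V 3 × ℂ => z.1 i * g z.2 j - z.1 j * g z.2 i) (w₀, t₁) := by
    have c3 := continuousAt_pi.1 (continuousAt_fst (p := (w₀, t₁)))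
    exact ((c3 i).mul (continuousAt_pi.1 c1 j)).sub ((c3 j).mul (continuousAt_pi.1 c1 i))
  filter_upwards [c2.eventually_ne hi, (continuous_snd.tendsto (w₀, t₁)).eventually h4]
    with z h5 h6 h7
  obtain ⟨c, -, e⟩ := pp_trans h7 h6
  refine h5 ?_
  rw [e, Pi.smul_apply, Pi.smul_apply, smul_eq_mul, smul_eq_mul]
  ring

/-- Points of the curve near a given one come from a neighbourhood of the parameter. -/
theorem back (h : LatStmt) {t₀ : ℂ} {w₀ : V 3} (h0 : w₀ ≠ 0) (hw : Pp w₀ (th L t₀)) {U : Set ℂ}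
    (hU : U ∈ 𝓝 t₀) : ∀ᶠ w in 𝓝 w₀, ∀ t, Pp w (th L t) → ∃ t' ∈ U, Pp w (th L t') := by
  obtain ⟨R, -, hR⟩ := (h L).1
  have hO : IsOpen (⋃ l ∈ L.lattice, (fun t => t - l) ⁻¹' interior U) :=
    isOpen_biUnion fun l _ => isOpen_interior.preimage (by fun_prop)
  filter_upwards [((isCompact_closedBall (0 : ℂ) R).diff hO).eventually_forall_of_forall_eventually
    (x₀ := w₀) (P := fun w t => ¬ Pp w (th L t)) fun t ht => opn L h h0 fun h1 => ht.2
      (mem_iUnion₂.2 ⟨t - t₀, inj L h t t₀ (pp_trans (pp_symm h1) hw), by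
        simpa using mem_interior_iff_mem_nhds.2 hU⟩)] with w h1 t ht
  obtain ⟨l, hl, h2⟩ := hR t
  rw [← th_sub L t hl] at ht
  obtain ⟨l', hl', h3⟩ := mem_iUnion₂.1
    (not_not.1 fun h3 => h1 (t - l) ⟨mem_closedBall_zero_iff.2 h2, h3⟩ ht)
  exact ⟨_, interior_subset h3, (th_sub L (t - l) hl').symm ▸ ht⟩

end Ell

open Ell in
theorem ell (h : LatStmt) : EllStmt := by
  intro L
  refine ⟨fun t _ => ?_, inj L h, coord L h, fun t₀ w₀ hw => ?_⟩
  · obtain ⟨g, -, j, h1, h2, -, h4⟩ := loc L h t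
    obtain ⟨r, hr, h5⟩ := Metric.eventually_nhds_iff_ball.1 (h1.eventually_analyticAt.and
      (((analyticAt_pi_iff.1 h1 j).continuousAt.eventually_ne h2).and h4))
    exact ⟨g, r, hr, ⟨fun w hw => (h5 w hw).1.differentiableAt.differentiableWithinAt,
      fun w hw e => (h5 w hw).2.1 (congrFun e j)⟩, fun w hw => (h5 w hw).2.2⟩
  obtain ⟨a, j, ψ, h1, h2, h3⟩ := coord L h t₀
  have h4 := HasStrictDerivAt.eventually_left_inverse h1.hasStrictDerivAt h2
  have h5 := h1.analyticAt_localInverse h2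
  generalize h1.hasStrictDerivAt.localInverse _ _ _ h2 = σ at h4 h5
  have h6 : w₀ j ≠ 0 := (pp_div hw a j).1.2 h3.self_of_nhds.1
  have h7 : ∀ᶠ t in 𝓝 t₀, ∀ w, Pp w (th L t) → t = σ (w a / w j) := by
    filter_upwards [h3, h4] with t e1 e2 w e3
    rw [(pp_div e3 a j).2, ← e1.2, e2]
  have h8 : ∀ i, AnalyticAt ℂ (fun w : V 3 => w i) w₀ := fun i =>
    (ContinuousLinearMap.proj (R := ℂ) (φ := fun _ : Fin 3 => ℂ) i).analyticAt w₀
  refine ⟨fun w => σ (w a / w j), h5.fun_comp_of_eq ((h8 a).div (h8 j) h6)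
    ((pp_div hw a j).2.trans h3.self_of_nhds.2.symm), (h7.self_of_nhds w₀ hw).symm, ?_, ?_⟩
  · filter_upwards [back L h (fun e => h6 (congrFun e j)) hw h7] with w e1 ⟨t, e2⟩
    obtain ⟨t', e3, e4⟩ := e1 t e2
    rwa [← e3 w e4]
  · filter_upwards [(continuous_fst.tendsto ((t₀, w₀) : Pt 3)).eventually h7] with q e1 e2
    exact e1 _ e2

end Pool.Agent.MP_c69980_ag.E1
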