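import Pool.Agent.MP_c69980_ag.E1.BaseC

/-!
Expansivity of the space of entire sections on half-planes.
-/

set_option autoImplicit false

noncomputable section

namespace Pool.Agent.MP_c69980_ag.E1

open MvPolynomial Metric Filter Topology Set
open scoped ComplexConjugate
open H60 H4

namespace ExpX

variable {n : ℕ}

lemma re_le {e : ℂ} (he : ‖e‖ = 1) (w : ℂ) : |(w * conj e).re| ≤ ‖w‖ := by
  refine (Complex.abs_re_le_norm _).trans_eq ?_
  rw [norm_mul, Complex.norm_conj, he, mul_one]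

lemma re_sub {e : ℂ} (he : ‖e‖ = 1) (t w : ℂ) : (t * conj e).re - ‖w - t‖ ≤ (w * conj e).re := by
  have h := (abs_le.1 (re_le he (w - t))).1
  rw [sub_mul, Complex.sub_re] at h
  linarith

lemma re_deep {e : ℂ} (he : ‖e‖ = 1) (y : ℝ) : ((y : ℂ) * e * conj e).re = y := by
  rw [mul_assoc, Complex.mul_conj, Complex.normSq_eq_norm_sq, he]
  simp

lemma uq_zero (D : Fib n) {Q : PR 3} {d : ℕ} (hQ : Q.IsHomogeneous d) {B : PR n} {f : ℕ}
    (hB : B.IsHomogeneous f) (h : ∀ a j U Y, Chart D.X a j U Y → ∀ p ∈ U,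
      eval (fun l => fc D.Φ Y (D.e l) p) Q = 0 → eval (Y p) B = 0) {s : ℂ → V n}
    (hs : Sc D.X univ s) {t : ℂ} (ht : Uq D Q s t = 0) : eval (s t) B = 0 := by
  have r := hs.rx D.cov.cn D.nonreg isOpen_univ (mem_univ t)
  have v := Rx.vt D.cov.cn r
  obtain ⟨a, j, U, Y, c, z, z1, z2⟩ := r
  obtain ⟨κ, k0, -, -, k⟩ := D.frm.vt D.cov.cn c z1 z2 v
  have e : (fun l => ph D s (D.e l) t) = κ ^ D.m • fun l => fc D.Φ Y (D.e l) (t, z) :=
    funext fun l => k (D.e l)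
  rw [Uq, e, eval_smul_hom hQ] at ht
  exact (z2.eval hB).2 (h a j U Y c _ z1
    ((mul_eq_zero.1 ht).resolve_left (pow_ne_zero _ (pow_ne_zero _ k0))))

lemma reps {α : Type} (S : α → Prop) (R : α → α → Prop) (hR : ∀ a, R a a)
    (hs : ∀ a b, R a b → R b a) (K : ℕ)
    (h : ∀ F : Finset α, (∀ a ∈ F, S a) → (∀ a ∈ F, ∀ b ∈ F, R a b → a = b) → F.card ≤ K) :
    ∃ T : Set α, T.Finite ∧ (∀ a ∈ T, S a) ∧ ∀ a, S a → ∃ b ∈ T, R a b := by
  classical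
  by_contra hn
  have key : ∀ k : ℕ, ∃ F : Finset α, (∀ a ∈ F, S a) ∧ (∀ a ∈ F, ∀ b ∈ F, R a b → a = b) ∧
      F.card = k := by
    intro k
    induction k with
    | zero => exact ⟨∅, by simp, by simp, rfl⟩
    | succ k ih =>
      obtain ⟨F, f1, f2, f3⟩ := ih
      obtain ⟨a, a1, a2⟩ : ∃ a, S a ∧ ∀ b ∈ F, ¬R a b := by
        by_contra q
        refine hn ⟨F, F.finite_toSet, f1, fun a ha => by_contra fun r => q ⟨a, ha, ?_⟩⟩
        exact fun b hb e => r ⟨b, hb, e⟩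
      refine ⟨insert a F, fun b hb => ?_, fun b hb c hc e => ?_, ?_⟩
      · rcases Finset.mem_insert.1 hb with rfl | hb
        exacts [a1, f1 b hb]
      · rcases Finset.mem_insert.1 hb with rfl | q <;> rcases Finset.mem_insert.1 hc with rfl | r
        exacts [rfl, absurd e (a2 c r), absurd (hs _ _ e) (a2 b q), f2 b q c r e]
      · rw [Finset.card_insert_of_notMem fun q => a2 a q (hR a), f3]
  obtain ⟨F, f1, f2, f3⟩ := key (K + 1)
  have := h F f1 f2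
  omega

lemma roots (A : Polynomial (Polynomial ℂ)) {x : ℂ} (h : A.leadingCoeff.eval x ≠ 0) :
    ∃ Z : Finset ℂ, Z.card ≤ A.natDegree ∧ ∀ y, A.evalEval x y = 0 → y ∈ Z := by
  have R0 : A.map (Polynomial.evalRingHom x) ≠ 0 := fun q => h (by
    have := congrArg (fun r => Polynomial.coeff r A.natDegree) q
    simpa [Polynomial.coeff_map] using this)
  refine ⟨(A.map (Polynomial.evalRingHom x)).roots.toFinset, (Multiset.toFinset_card_le _).trans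
    ((Polynomial.card_roots' _).trans Polynomial.natDegree_map_le), fun y hy => ?_⟩
  rw [Multiset.mem_toFinset, Polynomial.mem_roots R0, Polynomial.IsRoot,
    Polynomial.map_evalRingHom_eval, hy]

lemma drop (D : Fib n) {B : PR n} (hB : NZ D.X B) : ∃ A : Polynomial (Polynomial ℂ), A ≠ 0 ∧
    ∀ a j t y, (t, y) ∈ D.X → t ∉ D.L.lattice → y j ≠ 0 → eval y B = 0 →
      A.evalEval (D.L.weierstrassP t) (y a / y j) = 0 := by
  choose P P0 hP using fun q : Fin n × Fin n => D.drop B q.1 q.2 hB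
  refine ⟨∏ q, P q, Finset.prod_ne_zero_iff.2 fun q _ => P0 q, fun a j t y h1 h2 h3 h4 => ?_⟩
  rw [Polynomial.evalEval_prod]
  exact Finset.prod_eq_zero (Finset.mem_univ (a, j)) (hP (a, j) (t, y) h1 h2 h3 h4)

lemma count {ι : Type} [Fintype ι] (y : ι → V n) (j : ι → Fin n) (Z : Finset ℂ)
    (h1 : ∀ s, y s (j s) ≠ 0) (h2 : ∀ s a, y s a / y s (j s) ∈ Z)
    (h3 : ∀ s s', Pp (y s) (y s') → s = s') : Fintype.card ι ≤ n * Z.card ^ n := by
  classical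
  have m : Fintype.card ι ≤ Fintype.card (Fin n × (Fin n → Z)) := by
    refine Fintype.card_le_of_injective (fun s => (j s, fun a => ⟨_, h2 s a⟩))
      fun s s' e => h3 s s' ⟨y s (j s) / y s' (j s'), div_ne_zero (h1 s) (h1 s'),
        funext fun a => ?_⟩
    have a3 : y s a / y s (j s) = y s' a / y s' (j s') :=
      congrArg Subtype.val (congrFun (Prod.mk.inj e).2 a)
    rw [Pi.smul_apply, smul_eq_mul, div_mul_eq_mul_div, mul_div_assoc, ← a3,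
      mul_div_cancel₀ _ (h1 s)]
  simpa using m

lemma bound (hL : LatStmt) (D : Fib n) {B : PR n} (hB : NZ D.X B) : ∃ K : ℕ,
    ∀ F : Finset (ℂ → V n), (∀ s ∈ F, Sc D.X univ s ∧ ∀ t, eval (s t) B = 0) →
      (∀ s ∈ F, ∀ s' ∈ F, (∀ t, Pp (s t) (s' t)) → s = s') → F.card ≤ K := by
  obtain ⟨A, A0, hA⟩ := drop D hB
  refine ⟨n * A.natDegree ^ n, fun F f1 f2 => ?_⟩
  have j1 : ∀ s : F, ∃ j, s.1 0 j ≠ 0 := fun s =>
    Function.ne_iff.1 ((f1 s.1 s.2).1.1.ne (mem_univ 0))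
  choose j hj using j1
  have e1 := (hL D.L).2.1 _ 0 (Polynomial.leadingCoeff_ne_zero.2 A0)
  have e2 : ∀ᶠ t in 𝓝[≠] (0 : ℂ), ∀ s : F, s.1 t (j s) ≠ 0 := eventually_all.2 fun s =>
    nhdsWithin_le_nhds ((f1 s.1 s.2).1.1.ratio (mem_univ 0) (j s) (hj s)).2
  have e3 : ∀ᶠ t in 𝓝[≠] (0 : ℂ), ∀ s s' : F, Pp (s.1 t) (s'.1 t) → s = s' :=
    eventually_all.2 fun s => eventually_all.2 fun s' => by
      rcases (f1 s.1 s.2).1.1.iden_pp (f1 s'.1 s'.2).1.1 isPreconnected_univ with q | q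
      · exact .of_forall fun _ _ => Subtype.ext (f2 _ s.2 _ s'.2 fun t => q t (mem_univ t))
      · exact (q 0 (mem_univ 0)).mono fun t a b => absurd b a
  obtain ⟨t, ⟨t1, t2⟩, t3, t4⟩ := (e1.and (e2.and e3)).exists
  obtain ⟨Z, z1, z2⟩ := roots A t2
  have m := count (fun s : F => s.1 t) j Z t3 (fun s a => z2 _ (hA a (j s) t _
    ((f1 s.1 s.2).1.2 t (mem_univ t)) t1 (t3 s) ((f1 s.1 s.2).2 t))) t4
  rw [Fintype.card_coe] at m
  exact m.trans (Nat.mul_le_mul_left _ (Nat.pow_le_pow_left z1 _))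

lemma sep {T : Set (ℂ → V n)} (hT : T.Finite) (h0 : ∀ s ∈ T, ∀ t, s t ≠ 0) :
    ∃ δ M : ℝ, 0 < δ ∧ ∀ s ∈ T, ∀ s' ∈ T, ¬(∀ t, Pp (s t) (s' t)) →
      ∃ t, ‖t‖ ≤ M ∧ δ < d2 (s t) (s' t) := by
  have key : ∀ᶠ q : ℝ × ℝ in 𝓝[>] (0 : ℝ) ×ˢ atTop, ∀ s ∈ T, ∀ s' ∈ T,
      ¬(∀ t, Pp (s t) (s' t)) → ∃ t, ‖t‖ ≤ q.2 ∧ q.1 < d2 (s t) (s' t) := by
    refine (eventually_all_finite hT).2 fun s hs => (eventually_all_finite hT).2 fun s' hs' => ?_
    by_cases h : ∀ t, Pp (s t) (s' t)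
    · exact .of_forall fun _ q => absurd h q
    · obtain ⟨t, ht⟩ := not_forall.1 h
      filter_upwards [tendsto_snd.eventually (eventually_ge_atTop ‖t‖), tendsto_fst.eventually
        (nhdsWithin_le_nhds (gt_mem_nhds (d2_pos (h0 s hs t) (h0 s' hs' t) ht)))] with q a b _
      exact ⟨t, a, b⟩
  obtain ⟨q, q1, q2⟩ := (key.and (tendsto_fst.eventually self_mem_nhdsWithin)).exists
  exact ⟨q.1, q.2, q2, q1⟩

end ExpX

open ExpX

theorem exp0 (h1 : LocStmt) (h2 : BarStmt) (h3 : LatStmt) : Exp0Stmt := by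
  intro n D
  obtain ⟨Q, d, d0, hQ, Q0, hv⟩ := D.van
  obtain ⟨B, hB, hz⟩ := D.zero Q d hQ Q0
  obtain ⟨δ, ρ, c, C, δ0, ρ0, c0, hl⟩ := h1 n D Q d d0 hQ hv
  refine ⟨δ, B, δ0, hB, fun s s' hs hs' ⟨e, y₀, he, hc⟩ => ?_⟩
  have near : ∀ t : ℂ, y₀ + 2 * ρ ≤ (t * conj e).re → ∀ w ∈ ball t (2 * ρ), d2 (s w) (s' w) ≤ δ :=
    fun t ht w hw => hc w (by linarith [re_sub he t w, mem_ball_iff_norm.1 hw])
  have bar := h2 (uu D Q d s s') (ZZ D Q s s') e (y₀ + 2 * ρ) ρ c C he ρ0 c0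
    (fun t ht q => (hl s s' hs hs' t ht (near t q.le)).1)
    fun t ht q => (hl s s' hs hs' t ht (near t (by linarith))).2
  obtain ⟨⟨f, hf⟩, -⟩ := hB
  rcases hs.1.iden_pp hs'.1 isPreconnected_univ with q | q
  · exact .inl fun t => q t (mem_univ t)
  rcases hs.1.iden_eval isPreconnected_univ hf with q' | q'
  · exact .inr fun t => q' t (mem_univ t)
  exfalso
  set t₀ : ℂ := ((y₀ + 3 * ρ + 1 : ℝ) : ℂ) * e with ht₀
  obtain ⟨w, w1, w2, w3, w4⟩ := ((q t₀ (mem_univ _)).and ((q' t₀ (mem_univ _)).and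
    (((h3 D.L).2.1 1 t₀ one_ne_zero).and (nhdsWithin_le_nhds (ball_mem_nhds t₀ one_pos))))).exists
  refine w2 (uq_zero D hQ hf hz hs (by_contra fun w5 => ?_))
  have a1 := bar w ⟨w3.1, w1, w5⟩
  have a2 := re_sub he t₀ w
  have a3 := mem_ball_iff_norm.1 w4
  rw [ht₀, re_deep he] at a2
  rw [ht₀] at a3
  linarith

theorem secFin (h : LatStmt) : SecFinStmt := by
  intro n D B hB
  obtain ⟨K, hK⟩ := bound h D hB
  obtain ⟨T, t1, t2, t3⟩ := reps (fun s => Sc D.X univ s ∧ ∀ t, eval (s t) B = 0)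
    (fun s s' => ∀ t, Pp (s t) (s' t)) (fun s t => .refl _) (fun s s' q t => (q t).symm) K hK
  exact ⟨T, t1, t2, fun s a b => t3 s ⟨a, b⟩⟩

theorem expS (h1 : Exp0Stmt) (h2 : SecFinStmt) (h3 : LatStmt) : ExpStmt := by
  intro n D
  obtain ⟨δ₀, B, δ0, hB, hE⟩ := h1 n D
  obtain ⟨T, t1, t2, t3⟩ := h2 n D B hB
  obtain ⟨δ, M, δ1, hM⟩ := sep t1 fun s hs t => (t2 s hs).1.1.ne (mem_univ t)
  obtain ⟨R, -, hR⟩ := (h3 D.L).1
  refine ⟨min δ₀ δ, lt_min δ0 δ1, fun s s' hs hs' ⟨e, y₀, he, hc⟩ => by_contra fun hn => ?_⟩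
  have b1 := (hE s s' hs hs' ⟨e, y₀, he, fun t q => (hc t q).trans (min_le_left _ _)⟩).resolve_left
    hn
  have b2 := (hE s' s hs' hs ⟨e, y₀, he, fun t q =>
    (d2_symm _ _).trans_le ((hc t q).trans (min_le_left _ _))⟩).resolve_left
    fun q => hn fun t => (q t).symm
  obtain ⟨l, l1, l2⟩ := hR (((y₀ + M + R + 1 : ℝ) : ℂ) * e)
  obtain ⟨g, g1, g2⟩ := t3 _ (hs.shift D.cov l1 fun _ _ => mem_univ _) fun t => b1 _
  obtain ⟨g', g1', g2'⟩ := t3 _ (hs'.shift D.cov l1 fun _ _ => mem_univ _) fun t => b2 _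
  obtain ⟨t, a1, a2⟩ := hM g g1 g' g1' fun q => hn fun t => by
    simpa using (g2 (t - l)).trans ((q (t - l)).trans (g2' (t - l)).symm)
  have a3 := re_sub he (((y₀ + M + R + 1 : ℝ) : ℂ) * e) l
  have a4 := re_sub he l (t + l)
  rw [re_deep he, norm_sub_rev] at a3
  rw [add_sub_cancel_right] at a4
  have a5 := (hc (t + l) (by linarith)).trans (min_le_right _ _)
  rw [(g2 t).d2 (g2' t)] at a5
  linarith

end Pool.Agent.MP_c69980_ag.E1
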