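import Pool.Agent.MP_c69980_ag.E1.Base

/-!
Finitely many entire sections, and a curve that contains them.
-/

set_option autoImplicit false

noncomputable section

namespace Pool.Agent.MP_c69980_ag.E1

open MvPolynomial Metric Filter Topology Set
open scoped ComplexConjugate
open H60 H4

namespace FinX

variable {n : ℕ}

lemma d2_continuous {s g : ℂ → V n} (hs : LH univ s) (hg : LH univ g) :
    Continuous fun t => d2 (s t) (g t) := continuous_iff_continuousAt.2 fun t => by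
  obtain ⟨a, a1, a2, a3⟩ := lh_iff.1 hs t trivial
  obtain ⟨b, b1, b2, b3⟩ := lh_iff.1 hg t trivial
  have c : ContinuousAt (fun w => d2 (a w) (b w)) t := d2_lim a1.continuousAt b1.continuousAt a2 b2
  refine c.congr ?_
  filter_upwards [a3, b3] with w w1 w2 using (w1.d2 w2).symm

/-- A point of least modulus where a continuous function is at least `δ`. -/
lemma least {f : ℂ → ℝ} (hf : Continuous f) {δ : ℝ} (h : ∃ t, δ ≤ f t) :
    ∃ t, δ ≤ f t ∧ ∀ w, ‖w‖ < ‖t‖ → f w ≤ δ := by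
  obtain ⟨t, t1, t2⟩ := (isClosed_le continuous_const hf).exists_infDist_eq_dist h 0
  refine ⟨t, t1, fun w hw => le_of_lt (not_le.1 ?_)⟩
  refine notMem_of_dist_lt_infDist (s := {t | δ ≤ f t}) (x := 0) ?_
  rw [t2]
  simpa using hw

lemma norm_lt {t a : ℂ} (ht : 0 < ‖t‖)
    (h : 2 * (a * conj (t / ‖t‖)).re + ‖a‖ ^ 2 * ‖t‖⁻¹ < 0) : ‖t + a‖ < ‖t‖ := by
  have e : (a * conj (t / ‖t‖)).re = (a * conj t).re * ‖t‖⁻¹ := by
    rw [map_div₀, Complex.conj_ofReal, ← mul_div_assoc, Complex.div_ofReal_re, div_eq_mul_inv]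
  have h2 : 2 * (a * conj t).re + ‖a‖ ^ 2 < 0 := by
    rw [e, ← mul_assoc, ← add_mul] at h
    exact neg_of_mul_neg_left h (inv_pos.2 ht).le
  refine lt_of_pow_lt_pow_left₀ 2 ht.le ?_
  rw [add_comm, Complex.sq_norm, Complex.normSq_add, ← Complex.sq_norm, ← Complex.sq_norm]
  linarith

lemma ulim (u : Ultrafilter ℕ) {K : Set ℂ} (hK : IsCompact K) {f : ℕ → ℂ}
    (h : ∀ᶠ k in u, f k ∈ K) : ∃ x ∈ K, Tendsto f u (𝓝 x) :=
  hK.ultrafilter_le_nhds (u.map f) (le_principal_iff.2 h)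

/-- The Schwarz lemma for a zero of high order. -/
lemma schwarz {f : ℂ → ℂ} {R M : ℝ} {N : ℕ} (hR : 0 < R)
    (hd : DifferentiableOn ℂ f (ball 0 (2 * R)))
    (hM : ∀ z ∈ ball (0 : ℂ) (2 * R), ‖f z‖ ≤ M) (h0 : ∀ i < N + 1, iteratedDeriv i f 0 = 0)
    {z : ℂ} (hz : ‖z‖ ≤ R) : ‖f z‖ ≤ M * (1 / 2) ^ (N + 1) := by
  have r2 : 0 < 2 * R := by positivity
  have ha : AnalyticAt ℂ f 0 := hd.analyticAt (ball_mem_nhds 0 r2)
  obtain ⟨g, g1, g2⟩ := (natCast_le_analyticOrderAt ha).1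
    ((natCast_le_analyticOrderAt_iff_iteratedDeriv_eq_zero ha).2 h0)
  have f0 : f 0 = 0 := by simpa using h0 0 (Nat.succ_pos N)
  have M0 : 0 ≤ M := (norm_nonneg _).trans (hM 0 (mem_ball_self r2))
  have o1 : (fun w : ℂ => w * g w) =o[𝓝 0] fun _ => (1 : ℝ) := by
    refine (Asymptotics.isLittleO_one_iff ℝ).2 ?_
    have : Tendsto (fun w : ℂ => w * g w) (𝓝 0) (𝓝 (0 * g 0)) :=
      tendsto_id.mul g1.continuousAt.tendsto
    rwa [zero_mul] at this
  have o2 : (f · - f 0) =o[𝓝 0] fun w : ℂ => ‖w - 0‖ ^ N := by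
    have o3 : (fun w : ℂ => w ^ N) =O[𝓝 0] fun w : ℂ => ‖w - 0‖ ^ N :=
      Asymptotics.IsBigO.of_bound 1 (.of_forall fun w => by simp)
    refine (o3.mul_isLittleO o1).congr' ?_ (.of_forall fun w => mul_one _)
    filter_upwards [g2] with w hw
    rw [hw, f0, smul_eq_mul]
    ring
  have h := Complex.dist_le_mul_div_pow_of_mapsTo_ball_of_isLittleO hd (R₂ := M)
    (fun w hw => by rw [f0, mem_closedBall_zero_iff]; exact hM w hw) o2
    (z := z) (mem_ball_zero_iff.2 (by linarith))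
  rw [f0, dist_zero_right, dist_zero_right] at h
  refine h.trans (mul_le_mul_of_nonneg_left (pow_le_pow_left₀ (by positivity) ?_ _) M0)
  rw [div_le_iff₀ r2]
  linarith

/-- Linear algebra: a combination that vanishes to high order along finitely many curves. -/
lemma comb {ι κ : Type} [Fintype ι] [Fintype κ] (f : ι → κ → ℂ → ℂ)
    (hf : ∀ s p, AnalyticAt ℂ (f s p) 0) (N : ℕ) (h : Fintype.card ι * N < Fintype.card κ) :
    ∃ c : κ → ℂ, (∃ p, c p ≠ 0) ∧ ∀ s, ∀ i < N,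
      iteratedDeriv i (fun t => ∑ p, c p * f s p t) 0 = 0 := by
  have li : ¬LinearIndependent ℂ
      fun (p : κ) (q : ι × Fin N) => iteratedDeriv q.2 (f q.1 p) 0 := fun li => by
    have := li.fintype_card_le_finrank
    simp only [Module.finrank_fintype_fun_eq_card, Fintype.card_prod, Fintype.card_fin] at this
    omega
  obtain ⟨c, c1, c2⟩ := Fintype.not_linearIndependent_iff.1 li
  refine ⟨c, c2, fun s i hi => ?_⟩
  rw [iteratedDeriv_fun_sum (f := fun p t => c p * f s p t)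
    fun p _ => (analyticAt_const.mul (hf s p)).contDiffAt]
  simpa using congrFun c1 (s, ⟨i, hi⟩)

/-- The exponents. -/
def ex (e : ℕ) (p : Fin (e + 1) × Fin (e + 1)) : Fin 3 →₀ ℕ :=
  Finsupp.equivFunOnFinite.symm ![p.1, p.2, 2 * e - p.1 - p.2]

lemma ex_inj (e : ℕ) : Function.Injective (ex e) := fun p q h => by
  have h1 := DFunLike.congr_fun h 0
  have h2 := DFunLike.congr_fun h 1
  exact Prod.ext (Fin.ext (by simpa [ex] using h1)) (Fin.ext (by simpa [ex] using h2))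

lemma ex_deg (e : ℕ) (p : Fin (e + 1) × Fin (e + 1)) : (ex e p).degree = 2 * e := by
  have := p.1.2
  have := p.2.2
  rw [Finsupp.degree_eq_sum, Fin.sum_univ_three]
  simp [ex]
  omega

/-- A form in three variables that vanishes to high order along finitely many curves. -/
lemma siegel {ι : Type} [Fintype ι] (v : ι → ℂ → V 3) (hv : ∀ s, AnalyticAt ℂ (v s) 0) (m : ℕ) :
    ∃ (e : ℕ) (Q : PR 3), Q.IsHomogeneous (2 * e) ∧ Q ≠ 0 ∧ ∀ s, ∀ i < m * e + 1,
      iteratedDeriv i (fun t => eval (v s t) Q) 0 = 0 := by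
  obtain ⟨e, he⟩ : ∃ e, e = Fintype.card ι * (m + 1) := ⟨_, rfl⟩
  obtain ⟨c, ⟨p, hp⟩, hc⟩ := comb (fun s p t => eval (v s t) (monomial (ex e p) (1 : ℂ)))
    (fun s p => eval_an (hv s) _) (m * e + 1) (by
      simp only [Fintype.card_prod, Fintype.card_fin]
      have h1 : Fintype.card ι * m + Fintype.card ι = e := by rw [he]; ring
      nlinarith [Nat.zero_le (Fintype.card ι * e), Nat.zero_le (Fintype.card ι * m)])
  refine ⟨e, ∑ p, c p • monomial (ex e p) (1 : ℂ), ?_, fun h => hp ?_, fun s i hi => ?_⟩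
  · exact (mem_homogeneousSubmodule _ _).1 (Submodule.sum_mem _ fun p _ =>
      Submodule.smul_mem _ _ ((mem_homogeneousSubmodule _ _).2
        (isHomogeneous_monomial _ (ex_deg e p))))
  · exact Fintype.linearIndependent_iff.1
      ((basisMonomials (Fin 3) ℂ).linearIndependent.comp _ (ex_inj e)) c h p
  · simpa only [map_sum, smul_eval] using hc s i hi

lemma bd_pp {B : PR n} {d : ℕ} (hB : B.IsHomogeneous d) {M : ℝ} {y w : V n} (h : Pp y w)
    (H : ‖eval w B‖ ≤ M * ‖w‖ ^ d) : ‖eval y B‖ ≤ M * ‖y‖ ^ d := by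
  obtain ⟨c, -, rfl⟩ := h
  rw [eval_smul_hom hB, norm_mul, norm_pow, norm_smul, mul_pow, mul_left_comm]
  exact mul_le_mul_of_nonneg_left H (by positivity)

lemma bd_zero {B : PR n} {d : ℕ} (hB : B.IsHomogeneous d) :
    ∃ M : ℝ, 0 ≤ M ∧ ∀ y : V n, y ≠ 0 → ‖eval y B‖ ≤ M * ‖y‖ ^ d := by
  obtain ⟨M, hM⟩ := (isCompact_sphere (0 : V n) 1).exists_bound_of_continuousOn
    (MvPolynomial.continuous_eval B).continuousOn
  refine ⟨max M 0, le_max_right _ _, fun y hy => ?_⟩
  have y0 : ((‖y‖ : ℝ) : ℂ) ≠ 0 := by simpa using hy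
  have e : ‖((‖y‖ : ℝ) : ℂ)⁻¹ • y‖ = 1 := by
    rw [norm_smul, norm_inv, Complex.norm_real, norm_norm, inv_mul_cancel₀ (norm_ne_zero_iff.2 hy)]
  refine bd_pp hB (Pp.smul (inv_ne_zero y0) y).symm ?_
  rw [e, one_pow, mul_one]
  exact (hM _ (mem_sphere_zero_iff_norm.2 e)).trans (le_max_left _ _)

lemma ratio_bd {g : ℂ → V n} {K : Set ℂ} (hK : IsCompact K) (hg : ContinuousOn g K)
    (h0 : ∀ z ∈ K, g z ≠ 0) :
    ∀ᶠ m : ℕ in atTop, ∀ z ∈ K, ∀ w ∈ K, ‖g z‖ ^ 2 ≤ 2 ^ m * ‖g w‖ ^ 2 := by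
  obtain ⟨C, hC⟩ := (hK.prod hK).exists_bound_of_continuousOn
    (f := fun q : ℂ × ℂ => ‖g q.1‖ ^ 2 / ‖g q.2‖ ^ 2)
    (((hg.comp continuousOn_fst fun _ h => h.1).norm.pow 2).div
      ((hg.comp continuousOn_snd fun _ h => h.2).norm.pow 2)
      fun q hq => pow_ne_zero 2 (norm_ne_zero_iff.2 (h0 _ hq.2)))
  filter_upwards [(tendsto_pow_atTop_atTop_of_one_lt (one_lt_two (α := ℝ))).eventually_ge_atTop C]
    with m hm z hz w hw
  have := (le_abs_self _).trans ((hC (z, w) ⟨hz, hw⟩).trans hm)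
  rwa [div_le_iff₀ (pow_pos (norm_pos_iff.2 (h0 w hw)) 2)] at this

end FinX

open FinX in
theorem finS (h1 : ExpStmt) (h2 : CptStmt) (h3 : LatStmt) : FinStmt := by
  intro n D
  obtain ⟨δ, δ0, hδ⟩ := h1 n D
  obtain ⟨R, -, hR⟩ := (h3 D.L).1
  by_contra hn
  obtain ⟨s, hs, hne⟩ := exists_seq_of_forall_finset_exists (fun s => Sc D.X univ s)
    (fun x y => ¬∀ t, Pp (y t) (x t)) fun T hT => by
      by_contra q
      refine hn ⟨T, T.finite_toSet, fun s hs => ⟨hT s hs, trivial⟩, fun s hs _ => ?_⟩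
      by_contra q'
      exact q ⟨s, hs, fun x hx h => q' ⟨x, hx, h⟩⟩
  let u := hyperfilter ℕ
  have cpt : ∀ f : ℕ → ℂ → V n, (∀ k, Sc D.X univ (f k)) → ∃ g, Sc D.X univ g ∧ Cv u univ f g :=
    fun f hf => h2 n D u f fun R => .of_forall fun k => (hf k).mono (subset_univ _)
  obtain ⟨g, hg, cg⟩ := cpt s hs
  have ne : ∀ᶠ k in u, ¬∀ t, Pp (s k t) (g t) := by
    refine (Set.Subsingleton.finite (s := {k | ∀ t, Pp (s k t) (g t)})
      fun a ha b hb => ?_).compl_mem_hyperfilter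
    rcases lt_trichotomy a b with h | h | h
    · exact absurd (fun t => (hb t).trans (ha t).symm) (hne a b h)
    · exact h
    · exact absurd (fun t => (ha t).trans (hb t).symm) (hne b a h)
  have ex : ∀ k, (¬∀ t, Pp (s k t) (g t)) → ∃ t, δ ≤ d2 (s k t) (g t) ∧
      ∀ w, ‖w‖ < ‖t‖ → d2 (s k w) (g w) ≤ δ := fun k hk => by
    refine least (d2_continuous (hs k).1 hg.1) (by_contra fun q => hk ?_)
    exact hδ _ _ (hs k) hg ⟨1, 0, norm_one, fun t _ => le_of_not_ge fun h => q ⟨t, h⟩⟩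
  choose! t ht using ex
  choose l hl hl' using fun k => hR (t k)
  have inf : Tendsto (fun k => ‖t k‖) u atTop := tendsto_atTop.2 fun r => by
    filter_upwards [ne, cg.unif (isCompact_closedBall 0 r) (subset_univ _) (half_pos δ0)]
      with k k1 k2
    by_contra q
    have := (ht k k1).1.trans (k2 _ (mem_closedBall_zero_iff.2 (le_of_not_ge q)))
    linarith
  obtain ⟨G, hG, cG⟩ := cpt (fun k w => s k (w + l k)) fun k =>
    Sc.shift D.cov (hs k) (hl k) fun _ _ => trivial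
  obtain ⟨G', hG', cG'⟩ := cpt (fun k w => g (w + l k)) fun k =>
    Sc.shift D.cov hg (hl k) fun _ _ => trivial
  obtain ⟨τ, -, hτ⟩ := ulim u (isCompact_closedBall 0 R) (f := fun k => t k - l k)
    (.of_forall fun k => mem_closedBall_zero_iff.2 (hl' k))
  have pos := inf.eventually_gt_atTop 0
  obtain ⟨v, hv, tv⟩ := ulim u (isCompact_sphere 0 1) (f := fun k => t k / (‖t k‖ : ℝ)) (by
    filter_upwards [pos] with k hk
    rw [mem_sphere_zero_iff_norm, norm_div, Complex.norm_real, norm_norm, div_self hk.ne'])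
  have far : δ ≤ d2 (G τ) (G' τ) := by
    refine ge_of_tendsto (cG.d2 cG' trivial hτ) ?_
    filter_upwards [ne] with k hk
    simpa only [sub_add_cancel] using (ht k hk).1
  have pp := hδ G G' hG hG' ⟨-v, (τ * conj (-v)).re, by
    rw [norm_neg]; exact mem_sphere_zero_iff_norm.1 hv, fun w hw => by
      refine le_of_tendsto (cG.d2 cG' trivial (tendsto_const_nhds (x := w))) ?_
      have a1 : Tendsto (fun k => w - (t k - l k)) u (𝓝 (w - τ)) := tendsto_const_nhds.sub hτ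
      have a2 := (((Complex.continuous_re.tendsto _).comp (a1.mul
        ((Complex.continuous_conj.tendsto _).comp tv))).const_mul 2).add
        ((a1.norm.pow 2).mul inf.inv_tendsto_atTop)
      have a3 : 2 * ((w - τ) * conj v).re + ‖w - τ‖ ^ 2 * 0 < 0 := by
        simp only [map_neg, mul_neg, Complex.neg_re] at hw
        rw [sub_mul, Complex.sub_re]
        linarith
      filter_upwards [ne, pos, a2.eventually_lt_const a3] with k k1 k2 k3
      refine (ht k k1).2 _ ?_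
      have e : w + l k = t k + (w - (t k - l k)) := by ring
      rw [e]
      exact norm_lt k2 k3⟩ τ
  rw [(d2_eq_zero (hG.1.ne trivial) (hG'.1.ne trivial)).2 pp] at far
  linarith

open FinX in
theorem cur (h1 : FinStmt) (h2 : LiftStmt) (h3 : LatStmt) : CurStmt := by
  intro n D
  obtain ⟨T, hT, hT1, hT2⟩ := h1 n D
  obtain ⟨R, R0, hR⟩ := (h3 D.L).1
  obtain ⟨a, b, j, big⟩ := D.big
  haveI := hT.fintype
  choose g hg hg' using fun s : T => h2 n s.1 0 (3 * R) (4 * R) (by linarith)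
    ((hT1 s.1 s.2).1.1.mono (subset_univ _))
  have sub : closedBall (0 : ℂ) (2 * R) ⊆ ball 0 (3 * R) := closedBall_subset_ball (by linarith)
  have sub' := ball_subset_closedBall.trans sub
  obtain ⟨m, hm⟩ := (eventually_all.2 fun s : T => ratio_bd (isCompact_closedBall 0 (2 * R))
    ((hg s).1.continuousOn.mono sub) fun z hz => (hg s).2 z (sub hz)).exists
  have ev : ∀ (y : V n) (Q : PR 3), eval y (rename ![a, b, j] Q) = eval ![y a, y b, y j] Q :=
    fun y Q => by
      have e : y ∘ ![a, b, j] = ![y a, y b, y j] := by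
        funext i
        fin_cases i <;> rfl
      rw [eval_rename, e]
  obtain ⟨e, Q, Q1, Q0, Q2⟩ := siegel (fun (s : T) t => ![g s t a, g s t b, g s t j]) (fun s => by
    have := analyticAt_pi_iff.1 (Crv.an (hg s) isOpen_ball (mem_ball_self (by linarith)))
    refine analyticAt_pi_iff.2 fun i => ?_
    fin_cases i
    exacts [this a, this b, this j]) m
  have hB : (rename ![a, b, j] Q : PR n).IsHomogeneous (2 * e) := Q1.rename_isHomogeneous
  refine ⟨rename ![a, b, j] Q, ⟨⟨_, hB⟩, ?_⟩, fun s hs t => ?_⟩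
  · simpa only [ev] using big Q _ Q1 Q0
  simp only [← ev] at Q2
  generalize (rename ![a, b, j] Q : PR n) = B at hB Q2 ⊢
  obtain ⟨M, M0, hM⟩ := bd_zero hB
  have key : ∀ k : ℕ, ∀ s, Sc D.X univ s → ∀ t,
      ‖eval (s t) B‖ ≤ M * (1 / 2) ^ k * ‖s t‖ ^ (2 * e) := fun k => by
    induction k with
    | zero => exact fun s hs t => by simpa using hM _ (hs.1.ne trivial)
    | succ k ih =>
      intro s hs t
      obtain ⟨l, hl, hl'⟩ := hR t
      obtain ⟨s', hs', pp⟩ := hT2 _ (Sc.shift D.cov hs hl fun _ _ => trivial) trivial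
      have w2 : t - l ∈ closedBall (0 : ℂ) (2 * R) := mem_closedBall_zero_iff.2 (by linarith)
      have p1 : Pp (s t) (g ⟨s', hs'⟩ (t - l)) := by
        have := pp (t - l)
        rw [sub_add_cancel] at this
        exact this.trans (hg' ⟨s', hs'⟩ _ (sub w2))
      refine bd_pp hB p1 ?_
      have b1 := schwarz R0 (H18.evd ((hg ⟨s', hs'⟩).1.mono sub') B)
        (M := M * (1 / 2) ^ k * (2 ^ m * ‖g ⟨s', hs'⟩ (t - l)‖ ^ 2) ^ e) (fun z hz => by
          refine (bd_pp hB (hg' ⟨s', hs'⟩ z (sub' hz)).symm (ih s' (hT1 s' hs').1 z)).trans ?_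
          rw [pow_mul]
          exact mul_le_mul_of_nonneg_left (pow_le_pow_left₀ (by positivity)
            (hm _ z (ball_subset_closedBall hz) _ w2) e) (by positivity)) (Q2 ⟨s', hs'⟩) hl'
      refine b1.trans_eq ?_
      have e2 : (2 : ℝ) ^ (m * e) * (1 / 2) ^ (m * e) = 1 := by
        rw [← mul_pow]
        simp
      rw [mul_pow, ← pow_mul, ← pow_mul, pow_succ, pow_succ]
      linear_combination (M * (1 / 2) ^ k * ‖g ⟨s', hs'⟩ (t - l)‖ ^ (2 * e) * (1 / 2)) * e2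
  have lim : Tendsto (fun k : ℕ => M * (1 / 2 : ℝ) ^ k * ‖s t‖ ^ (2 * e)) atTop (𝓝 0) := by
    have := ((tendsto_pow_atTop_nhds_zero_of_lt_one (r := (1 / 2 : ℝ)) (by norm_num)
      (by norm_num)).const_mul M).mul_const (‖s t‖ ^ (2 * e))
    simpa only [mul_zero, zero_mul] using this
  exact norm_le_zero_iff.1 (ge_of_tendsto' lim fun k => key k s hs t)

end Pool.Agent.MP_c69980_ag.E1
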