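import Pool.Agent.MP_c69980_ag.E1.SpecB

/-!
Derivatives of regular functions in a chart of a smooth surface.
-/

set_option autoImplicit false

noncomputable section

namespace Pool.Agent.MP_c69980_ag.E1

open MvPolynomial Metric Filter Topology Set
open H60 H4

namespace PD

variable {n : ℕ} {K : Type} [Field K] [Algebra ℂ K] {z : Fin n → K} {y : V n}

theorem unit (hy : On z y) (a : rg hy) (h : chi hy a ≠ 0) : IsUnit a := by
  obtain ⟨_, F, G, e, hF, hG, hx, rfl⟩ := a
  have h1 : eval y F ≠ 0 := fun q => h ((vl_eq hy hF hG hx).trans (by simp [q]))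
  refine isUnit_iff_exists_inv.2 ⟨⟨_, G, F, e, hG, hF, h1, rfl⟩, Subtype.ext ?_⟩
  have h2 : aeval z F ≠ 0 := fun q => h1 (hy F e hF q)
  have h3 : aeval z G ≠ 0 := fun q => hx (hy G e hG q)
  change aeval z F / aeval z G * (aeval z G / aeval z F) = 1
  field_simp

/-- A matrix whose value is injective has a left inverse. -/
theorem left_inv (hy : On z y) {ι : Type} [Fintype ι] (M : Matrix ι (Fin n) (rg hy))
    (h : ∀ v : V n, (M.map (chi hy)).mulVec v = 0 → v = 0) :
    ∃ B : Matrix (Fin n) ι (rg hy), B * M = 1 := by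
  classical
  obtain ⟨g, hg⟩ := LinearMap.exists_leftInverse_of_injective (M.map (chi hy)).toLin'
    (LinearMap.ker_eq_bot'.2 h)
  have h1 : LinearMap.toMatrix' g * M.map (chi hy) = 1 := by
    rw [← LinearMap.toMatrix'_toLin' (M.map (chi hy)), ← LinearMap.toMatrix'_comp, hg,
      LinearMap.toMatrix'_id]
  let L : Matrix (Fin n) ι (rg hy) := (LinearMap.toMatrix' g).map (algebraMap ℂ _)
  have h2 : (L * M).map (chi hy) = 1 := by
    rw [← h1, Matrix.map_mul]
    congr 1
    ext i k
    exact (chi hy).commutes _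
  have h3 : IsUnit (L * M).det := unit hy _ (by
    have := (chi hy).toRingHom.map_det (L * M)
    rw [RingHom.mapMatrix_apply] at this
    change chi hy _ = ((L * M).map (chi hy)).det at this
    rw [this, h2, Matrix.det_one]
    exact one_ne_zero)
  exact ⟨(L * M)⁻¹ * L, by rw [Matrix.mul_assoc, Matrix.nonsing_inv_mul _ h3]⟩

theorem der_aeval (E : Derivation ℂ K K) (u : Fin n → K) (P : PR n) :
    E (aeval u P) = ∑ i, aeval u (pderiv i P) * E (u i) := by
  induction P using MvPolynomial.induction_on with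
  | C c => simp
  | add p q hp hq => simp only [map_add, hp, hq, add_mul, Finset.sum_add_distrib]
  | mul_X p k hp =>
    simp only [map_mul, aeval_X, Derivation.leibniz, hp, smul_eq_mul, map_add, pderiv_X,
      Pi.single_apply, add_mul, Finset.sum_add_distrib, Finset.mul_sum, mul_assoc]
    simp [apply_ite, ← Finset.mul_sum]

theorem fd_eval {Y : ℂ × ℂ → V n} {q : ℂ × ℂ} (hY : DifferentiableAt ℂ Y q) (P : PR n) :
    DifferentiableAt ℂ (fun p => eval (Y p) P) q ∧ ∀ v, fderiv ℂ (fun p => eval (Y p) P) q v =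
      ∑ i, eval (Y q) (pderiv i P) * fderiv ℂ Y q v i := by
  induction P using MvPolynomial.induction_on with
  | C c => simp
  | add p r hp hr =>
    simp only [map_add]
    refine ⟨hp.1.add hr.1, fun v => ?_⟩
    rw [fderiv_fun_add hp.1 hr.1]
    simp only [add_apply, hp.2, hr.2, add_mul, Finset.sum_add_distrib]
  | mul_X p k hp =>
    have hk : DifferentiableAt ℂ (fun x => Y x k) q := differentiableAt_pi.1 hY k
    have e : ∀ v, fderiv ℂ (fun x => Y x k) q v = fderiv ℂ Y q v k := fun v => by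
      rw [fderiv_pi (differentiableAt_pi.1 hY)]; rfl
    simp only [map_mul, eval_X]
    refine ⟨hp.1.mul hk, fun v => ?_⟩
    rw [fderiv_fun_mul hp.1 hk]
    simp only [add_apply, smul_apply, hp.2, e, Derivation.leibniz, smul_eq_mul, map_add, map_mul,
      pderiv_X, Pi.single_apply, add_mul, Finset.sum_add_distrib, eval_X, mul_assoc]
    simp [apply_ite, ← Finset.mul_sum]

theorem coord (hy : On z y) {j : Fin n} (hj : y j = 1) (i : Fin n) :
    Reg z y (z i / z j) ∧ vl z (z i / z j) y = y i := by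
  have h1 : eval y (X j : PR n) ≠ 0 := by simp [hj]
  refine ⟨⟨X i, X j, 1, isHomogeneous_X _ _, isHomogeneous_X _ _, h1, by simp⟩, ?_⟩
  simpa [hj] using vl_eq hy (isHomogeneous_X ℂ i) (isHomogeneous_X ℂ j) h1

theorem zj_ne (hy : On z y) {j : Fin n} (hj : y j = 1) : z j ≠ 0 := fun e => by
  simpa [hj] using hy _ _ (isHomogeneous_X ℂ j) (by simpa using e)

theorem aeval_zt {j : Fin n} {F : PR n} {e : ℕ} (hF : F.IsHomogeneous e) :
    aeval (fun i => z i / z j) F = (z j)⁻¹ ^ e * aeval z F := by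
  rw [← aeval_smul_hom hF]
  congr 2
  funext i
  simp [div_eq_inv_mul]

theorem quot_zt {j : Fin n} (hj : z j ≠ 0) {F G : PR n} {e : ℕ} (hF : F.IsHomogeneous e)
    (hG : G.IsHomogeneous e) : aeval z F / aeval z G =
      aeval (fun i => z i / z j) F / aeval (fun i => z i / z j) G := by
  rw [aeval_zt hF, aeval_zt hG, mul_div_mul_left _ _ (pow_ne_zero _ (inv_ne_zero hj))]

theorem poly (hy : On z y) {j : Fin n} (hj : y j = 1) (P : PR n) :
    Reg z y (aeval (fun i => z i / z j) P) ∧ vl z (aeval (fun i => z i / z j) P) y = eval y P := by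
  have := vl_aeval hy (fun i => (coord hy hj i).1) P
  simpa only [(coord hy hj _).2] using this

variable {W : Set (PS n)} {a b j : Fin n} {U : Set (ℂ × ℂ)} {Y : ℂ × ℂ → V n} {q : ℂ × ℂ}

theorem fd_coord (hc : WCh W a b j U Y) (hq : q ∈ U) (v : ℂ × ℂ) :
    fderiv ℂ Y q v a = v.1 ∧ fderiv ℂ Y q v b = v.2 ∧ fderiv ℂ Y q v j = 0 := by
  have hY := (hc.2.1 q hq).differentiableAt
  have e : ∀ k, fderiv ℂ Y q v k = fderiv ℂ (fun x => Y x k) q v := fun k => by
    rw [fderiv_pi (differentiableAt_pi.1 hY)]; rfl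
  have hU := hc.1.mem_nhds hq
  have e1 : (fun x => Y x a) =ᶠ[𝓝 q] Prod.fst := by
    filter_upwards [hU] with p hp using (hc.2.2 p hp).2.1
  have e2 : (fun x => Y x b) =ᶠ[𝓝 q] Prod.snd := by
    filter_upwards [hU] with p hp using (hc.2.2 p hp).2.2.1
  have e3 : (fun x => Y x j) =ᶠ[𝓝 q] fun _ => 1 := by
    filter_upwards [hU] with p hp using (hc.2.2 p hp).1
  rw [e, e, e, e1.fderiv_eq, e2.fderiv_eq, e3.fderiv_eq]
  simp [fderiv_fst, fderiv_snd]

/-- The derivatives of the coordinates. -/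
theorem key (h : TanStmt) (hs : Smo W) (hz : GenPt W z) (hc : WCh W a b j U Y) (hq : q ∈ U)
    (hy : On z (Y q)) : ∃ α β : Fin n → rg hy,
      (∀ (E : Derivation ℂ K K) i, E (z i / z j) = α i * E (z a / z j) + β i * E (z b / z j)) ∧
      ∀ v i, fderiv ℂ Y q v i = chi hy (α i) * v.1 + chi hy (β i) * v.2 := by
  obtain ⟨c, P, g, hP, ⟨e, hg⟩, g0, -, hv, ht⟩ := h n W a b j U Y hs hc q hq
  have hj := (hc.2.2 q hq).1
  have hY := (hc.2.1 q hq).differentiableAt
  let M : Matrix (Fin c ⊕ Fin 3) (Fin n) (rg hy) := Matrix.of fun r i => Sum.elim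
    (fun k => (⟨_, (poly hy hj (pderiv i (P k))).1⟩ : rg hy))
    (fun l => if i = ![a, b, j] l then 1 else 0) r
  have m1 : ∀ (v : V n) k, (M.map (chi hy)).mulVec v (Sum.inl k) =
      ∑ i, eval (Y q) (pderiv i (P k)) * v i := fun v k => by
    rw [Matrix.mulVec, dotProduct]
    exact Finset.sum_congr rfl fun i _ => congrArg (· * v i) (poly hy hj (pderiv i (P k))).2
  have m2 : ∀ (v : V n) l, (M.map (chi hy)).mulVec v (Sum.inr l) = v (![a, b, j] l) :=
    fun v l => by simp [M, Matrix.mulVec, dotProduct, apply_ite]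
  obtain ⟨B, hB⟩ := left_inv hy M fun v hv0 => by
    have a0 : v a = 0 := (m2 v 0).symm.trans (congrFun hv0 _)
    have b0 : v b = 0 := (m2 v 1).symm.trans (congrFun hv0 _)
    have j0 : v j = 0 := (m2 v 2).symm.trans (congrFun hv0 _)
    rw [ht v fun k => (m1 v k).symm.trans (congrFun hv0 _), a0, b0, j0]
    simp
  refine ⟨fun i => B i (Sum.inr 0), fun i => B i (Sum.inr 1), fun E i => ?_, fun v i => ?_⟩
  · have h0 : ∀ k, aeval (fun i => z i / z j) (P k) = 0 := fun k => by
      obtain ⟨f, hf⟩ := hP k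
      have h1 : aeval z (g * P k) = 0 := (hz.1 _ _ (hg.mul hf)).2 fun x hx => by
        rw [map_mul]
        by_cases h2 : eval x.rep g = 0
        · rw [h2, zero_mul]
        · rw [hv x.rep ⟨x.rep_nonzero, by rwa [x.mk_rep]⟩ h2 k, mul_zero]
      rw [map_mul] at h1
      rw [aeval_zt hf, (mul_eq_zero.1 h1).resolve_left fun e0 => g0 (hy g e hg e0), mul_zero]
    have h1 : (B.map (rg hy).val).mulVec ((M.map (rg hy).val).mulVec fun i => E (z i / z j)) =
        fun i => E (z i / z j) := by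
      rw [Matrix.mulVec_mulVec, ← Matrix.map_mul, hB, Matrix.map_one _ (map_zero _) (map_one _),
        Matrix.one_mulVec]
    have h2 : ((M.map (rg hy).val).mulVec fun i => E (z i / z j)) =
        Sum.elim (fun _ => 0) ![E (z a / z j), E (z b / z j), 0] := by
      funext r
      rcases r with k | l
      · have := der_aeval E (fun i => z i / z j) (P k)
        rw [h0, map_zero] at this
        exact this.symm
      · have : E (z j / z j) = 0 := by rw [div_self (zj_ne hy hj), Derivation.map_one_eq_zero]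
        fin_cases l <;> simp [M, Matrix.mulVec, dotProduct, apply_ite, this]
    rw [← congrFun h1 i, h2]
    simp [Matrix.mulVec, dotProduct, Fin.sum_univ_three]
  · have h1 : (B.map (chi hy)).mulVec ((M.map (chi hy)).mulVec (fderiv ℂ Y q v)) =
        fderiv ℂ Y q v := by
      rw [Matrix.mulVec_mulVec, ← Matrix.map_mul, hB, Matrix.map_one _ (map_zero _) (map_one _),
        Matrix.one_mulVec]
    have h2 : (M.map (chi hy)).mulVec (fderiv ℂ Y q v) = Sum.elim (fun _ => 0) ![v.1, v.2, 0] := by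
      funext r
      rcases r with k | l
      · rw [m1, ← (fd_eval hY (P k)).2]
        have : (fun p => eval (Y p) (P k)) =ᶠ[𝓝 q] fun _ => 0 := by
          filter_upwards [hc.1.mem_nhds hq, (fd_eval hY g).1.continuousAt.eventually_ne g0]
            with p hp h2 using hv _ (hc.2.2 p hp).2.2.2.1 h2 k
        rw [this.fderiv_eq]
        simp
      · obtain ⟨a1, a2, a3⟩ := fd_coord hc hq v
        rw [m2]
        fin_cases l
        exacts [a1, a2, a3]
    rw [← congrFun h1 i, h2]
    simp [Matrix.mulVec, dotProduct, Fin.sum_univ_three]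

/-- The derivatives of regular functions. -/
theorem main (h : TanStmt) (hs : Smo W) (hz : GenPt W z) (hc : WCh W a b j U Y) (hq : q ∈ U)
    (hy : On z (Y q)) {f : K} (hf : Reg z (Y q) f) : ∃ A B : rg hy,
      (∀ E : Derivation ℂ K K, E f = A * E (z a / z j) + B * E (z b / z j)) ∧
      ∀ v, fderiv ℂ (fun p => vl z f (Y p)) q v = chi hy A * v.1 + chi hy B * v.2 := by
  obtain ⟨α, β, h1, h2⟩ := key h hs hz hc hq hy
  have hj := (hc.2.2 q hq).1
  have hY := (hc.2.1 q hq).differentiableAt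
  let o : PR n → rg hy := fun P => ⟨_, (poly hy hj P).1⟩
  have ho : ∀ P, chi hy (o P) = eval (Y q) P := fun P => (poly hy hj P).2
  have hp : ∀ P : PR n, ∃ A B : rg hy,
      (∀ E : Derivation ℂ K K, E (o P) = A * E (z a / z j) + B * E (z b / z j)) ∧
      ∀ v, fderiv ℂ (fun p => eval (Y p) P) q v = chi hy A * v.1 + chi hy B * v.2 := fun P => by
    refine ⟨∑ i, o (pderiv i P) * α i, ∑ i, o (pderiv i P) * β i, fun E => ?_, fun v => ?_⟩
    · rw [show (o P : K) = aeval (fun i => z i / z j) P from rfl, der_aeval]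
      simp only [AddSubmonoidClass.coe_finsetSum, MulMemClass.coe_mul, Finset.sum_mul,
        ← Finset.sum_add_distrib]
      refine Finset.sum_congr rfl fun i _ => ?_
      rw [h1 E i]
      simp only [o]
      ring
    · rw [(fd_eval hY P).2]
      simp only [map_sum, map_mul, ho, h2, Finset.sum_mul, ← Finset.sum_add_distrib]
      exact Finset.sum_congr rfl fun i _ => by ring
  have hf' := hf
  obtain ⟨F, G, e, hF, hG, g0, e1⟩ := hf'
  obtain ⟨A, B, a1, a2⟩ := hp F
  obtain ⟨A', B', b1, b2⟩ := hp G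
  obtain ⟨w, hw⟩ := isUnit_iff_exists_inv.1 (unit hy (o G) (by rwa [ho]))
  have hw1 : (o G : K) * w = 1 := congrArg Subtype.val hw
  have hw2 : eval (Y q) G * chi hy w = 1 := by rw [← ho, ← map_mul, hw, map_one]
  have e2 : f * o G = o F := by
    rw [e1, quot_zt (zj_ne hy hj) hF hG]
    exact div_mul_cancel₀ _ (left_ne_zero_of_mul_eq_one hw1)
  let f' : rg hy := ⟨f, hf⟩
  refine ⟨w * (A - f' * A'), w * (B - f' * B'), fun E => ?_, fun v => ?_⟩
  · have := congrArg E e2
    rw [Derivation.leibniz, a1, b1, smul_eq_mul, smul_eq_mul] at this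
    simp only [MulMemClass.coe_mul, AddSubgroupClass.coe_sub, f']
    linear_combination (w : K) * this - E f * hw1
  · have ev : (fun p => vl z f (Y p)) =ᶠ[𝓝 q] fun p => eval (Y p) F / eval (Y p) G := by
      filter_upwards [hc.1.mem_nhds hq, (fd_eval hY G).1.continuousAt.eventually_ne g0]
        with p hp h3
      rw [e1, vl_eq (Cone.on hz (hc.2.2 p hp).2.2.2.1) hF hG h3]
    have df : DifferentiableAt ℂ (fun p => vl z f (Y p)) q :=
      ((fd_eval hY F).1.mul ((fd_eval hY G).1.inv g0)).congr_of_eventuallyEq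
        (ev.trans (.of_forall fun p => div_eq_mul_inv _ _))
    have ev2 : (fun p => vl z f (Y p) * eval (Y p) G) =ᶠ[𝓝 q] fun p => eval (Y p) F := by
      filter_upwards [ev, (fd_eval hY G).1.continuousAt.eventually_ne g0] with p hp h3
      rw [hp, div_mul_cancel₀ _ h3]
    have := congrArg (fun L => L v) (ev2.fderiv_eq (𝕜 := ℂ))
    simp only [fderiv_fun_mul df (fd_eval hY G).1, add_apply, smul_apply, smul_eq_mul, a2,
      b2] at this
    simp only [map_mul, map_sub, show chi hy f' = vl z f (Y q) from rfl]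
    linear_combination chi hy w * this - fderiv ℂ (fun p => vl z f (Y p)) q v * hw2

theorem wd_ne (h : TanStmt) (d : Dat K n) (hc : WCh d.W a b j U Y) (hq : q ∈ U) :
    d.wd a b j ≠ 0 := by
  have hy := Cone.on d.gen (hc.2.2 q hq).2.2.2.1
  obtain ⟨α, β, h1, -⟩ := key h d.sm d.gen hc hq hy
  have H : ∀ s t : K, s * d.D 0 (d.z a / d.z j) + t * d.D 1 (d.z a / d.z j) = 0 →
      s * d.D 0 (d.z b / d.z j) + t * d.D 1 (d.z b / d.z j) = 0 → s = 0 ∧ t = 0 := by
    intro s t e1 e2
    have h0 : s • d.D 0 + t • d.D 1 = 0 := by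
      have h2 : ∀ P : PR n, (s • d.D 0 + t • d.D 1) (aeval (fun i => d.z i / d.z j) P) = 0 :=
        fun P => by
          rw [der_aeval]
          refine Finset.sum_eq_zero fun i _ => ?_
          rw [h1]
          simp [e1, e2]
      ext f
      obtain ⟨F, G, e, hF, hG, -, rfl⟩ := quot d.gen f
      rw [quot_zt (zj_ne hy (hc.2.2 q hq).1) hF hG, Derivation.leibniz_div, h2, h2]
      simp
    have := Fintype.linearIndependent_iff.1 d.li ![s, t] (by simpa [Fin.sum_univ_two] using h0)
    exact ⟨this 0, this 1⟩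
  intro e
  unfold Dat.wd Wd at e
  have a1 := H (d.D 1 (d.z a / d.z j)) (-d.D 0 (d.z a / d.z j)) (by ring)
    (by linear_combination -e)
  have a2 := H (d.D 1 (d.z b / d.z j)) (-d.D 0 (d.z b / d.z j)) (by linear_combination e)
    (by ring)
  exact one_ne_zero (H 1 0 (by simpa using a1.2) (by simpa using a2.2)).1

theorem loc_iff (hz : GenPt W z) (hy : y ∈ Cone W) (g : K) :
    g ∈ locRing z (Projectivization.mk ℂ y hy.1) ↔ Reg z y g := by
  rw [mem_locRing (fun G d hG h => (hz.1 G d hG).1 h _ hy.2)]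
  exact exists₃_congr fun F G d => and_congr_right fun _ => and_congr_right fun hG =>
    and_congr_left' (eval_mk hG hy.1).not

end PD

theorem pdS (h : TanStmt) : PDStmt := by
  intro K _ _ n d a b j U Y hc q hq
  have hw := PD.wd_ne h d hc hq
  refine ⟨hw, fun f hf i => ?_⟩
  have hy := Cone.on d.gen (hc.2.2 q hq).2.2.2.1
  obtain ⟨A, B, h1, h2⟩ := PD.main h d.sm d.gen hc hq hy hf
  unfold Dat.wd at hw
  have e0 : pd d.D ![d.z a / d.z j, d.z b / d.z j] 0 f = A := by
    refine (div_eq_iff hw).2 ?_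
    simp only [Wd, Matrix.cons_val_zero, Matrix.cons_val_one, h1 (d.D 0), h1 (d.D 1)]
    ring
  have e1 : pd d.D ![d.z a / d.z j, d.z b / d.z j] 1 f = B := by
    refine (div_eq_iff hw).2 ?_
    simp only [Wd, Matrix.cons_val_zero, Matrix.cons_val_one, h1 (d.D 0), h1 (d.D 1)]
    ring
  rw [h2]
  fin_cases i
  · exact ⟨e0 ▸ A.2, (congrArg (vl d.z · (Y q)) e0).trans (by simp [chi])⟩
  · exact ⟨e1 ▸ B.2, (congrArg (vl d.z · (Y q)) e1).trans (by simp [chi])⟩

theorem jac (h : PDStmt) : JacStmt := by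
  intro K _ _ n d a b j U Y hc q hq
  obtain ⟨hw, hp⟩ := h K n d a b j U Y hc q hq
  have hm := (hc.2.2 q hq).2.2.2.1
  have hy := Cone.on d.gen hm
  have h1 : ∀ f g, Reg d.z (Y q) f → Reg d.z (Y q) g →
      Reg d.z (Y q) (Wd d.D f g / d.wd a b j) ∧ vl d.z (Wd d.D f g / d.wd a b j) (Y q) =
        jb (fun p => vl d.z f (Y p)) (fun p => vl d.z g (Y p)) q := by
    intro f g hf hg
    let o : ∀ f, Reg d.z (Y q) f → Fin 2 → rg hy := fun f hf i => ⟨_, (hp f hf i).1⟩
    have e : Wd d.D f g / d.wd a b j = (o f hf 0 * o g hg 1 - o f hf 1 * o g hg 0 : rg hy) := by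
      unfold Dat.wd at hw ⊢
      simp only [o, MulMemClass.coe_mul, AddSubgroupClass.coe_sub, pd, Matrix.cons_val_zero,
        Matrix.cons_val_one]
      field_simp
      simp only [Wd]
      ring
    rw [e]
    refine ⟨Subtype.prop (p := (· ∈ rg hy)) _, ?_⟩
    have v : ∀ f hf i, chi hy (o f hf i) = _ := fun f hf i => (hp f hf i).2
    change chi hy _ = _
    rw [map_sub, map_mul, map_mul, v f hf, v g hg, v f hf, v g hg]
    rfl
  have h2 : ∀ s ∈ pluri d.z d.D d.m (Projectivization.mk ℂ _ hm.1),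
      s / d.wd a b j ^ d.m ∈ rg hy := by
    intro s hs
    induction hs using Submodule.span_induction with
    | mem s hs =>
      obtain ⟨f, hf, rfl⟩ := hs
      rw [← Fin.prod_const, ← Finset.prod_div_distrib]
      refine prod_mem fun k _ => ?_
      have := (h1 _ _ ((PD.loc_iff d.gen hm _).1 (hf k 0)) ((PD.loc_iff d.gen hm _).1 (hf k 1))).1
      rw [Matrix.det_fin_two]
      simp only [Matrix.of_apply]
      rwa [mul_comm (d.D 0 (f k 1))]
    | zero => rw [zero_div]; exact zero_mem _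
    | add s t _ _ hs ht => rw [add_div]; exact add_mem hs ht
    | smul c s _ hs =>
      rw [Subalgebra.smul_def, smul_eq_mul, mul_div_assoc]
      exact mul_mem ((PD.loc_iff d.gen hm _).1 c.2) hs
  obtain ⟨b1, i, b2⟩ := d.bpf _ hm.2
  refine ⟨hw, h1, fun i => h2 _ (b1 i), i, fun e => ?_⟩
  have hj := (hc.2.2 q hq).1
  have h3 : d.wd a b j ^ d.m ∈ pluri d.z d.D d.m (Projectivization.mk ℂ _ hm.1) := by
    refine Submodule.subset_span ⟨fun _ => ![d.z a / d.z j, d.z b / d.z j], fun _ l => ?_, ?_⟩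
    · rw [PD.loc_iff d.gen hm]
      fin_cases l
      exacts [(PD.coord hy hj a).1, (PD.coord hy hj b).1]
    · rw [Fin.prod_const, Matrix.det_fin_two]
      simp only [Matrix.of_apply, Dat.wd, Wd, Matrix.cons_val_zero, Matrix.cons_val_one]
      rw [mul_comm (d.D 1 (d.z a / d.z j))]
  obtain ⟨c, hc'⟩ := Submodule.mem_span_singleton.1 (b2 h3)
  have h4 := (vl_mul hy ((PD.loc_iff d.gen hm _).1 c.2) (h2 _ (b1 i))).2
  rw [Subalgebra.smul_def, smul_eq_mul] at hc'
  rw [e, mul_zero, ← mul_div_assoc, hc', div_self (pow_ne_zero _ hw)] at h4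
  exact one_ne_zero ((map_one (chi hy)).symm.trans h4)

end Pool.Agent.MP_c69980_ag.E1
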