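import Pool.Agent.MP_c69980_ag.E1.Main0
import Pool.Agent.MP_c69980_ag.E1.PD

/-!
Surfaces fibred over an elliptic curve: the surface is of general type.
-/

set_option autoImplicit false

noncomputable section

namespace Pool.Agent.MP_c69980_ag.E1

open MvPolynomial Metric Filter Topology Set
open H60 H4

namespace GTX

variable {n : ℕ}

theorem taylor {R : Type} [CommRing R] [Algebra ℂ R] (χ : R →ₐ[ℂ] ℂ) (u : Fin n → R)
    {y : V n} (hu : ∀ i, χ (u i) = y i) (P : PR n) : ∃ c : Fin n → R,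
      aeval u P = algebraMap ℂ R (eval y P) + ∑ i, c i * (u i - algebraMap ℂ R (y i)) ∧
      ∀ i, χ (c i) = eval y (pderiv i P) := by
  induction P using MvPolynomial.induction_on with
  | C c => exact ⟨0, by simp, by simp⟩
  | add p q hp hq =>
    obtain ⟨c, c1, c2⟩ := hp
    obtain ⟨e, e1, e2⟩ := hq
    refine ⟨c + e, ?_, fun i => by simp [c2, e2]⟩
    simp only [map_add, c1, e1, Pi.add_apply, add_mul, Finset.sum_add_distrib]
    ring
  | mul_X p k hp =>
    obtain ⟨c, c1, c2⟩ := hp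
    refine ⟨fun i => c i * u k + if k = i then algebraMap ℂ R (eval y p) else 0, ?_, fun i => ?_⟩
    · simp only [map_mul, aeval_X, eval_X, add_mul, Finset.sum_add_distrib, ite_mul, zero_mul,
        Finset.sum_ite_eq, Finset.mem_univ, if_true, mul_right_comm _ (u k), ← Finset.sum_mul]
      rw [c1]
      ring
    · by_cases e : k = i
      · subst e
        simp [c2, hu, pderiv_X, mul_comm, add_comm]
      · simp [c2, hu, pderiv_X, e, mul_comm]

theorem regular {R : Type} [CommRing R] [IsDomain R] [IsLocalRing R] [IsNoetherianRing R]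
    {t : Fin 2 → R} (ht : (Ideal.span (range t)).IsMaximal) {p : Ideal R} (hp : p.IsPrime)
    (h0 : t 0 ∉ p) (h1 : t 1 ∈ p) (h2 : t 1 ≠ 0) : IsRegularLocalRing R := by
  have e := IsLocalRing.eq_maximalIdeal ht
  have a1 : (⊥ : Ideal R) < p := bot_lt_iff_ne_bot.2 fun q => h2 (by simpa [q] using h1)
  have a2 : p < IsLocalRing.maximalIdeal R :=
    (IsLocalRing.le_maximalIdeal hp.ne_top).lt_of_ne fun q =>
      h0 (q ▸ e ▸ Ideal.subset_span ⟨0, rfl⟩)
  have a3 := Ideal.height_add_one_le_of_lt_of_isPrime a1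
  have a4 := Ideal.height_add_one_le_of_lt_of_isPrime a2
  have a5 : (2 : ℕ∞) ≤ (IsLocalRing.maximalIdeal R).height :=
    le_trans (by
      rw [← one_add_one_eq_two]
      exact add_le_add_left (le_add_self.trans a3) 1) a4
  have a6 : (IsLocalRing.maximalIdeal R).spanFinrank ≤ 2 := by
    rw [← e]
    refine (Submodule.spanFinrank_span_le_ncard_of_finite (finite_range t)).trans ?_
    rw [← image_univ]
    exact (ncard_image_le finite_univ).trans (by simp [ncard_univ])
  refine .of_spanFinrank_maximalIdeal_le R ?_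
  rw [← IsLocalRing.maximalIdeal_height_eq_ringKrullDim]
  exact le_trans (b := ((2 : ℕ∞) : WithBot ℕ∞)) (by exact_mod_cast a6) (WithBot.coe_le_coe.2 a5)

variable {K : Type} [Field K] [Algebra ℂ K] {z : Fin n → K} {y : V n} {j : Fin n}

/-- The affine coordinates in the local ring. -/
def co (hy : On z y) (hj : y j = 1) (i : Fin n) : rg hy := ⟨z i / z j, (PD.coord hy hj i).1⟩

theorem co_val (hy : On z y) (hj : y j = 1) (P : PR n) :
    ((aeval (co hy hj) P : rg hy) : K) = aeval (fun i => z i / z j) P :=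
  comp_aeval_apply _ (rg hy).val P

theorem co_chi (hy : On z y) (hj : y j = 1) (P : PR n) :
    chi hy (aeval (co hy hj) P) = eval y P := by
  change vl z _ y = _
  rw [co_val, (PD.poly hy hj P).2]

theorem frac (hy : On z y) (hj : y j = 1) (f : rg hy) : ∃ (F : PR n) (w : rg hy), IsUnit w ∧
    f = aeval (co hy hj) F * w ∧ ∃ G : PR n, aeval (co hy hj) F = f * aeval (co hy hj) G := by
  obtain ⟨F, G, e, hF, hG, g0, e1⟩ := f.2
  obtain ⟨w, hw⟩ := isUnit_iff_exists_inv.1
    (PD.unit hy (aeval (co hy hj) G) (by rwa [co_chi]))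
  have e2 : aeval (co hy hj) F = f * aeval (co hy hj) G := by
    have hw1 : ((aeval (co hy hj) G : rg hy) : K) * w = 1 := congrArg Subtype.val hw
    refine Subtype.ext ?_
    rw [MulMemClass.coe_mul, e1, PD.quot_zt (PD.zj_ne hy hj) hF hG, co_val, co_val]
    rw [co_val] at hw1
    exact (div_mul_cancel₀ _ (left_ne_zero_of_mul_eq_one hw1)).symm
  exact ⟨F, w, IsUnit.of_mul_eq_one _ (mul_comm _ w ▸ hw), by rw [e2, mul_assoc, hw, mul_one],
    G, e2⟩

theorem loc (hy : On z y) : IsLocalRing (rg hy) :=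
  IsLocalRing.of_isUnit_or_isUnit_one_sub_self fun v => by
    by_cases h : chi hy v = 0
    · exact Or.inr (PD.unit hy _ (by simp [h]))
    · exact Or.inl (PD.unit hy _ h)

theorem noeth (hy : On z y) (hj : y j = 1) : IsNoetherianRing (rg hy) := by
  refine (isNoetherianRing_iff_ideal_fg _).2 fun J => ?_
  let o : PR n →+* rg hy := (aeval (co hy hj) : PR n →ₐ[ℂ] rg hy)
  have e : J = (J.comap o).map o := by
    refine le_antisymm (fun f hf => ?_) Ideal.map_comap_le
    obtain ⟨F, w, -, e1, G, e2⟩ := frac hy hj f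
    rw [e1]
    refine Ideal.mul_mem_right _ _ (Ideal.mem_map_of_mem o (x := F) ?_)
    change aeval (co hy hj) F ∈ J
    rw [e2]
    exact J.mul_mem_right _ hf
  rw [e]
  exact Ideal.FG.map (IsNoetherian.noetherian (J.comap o)) o

variable {W : Set (PS n)} {a b : Fin n} {U : Set (ℂ × ℂ)} {Y : ℂ × ℂ → V n} {q : ℂ × ℂ}

/-- The parameters. -/
def par (a b : Fin n) (q : ℂ × ℂ) : Fin 2 → PR n := ![X a - C q.1, X b - C q.2]

theorem maxi (h : TanStmt) (hs : Smo W) (hz : GenPt W z) (hc : WCh W a b j U Y) (hq : q ∈ U)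
    (hy : On z (Y q)) (hj : Y q j = 1) :
    (Ideal.span (range fun i => aeval (co hy hj) (par a b q i))).IsMaximal := by
  obtain ⟨c, P, g, hP, ⟨e, hg⟩, g0, -, hv, ht⟩ := h n W a b j U Y hs hc q hq
  obtain ⟨-, ya, yb, ym, -⟩ := hc.2.2 q hq
  set I := Ideal.span (range fun i => aeval (co hy hj) (par a b q i))
  have hu : ∀ i, chi hy (co hy hj i) = Y q i := fun i => (PD.coord hy hj i).2
  choose s s1 s2 using taylor (chi hy) (co hy hj) hu
  let w : Fin n → rg hy := fun i => co hy hj i - algebraMap ℂ _ (Y q i)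
  let M : Matrix (Fin c ⊕ Fin 3) (Fin n) (rg hy) := Matrix.of fun r i => Sum.elim
    (fun k => s (P k) i) (fun l => if i = ![a, b, j] l then 1 else 0) r
  have m1 : ∀ (v : V n) k, (M.map (chi hy)).mulVec v (Sum.inl k) =
      ∑ i, eval (Y q) (pderiv i (P k)) * v i := fun v k => by
    rw [Matrix.mulVec, dotProduct]
    exact Finset.sum_congr rfl fun i _ => congrArg (· * v i) (s2 (P k) i)
  have m2 : ∀ (v : V n) l, (M.map (chi hy)).mulVec v (Sum.inr l) = v (![a, b, j] l) :=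
    fun v l => by simp [M, Matrix.mulVec, dotProduct, apply_ite]
  obtain ⟨B, hB⟩ := PD.left_inv hy M fun v hv0 => by
    have a0 : v a = 0 := (m2 v 0).symm.trans (congrFun hv0 _)
    have b0 : v b = 0 := (m2 v 1).symm.trans (congrFun hv0 _)
    have j0 : v j = 0 := (m2 v 2).symm.trans (congrFun hv0 _)
    rw [ht v fun k => (m1 v k).symm.trans (congrFun hv0 _), a0, b0, j0]
    simp
  have h0 : ∀ k, aeval (co hy hj) (P k) = 0 := fun k => by
    obtain ⟨f, hf⟩ := hP k
    have h1 : aeval z (g * P k) = 0 := (hz.1 _ _ (hg.mul hf)).2 fun x hx => by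
      rw [map_mul]
      by_cases h2 : eval x.rep g = 0
      · rw [h2, zero_mul]
      · rw [hv x.rep ⟨x.rep_nonzero, by rwa [x.mk_rep]⟩ h2 k, mul_zero]
    rw [map_mul] at h1
    refine Subtype.ext ?_
    rw [co_val, PD.aeval_zt hf, (mul_eq_zero.1 h1).resolve_left fun e0 => g0 (hy g e hg e0),
      mul_zero]
    rfl
  have h2 : ∀ r, M.mulVec w r ∈ I := by
    rintro (k | l)
    · have := s1 (P k)
      rw [h0, hv _ ym g0 k, map_zero, zero_add] at this
      have e1 : M.mulVec w (Sum.inl k) = 0 := this.symm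
      rw [e1]
      exact I.zero_mem
    · have e1 : M.mulVec w (Sum.inr l) = w (![a, b, j] l) := by
        simp [M, Matrix.mulVec, dotProduct]
      rw [e1]
      fin_cases l
      · exact Ideal.subset_span ⟨0, by simp [par, w, ya]⟩
      · exact Ideal.subset_span ⟨1, by simp [par, w, yb]⟩
      · have : w j = 0 := Subtype.ext (by simp [w, co, hj, PD.zj_ne hy hj])
        exact this ▸ I.zero_mem
  have h3 : ∀ i, w i ∈ I := fun i => by
    have : B.mulVec (M.mulVec w) = w := by rw [Matrix.mulVec_mulVec, hB, Matrix.one_mulVec]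
    rw [← congrFun this i, Matrix.mulVec, dotProduct]
    exact I.sum_mem fun r _ => I.mul_mem_left _ (h2 r)
  have h4 : I = RingHom.ker (chi hy) := by
    refine le_antisymm (Ideal.span_le.2 ?_) fun f hf => ?_
    · rintro _ ⟨i, rfl⟩
      change chi hy _ = 0
      rw [co_chi]
      fin_cases i <;> simp [par, ya, yb]
    · obtain ⟨F, u, -, e1, G, e2⟩ := frac hy hj f
      have h5 : eval (Y q) F = 0 := by
        rw [← co_chi hy hj, e2, map_mul, RingHom.mem_ker.1 hf, zero_mul]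
      rw [e1, s1 F, h5, map_zero, zero_add]
      exact I.mul_mem_right _ (I.sum_mem fun i _ => I.mul_mem_left _ (h3 i))
  rw [h4]
  exact RingHom.ker_isMaximal_of_surjective _ fun c => ⟨algebraMap ℂ _ c, (chi hy).commutes c⟩

theorem vl_par (hz : GenPt W z) (hc : WCh W a b j U Y) {p : ℂ × ℂ} (hp : p ∈ U) (i : Fin 2) :
    vl z (aeval (fun i => z i / z j) (par a b q i)) (Y p) = ![p.1 - q.1, p.2 - q.2] i := by
  obtain ⟨yj, ya, yb, ym, -⟩ := hc.2.2 p hp
  rw [(PD.poly (Cone.on hz ym) yj _).2]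
  fin_cases i <;> simp [par, ya, yb]

theorem not_ev (c : ℂ) : ¬∀ᶠ s in 𝓝 c, s - c = 0 := fun h => by
  obtain ⟨s, s1, s2⟩ := ((h.filter_mono nhdsWithin_le_nhds).and
    (self_mem_nhdsWithin (s := {c}ᶜ))).exists
  exact s2 (sub_eq_zero.1 s1)

theorem prime (hz : GenPt W z) (hc : WCh W a b j U Y) (hq : q ∈ U) (hy : On z (Y q)) :
    ∃ p : Ideal (rg hy), p.IsPrime ∧
      ∀ f, f ∈ p ↔ ∀ᶠ s in 𝓝 q.1, vl z (f : K) (Y (s, q.2)) = 0 := by
  have a1 : AnalyticAt ℂ (fun s : ℂ => ((s, q.2) : ℂ × ℂ)) q.1 :=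
    analyticAt_id.prod analyticAt_const
  have a2 : AnalyticAt ℂ (fun s : ℂ => Y (s, q.2)) q.1 := (hc.2.1 q hq).comp_of_eq a1 rfl
  have a3 : ∀ᶠ s in 𝓝 q.1, On z (Y (s, q.2)) :=
    (a1.continuousAt.eventually (hc.1.mem_nhds hq)).mono fun s hs =>
      Cone.on hz (hc.2.2 _ hs).2.2.2.1
  have a4 : ∀ f : rg hy, AnalyticAt ℂ (fun s : ℂ => vl z (f : K) (Y (s, q.2))) q.1 ∧
      ∀ᶠ s in 𝓝 q.1, Reg z (Y (s, q.2)) (f : K) := fun f => vl_an a2 a3 f.2
  have a5 : ∀ f g : rg hy, ∀ᶠ s in 𝓝 q.1, vl z ((f * g : rg hy) : K) (Y (s, q.2)) =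
      vl z (f : K) (Y (s, q.2)) * vl z (g : K) (Y (s, q.2)) := fun f g => by
    filter_upwards [a3, (a4 f).2, (a4 g).2] with s s1 s2 s3 using (vl_mul s1 s2 s3).2
  refine ⟨⟨⟨⟨{f | ∀ᶠ s in 𝓝 q.1, vl z (f : K) (Y (s, q.2)) = 0}, fun {f g} hf hg => ?_⟩,
    a3.mono fun s hs => map_zero (chi hs)⟩, fun f g hg => ?_⟩, ⟨fun e => ?_, fun {f g} h => ?_⟩,
    fun f => Iff.rfl⟩
  · filter_upwards [a3, (a4 f).2, (a4 g).2, hf, hg] with s s1 s2 s3 s4 s5
    exact (vl_add s1 s2 s3).2.trans (by rw [s4, s5, add_zero])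
  · filter_upwards [a5 f g, hg] with s s1 s2
    exact s1.trans (by rw [s2, mul_zero])
  · have := Filter.Eventually.self_of_nhds ((Ideal.eq_top_iff_one _).1 e)
    exact one_ne_zero ((map_one (chi hy)).symm.trans this)
  · refine (a4 f).1.eventually_eq_zero_or_eventually_ne_zero.imp_right fun h1 => ?_
    refine (a4 g).1.frequently_zero_iff_eventually_zero.1 (Eventually.frequently ?_)
    filter_upwards [h1, mem_nhdsWithin_of_mem_nhds (a5 f g), mem_nhdsWithin_of_mem_nhds h]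
      with s s1 s2 s3
    exact (mul_eq_zero.1 (s2.symm.trans s3)).resolve_left s1

theorem main (h : TanStmt) (hs : Smo W) (hz : GenPt W z) (hc : WCh W a b j U Y) (hq : q ∈ U)
    (O : Subalgebra ℂ K) (hO : ∀ g, g ∈ O ↔ Reg z (Y q) g) : IsRegularLocalRing O ∧
    ∃ t : Fin 2 → O, (Ideal.span (range t)).IsMaximal ∧ (∀ i, t i ≠ 0) ∧
      ∀ i, (t i : K) = aeval (fun i => z i / z j) (par a b q i) := by
  obtain ⟨hj, -, -, ym, -⟩ := hc.2.2 q hq
  have hy := Cone.on hz ym
  obtain rfl : O = rg hy := Subalgebra.ext hO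
  have := loc hy
  have := noeth hy hj
  have hm := maxi h hs hz hc hq hy hj
  obtain ⟨p, hp, e⟩ := prime hz hc hq hy
  have u1 : ∀ᶠ s in 𝓝 q.1, (s, q.2) ∈ U :=
    (Continuous.prodMk_left q.2).continuousAt.eventually (hc.1.mem_nhds hq)
  have u2 : ∀ᶠ s in 𝓝 q.2, (q.1, s) ∈ U :=
    (Continuous.prodMk_right q.1).continuousAt.eventually (hc.1.mem_nhds hq)
  have h0 : aeval (co hy hj) (par a b q 0) ∉ p := fun r => not_ev q.1 (by
    filter_upwards [(e _).1 r, u1] with s s1 s2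
    rwa [co_val, vl_par hz hc s2] at s1)
  have h1 : aeval (co hy hj) (par a b q 1) ∈ p := (e _).2 (u1.mono fun s s2 => by
    rw [co_val, vl_par hz hc s2]
    simp)
  have h2 : aeval (co hy hj) (par a b q 1) ≠ 0 := fun r => not_ev q.2 (u2.mono fun s s2 => by
    have := vl_par (q := q) hz hc s2 1
    rw [← co_val hy hj, r] at this
    exact this.symm.trans (map_zero (chi (Cone.on hz (hc.2.2 _ s2).2.2.2.1))))
  refine ⟨regular hm hp h0 h1 h2, _, hm, fun i => ?_, fun i => co_val hy hj _⟩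
  fin_cases i
  exacts [fun r => h0 (r ▸ p.zero_mem), h2]

end GTX

theorem gtS (h1 : WCStmt) (h2 : TanStmt) : GTStmt := by
  intro K _ _ n d
  refine ⟨n, d.W, d.z, id, 2, d.m, d.D, fun i => d.h (d.e i), d.cl, d.gen, by simpa using d.tr,
    d.li, d.m0, fun e => d.ind.ne_zero 0 (by simp [e]), ?_, fun x hx => ?_⟩
  · have : (fun i : Fin 2 => d.h (d.e i.succ) / d.h (d.e 0)) =
        ![d.h (d.e 1) / d.h (d.e 0), d.h (d.e 2) / d.h (d.e 0)] := by
      funext i
      fin_cases i <;> rfl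
    exact this ▸ d.ind
  have hm : x.rep ∈ Cone d.W := ⟨x.rep_nonzero, by rwa [x.mk_rep]⟩
  obtain ⟨a, b, j, U, Y, hc, q, hq, hp⟩ := h1 n _ d.sm _ hm
  obtain ⟨r, t, t1, t2, t3⟩ := GTX.main h2 d.sm d.gen hc hq (locRing d.z x) fun g => by
    have := PD.loc_iff d.gen hm g
    rw [x.mk_rep] at this
    exact this.trans ⟨hp.symm.reg, hp.reg⟩
  refine ⟨r, fun Z hZ => hZ.2 hx, fun u hu => ⟨hu, id⟩, t, ∅, X j, 1, t1, t2,
    isHomogeneous_X _ _, ?_, fun y hy hj => ⟨fun i => ?_, ?_⟩, fun i => ?_⟩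
  · simpa using (hp.eq_smul (hc.2.2 q hq).1).1
  · have : ∀ k, d.z k / d.z j ∈ locRing d.z y := fun k => Algebra.subset_adjoin
      ⟨X k, X j, 1, isHomogeneous_X _ _, isHomogeneous_X _ _, hj, by simp⟩
    rw [t3]
    fin_cases i
    · simpa [GTX.par] using sub_mem (this a) (algebraMap_mem _ q.1)
    · simpa [GTX.par] using sub_mem (this b) (algebraMap_mem _ q.2)
  · simpa using hy
  · simpa using (d.bpf x hx).1 _

end Pool.Agent.MP_c69980_ag.E1
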