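import Pool.Agent.MP_c69980_ag.E1.GainA
import Pool.Agent.MP_c69980_ag.H66.Rep
import Pool.Agent.MP_c69980_ag.H26.Basic

/-!
Surfaces fibred over an elliptic curve: the potential on the base is strictly subharmonic.
-/

set_option autoImplicit false

noncomputable section

namespace Pool.Agent.MP_c69980_ag.E1

open Metric Filter Topology Set MeasureTheory Real
open scoped ContDiff
open H4

namespace Gain

/-- The second moment of a disc. -/
theorem mom (c : ℂ) {ρ : ℝ} (hρ : 0 < ρ) :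
    π * ρ ^ 2 * (3 / 16 * ρ ^ 2) ≤ ∫ z in ball c ρ, ‖z - c‖ ^ 2 := by
  have hc : Continuous fun z : ℂ => ‖z - c‖ ^ 2 := by fun_prop
  have i1 : IntegrableOn (fun z : ℂ => ‖z - c‖ ^ 2) (ball c ρ) :=
    (hc.continuousOn.integrableOn_compact (isCompact_closedBall c ρ)).mono_set
      ball_subset_closedBall
  have i2 : IntegrableOn (fun _ : ℂ => ρ ^ 2 / 4) (ball c ρ) :=
    integrableOn_const measure_ball_lt_top.ne
  have i3 : IntegrableOn ((ball c (ρ / 2)).indicator fun _ : ℂ => ρ ^ 2 / 4) (ball c ρ) :=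
    i2.indicator measurableSet_ball
  have h1 : ∫ z in ball c ρ, (ρ ^ 2 / 4 - (ball c (ρ / 2)).indicator (fun _ : ℂ => ρ ^ 2 / 4) z) ≤
      ∫ z in ball c ρ, ‖z - c‖ ^ 2 := by
    refine integral_mono (i2.sub i3) i1 fun z => ?_
    by_cases hz : z ∈ ball c (ρ / 2)
    · simp only [indicator_of_mem hz, sub_self]
      positivity
    · simp only [indicator_of_notMem hz, sub_zero]
      rw [mem_ball_iff_norm, not_lt] at hz
      nlinarith
  rw [integral_sub i2 i3, setIntegral_indicator measurableSet_ball,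
    inter_eq_right.2 (ball_subset_ball (by linarith)), setIntegral_const, setIntegral_const,
    H26.vol_ball c hρ, H26.vol_ball c (half_pos hρ), smul_eq_mul, smul_eq_mul] at h1
  linarith

/-- A function with Laplacian at least `4 a` exceeds its central value on average. -/
theorem strict {O : Set ℂ} {u : ℂ → ℝ} {c : ℂ} {ρ a : ℝ} (hO : IsOpen O) (hu : ContDiffOn ℝ ∞ u O)
    (hρ : 0 < ρ) (hc : closedBall c ρ ⊆ O) (ha : 0 ≤ a) (hl : ∀ z ∈ O, 4 * a ≤ lap u z) :
    IntegrableOn u (ball c ρ) ∧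
      π * ρ ^ 2 * (u c + 3 / 16 * a * ρ ^ 2) ≤ ∫ z in ball c ρ, u z := by
  have hq : ContDiff ℝ ∞ fun z : ℂ => ‖z - c‖ ^ 2 := (contDiff_id.sub contDiff_const).norm_sq ℂ
  have lq : ∀ z, lap (fun z : ℂ => ‖z - c‖ ^ 2) z = 4 := fun z => by
    have h1 : HasDerivAt (fun w : ℂ => (![w - c] : Fin 1 → ℂ)) ![1] z :=
      hasDerivAt_pi.2 fun i => by
        fin_cases i
        simpa using (hasDerivAt_id z).sub_const c
    have h2 : AnalyticAt ℂ (fun w : ℂ => (![w - c] : Fin 1 → ℂ)) z :=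
      analyticAt_pi_iff.2 fun i => by
        fin_cases i
        exact (analyticAt_id (𝕜 := ℂ) (z := z)).sub (analyticAt_const (v := c))
    have h3 := R1.lap_sq h2
    rw [h1.deriv] at h3
    simpa [H4.sq] using h3
  have i1 : IntegrableOn u (ball c ρ) :=
    ((hu.continuousOn.mono hc).integrableOn_compact (isCompact_closedBall c ρ)).mono_set
      ball_subset_closedBall
  have i2 : IntegrableOn (fun z : ℂ => ‖z - c‖ ^ 2) (ball c ρ) :=
    (hq.continuous.continuousOn.integrableOn_compact (isCompact_closedBall c ρ)).mono_set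
      ball_subset_closedBall
  have i3 : IntegrableOn (fun _ : ℂ => u c) (ball c ρ) :=
    integrableOn_const measure_ball_lt_top.ne
  refine ⟨i1, ?_⟩
  have h := H26.polar (fun z => u z - u c - a * ‖z - c‖ ^ 2) c ρ fun s hs hsρ => by
    have hs' : closedBall c s ⊆ O := (closedBall_subset_closedBall hsρ.le).trans hc
    obtain ⟨a1, a2⟩ := R1.rep O u c s hO hu hs hs'
    obtain ⟨b1, b2⟩ := R1.rep univ _ c s isOpen_univ hq.contDiffOn hs (subset_univ _)
    have c1 : CircleIntegrable u c s := ContinuousOn.circleIntegrable hs.le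
      (hu.continuousOn.mono (sphere_subset_closedBall.trans hs'))
    have c2 : CircleIntegrable (fun z : ℂ => ‖z - c‖ ^ 2) c s :=
      ContinuousOn.circleIntegrable hs.le hq.continuous.continuousOn
    have c3 : CircleIntegrable (fun z : ℂ => a * ‖z - c‖ ^ 2) c s :=
      ContinuousOn.circleIntegrable hs.le (continuous_const.mul hq.continuous).continuousOn
    have c4 : circleAverage (fun z : ℂ => a * ‖z - c‖ ^ 2) c s =
        a * circleAverage (fun z : ℂ => ‖z - c‖ ^ 2) c s :=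
      circleAverage_fun_smul (a := a) (f := fun z : ℂ => ‖z - c‖ ^ 2)
    have c5 : CircleIntegrable (fun z => u z - u c) c s :=
      c1.sub (circleIntegrable_const _ c s)
    have d : a * ∫ z in ball c s, log (s / ‖z - c‖) * lap (fun z : ℂ => ‖z - c‖ ^ 2) z ≤
        ∫ z in ball c s, log (s / ‖z - c‖) * lap u z := by
      rw [← integral_const_mul]
      refine setIntegral_mono_on (b1.const_mul a) a1 measurableSet_ball fun z hz => ?_
      have e1 : 0 ≤ log (s / ‖z - c‖) := by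
        by_cases h0 : ‖z - c‖ = 0
        · simp [h0]
        · exact log_nonneg ((one_le_div (lt_of_le_of_ne (norm_nonneg _) (Ne.symm h0))).2
            (mem_ball_iff_norm.1 hz).le)
      have e2 := mul_le_mul_of_nonneg_left (hl z (hs' (ball_subset_closedBall hz))) e1
      rw [lq]
      linarith
    rw [circleAverage_fun_sub c5 c3, circleAverage_fun_sub c1 (circleIntegrable_const _ c s),
      circleAverage_const, c4, a2]
    simp only [sub_self, norm_zero, ne_eq, OfNat.ofNat_ne_zero, not_false_eq_true, zero_pow,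
      sub_zero] at b2
    rw [b2]
    have := mul_le_mul_of_nonneg_left d (show 0 ≤ (2 * π)⁻¹ by positivity)
    linarith
  have i4 : IntegrableOn (fun z => u z - u c) (ball c ρ) := i1.sub i3
  rw [integral_sub i4 (i2.const_mul a), integral_sub i1 i3, setIntegral_const,
    H26.vol_ball c hρ, integral_const_mul, smul_eq_mul] at h
  have := mul_le_mul_of_nonneg_left (mom c hρ) ha
  linarith

/-- Homogeneous coordinates without pole at the origin. -/
def tz (L : PeriodPair) (t : ℂ) : V 3 :=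
  ![t ^ 3 * L.weierstrassPExcept 0 t + t, t ^ 3 * L.derivWeierstrassPExcept 0 t - 2, t ^ 3]

theorem tz_eq (L : PeriodPair) {t : ℂ} (ht : t ≠ 0) :
    tz L t = t ^ 3 • ![L.weierstrassP t, L.derivWeierstrassP t, 1] := by
  have h1 := L.weierstrassPExcept_add ⟨0, zero_mem _⟩ t
  have h2 := L.derivWeierstrassPExcept_sub ⟨0, zero_mem _⟩ t
  simp only [sub_zero] at h1 h2
  rw [← h1, ← h2]
  funext i
  fin_cases i
  · simp [tz]
    field_simp
  · simp [tz]
    field_simp
  · simp [tz]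

theorem tz_crv (L : PeriodPair) : Crv ((L.lattice : Set ℂ) \ {0})ᶜ (tz L) := by
  have h1 := L.differentiableOn_weierstrassPExcept 0
  have h2 := L.differentiableOn_derivWeierstrassPExcept 0
  refine ⟨differentiableOn_pi.2 fun i => ?_, fun z _ h => ?_⟩
  · fin_cases i
    · exact ((differentiableOn_id.pow 3).mul h1).add differentiableOn_id
    · exact ((differentiableOn_id.pow 3).mul h2).sub_const 2
    · exact differentiableOn_id.pow 3
  · have a := congrFun h 2
    have b := congrFun h 1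
    simp only [tz, Matrix.cons_val, Pi.zero_apply, Matrix.cons_val_one, Matrix.cons_val_zero] at a b
    rw [a] at b
    norm_num at b

theorem tz_th (L : PeriodPair) {t : ℂ} (ht : t ∈ ((L.lattice : Set ℂ) \ {0})ᶜ) :
    Pp (th L t) (tz L t) := by
  by_cases h0 : t = 0
  · subst h0
    refine ⟨-1 / 2, by norm_num, ?_⟩
    funext i
    fin_cases i <;> simp [th, tz]
  · have h1 : t ∉ L.lattice := fun h => ht ⟨h, h0⟩
    refine ⟨(t ^ 3)⁻¹, inv_ne_zero (pow_ne_zero 3 h0), ?_⟩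
    rw [tz_eq L h0, inv_smul_smul₀ (pow_ne_zero 3 h0), th, if_neg h1]

theorem tz_lam (h2 : EllStmt) (L : PeriodPair) {t : ℂ} (ht : t ∈ ((L.lattice : Set ℂ) \ {0})ᶜ) :
    0 < lam (tz L) t := by
  obtain ⟨a, j, ψ, -, p2, p3⟩ := (h2 L).2.2.1 t
  have hn := L.isOpen_compl_lattice_sdiff.mem_nhds ht
  have hd : HasDerivAt (tz L) (deriv (tz L) t) t :=
    ((tz_crv L).1.differentiableAt hn).hasDerivAt
  have e : ∀ᶠ w in 𝓝 t, tz L w j ≠ 0 ∧ ψ w = tz L w a / tz L w j := by
    filter_upwards [p3, hn] with w hw hw'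
    obtain ⟨κ, k1, k2⟩ := tz_th L hw'
    rw [k2] at hw
    simp only [Pi.smul_apply, smul_eq_mul] at hw
    exact ⟨right_ne_zero_of_mul hw.1, by rw [hw.2, mul_div_mul_left _ _ k1]⟩
  have hj := e.self_of_nhds.1
  have d := ((hasDerivAt_pi.1 hd a).div (hasDerivAt_pi.1 hd j) hj).congr_of_eventuallyEq
    (e.mono fun w hw => hw.2)
  rw [d.deriv] at p2
  have m := (R1.minor 3 (tz L t) (deriv (tz L) t) ((tz_crv L).2 t ht)).1 a j
  have m0 : 0 < ‖deriv (tz L) t a * tz L t j - tz L t a * deriv (tz L) t j‖ ^ 2 :=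
    pow_pos (norm_pos_iff.2 fun h => p2 (by rw [h, zero_div])) 2
  exact pos_of_mul_pos_left (m0.trans_le m) (sq_nonneg _)

/-- Uniform bounds on a fundamental region. -/
theorem bounds (h2 : EllStmt) (L : PeriodPair) (R : ℝ) {r : ℝ} (hr : 0 < r) :
    ∃ a C : ℝ, 0 < a ∧ ∀ w : ℂ, ‖w‖ ≤ R → (∀ l ∈ L.lattice, l ≠ 0 → r ≤ ‖w - l‖) →
      w ∈ ((L.lattice : Set ℂ) \ {0})ᶜ ∧ a ≤ lam (tz L) w ∧ log (H4.sq (tz L w)) ≤ C := by
  let K : Set ℂ := closedBall 0 R ∩ ⋂ l ∈ (L.lattice : Set ℂ) \ {0}, {w | r ≤ ‖w - l‖}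
  have hK : IsCompact K := (isCompact_closedBall 0 R).inter_right
    (isClosed_biInter fun l _ => isClosed_le continuous_const (by fun_prop))
  have hs : K ⊆ ((L.lattice : Set ℂ) \ {0})ᶜ := fun w hw hw' => by
    have := mem_iInter₂.1 hw.2 w hw'
    simp only [mem_setOf_eq, sub_self, norm_zero] at this
    linarith
  obtain ⟨q1, q2, -⟩ := R1.lapQ 3 _ (tz L) L.isOpen_compl_lattice_sdiff (tz_crv L)
  obtain ⟨a, a1, a2⟩ := hK.exists_forall_le' (q2.1.mono hs) fun w hw => tz_lam h2 L (hs hw)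
  obtain ⟨C, hC⟩ := hK.bddAbove_image (q1.continuousOn.mono hs)
  refine ⟨a, C, a1, fun w w1 w2 => ?_⟩
  have hw : w ∈ K := ⟨mem_closedBall_zero_iff.2 w1, mem_iInter₂.2 fun l hl => w2 l hl.1 hl.2⟩
  exact ⟨hs hw, a2 w hw, hC (mem_image_of_mem _ hw)⟩

/-- A lattice point such that all the others are far. -/
theorem pick (h1 : LatStmt) (L : PeriodPair) : ∃ r R : ℝ, 0 < r ∧ ∀ t : ℂ, ∃ l ∈ L.lattice,
    ‖t - l‖ ≤ R ∧ ∀ l' ∈ L.lattice, l' ≠ l → r ≤ ‖t - l'‖ := by
  obtain ⟨⟨R, R0, hR⟩, -, h⟩ := h1 L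
  obtain ⟨-, ⟨r, r0, hr⟩, -⟩ := h ∅
  refine ⟨r / 2, R + r / 2, half_pos r0, fun t => ?_⟩
  by_cases hc : ∃ l ∈ L.lattice, ‖t - l‖ < r / 2
  · obtain ⟨l, hl, hd⟩ := hc
    refine ⟨l, hl, by linarith, fun l' hl' hne => ?_⟩
    have e1 := hr l' (Or.inl hl') l (Or.inl hl) hne
    have e2 : l' - l = t - l - (t - l') := by ring
    rw [e2] at e1
    linarith [norm_sub_le (t - l) (t - l')]
  · obtain ⟨l, hl, hd⟩ := hR t
    exact ⟨l, hl, by linarith, fun l' hl' _ => not_lt.1 fun h => hc ⟨l', hl', h⟩⟩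

theorem divide {g : ℂ → ℂ} {O : Set ℂ} (hO : IsOpen O) (hg : DifferentiableOn ℂ g O) (l : ℂ)
    (hl : l ∈ O → g l = 0) : ∃ f, DifferentiableOn ℂ f O ∧ ∀ t ∈ O, g t = (t - l) * f t := by
  by_cases h : l ∈ O
  · refine ⟨dslope g l, (Complex.differentiableOn_dslope (hO.mem_nhds h)).2 hg, fun t _ => ?_⟩
    have := sub_smul_dslope g l t
    rw [hl h, sub_zero, smul_eq_mul] at this
    exact this.symm
  · have hn : ∀ t ∈ O, t - l ≠ 0 := fun t ht h0 => h (sub_eq_zero.1 h0 ▸ ht)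
    refine ⟨fun t => g t / (t - l), hg.div (differentiableOn_id.sub_const l) hn, fun t ht => ?_⟩
    rw [mul_div_cancel₀ _ (hn t ht)]

theorem schwarz {g f : ℂ → ℂ} {t₀ l t : ℂ} {ρ A : ℝ} (hρ : 0 < ρ)
    (hf : DifferentiableOn ℂ f (ball t₀ (2 * ρ)))
    (hg : ∀ t ∈ ball t₀ (2 * ρ), g t = (t - l) * f t) (hA : ∀ t ∈ ball t₀ (2 * ρ), ‖g t‖ ≤ A)
    (ht : t ∈ ball t₀ ρ) : ‖f t‖ ≤ A * (2 / ρ) := by
  have far : ∀ z ∈ ball t₀ (2 * ρ), ρ / 2 ≤ ‖z - l‖ → ‖f z‖ ≤ A * (2 / ρ) := fun z hz hd => by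
    have h1 := hA z hz
    rw [hg z hz, norm_mul] at h1
    rw [← mul_div_assoc, le_div_iff₀ hρ]
    nlinarith [norm_nonneg (f z)]
  by_cases h : ρ / 2 ≤ ‖t - l‖
  · exact far t (ball_subset_ball (by linarith) ht) h
  rw [not_le] at h
  have hs : closedBall l (ρ / 2) ⊆ ball t₀ (2 * ρ) := fun z hz => by
    rw [mem_closedBall_iff_norm] at hz
    rw [mem_ball_iff_norm] at ht ⊢
    have e : z - t₀ = z - l - (t - l) + (t - t₀) := by ring
    rw [e]
    linarith [norm_add_le (z - l - (t - l)) (t - t₀), norm_sub_le (z - l) (t - l)]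
  refine Complex.norm_le_of_forall_mem_frontier_norm_le (isBounded_ball (x := l) (r := ρ / 2))
    (hf.diffContOnCl_ball hs) (fun z hz => ?_) (subset_closure (mem_ball_iff_norm.2 h))
  rw [frontier_ball l (half_pos hρ).ne'] at hz
  exact far z (hs (sphere_subset_closedBall hz)) (mem_sphere_iff_norm.1 hz).ge

end Gain

open Gain in
theorem gain (h1 : LatStmt) (h2 : EllStmt) : GainStmt := fun L => by
  obtain ⟨r, R, r0, hp⟩ := pick h1 L
  obtain ⟨a, C, a0, hb⟩ := bounds h2 L (R + r / 2) (half_pos r0)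
  refine ⟨r / 4, 3 / 16 * a, by positivity, by positivity, fun ρ hρ hρr =>
    ⟨6 * log (2 / ρ) + C, fun t₀ g A hg hA => ?_⟩⟩
  obtain ⟨l, hl, l1, l2⟩ := hp t₀
  obtain ⟨f, f1, f2⟩ := divide isOpen_ball hg l fun h => (hA l h).2 hl
  have hw : ∀ t ∈ ball t₀ (2 * ρ), t - l ∈ ((L.lattice : Set ℂ) \ {0})ᶜ ∧
      a ≤ lam (tz L) (t - l) ∧ log (H4.sq (tz L (t - l))) ≤ C := fun t ht => by
    rw [mem_ball_iff_norm] at ht
    refine hb _ ?_ fun m hm m0 => ?_
    · have e : t - l = t - t₀ + (t₀ - l) := by ring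
      rw [e]
      linarith [norm_add_le (t - t₀) (t₀ - l)]
    · have e1 := l2 (l + m) (add_mem hl hm) (by simpa using m0)
      have e : t₀ - (l + m) = t - l - m - (t - t₀) := by ring
      rw [e] at e1
      linarith [norm_sub_le (t - l - m) (t - t₀)]
  have hF : Crv (ball t₀ (2 * ρ)) fun t => tz L (t - l) :=
    ⟨(tz_crv L).1.comp (differentiableOn_id.sub_const l) fun t ht => (hw t ht).1,
      fun t ht => (tz_crv L).2 _ (hw t ht).1⟩
  have key : ∀ t ∈ ball t₀ (2 * ρ), g t ≠ 0 → f t ≠ 0 ∧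
      bt L g t = 6 * log ‖f t‖ + log (H4.sq (tz L (t - l))) := fun t ht h0 => by
    rw [f2 t ht] at h0
    have n1 := left_ne_zero_of_mul h0
    have n2 := right_ne_zero_of_mul h0
    have n3 : (![L.weierstrassP t, L.derivWeierstrassP t, 1] : V 3) ≠ 0 := fun h => by
      simpa using congrFun h 2
    refine ⟨n2, ?_⟩
    rw [bt, f2 t ht, tz_eq L n1, L.weierstrassP_sub_coe t ⟨l, hl⟩,
      L.derivWeierstrassP_sub_coe t ⟨l, hl⟩, R1.sq_smul, norm_mul,
      log_mul (norm_ne_zero_iff.2 n1) (norm_ne_zero_iff.2 n2),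
      log_mul (pow_ne_zero 2 (norm_ne_zero_iff.2 (pow_ne_zero 3 n1))) (R1.sq_pos' n3).ne',
      norm_pow, log_pow, log_pow]
    push_cast
    ring
  have sb : ball t₀ ρ ⊆ ball t₀ (2 * ρ) := ball_subset_ball (by linarith)
  have sc : closedBall t₀ ρ ⊆ ball t₀ (2 * ρ) := closedBall_subset_ball (by linarith)
  refine ⟨fun t ht _ h0 => ?_, fun _ h0 => ?_⟩
  · obtain ⟨k1, k2⟩ := key t (sb ht) h0
    have A0 : 0 < A := (norm_pos_iff.2 h0).trans_le (hA t (sb ht)).1
    have e := log_le_log (norm_pos_iff.2 k1) (schwarz hρ f1 f2 (fun t ht => (hA t ht).1) ht)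
    rw [log_mul A0.ne' (by positivity)] at e
    linarith [(hw t (sb ht)).2.2]
  have c0 : t₀ ∈ ball t₀ (2 * ρ) := mem_ball_self (by linarith)
  obtain ⟨k1, k2⟩ := key t₀ c0 h0
  have ae := ((H26.logSub _ g isOpen_ball hg).2 t₀ ρ hρ sc h0).1
  obtain ⟨s1, s2⟩ := H26.logSub _ f isOpen_ball f1
  have s3 := (s2 t₀ ρ hρ sc k1).2
  have s4 : IntegrableOn (fun z => log ‖f z‖) (ball t₀ ρ) :=
    (s1.integrableOn_compact_subset sc (isCompact_closedBall t₀ ρ)).mono_set
      ball_subset_closedBall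
  obtain ⟨q1, -, q3⟩ := R1.lapQ 3 _ _ isOpen_ball hF
  obtain ⟨u1, u2⟩ := strict isOpen_ball q1 hρ sc a0.le fun z hz => by
    rw [q3 z hz, lam, deriv_comp_sub_const]
    exact mul_le_mul_of_nonneg_left (hw z hz).2.1 (by norm_num)
  have e : (fun t => 6 * log ‖f t‖ + log (H4.sq (tz L (t - l)))) =ᵐ[volume.restrict (ball t₀ ρ)]
      bt L g := (ae_restrict_iff' measurableSet_ball).2
    (ae.mono fun t ht h => (key t (sb h) (ht h)).2.symm)
  refine ⟨ae.mono fun t ht h => ⟨fun h' => ht h ((hA t (sb h)).2 h'), ht h⟩,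
    Integrable.congr ((s4.const_mul 6).add u1) e, ?_⟩
  rw [← integral_congr_ae e, integral_add (s4.const_mul 6) u1, integral_const_mul, k2]
  linarith

end Pool.Agent.MP_c69980_ag.E1
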