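import Pool.Agent.MP_c69980_ag.E1.Spec

/-!
Surfaces fibred over an elliptic curve: the lattice and the bad values.
-/

set_option autoImplicit false

noncomputable section

namespace Pool.Agent.MP_c69980_ag.E1

open Metric Filter Topology Set

namespace Gain

theorem near (L : PeriodPair) :
    ∃ R : ℝ, 0 < R ∧ ∀ t : ℂ, ∃ l ∈ L.lattice, ‖t - l‖ ≤ R := by
  refine ⟨‖L.ω₁‖ + ‖L.ω₂‖ + 1, by positivity, fun t => ?_⟩
  have h := L.basis.sum_repr t
  rw [Fin.sum_univ_two, L.basis_zero, L.basis_one] at h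
  set a := L.basis.repr t 0
  set b := L.basis.repr t 1
  refine ⟨(⌊a⌋ : ℤ) * L.ω₁ + (⌊b⌋ : ℤ) * L.ω₂, PeriodPair.mem_lattice.2 ⟨_, _, rfl⟩, ?_⟩
  have e : t - ((⌊a⌋ : ℤ) * L.ω₁ + (⌊b⌋ : ℤ) * L.ω₂) =
      Int.fract a • L.ω₁ + Int.fract b • L.ω₂ := by
    rw [← h]
    simp only [Int.fract, Complex.real_smul]
    push_cast
    ring
  have f : ∀ (x : ℝ) (w : ℂ), ‖Int.fract x • w‖ ≤ ‖w‖ := fun x w => by
    rw [norm_smul, Real.norm_eq_abs, abs_of_nonneg (Int.fract_nonneg x)]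
    exact mul_le_of_le_one_left (norm_nonneg w) (Int.fract_lt_one x).le
  rw [e]
  linarith [norm_add_le (Int.fract a • L.ω₁) (Int.fract b • L.ω₂), f a L.ω₁, f b L.ω₂]

theorem off (L : PeriodPair) (t₀ : ℂ) : ∀ᶠ t in 𝓝[≠] t₀, t ∉ L.lattice := by
  filter_upwards [nhdsWithin_le_nhds (L.compl_lattice_sdiff_singleton_mem_nhds t₀),
    self_mem_nhdsWithin] with t h1 h2 h3
  exact h1 ⟨h3, h2⟩

theorem ne_val (L : PeriodPair) (c t₀ : ℂ) : ∀ᶠ t in 𝓝[≠] t₀, L.weierstrassP t ≠ c := by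
  classical
  have hm : MeromorphicOn (fun t => L.weierstrassP t - c) univ := fun x _ =>
    (L.meromorphic_weierstrassP x).sub (MeromorphicAt.const c x)
  have h0 : meromorphicOrderAt (fun t => L.weierstrassP t - c) 0 ≠ ⊤ := by
    rw [Ne, meromorphicOrderAt_eq_top_iff]
    intro h
    have h1 : L.weierstrassP =ᶠ[𝓝[≠] 0] fun _ => c := h.mono fun t ht => sub_eq_zero.1 ht
    have h2 := meromorphicOrderAt_congr h1
    rw [L.order_weierstrassP 0 (zero_mem _), meromorphicOrderAt_const] at h2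
    have h3 : (-2 : WithTop ℤ) = ((-2 : ℤ) : WithTop ℤ) := by norm_num
    rw [h3] at h2
    split_ifs at h2
    · exact WithTop.coe_ne_top h2
    · exact absurd (WithTop.coe_eq_zero.1 h2) (by norm_num)
  have h4 := hm.meromorphicOrderAt_ne_top_of_isPreconnected isPreconnected_univ (mem_univ 0)
    (mem_univ t₀) h0
  exact ((meromorphicOrderAt_ne_top_iff_eventually_ne_zero (hm t₀ trivial)).1 h4).mono
    fun t ht => sub_ne_zero.1 ht

theorem off_bad (L : PeriodPair) (S : Finset ℂ) (t₀ : ℂ) : ∀ᶠ t in 𝓝[≠] t₀, t ∉ Bad L S := by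
  filter_upwards [off L t₀, (eventually_all_finset S).2 fun c _ => ne_val L c t₀] with t h1 h2 h3
  exact h3.elim h1 fun h4 => h2 _ h4 rfl

theorem bad_add (L : PeriodPair) (S : Finset ℂ) : ∀ t ∈ Bad L S, ∀ l ∈ L.lattice,
    t + l ∈ Bad L S := fun t ht l hl => by
  rcases ht with ht | ht
  · exact Or.inl (add_mem ht hl)
  · refine Or.inr ?_
    rwa [L.weierstrassP_add_coe t ⟨l, hl⟩]

theorem bad_fin (L : PeriodPair) (S : Finset ℂ) {K : Set ℂ} (hK : IsCompact K) :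
    (K ∩ Bad L S).Finite := by
  refine hK.induction_on (p := fun K => (K ∩ Bad L S).Finite) (by simp)
    (fun s t hst ht => ht.subset (inter_subset_inter_left _ hst))
    (fun s t hs ht => by rw [union_inter_distrib_right]; exact hs.union ht) fun x _ => ?_
  refine ⟨{t | t ≠ x → t ∉ Bad L S}, nhdsWithin_le_nhds ?_, (finite_singleton x).subset ?_⟩
  · exact eventually_nhdsWithin_iff.1 (off_bad L S x)
  · rintro t ⟨h1, h2⟩
    by_contra h3
    exact h1 h3 h2

theorem bad_sep (L : PeriodPair) (S : Finset ℂ) :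
    ∃ r : ℝ, 0 < r ∧ ∀ t ∈ Bad L S, ∀ t' ∈ Bad L S, t ≠ t' → r ≤ ‖t - t'‖ := by
  obtain ⟨R, -, hR⟩ := near L
  have hF := bad_fin L S (isCompact_closedBall (0 : ℂ) (R + 1))
  have h1 : ∀ᶠ r in 𝓝[>] (0 : ℝ), ∀ a ∈ closedBall (0 : ℂ) (R + 1) ∩ Bad L S,
      ∀ b ∈ closedBall (0 : ℂ) (R + 1) ∩ Bad L S, a ≠ b → r ≤ ‖a - b‖ := by
    refine (eventually_all_finite hF).2 fun a _ => (eventually_all_finite hF).2 fun b _ => ?_
    by_cases hab : a = b
    · exact Eventually.of_forall fun r h => absurd hab h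
    · refine nhdsWithin_le_nhds ?_
      filter_upwards [ge_mem_nhds (norm_pos_iff.2 (sub_ne_zero.2 hab))] with r hr _ using hr
  have h2 : ∀ᶠ r in 𝓝[>] (0 : ℝ), r ≤ 1 := nhdsWithin_le_nhds (ge_mem_nhds one_pos)
  obtain ⟨r, ⟨r1, r2⟩, r3⟩ := ((h1.and h2).and self_mem_nhdsWithin).exists
  refine ⟨r, r3, fun t ht t' ht' hne => ?_⟩
  by_cases h : 1 ≤ ‖t - t'‖
  · exact r2.trans h
  obtain ⟨l, hl, hd⟩ := hR t
  have e : t - t' = t + -l - (t' + -l) := by ring
  have e' : t' + -l = t - l - (t - t') := by ring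
  rw [e]
  refine r1 _ ⟨?_, bad_add L S t ht _ (neg_mem hl)⟩ _ ⟨?_, bad_add L S t' ht' _ (neg_mem hl)⟩
    fun h' => hne (add_right_cancel h')
  · rw [mem_closedBall_zero_iff, ← sub_eq_add_neg]
    linarith
  · rw [mem_closedBall_zero_iff, e']
    linarith [norm_sub_le (t - l) (t - t')]

end Gain

theorem lat : LatStmt := fun L => by
  refine ⟨Gain.near L, fun p t₀ hp => ?_, fun S => ⟨Gain.bad_add L S, Gain.bad_sep L S,
    fun t₀ => ?_⟩⟩
  · classical
    filter_upwards [Gain.off_bad L p.roots.toFinset t₀] with t ht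
    refine ⟨fun h => ht (Or.inl h), fun h => ht (Or.inr ?_)⟩
    exact Multiset.mem_toFinset.2 ((Polynomial.mem_roots hp).2 h)
  · obtain ⟨r, hr, h⟩ := nhds_basis_closedBall.eventually_iff.1
      (eventually_nhdsWithin_iff.1 (Gain.off_bad L S t₀))
    refine ⟨r, hr, fun t ht hd => ?_⟩
    by_contra h3
    exact h (mem_closedBall_iff_norm.2 hd) h3 ht

end Pool.Agent.MP_c69980_ag.E1
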