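import Pool.Agent.MP_c69980_ag.E1.BaseC

/-!
Surfaces fibred over an elliptic curve: the degree of the secant field depends only on the class.
-/

set_option autoImplicit false

noncomputable section

namespace Pool.Agent.MP_c69980_ag.E1

open MvPolynomial Metric Filter Topology Set
open H60 H4

namespace GermX

variable {n : ℕ} {X : Set (Pt n)} {t₀ c : ℂ} {r ρ : ℝ}

lemma xr_ball {x : Pt n} (h : x ∈ Xr X t₀ r) : x.1 ∈ closedBall t₀ r :=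
  mem_closedBall_iff_norm.2 h.2

lemma px_comp {α β : Type} [TopologicalSpace α] [TopologicalSpace β] {A : Set (Pt n)} {K : Set α}
    {L : Set β} {x : α → Pt n} {φ : β → α} (h : PX A K x) (hφ : ContinuousOn φ L)
    (hm : MapsTo φ L K) : PX A L fun b => x (φ b) :=
  ⟨h.1.comp hφ hm, h.2.1.comp hφ hm, fun _ hb => h.2.2 (hm hb)⟩

/-- A family of sections through regular points. -/
def Fs (X : Set (Pt n)) (t₀ : ℂ) (r : ℝ) (A : ℝ × ℂ → V n) : Prop :=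
  PC (Icc 0 1 ×ˢ closedBall t₀ r) A ∧
    ∀ θ ∈ Icc (0 : ℝ) 1, ∀ t ∈ closedBall t₀ r, (t, A (θ, t)) ∈ Rx X

/-- A family of spheres. -/
def Fam (B : Set (Pt n)) (c : ℂ) (ρ : ℝ) (x x' : ℝ × ℂ → Pt n) (b : ℝ × ℝ × ℂ → Pt n) : Prop :=
  PX B (Icc 0 1 ×ˢ closedBall c ρ) x ∧ PX B (Icc 0 1 ×ˢ closedBall c ρ) x' ∧
    PX B (Icc 0 1 ×ˢ Bn c ρ) b ∧ ∀ θ ∈ Icc (0 : ℝ) 1, ∀ t ∈ sphere c ρ,
      (b (θ, 0, t)).1 = (x (θ, t)).1 ∧ Pp (b (θ, 0, t)).2 (x (θ, t)).2 ∧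
        (b (θ, 1, t)).1 = (x' (θ, t)).1 ∧ Pp (b (θ, 1, t)).2 (x' (θ, t)).2

lemma pc_sa (h1 : SecStmt) (hX : Cn X) {A : ℝ × ℂ → V n} (hA : Fs X t₀ r A) {α : Type}
    [TopologicalSpace α] {K : Set α} {x : ℝ × α → Pt n} (hx : PX (Xr X t₀ r) (Icc 0 1 ×ˢ K) x) :
    PC (Icc 0 1 ×ˢ K) fun q => SS X (x q).1 (A (q.1, (x q).1)) (x q).2 := by
  refine (h1 n X hX).1 (ℝ × α) _ (fun q => (x q).1) (fun q => A (q.1, (x q).1))
    (fun q => (x q).2) hx.1 ?_ hx.2.1 fun q hq => ⟨hA.2 _ hq.1 _ (xr_ball (hx.2.2 hq)),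
      (hx.2.2 hq).1⟩
  exact hA.1.comp (φ := fun q : ℝ × α => (q.1, (x q).1)) (continuousOn_fst.prodMk hx.1)
    fun q hq => ⟨hq.1, xr_ball (hx.2.2 hq)⟩

lemma sa_pp (h1 : SecStmt) (hX : Cn X) {a a' : ℂ → V n} {x y : Pt n} (hr : (x.1, a x.1) ∈ Rx X)
    (ha : Pp (a x.1) (a' x.1)) (e : x.1 = y.1) (h : Pp x.2 y.2) : Pp (Sa X a x) (Sa X a' y) := by
  unfold Sa
  rw [← e]
  exact (h1 n X hX).2.1 _ _ _ _ _ hr ha h

/-- The degree is invariant in families. -/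
lemma inv (h1 : SecStmt) (h2 : DgStmt) (hX : Cn X) (hρ : 0 < ρ) {A : ℝ × ℂ → V n}
    (hA : Fs X t₀ r A) {x x' : ℝ × ℂ → Pt n} {b : ℝ × ℝ × ℂ → Pt n}
    (h : Fam (Xr X t₀ r) c ρ x x' b) (k : ℤ) :
    Dl X (fun t => A (0, t)) c ρ (fun t => x (0, t)) (fun t => x' (0, t)) (fun q => b (0, q)) k ↔
      Dl X (fun t => A (1, t)) c ρ (fun t => x (1, t)) (fun t => x' (1, t))
        (fun q => b (1, q)) k := by
  refine (h2 (Fin n × Fin n) c ρ hρ).2 (fun q => SS X (x q).1 (A (q.1, (x q).1)) (x q).2)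
    (fun q => SS X (x' q).1 (A (q.1, (x' q).1)) (x' q).2)
    (fun q => SS X (b q).1 (A (q.1, (b q).1)) (b q).2) k (pc_sa h1 hX hA h.1)
    (pc_sa h1 hX hA h.2.1) (pc_sa h1 hX hA h.2.2.1) fun θ hθ t ht => ?_
  obtain ⟨e1, p1, e2, p2⟩ := h.2.2.2 θ hθ t ht
  have m0 : ((θ, 0, t) : ℝ × ℝ × ℂ) ∈ Icc (0 : ℝ) 1 ×ˢ Bn c ρ := ⟨hθ, ⟨le_rfl, zero_le_one⟩, ht⟩
  have m1 : ((θ, 1, t) : ℝ × ℝ × ℂ) ∈ Icc (0 : ℝ) 1 ×ˢ Bn c ρ := ⟨hθ, ⟨zero_le_one, le_rfl⟩, ht⟩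
  exact ⟨sa_pp (a := fun t => A (θ, t)) (a' := fun t => A (θ, t)) h1 hX
      (hA.2 θ hθ _ (xr_ball (h.2.2.1.2.2 m0))) (.refl _) e1 p1,
    sa_pp (a := fun t => A (θ, t)) (a' := fun t => A (θ, t)) h1 hX
      (hA.2 θ hθ _ (xr_ball (h.2.2.1.2.2 m1))) (.refl _) e2 p2⟩

lemma xr_mono {ε : ℝ} (h : ε ≤ r) : Xr X t₀ ε ⊆ Xr X t₀ r := fun _ hx => ⟨hx.1, hx.2.trans h⟩

lemma eqv_mono {ε : ℝ} {a a' : ℂ → V n} (H : Eqv X t₀ r a a') (h : ε ≤ r) : Eqv X t₀ ε a a' :=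
  fun c ρ x x' b k hρ hc => H c ρ x x' b k hρ
    ⟨⟨hc.1.1, hc.1.2.1, hc.1.2.2.mono_right (xr_mono h)⟩,
      ⟨hc.2.1.1, hc.2.1.2.1, hc.2.1.2.2.mono_right (xr_mono h)⟩,
      ⟨hc.2.2.1.1, hc.2.2.1.2.1, hc.2.2.1.2.2.mono_right (xr_mono h)⟩, hc.2.2.2⟩

lemma eqv_symm {a a' : ℂ → V n} (H : Eqv X t₀ r a a') : Eqv X t₀ r a' a :=
  fun c ρ x x' b k hρ hc => (H c ρ x x' b k hρ hc).symm

lemma eqv_trans {a a' a'' : ℂ → V n} (H : Eqv X t₀ r a a') (H' : Eqv X t₀ r a' a'') :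
    Eqv X t₀ r a a'' :=
  fun c ρ x x' b k hρ hc => (H c ρ x x' b k hρ hc).trans (H' c ρ x x' b k hρ hc)

lemma eqv_pp (h1 : SecStmt) (hX : Cn X) {a a' : ℂ → V n}
    (H : ∀ t ∈ closedBall t₀ r, (t, a t) ∈ Rx X ∧ Pp (a t) (a' t)) : Eqv X t₀ r a a' := by
  intro c ρ x x' b k _ hc
  have key : ∀ y ∈ Xr X t₀ r, Pp (Sa X a y) (Sa X a' y) := fun y hy =>
    sa_pp h1 hX (H _ (xr_ball hy)).1 (H _ (xr_ball hy)).2 rfl (.refl _)
  exact ⟨fun h => Dg.congr h (fun t ht => (key _ (hc.1.2.2 ht)).symm)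
      (fun t ht => (key _ (hc.2.1.2.2 ht)).symm) fun q hq => (key _ (hc.2.2.1.2.2 hq)).symm,
    fun h => Dg.congr h (fun t ht => key _ (hc.1.2.2 ht))
      (fun t ht => key _ (hc.2.1.2.2 ht)) fun q hq => key _ (hc.2.2.1.2.2 hq)⟩

lemma eqv_hom (h1 : SecStmt) (h2 : DgStmt) (hX : Cn X) {A : ℝ × ℂ → V n} (hA : Fs X t₀ r A) :
    Eqv X t₀ r (fun t => A (0, t)) fun t => A (1, t) := fun _ _ x x' b k hρ hc =>
  inv h1 h2 hX hρ hA (x := fun q => x q.2) (x' := fun q => x' q.2) (b := fun q => b q.2)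
    ⟨px_comp hc.1 continuousOn_snd fun _ hq => hq.2,
      px_comp hc.2.1 continuousOn_snd fun _ hq => hq.2,
      px_comp hc.2.2.1 continuousOn_snd fun _ hq => hq.2, fun _ _ t ht => hc.2.2.2 t ht⟩ k

variable {a j : Fin n} {U : Set (ℂ × ℂ)} {Y : ℂ × ℂ → V n}

lemma near (hX : Cn X) (hC : Chart X a j U Y) {s : ℂ → V n} (hr : 0 < r) (hs : Gs X t₀ r s) {z : ℂ}
    (hz : (t₀, z) ∈ U) (hp : Pp (s t₀) (Y (t₀, z))) :
    ∀ᶠ t in 𝓝 t₀, (t, s t a / s t j) ∈ U ∧ Pp (s t) (Y (t, s t a / s t j)) := by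
  have := (hC.ev_pc (τ := id) hX hz (mem_closedBall_self hr.le) continuousWithinAt_id hs.1
    (mem_of_superset self_mem_nhdsWithin fun t ht => Rx.mem hX (hs.2 t ht)) rfl hp).2
  rwa [nhdsWithin_eq_nhds.2 (closedBall_mem_nhds t₀ hr)] at this

/-- Two sections that start in one convex chart. -/
lemma loc (h1 : SecStmt) (h2 : DgStmt) (hX : Cn X) (hC : Chart X a j U Y) (hU : Convex ℝ U)
    {s s' : ℂ → V n} {r' : ℝ} (hr : 0 < r) (hr' : 0 < r') (hs : Gs X t₀ r s) (hs' : Gs X t₀ r' s')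
    {z z' : ℂ} (hz : (t₀, z) ∈ U) (hz' : (t₀, z') ∈ U) (hp : Pp (s t₀) (Y (t₀, z)))
    (hp' : Pp (s' t₀) (Y (t₀, z'))) : ∃ ε : ℝ, 0 < ε ∧ Eqv X t₀ ε s s' := by
  obtain ⟨ε, hε, H⟩ := nhds_basis_closedBall.eventually_iff.1
    (((near hX hC hr hs hz hp).and (near hX hC hr' hs' hz' hp')).and
      (Eventually.and (p := fun t => t ∈ closedBall t₀ r) (q := fun t => t ∈ closedBall t₀ r')
        (closedBall_mem_nhds t₀ hr) (closedBall_mem_nhds t₀ hr')))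
  have c1 : ContinuousOn (fun t => s t a / s t j) (closedBall t₀ ε) :=
    (hs.1.mono fun t ht => (H ht).2.1).ratio a fun t ht => (hC.eq (H ht).1.1.1 (H ht).1.1.2).1
  have c2 : ContinuousOn (fun t => s' t a / s' t j) (closedBall t₀ ε) :=
    (hs'.1.mono fun t ht => (H ht).2.2).ratio a fun t ht => (hC.eq (H ht).1.2.1 (H ht).1.2.2).1
  have m : ∀ q ∈ Icc (0 : ℝ) 1 ×ˢ closedBall t₀ ε, (q.2, zb a j s s' q) ∈ U := fun q hq => by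
    have := hU (H hq.2).1.1.1 (H hq.2).1.2.1 (sub_nonneg.2 hq.1.2) hq.1.1 (sub_add_cancel _ _)
    refine (Set.mem_of_eq_of_mem ?_ this)
    refine Prod.ext ?_ ?_
    · simp only [Prod.fst_add, Prod.smul_fst, Complex.real_smul]
      push_cast
      ring
    · simp only [Prod.snd_add, Prod.smul_snd, Complex.real_smul, zb]
      push_cast
      ring
  have c0 : Continuous fun q : ℝ × ℂ => (q.1 : ℂ) := Complex.continuous_ofReal.comp continuous_fst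
  have c3 : ContinuousOn (fun q : ℝ × ℂ => ((q.2, zb a j s s' q) : ℂ × ℂ))
      (Icc 0 1 ×ˢ closedBall t₀ ε) :=
    continuousOn_snd.prodMk (((continuousOn_const.sub c0.continuousOn).mul
      (c1.comp continuousOn_snd fun _ hq => hq.2)).add
        (c0.continuousOn.mul (c2.comp continuousOn_snd fun _ hq => hq.2)))
  have hA : Fs X t₀ ε fun q => Y (q.2, zb a j s s' q) :=
    ⟨PC.of_cont (hC.cont.comp c3 m) fun q hq => hC.ne (m q hq),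
      fun θ hθ t ht => hC.rx (m (θ, t) ⟨hθ, ht⟩) (.refl _)⟩
  refine ⟨ε, hε, eqv_trans (eqv_trans (eqv_pp h1 hX fun t ht => ⟨hs.2 t (H ht).2.1, ?_⟩)
    (eqv_hom h1 h2 hX hA)) (eqv_symm (eqv_pp h1 hX fun t ht => ⟨hs'.2 t (H ht).2.2, ?_⟩))⟩
  · simpa [zb] using (H ht).1.1.2
  · simpa [zb] using (H ht).1.2.2

/-- All sections through `y` and `y'` have the same degrees near the fibre. -/
def R (X : Set (Pt n)) (t₀ : ℂ) (y y' : V n) : Prop :=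
  ∀ (r r' : ℝ) (s s' : ℂ → V n), 0 < r → 0 < r' → Gs X t₀ r s → Gs X t₀ r' s' → Pp (s t₀) y →
    Pp (s' t₀) y' → ∃ ε : ℝ, 0 < ε ∧ Eqv X t₀ ε s s'

lemma ex_gs {y : V n} (h : (t₀, y) ∈ Rx X) : ∃ r s, 0 < r ∧ Gs X t₀ r s ∧ Pp (s t₀) y := by
  obtain ⟨a, j, U, Y, hC, z, hz, hp⟩ := h
  have c : Continuous fun t : ℂ => ((t, z) : ℂ × ℂ) := by fun_prop
  obtain ⟨r, hr, H⟩ := nhds_basis_closedBall.eventually_iff.1
    (c.continuousAt.eventually (hC.nhds hz))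
  exact ⟨r, fun t => Y (t, z), hr, ⟨PC.of_cont (hC.cont.comp c.continuousOn fun t ht => H ht)
    fun t ht => hC.ne (H ht), fun t ht => hC.rx (H ht) (.refl _)⟩, hp.symm⟩

lemma r_trans {y y' y'' : V n} (h : (t₀, y') ∈ Rx X) (H : R X t₀ y y') (H' : R X t₀ y' y'') :
    R X t₀ y y'' := by
  intro r r' s s' hr hr' hs hs' hp hp'
  obtain ⟨r₁, s₁, a1, a2, a3⟩ := ex_gs h
  obtain ⟨ε, hε, e⟩ := H r r₁ s s₁ hr a1 hs a2 hp a3
  obtain ⟨ε', hε', e'⟩ := H' r₁ r' s₁ s' a1 hr' a2 hs' a3 hp'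
  exact ⟨min ε ε', lt_min hε hε',
    eqv_trans (eqv_mono e (min_le_left _ _)) (eqv_mono e' (min_le_right _ _))⟩

lemma r_loc (h1 : SecStmt) (h2 : DgStmt) (hX : Cn X) {y : V n} (h : (t₀, y) ∈ Rx X) :
    ∀ᶠ w in 𝓝 y, (t₀, w) ∈ X → R X t₀ y w ∧ R X t₀ w y := by
  obtain ⟨a, j, U, Y, hC, z, hz, hp⟩ := h
  obtain ⟨d, hd, hb⟩ := Metric.mem_nhds_iff.1 (hC.nhds hz)
  have hC' := hC.mono isOpen_ball hb
  have hz' : ((t₀, z) : ℂ × ℂ) ∈ ball ((t₀, z) : ℂ × ℂ) d := mem_ball_self hd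
  have c : Continuous fun w : V n => ((t₀, w) : Pt n) := by fun_prop
  filter_upwards [c.continuousAt.eventually (hC'.ev hX hz' hp)] with w hw hm
  obtain ⟨w1, w2, w3⟩ := hw hm
  have w4 : Pp w (Y (t₀, w a / w j)) := ⟨_, w1, w3⟩
  exact ⟨fun r r' s s' hr hr' hs hs' q q' => loc h1 h2 hX hC' (convex_ball _ _) hr hr' hs hs' hz' w2
      (q.trans hp) (q'.trans w4),
    fun r r' s s' hr hr' hs hs' q q' => loc h1 h2 hX hC' (convex_ball _ _) hr hr' hs hs' w2 hz'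
      (q.trans w4) (q'.trans hp)⟩

/-- Pushing a map by an equivariant homotopy. -/
lemma px_push (hX : Cn X) {H : ℝ × Pt n → Pt n} (hH : ContinuousOn H (Icc 0 1 ×ˢ Xr X t₀ r))
    (hm : ∀ x ∈ Xr X t₀ r, ∀ θ ∈ Icc (0 : ℝ) 1, H (θ, x) ∈ Xr X t₀ r ∧
      ∀ c : ℂ, c ≠ 0 → H (θ, x.1, c • x.2) = ((H (θ, x)).1, c • (H (θ, x)).2))
    {α : Type} [TopologicalSpace α] {K : Set α} {x : α → Pt n} (hx : PX (Xr X t₀ r) K x) :
    PX (Xr X t₀ r) (Icc 0 1 ×ˢ K) fun q : ℝ × α => H (q.1, x q.2) := by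
  have key : ∀ q ∈ Icc (0 : ℝ) 1 ×ˢ K, ∃ W ∈ 𝓝[Icc (0 : ℝ) 1 ×ˢ K] q, ∃ G : ℝ × α → Pt n,
      ContinuousOn G W ∧ ∀ p ∈ W, (G p).2 ≠ 0 ∧ (H (p.1, x p.2)).1 = (G p).1 ∧
        Pp (H (p.1, x p.2)).2 (G p).2 := fun q hq => by
    obtain ⟨U, hU, g, g1, g2⟩ := hx.2.1 q.2 hq.2
    have mem : ∀ p ∈ K ∩ U, (((x p).1, g p) : Pt n) ∈ Xr X t₀ r := fun p hp =>
      ⟨hX.pp (hx.2.2 hp.1).1 (g2 p hp.2).2.symm, (hx.2.2 hp.1).2⟩
    refine ⟨Icc 0 1 ×ˢ (K ∩ U), ?_, fun p => H (p.1, (x p.2).1, g p.2), ?_, fun p hp => ?_⟩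
    · have : Prod.snd ⁻¹' U ∈ 𝓝[Icc (0 : ℝ) 1 ×ˢ K] q :=
        (continuousWithinAt_snd.tendsto_nhdsWithin fun _ hp => hp.2) hU
      filter_upwards [this, self_mem_nhdsWithin] with p p1 p2 using ⟨p2.1, p2.2, p1⟩
    · refine hH.comp (f := fun p : ℝ × α => (p.1, (x p.2).1, g p.2)) (continuousOn_fst.prodMk
        ((hx.1.comp continuousOn_snd fun _ hp => hp.2.1).prodMk
          (g1.comp continuousOn_snd fun _ hp => hp.2.2))) fun p hp => ⟨hp.1, mem _ hp.2⟩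
    · obtain ⟨e, e0, he⟩ := (g2 p.2 hp.2.2).2
      obtain ⟨a1, a2⟩ := hm _ (mem _ hp.2) p.1 hp.1
      have e1 : x p.2 = ((x p.2).1, e • g p.2) := Prod.ext rfl he
      have e2 := a2 e e0
      rw [← e1] at e2
      rw [e2]
      exact ⟨hX.nz _ a1.1, rfl, .smul e0 _⟩
  refine ⟨fun q hq => ?_, fun q hq => ?_, fun q hq => (hm _ (hx.2.2 hq.2) _ hq.1).1⟩
  · obtain ⟨W, hW, G, g1, g2⟩ := key q hq
    have hq' := mem_of_mem_nhdsWithin hq hW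
    exact ((g1 q hq').mono_of_mem_nhdsWithin hW).fst.congr_of_eventuallyEq
      (mem_of_superset hW fun p hp => (g2 p hp).2.1) (g2 q hq').2.1
  · obtain ⟨W, hW, G, g1, g2⟩ := key q hq
    exact ⟨W, hW, fun p => (G p).2, g1.snd, fun p hp => ⟨(g2 p hp).1, (g2 p hp).2.2⟩⟩

lemma dl_congr {s : ℂ → V n} {x x' y y' : ℂ → Pt n} {b b' : ℝ × ℂ → Pt n} {k : ℤ}
    (e1 : ∀ t ∈ closedBall c ρ, x t = y t) (e2 : ∀ t ∈ closedBall c ρ, x' t = y' t)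
    (e3 : ∀ q ∈ Bn c ρ, b q = b' q) : Dl X s c ρ x x' b k ↔ Dl X s c ρ y y' b' k :=
  ⟨fun h => Dg.congr h (fun t ht => .of_eq (by rw [e1 t ht])) (fun t ht => .of_eq (by rw [e2 t ht]))
      fun q hq => .of_eq (by rw [e3 q hq]),
    fun h => Dg.congr h (fun t ht => .of_eq (by rw [e1 t ht]))
      (fun t ht => .of_eq (by rw [e2 t ht])) fun q hq => .of_eq (by rw [e3 q hq])⟩

end GermX

open GermX

theorem germ (h1 : SecStmt) (h2 : DgStmt) : GermStmt := by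
  rintro n X t₀ r a a' hX hr ha ha' ⟨A, hA, hR, m, m'⟩
  have key : R X t₀ (a t₀) (a' t₀) := hA.induction₂' (R X t₀) (fun y hy => by
    filter_upwards [nhdsWithin_le_nhds (r_loc h1 h2 hX (hR y hy)), self_mem_nhdsWithin] with w w1 w2
    exact w1 (Rx.mem hX (hR w w2))) (fun _ y _ _ hy _ => r_trans (hR y hy)) m m'
  obtain ⟨ε, hε, e⟩ := key r r a a' hr hr ha ha' (.refl _) (.refl _)
  exact ⟨min ε r, lt_min hε hr, min_le_right _ _, eqv_mono e (min_le_left _ _)⟩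

theorem rel (h1 : SecStmt) (h2 : DgStmt) (h3 : PushStmt) (h4 : GermStmt) : RelStmt := by
  intro n X t₀ r a a' hX hr hP ha ha' hc c ρ x x' b k hρ hs
  obtain ⟨ε, hε, -, e⟩ := h4 n X t₀ r a a' hX hr ha ha' hc
  obtain ⟨H, hH, hm⟩ := h3 n X t₀ ε r hX hε hP
  have hm' := fun x hx => (hm x hx).2.2
  have eq : ∀ θ ∈ Icc (0 : ℝ) 1, ∀ y ∈ Xr X t₀ r, ∀ w : Pt n, w.1 = y.1 → Pp w.2 y.2 →
      (H (θ, w)).1 = (H (θ, y)).1 ∧ Pp (H (θ, w)).2 (H (θ, y)).2 := by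
    rintro θ hθ y hy w e1 ⟨e, e0, he⟩
    have e2 : w = (y.1, e • y.2) := Prod.ext e1 he
    rw [e2, (hm' y hy θ hθ).2 e e0]
    exact ⟨rfl, .smul e0 _⟩
  have F : Fam (Xr X t₀ r) c ρ (fun q => H (q.1, x q.2)) (fun q => H (q.1, x' q.2))
      fun q => H (q.1, b q.2) :=
    ⟨px_push hX hH hm' hs.1, px_push hX hH hm' hs.2.1, px_push hX hH hm' hs.2.2.1,
      fun θ hθ t ht => by
        obtain ⟨e1, p1, e2, p2⟩ := hs.2.2.2 t ht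
        have a1 := eq θ hθ _ (hs.1.2.2 (sphere_subset_closedBall ht)) _ e1 p1
        have a2 := eq θ hθ _ (hs.2.1.2.2 (sphere_subset_closedBall ht)) _ e2 p2
        exact ⟨a1.1, a1.2, a2.1, a2.2⟩⟩
  have one : (1 : ℝ) ∈ Icc (0 : ℝ) 1 := ⟨zero_le_one, le_rfl⟩
  have res : ∀ {α : Type} [TopologicalSpace α] {K : Set α} {y : α → Pt n}, PX (Xr X t₀ r) K y →
      PX (Xr X t₀ ε) K fun q => H (1, y q) := fun {α} _ {K} {y} hy => by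
    have := px_comp (L := K) (φ := fun q : α => ((1, q) : ℝ × α)) (px_push hX hH hm' hy)
      (continuousOn_const.prodMk continuousOn_id) fun q hq => ⟨one, hq⟩
    exact ⟨this.1, this.2.1, fun q hq => (hm _ (hy.2.2 hq)).2.1⟩
  have key : ∀ s, Gs X t₀ r s → (Dl X s c ρ x x' b k ↔ Dl X s c ρ (fun t => H (1, x t))
      (fun t => H (1, x' t)) (fun q => H (1, b q)) k) := fun s h =>
    (dl_congr (fun t ht => (hm _ (hs.1.2.2 ht)).1.symm)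
      (fun t ht => (hm _ (hs.2.1.2.2 ht)).1.symm)
      fun q hq => (hm _ (hs.2.2.1.2.2 hq)).1.symm).trans
      (inv h1 h2 hX hρ (A := fun q => s q.2)
        ⟨h.1.comp continuousOn_snd fun _ hq => hq.2, fun _ _ t ht => h.2 t ht⟩ F k)
  exact (key a ha).trans ((e c ρ _ _ _ k hρ
    ⟨res hs.1, res hs.2.1, res hs.2.2.1, F.2.2.2 1 one⟩).trans (key a' ha').symm)

end Pool.Agent.MP_c69980_ag.E1
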