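import Pool.Agent.MP_c69980_ag.E1.Spec

/-!
Fields of lines: lifting of homotopies, and the degree on a sphere.
-/

set_option autoImplicit false

noncomputable section

namespace Pool.Agent.MP_c69980_ag.E1

open Metric Filter Topology Set
open scoped ComplexConjugate

namespace HL

section gen

variable {E : Type} [NormedAddCommGroup E] [NormedSpace ℂ E]

theorem pp_symm {y w : E} (h : Pp y w) : Pp w y := by
  obtain ⟨c, hc, rfl⟩ := h
  exact ⟨c⁻¹, inv_ne_zero hc, (inv_smul_smul₀ hc w).symm⟩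

theorem pp_trans {y w z : E} (h : Pp y w) (h' : Pp w z) : Pp y z := by
  obtain ⟨c, hc, rfl⟩ := h
  obtain ⟨d, hd, rfl⟩ := h'
  exact ⟨c * d, mul_ne_zero hc hd, smul_smul c d z⟩

theorem pp_ne {y w : E} (h : Pp y w) (hw : w ≠ 0) : y ≠ 0 := by
  obtain ⟨c, hc, rfl⟩ := h
  exact smul_ne_zero hc hw

variable {α β : Type} [TopologicalSpace α] [TopologicalSpace β]

theorem pc_comp {K : Set α} {K' : Set β} {v : α → E} {f : β → α} (h : PC K v)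
    (hf : ContinuousOn f K') (hm : MapsTo f K' K) : PC K' fun x => v (f x) := by
  intro x hx
  obtain ⟨U, hU, g, hg, h1⟩ := h (f x) (hm hx)
  refine ⟨K' ∩ f ⁻¹' U, inter_mem self_mem_nhdsWithin
    ((hf x hx).tendsto_nhdsWithin hm hU), fun y => g (f y),
    hg.comp (hf.mono inter_subset_left) fun y hy => hy.2, fun y hy => h1 _ hy.2⟩

theorem lf_comp {K : Set α} {K' : Set β} {v g : α → E} {f : β → α} (h : Lf K v g)
    (hf : ContinuousOn f K') (hm : MapsTo f K' K) :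
    Lf K' (fun x => v (f x)) fun x => g (f x) :=
  ⟨h.1.comp hf hm, fun _ hx => h.2 _ (hm hx)⟩

theorem pc_ne {K : Set α} {v : α → E} (h : PC K v) {x : α} (hx : x ∈ K) : v x ≠ 0 := by
  obtain ⟨U, hU, g, -, h1⟩ := h x hx
  obtain ⟨h2, h3⟩ := h1 x (mem_of_mem_nhdsWithin hx hU)
  exact pp_ne h3 h2

end gen

theorem wn_mul {c : ℂ} {ρ : ℝ} (hρ : 0 < ρ) {f g : ℂ → ℂ} {k l : ℤ} (hf : Wn c ρ f k)
    (hg : Wn c ρ g l) : Wn c ρ (fun t => f t * g t) (k + l) := by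
  obtain ⟨φ, hφ, h1⟩ := hf
  obtain ⟨ψ, hψ, h2⟩ := hg
  refine ⟨fun t => φ t + ψ t, hφ.add hψ, fun t ht => ?_⟩
  have h0 : t - c ≠ 0 := sub_ne_zero.2 (ne_of_mem_sphere ht hρ.ne')
  show f t * g t = _
  rw [h1 t ht, h2 t ht, zpow_add₀ h0, Complex.exp_add]
  ring

theorem wn_congr {c : ℂ} {ρ : ℝ} {f g : ℂ → ℂ} {k : ℤ} (hf : Wn c ρ f k)
    (h : ∀ t ∈ sphere c ρ, g t = f t) : Wn c ρ g k := by
  obtain ⟨φ, hφ, h1⟩ := hf
  exact ⟨φ, hφ, fun t ht => (h t ht).trans (h1 t ht)⟩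

variable {ι : Type} [Fintype ι]

/-- The Hermitian product. -/
def ip (w u : ι → ℂ) : ℂ := ∑ i, w i * conj (u i)

theorem ip_ne {u : ι → ℂ} (hu : u ≠ 0) : ip u u ≠ 0 := by
  intro h
  refine hu (funext fun i => ?_)
  simp only [ip, Complex.mul_conj] at h
  rw [← Complex.ofReal_sum, Complex.ofReal_eq_zero,
    Finset.sum_eq_zero_iff_of_nonneg fun j _ => Complex.normSq_nonneg _] at h
  exact Complex.normSq_eq_zero.1 (h i (Finset.mem_univ i))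

theorem ip_smul (c : ℂ) (w u : ι → ℂ) : ip (c • w) u = c * ip w u := by
  simp only [ip, Pi.smul_apply, smul_eq_mul, Finset.mul_sum, mul_assoc]

theorem ip_smul' (c : ℂ) (w u : ι → ℂ) : ip w (c • u) = conj c * ip w u := by
  simp only [ip, Pi.smul_apply, smul_eq_mul, Finset.mul_sum, map_mul]
  exact Finset.sum_congr rfl fun i _ => by ring

theorem ip_cont {α : Type} [TopologicalSpace α] {K : Set α} {g h : α → ι → ℂ}
    (hg : ContinuousOn g K) (hh : ContinuousOn h K) : ContinuousOn (fun x => ip (g x) (h x)) K :=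
  continuousOn_finset_sum _ fun i _ => (continuousOn_pi.1 hg i).mul
    (Complex.continuous_conj.comp_continuousOn (continuousOn_pi.1 hh i))

/-- The projection on the line through `u`. -/
def pj (u : ι → ℂ) : (ι → ℂ) →L[ℂ] ι → ℂ :=
  LinearMap.toContinuousLinearMap
    { toFun := fun w => (ip w u / ip u u) • u
      map_add' := fun w z => by
        rw [← add_smul, ← add_div]
        simp only [ip, Pi.add_apply, add_mul, Finset.sum_add_distrib]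
      map_smul' := fun c w => by rw [ip_smul, RingHom.id_apply, smul_smul, mul_div_assoc] }

theorem pj_apply (u w : ι → ℂ) : pj u w = (ip w u / ip u u) • u := rfl

theorem pj_pp {u z : ι → ℂ} (h : Pp u z) : pj u = pj z := by
  obtain ⟨c, hc, rfl⟩ := h
  refine ContinuousLinearMap.ext fun w => ?_
  have h1 : conj c ≠ 0 := (map_ne_zero _).2 hc
  rw [pj_apply, pj_apply, ip_smul', ip_smul', ip_smul, smul_smul, mul_div_mul_left _ _ h1,
    mul_comm c, ← div_div, div_mul_cancel₀ _ hc]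

theorem pj_self {u w : ι → ℂ} (hw : w ≠ 0) (h : Pp u w) : pj u w = w := by
  rw [pj_pp h, pj_apply, div_self (ip_ne hw), one_smul]

theorem pj_cont {α : Type} [TopologicalSpace α] {K : Set α} {v : α → ι → ℂ} (h : PC K v) :
    ContinuousOn (fun x => pj (v x)) K := by
  intro x hx
  obtain ⟨U, hU, g, hg, h1⟩ := h x hx
  have h2 : ContinuousOn (fun y => pj (g y)) U :=
    continuousOn_clm_apply.2 fun w => (((ip_cont continuousOn_const hg).div (ip_cont hg hg)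
      fun y hy => ip_ne (h1 y hy).1).smul hg)
  exact ((h2.congr fun y hy => pj_pp (h1 y hy).2) x
    (mem_of_mem_nhdsWithin hx hU)).mono_of_mem_nhdsWithin hU

theorem ratio {α : Type} [TopologicalSpace α] {K : Set α} {g h : α → ι → ℂ}
    (hg : ContinuousOn g K) (hh : ContinuousOn h K) (hp : ∀ x ∈ K, h x ≠ 0 ∧ Pp (g x) (h x)) :
    ∃ a : α → ℂ, ContinuousOn a K ∧ ∀ x ∈ K, a x ≠ 0 ∧ g x = a x • h x := by
  refine ⟨fun x => ip (g x) (h x) / ip (h x) (h x), (ip_cont hg hh).div (ip_cont hh hh)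
    fun x hx => ip_ne (hp x hx).1, fun x hx => ?_⟩
  obtain ⟨h0, c, hc, h1⟩ := hp x hx
  have h2 : ip (g x) (h x) / ip (h x) (h x) = c := by
    rw [h1, ip_smul, mul_div_cancel_right₀ _ (ip_ne h0)]
  simp only [h2]
  exact ⟨hc, h1⟩

theorem ratio_lf {α : Type} [TopologicalSpace α] {K : Set α} {v g h : α → ι → ℂ}
    (hg : Lf K v g) (hh : Lf K v h) :
    ∃ a : α → ℂ, ContinuousOn a K ∧ ∀ x ∈ K, a x ≠ 0 ∧ g x = a x • h x :=
  ratio hg.1 hh.1 fun x hx => ⟨(hh.2 x hx).1, pp_trans (pp_symm (hg.2 x hx).2) (hh.2 x hx).2⟩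

end HL

open HL

theorem hl : HLStmt := by
  intro ι α _ _ K v g hK hv hg
  have hP := pj_cont hv
  obtain ⟨δ, δ0, hδ⟩ := Metric.uniformContinuousOn_iff.1
    ((isCompact_Icc.prod hK).uniformContinuousOn_of_continuous hP) 1 one_pos
  have key : ∀ i : ℕ, ∃ G, Lf ((Icc 0 1 ∩ Iic (i * (δ / 2))) ×ˢ K) v G ∧
      ∀ x ∈ K, G (0, x) = g x := by
    intro i
    induction i with
    | zero =>
      refine ⟨fun y => g y.2, ⟨hg.1.comp continuousOn_snd fun y hy => hy.2, ?_⟩, fun _ _ => rfl⟩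
      rintro ⟨s, x⟩ ⟨⟨hs, hs'⟩, hx⟩
      obtain rfl : s = 0 := le_antisymm (by simpa using hs') hs.1
      exact hg.2 x hx
    | succ i ih =>
      obtain ⟨G, hG, h0⟩ := ih
      have a0 : (0 : ℝ) ≤ i * (δ / 2) := by positivity
      have hm : MapsTo (fun y : ℝ × α => (min y.1 (i * (δ / 2)), y.2))
          ((Icc 0 1 ∩ Iic ((i + 1 : ℕ) * (δ / 2))) ×ˢ K) ((Icc 0 1 ∩ Iic (i * (δ / 2))) ×ˢ K) :=
        fun y hy => ⟨⟨⟨le_min hy.1.1.1 a0, (min_le_left _ _).trans hy.1.1.2⟩,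
          mem_Iic.2 (min_le_right _ _)⟩, hy.2⟩
      refine ⟨fun y => pj (v y) (G (min y.1 (i * (δ / 2)), y.2)),
        ⟨(hP.mono (prod_mono inter_subset_left Subset.rfl)).clm_apply
          (hG.1.comp (by fun_prop) hm), fun y hy => ?_⟩, fun x hx => ?_⟩
      · obtain ⟨h1, h2⟩ := hG.2 (min y.1 (i * (δ / 2)), y.2) (hm hy)
        have h3 := hδ (min y.1 (i * (δ / 2)), y.2) ⟨(hm hy).1.1, hy.2⟩ y ⟨hy.1.1, hy.2⟩ (by
          have h4 : y.1 ≤ (i + 1 : ℕ) * (δ / 2) := hy.1.2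
          push_cast at h4
          rw [Prod.dist_eq, dist_self, Real.dist_eq, max_lt_iff, abs_lt]
          dsimp only
          rcases le_total y.1 (i * (δ / 2)) with h | h
          · rw [min_eq_left h]
            exact ⟨⟨by linarith, by linarith⟩, δ0⟩
          · rw [min_eq_right h]
            exact ⟨⟨by linarith, by linarith⟩, δ0⟩)
        have h5 : pj (v y) (G (min y.1 (i * (δ / 2)), y.2)) ≠ 0 := by
          intro h6
          have h7 := (pj (v (min y.1 (i * (δ / 2)), y.2)) - pj (v y)).le_opNorm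
            (G (min y.1 (i * (δ / 2)), y.2))
          rw [ContinuousLinearMap.sub_apply, h6, pj_self h1 h2, sub_zero] at h7
          rw [dist_eq_norm] at h3
          nlinarith [norm_pos_iff.2 h1]
        refine ⟨h5, pp_symm ⟨_, fun h6 => h5 ?_, pj_apply _ _⟩⟩
        rw [pj_apply, h6, zero_smul]
      · show pj (v (0, x)) (G (min 0 (i * (δ / 2)), x)) = g x
        rw [min_eq_left a0, h0 x hx, pj_self (hg.2 x hx).1 (hg.2 x hx).2]
  obtain ⟨i, hi⟩ := exists_nat_ge (2 / δ)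
  obtain ⟨G, hG, h0⟩ := key i
  have h1 : (Icc 0 1 ∩ Iic (i * (δ / 2)) : Set ℝ) = Icc 0 1 := by
    refine inter_eq_left.2 fun s hs => hs.2.trans ?_
    rw [div_le_iff₀ δ0] at hi
    show 1 ≤ i * (δ / 2)
    linarith
  rw [h1] at hG
  exact ⟨G, hG, h0⟩

theorem hc (h : HLStmt) : HCStmt := by
  intro ι _ c ρ v hv
  have hm : MapsTo (fun q : ℝ × ℂ => c + q.1 • (q.2 - c)) (Icc 0 1 ×ˢ closedBall c ρ)
      (closedBall c ρ) := fun q hq =>
    (convex_closedBall c ρ).add_smul_sub_mem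
      (mem_closedBall_self (dist_nonneg.trans (mem_closedBall.1 hq.2))) hq.2 hq.1
  obtain ⟨G, hG, -⟩ := h ι ℂ (closedBall c ρ) (fun q => v (c + q.1 • (q.2 - c))) (fun _ => v c)
    (isCompact_closedBall c ρ) (pc_comp hv (by fun_prop) hm) ⟨continuousOn_const, fun x hx =>
      ⟨pc_ne hv (mem_closedBall_self (dist_nonneg.trans (mem_closedBall.1 hx))), 1, one_ne_zero,
        by simp⟩⟩
  have h1 := lf_comp hG (f := fun t : ℂ => ((1 : ℝ), t)) (K' := closedBall c ρ) (by fun_prop)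
    fun t ht => ⟨⟨zero_le_one, le_rfl⟩, ht⟩
  simp only [one_smul, add_sub_cancel] at h1
  exact ⟨_, h1⟩

namespace HL

variable {ι : Type} [Fintype ι] {c : ℂ} {ρ : ℝ}

theorem uniq (h2 : WindStmt) (hρ : 0 < ρ) {v v' : ℂ → ι → ℂ} {w : ℝ × ℂ → ι → ℂ} {k l : ℤ}
    (hk : Dg c ρ v v' w k) (hl : Dg c ρ v v' w l) : k = l := by
  obtain ⟨-, w2, w3, w4, -⟩ := h2 c ρ hρ
  obtain ⟨g, g', G, κ, κ', hg, hg', hG, e1, hk⟩ := hk
  obtain ⟨h, h', H, μ, μ', hh, hh', hH, e2, hl⟩ := hl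
  obtain ⟨a, ha, a1⟩ := ratio_lf hg hh
  obtain ⟨a', ha', a2⟩ := ratio_lf hg' hh'
  obtain ⟨A, hA, a3⟩ := ratio_lf hG hH
  have k1 := wn_mul hρ (wn_mul hρ hk (w4 A hA fun q hq => (a3 q hq).1))
    (w3 a' ha' fun t ht => (a2 t ht).1)
  have k2 := wn_mul hρ hl (w3 a ha fun t ht => (a1 t ht).1)
  rw [add_zero, add_zero] at k1
  rw [add_zero] at k2
  refine w2 _ _ _ k1 (wn_congr k2 fun t ht => ?_)
  have b := sphere_subset_closedBall ht
  have q0 : ((0 : ℝ), t) ∈ Bn c ρ := ⟨⟨le_rfl, zero_le_one⟩, ht⟩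
  have q1 : ((1 : ℝ), t) ∈ Bn c ρ := ⟨⟨zero_le_one, le_rfl⟩, ht⟩
  have f1 : κ t * A (0, t) = a t * μ t := smul_left_injective ℂ (hH.2 _ q0).1 (by
    simp only [← smul_smul]
    rw [← (a3 _ q0).2, ← (e1 t ht).1, ← (e2 t ht).1, (a1 t b).2])
  have f2 : κ' t * A (1, t) = a' t * μ' t := smul_left_injective ℂ (hH.2 _ q1).1 (by
    simp only [← smul_smul]
    rw [← (a3 _ q1).2, ← (e1 t ht).2, ← (e2 t ht).2, (a2 t b).2])
  have f3 := (a2 t b).1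
  show κ t / κ' t * (A (0, t) / A (1, t)) * a' t = μ t / μ' t * a t
  rw [div_mul_div_comm, f1, f2, mul_comm (a' t), ← div_div, div_mul_cancel₀ _ f3]
  ring

theorem homot (h1 : HLStmt) (h2 : WindStmt) (hρ : 0 < ρ) {v v' : ℝ × ℂ → ι → ℂ}
    {w : ℝ × ℝ × ℂ → ι → ℂ} {k : ℤ} (hv : PC (Icc 0 1 ×ˢ closedBall c ρ) v)
    (hv' : PC (Icc 0 1 ×ˢ closedBall c ρ) v') (hw : PC (Icc 0 1 ×ˢ Bn c ρ) w)
    (hp : ∀ θ ∈ Icc (0 : ℝ) 1, ∀ t ∈ sphere c ρ,
      Pp (w (θ, 0, t)) (v (θ, t)) ∧ Pp (w (θ, 1, t)) (v' (θ, t)))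
    (hk : Dg c ρ (fun t => v (0, t)) (fun t => v' (0, t)) (fun q => w (0, q)) k) :
    Dg c ρ (fun t => v (1, t)) (fun t => v' (1, t)) (fun q => w (1, q)) k := by
  obtain ⟨w1, w2, -, w4, -⟩ := h2 c ρ hρ
  obtain ⟨g, g', G, κ, κ', hg, hg', hG, e1, hk⟩ := hk
  obtain ⟨Γ, hΓ, Γ0⟩ := h1 ι ℂ _ v g (isCompact_closedBall c ρ) hv hg
  obtain ⟨Γ', hΓ', Γ0'⟩ := h1 ι ℂ _ v' g' (isCompact_closedBall c ρ) hv' hg'
  obtain ⟨B, hB, B0⟩ := h1 ι (ℝ × ℂ) _ w G (isCompact_Icc.prod (isCompact_sphere c ρ)) hw hG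
  have i0 : (0 : ℝ) ∈ Icc (0 : ℝ) 1 := ⟨le_rfl, zero_le_one⟩
  have i1 : (1 : ℝ) ∈ Icc (0 : ℝ) 1 := ⟨zero_le_one, le_rfl⟩
  have hs : Bn c ρ ⊆ Icc 0 1 ×ˢ closedBall c ρ := prod_mono Subset.rfl sphere_subset_closedBall
  have l0 := lf_comp hB (f := fun q : ℝ × ℂ => (q.1, (0 : ℝ), q.2)) (K' := Bn c ρ) (by fun_prop)
    fun q hq => ⟨hq.1, i0, hq.2⟩
  have l1 := lf_comp hB (f := fun q : ℝ × ℂ => (q.1, (1 : ℝ), q.2)) (K' := Bn c ρ) (by fun_prop)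
    fun q hq => ⟨hq.1, i1, hq.2⟩
  obtain ⟨a, ha, a1⟩ := ratio (hΓ.1.mono hs) l0.1 fun q hq => ⟨(l0.2 q hq).1, pp_trans
    (pp_symm (pp_trans (hp q.1 hq.1 q.2 hq.2).1 (hΓ.2 q (hs hq)).2)) (l0.2 q hq).2⟩
  obtain ⟨a', ha', a2⟩ := ratio (hΓ'.1.mono hs) l1.1 fun q hq => ⟨(l1.2 q hq).1, pp_trans
    (pp_symm (pp_trans (hp q.1 hq.1 q.2 hq.2).2 (hΓ'.2 q (hs hq)).2)) (l1.2 q hq).2⟩
  have hH : ContinuousOn (fun q => a q / a' q) (Bn c ρ) := ha.div ha' fun q hq => (a2 q hq).1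
  have H0 : ∀ q ∈ Bn c ρ, a q / a' q ≠ 0 := fun q hq => div_ne_zero (a1 q hq).1 (a2 q hq).1
  obtain ⟨l, hl⟩ := w1 (fun t => a (1, t) / a' (1, t))
    (hH.comp (f := fun t : ℂ => ((1 : ℝ), t)) (by fun_prop) fun t ht => ⟨i1, ht⟩)
    fun t ht => H0 _ ⟨i1, ht⟩
  have k1 := wn_mul hρ (w4 _ hH H0) hl
  rw [zero_add] at k1
  obtain rfl : k = l := by
    refine w2 _ _ _ hk (wn_congr k1 fun t ht => ?_)
    have b := sphere_subset_closedBall ht
    have f1 : κ t = a (0, t) := smul_left_injective ℂ (hG.2 (0, t) ⟨i0, ht⟩).1 (by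
      simp only
      rw [← (e1 t ht).1, ← Γ0 t b, (a1 (0, t) ⟨i0, ht⟩).2, B0 (0, t) ⟨i0, ht⟩])
    have f2 : κ' t = a' (0, t) := smul_left_injective ℂ (hG.2 (1, t) ⟨i1, ht⟩).1 (by
      simp only
      rw [← (e1 t ht).2, ← Γ0' t b, (a2 (0, t) ⟨i0, ht⟩).2, B0 (1, t) ⟨i1, ht⟩])
    rw [div_mul_cancel₀ _ (H0 (1, t) ⟨i1, ht⟩), f1, f2]
  exact ⟨fun t => Γ (1, t), fun t => Γ' (1, t), fun q => B (1, q), fun t => a (1, t),
    fun t => a' (1, t),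
    lf_comp hΓ (f := fun t : ℂ => ((1 : ℝ), t)) (by fun_prop) fun t ht => ⟨i1, ht⟩,
    lf_comp hΓ' (f := fun t : ℂ => ((1 : ℝ), t)) (by fun_prop) fun t ht => ⟨i1, ht⟩,
    lf_comp hB (f := fun q : ℝ × ℂ => ((1 : ℝ), q)) (by fun_prop) fun q hq => ⟨i1, hq⟩,
    fun t ht => ⟨(a1 (1, t) ⟨i1, ht⟩).2, (a2 (1, t) ⟨i1, ht⟩).2⟩, hl⟩

end HL

theorem dg (h1 : HLStmt) (h2 : WindStmt) : DgStmt := by
  intro ι _ c ρ hρ
  refine ⟨fun v v' w k l => uniq h2 hρ, fun v v' w k hv hv' hw hp =>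
    ⟨homot h1 h2 hρ hv hv' hw hp, fun hk => ?_⟩⟩
  have hi : ∀ θ ∈ Icc (0 : ℝ) 1, 1 - θ ∈ Icc (0 : ℝ) 1 := fun θ hθ =>
    ⟨sub_nonneg.2 hθ.2, sub_le_self _ hθ.1⟩
  have h3 := homot (k := k) h1 h2 hρ
    (pc_comp hv (f := fun q : ℝ × ℂ => (1 - q.1, q.2)) (by fun_prop)
      fun q hq => ⟨hi _ hq.1, hq.2⟩)
    (pc_comp hv' (f := fun q : ℝ × ℂ => (1 - q.1, q.2)) (by fun_prop)
      fun q hq => ⟨hi _ hq.1, hq.2⟩)
    (pc_comp hw (f := fun q : ℝ × ℝ × ℂ => (1 - q.1, q.2)) (by fun_prop)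
      fun q hq => ⟨hi _ hq.1, hq.2⟩)
    (fun θ hθ t ht => hp _ (hi θ hθ) t ht)
  simp only [sub_zero, sub_self] at h3
  exact h3 hk

end Pool.Agent.MP_c69980_ag.E1
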