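import Pool.Agent.MP_c69980_ag.E1.BaseC

/-!
Surfaces fibred over an elliptic curve: hyperbolicity away from the bad fibres.
-/

set_option autoImplicit false

noncomputable section

namespace Pool.Agent.MP_c69980_ag.E1

open MvPolynomial Metric Filter Topology Set
open H60 H4

namespace HypX

variable {n : ℕ}

/-- Brody rescaling. -/
lemma brody {F : ℂ → V n} {c : ℂ} {r R : ℝ} (hr : 0 < r) (hR : 0 < R) (hF : Crv (ball c r) F)
    (h : 16 * R ^ 2 ≤ lam F c * r ^ 2) : ∃ (z₀ : ℂ) (ρ : ℝ), 0 < ρ ∧ ρ ^ 2 * lam F z₀ = 1 ∧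
      ∀ w ∈ ball (0 : ℂ) R, z₀ + ρ * w ∈ ball c r ∧ ρ ^ 2 * lam F (z₀ + ρ * w) ≤ 4 := by
  have sub : closedBall c (r / 2) ⊆ ball c r := closedBall_subset_ball (by linarith)
  have cont : ContinuousOn (fun z => lam F z * (r / 2 - ‖z - c‖) ^ 2) (closedBall c (r / 2)) :=
    ((R1.lapQ n _ F isOpen_ball hF).2.1.1.mono sub).mul (by fun_prop)
  obtain ⟨z₀, hz₀, hm⟩ := (isCompact_closedBall c (r / 2)).exists_isMaxOn
    ⟨c, mem_closedBall_self (by linarith)⟩ cont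
  rw [mem_closedBall_iff_norm] at hz₀
  obtain ⟨δ, hδ⟩ : ∃ δ, δ = r / 2 - ‖z₀ - c‖ := ⟨_, rfl⟩
  have hm' : ∀ z, ‖z - c‖ ≤ r / 2 → lam F z * (r / 2 - ‖z - c‖) ^ 2 ≤ lam F z₀ * δ ^ 2 :=
    fun z hz => hδ ▸ hm (mem_closedBall_iff_norm.2 hz)
  have h1 : 4 * R ^ 2 ≤ lam F z₀ * δ ^ 2 := by
    have := hm' c (by rw [sub_self, norm_zero]; linarith)
    rw [sub_self, norm_zero] at this
    linarith
  have h2 : 0 < lam F z₀ * δ ^ 2 := lt_of_lt_of_le (by positivity) h1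
  have h3 : 0 < lam F z₀ := pos_of_mul_pos_left h2 (sq_nonneg δ)
  have h4 : 0 < δ := lt_of_le_of_ne (by linarith) fun e => by simp [← e] at h2
  obtain ⟨ρ, hρ⟩ : ∃ ρ, ρ = (√(lam F z₀))⁻¹ := ⟨_, rfl⟩
  have ρ0 : 0 < ρ := hρ ▸ inv_pos.2 (Real.sqrt_pos.2 h3)
  have ρ1 : ρ ^ 2 * lam F z₀ = 1 := by
    rw [hρ, inv_pow, Real.sq_sqrt h3.le, inv_mul_cancel₀ h3.ne']
  have h5 : ρ * R ≤ δ / 2 := by
    refine (pow_le_pow_iff_left₀ (by positivity) (by positivity) two_ne_zero).1 ?_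
    have := mul_le_mul_of_nonneg_left h1 (sq_nonneg ρ)
    rw [← mul_assoc _ (lam F z₀), ρ1] at this
    linarith [mul_pow ρ R 2]
  refine ⟨z₀, ρ, ρ0, ρ1, fun w hw => ?_⟩
  have h6 : ‖z₀ + ρ * w - c‖ ≤ ‖z₀ - c‖ + δ / 2 := by
    rw [add_sub_right_comm]
    refine (norm_add_le _ _).trans (add_le_add_right ?_ _)
    rw [norm_mul, Complex.norm_real, Real.norm_of_nonneg ρ0.le]
    exact (mul_le_mul_of_nonneg_left (mem_ball_zero_iff.1 hw).le ρ0.le).trans h5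
  have h7 : ‖z₀ + ρ * w - c‖ ≤ r / 2 := by linarith
  refine ⟨sub (mem_closedBall_iff_norm.2 h7), ?_⟩
  have h8 : (δ / 2) ^ 2 ≤ (r / 2 - ‖z₀ + ρ * w - c‖) ^ 2 :=
    pow_le_pow_left₀ (by positivity) (by linarith) 2
  have h9 := (mul_le_mul_of_nonneg_left h8 (R1.lamv_nn (F (z₀ + ρ * w))
    (deriv F (z₀ + ρ * w)))).trans (hm' _ h7)
  have h10 : lam F (z₀ + ρ * w) ≤ 4 * lam F z₀ :=
    le_of_mul_le_mul_right (a := δ ^ 2) (by unfold lam at *; linarith) (by positivity)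
  have := mul_le_mul_of_nonneg_left h10 (sq_nonneg ρ)
  linarith

variable {D : Fib n} {G g : ℂ → V n} {t z w : ℂ} {a j : Fin n} {U : Set (ℂ × ℂ)}
  {Y : ℂ × ℂ → V n}

/-- A curve in a fibre, read in a chart. -/
lemma near (hG : LH univ G) (hX : ∀ w, (t, G w) ∈ D.X) (h : Chart D.X a j U Y) (hp : (t, z) ∈ U)
    (hy : Pp (G w) (Y (t, z))) : AnalyticAt ℂ (fun w => G w a / G w j) w ∧ G w a / G w j = z ∧
      ∀ᶠ w' in 𝓝 w, (t, G w' a / G w' j) ∈ U ∧ Pp (G w') (Y (t, G w' a / G w' j)) := by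
  refine ⟨(hG.ratio (mem_univ w) a (h.eq hp hy).1).1, h.div hp hy, ?_⟩
  have := (h.ev_pc (K := univ) (τ := fun _ => t) D.cov.cn hp (mem_univ w)
    continuousWithinAt_const hG.pc (.of_forall hX) rfl hy).2
  rwa [nhdsWithin_univ] at this

/-- The forms and the density along a curve in a fibre. -/
lemma form (hG : LH univ G) (hX : ∀ w, (t, G w) ∈ D.X) (h : Chart D.X a j U Y) (hp : (t, z) ∈ U)
    (hy : Pp (G w) (Y (t, z))) (hg : AnalyticAt ℂ g w) (hgG : ∀ᶠ w' in 𝓝 w, Pp (G w') (g w')) :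
    lam g w = ‖deriv (fun w => G w a / G w j) w‖ ^ 2 * lamv (Y (t, z)) (dz Y (t, z)) ∧
      ∀ i, D.Φ i (t, g w) (deriv g w) =
        deriv (fun w => G w a / G w j) w ^ D.m * fc D.Φ Y i (t, z) := by
  obtain ⟨h1, h2, h3⟩ := near hG hX h hp hy
  have e : g =ᶠ[𝓝 w] fun w => g w j • Y (t, G w a / G w j) := by
    filter_upwards [h3, hgG] with w' w1 w2 using (h.eq w1.1 (w2.symm.trans w1.2)).2
  obtain ⟨c0, hc⟩ := h.eq hp (hgG.self_of_nhds.symm.trans hy)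
  have dj := (analyticAt_pi_iff.1 hg j).differentiableAt.hasDerivAt
  have d := dj.smul (hasDerivAt_comp (Y := Y) (f := fun _ => t) (g := fun w => G w a / G w j)
    (by rw [h2]; exact (h.an hp).differentiableAt) (hasDerivAt_const _ _)
    h1.differentiableAt.hasDerivAt)
  have e2 := e.deriv_eq.trans d.deriv
  simp only [h2, zero_smul, zero_add, smul_smul] at e2
  constructor
  · rw [lam, e2]
    conv_lhs => rw [hc]
    simp only [Pi.smul_apply, h.yj hp, smul_eq_mul, mul_one]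
    rw [lamv_comb (h.ne hp) c0, mul_div_cancel_left₀ _ c0]
  · intro i
    have := D.frm.hom a j U Y h _ hp 0 (zero_mem _) (g w j)
      (g w j * deriv (fun w => G w a / G w j) w) (deriv (fun x => g x j) w) i c0
    rw [mul_div_cancel_left₀ _ c0, add_zero, ← hc, ← e2] at this
    exact this

/-- The forms are bounded by the metric. -/
def Q (D : Fib n) (t : ℂ) (i : Fin D.N) (C : ℝ) (y : V n) : Prop :=
  ∀ a j U Y z, Chart D.X a j U Y → (t, z) ∈ U → Pp y (Y (t, z)) →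
    ‖fc D.Φ Y i (t, z)‖ ^ 2 ≤ C * lamv (Y (t, z)) (dz Y (t, z)) ^ D.m

lemma Q.mono {i : Fin D.N} {C C' : ℝ} {y : V n} (h : Q D t i C y) (hC : C ≤ C') : Q D t i C' y :=
  fun a j U Y z h1 h2 h3 => (h a j U Y z h1 h2 h3).trans
    (mul_le_mul_of_nonneg_right hC (pow_nonneg (R1.lamv_nn _ _) _))

lemma lamv_pos (h : Chart D.X a j U Y) {p : ℂ × ℂ} (hp : p ∈ U) : 0 < lamv (Y p) (dz Y p) := by
  have h1 := (R1.minor n (Y p) (dz Y p) (h.ne hp)).1 a j
  rw [h.dz_a hp, h.dz_j hp, h.yj hp] at h1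
  refine (R1.lamv_nn _ _).lt_of_ne fun e => ?_
  rw [← e] at h1
  norm_num at h1

lemma locQ (i : Fin D.N) {y : V n} (hy : (t, y) ∈ Rx D.X) :
    ∃ C, ∀ᶠ y' in 𝓝 y, (t, y') ∈ D.X → Q D t i C y' := by
  obtain ⟨a, j, U, Y, h, z, hp, hz⟩ := hy
  have c1 : ContinuousAt (fun p => lamv (Y p) (dz Y p)) (t, z) :=
    ContinuousAt.comp (f := fun p => (Y p, dz Y p)) (lamv_cont (h.ne hp) _)
      ((h.an hp).continuousAt.prodMk (dz_an (h.an hp)).continuousAt)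
  have c2 : ContinuousAt (fun p => ‖fc D.Φ Y i p‖ ^ 2 / lamv (Y p) (dz Y p) ^ D.m) (t, z) :=
    ((D.frm.an a j U Y h i _ hp).continuousAt.norm.pow 2).div (c1.pow _)
      (pow_pos (lamv_pos h hp) _).ne'
  have c3 : Tendsto (fun y' : V n => ((t, y') : Pt n)) (𝓝 y) (𝓝 (t, y)) :=
    tendsto_const_nhds.prodMk_nhds tendsto_id
  refine ⟨‖fc D.Φ Y i (t, z)‖ ^ 2 / lamv (Y (t, z)) (dz Y (t, z)) ^ D.m + 1, ?_⟩
  filter_upwards [c3.eventually (h.ev D.cov.cn hp hz), c3.eventually ((h.tend hp hz).eventually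
    (c2.eventually (gt_mem_nhds (lt_add_one _))))] with y' q1 q2 hy' a' j' U' Y' z' h' hp' hz'
  obtain ⟨q3, q4, q5⟩ := q1 hy'
  obtain ⟨κ, -, -, k1, k2⟩ := D.frm.vt D.cov.cn h q4 (hz'.symm.trans ⟨_, q3, q5⟩)
    (h'.vt_dz D.cov.cn hp')
  rw [div_lt_iff₀ (pow_pos (lamv_pos h q4) _)] at q2
  have k3 : fc D.Φ Y' i (t, z') = _ := k2 i
  rw [k1, k3, norm_mul, norm_pow, mul_pow, mul_pow, ← pow_mul, ← pow_mul, mul_comm D.m,
    mul_left_comm]
  exact mul_le_mul_of_nonneg_left q2.le (by positivity)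

lemma allQ (ht : t ∉ Bad D.L D.S) (i : Fin D.N) :
    ∃ C, 0 ≤ C ∧ ∀ y, (t, y) ∈ D.X → Q D t i C y := by
  have hK : IsCompact {y ∈ sphere (0 : V n) 1 | (t, y) ∈ D.X} := by
    refine (isCompact_sphere (0 : V n) 1).of_isClosed_subset
      (isClosed_of_closure_subset fun y hy => ?_) (sep_subset _ _)
    have h1 : y ∈ sphere (0 : V n) 1 :=
      isClosed_sphere.closure_subset (closure_mono (sep_subset _ _) hy)
    refine ⟨h1, D.cov.cn.closed _ (map_mem_closure (f := fun y' : V n => ((t, y') : Pt n))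
      (by fun_prop) hy fun _ q => q.2) ?_⟩
    rintro (rfl : y = 0)
    simp at h1
  obtain ⟨C, hC⟩ := hK.induction_on (p := fun s => ∃ C, ∀ y ∈ s, (t, y) ∈ D.X → Q D t i C y)
    ⟨0, fun _ h => h.elim⟩ (fun s s' hs ⟨C, hC⟩ => ⟨C, fun y hy => hC y (hs hy)⟩)
    (fun s s' ⟨C, hC⟩ ⟨C', hC'⟩ => ⟨max C C', fun y hy hx => hy.elim
      (fun q => (hC y q hx).mono (le_max_left _ _)) fun q => (hC' y q hx).mono (le_max_right _ _)⟩)
    fun y hy => by
      obtain ⟨C, hC⟩ := locQ i (D.bad _ hy.2 ht)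
      exact ⟨_, nhdsWithin_le_nhds hC, C, fun _ q => q⟩
  refine ⟨max C 0, le_max_right _ _, fun y hy a j U Y z h hp hz => ?_⟩
  have y0 : y ≠ 0 := D.cov.cn.nz _ hy
  have n0 : ((‖y‖ : ℂ))⁻¹ ≠ 0 := by simpa using y0
  have q := D.cov.cn.scal _ hy _ n0
  exact (hC _ ⟨by simp [norm_smul, y0], q⟩ q).mono (le_max_left _ _) a j U Y z h hp
    ((Pp.smul n0 y).trans hz)

end HypX

open HypX in
theorem fib : FibStmt := by
  intro n D G t A ht hG hX hA r g r0 hg hgG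
  choose f ρ ρ0 f1 f2 using fun w => hG w (mem_univ w)
  have fa : ∀ w, AnalyticAt ℂ (f w) w := fun w => Crv.an (f1 w) isOpen_ball (mem_ball_self (ρ0 w))
  have fp : ∀ w, ∀ᶠ w' in 𝓝 w, Pp (G w') (f w w') := fun w =>
    mem_of_superset (ball_mem_nhds w (ρ0 w)) (f2 w)
  have ch : ∀ w, ∃ a j U Y z, Chart D.X a j U Y ∧ (t, z) ∈ U ∧ Pp (G w) (Y (t, z)) := fun w => by
    obtain ⟨a, j, U, Y, h, z, hp, hz⟩ := D.bad _ (hX w) ht
    exact ⟨a, j, U, Y, z, h, hp, hz⟩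
  have cst : ∀ i w, D.Φ i (t, f w w) (deriv (f w) w) = D.Φ i (t, f 0 0) (deriv (f 0) 0) := by
    intro i w
    obtain ⟨C, C0, hC⟩ := allQ ht i
    refine Differentiable.apply_eq_apply_of_bounded
      (f := fun w => D.Φ i (t, f w w) (deriv (f w) w)) (fun w => ?_)
      (isBounded_iff_forall_norm_le.2 ⟨√(C * A ^ D.m), ?_⟩) w 0
    · obtain ⟨a, j, U, Y, z, h, hp, hz⟩ := ch w
      obtain ⟨h1, h2, h3⟩ := near hG hX h hp hz
      have h4 : AnalyticAt ℂ (fun w => deriv (fun w => G w a / G w j) w ^ D.m *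
          fc D.Φ Y i (t, G w a / G w j)) w :=
        (h1.deriv.pow _).mul ((D.frm.an a j U Y h i _ hp).comp_of_eq
          (analyticAt_const.prod h1) (by simp only [h2]))
      refine h4.differentiableAt.congr_of_eventuallyEq (h3.mono fun w' q => ?_)
      exact (form hG hX h q.1 q.2 (fa w') (fp w')).2 i
    · rintro _ ⟨w, rfl⟩
      obtain ⟨a, j, U, Y, z, h, hp, hz⟩ := ch w
      obtain ⟨h1, h2⟩ := form hG hX h hp hz (fa w) (fp w)
      have h3 := hA w _ _ (f1 w) (f2 w) w (mem_ball_self (ρ0 w))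
      refine Real.le_sqrt_of_sq_le ?_
      refine le_trans ?_ (mul_le_mul_of_nonneg_left
        (pow_le_pow_left₀ (R1.lamv_nn (f w w) (deriv (f w) w)) h3 D.m) C0)
      have h4 : lamv (f w w) (deriv (f w) w) = _ := h1
      simp only
      rw [h4, h2, norm_mul, norm_pow, mul_pow, mul_pow, ← pow_mul, ← pow_mul, mul_comm D.m,
        mul_left_comm]
      exact mul_le_mul_of_nonneg_left (hC _ (hX w) a j U Y z h hp hz) (by positivity)
  obtain ⟨a, j, U, Y, z, h, hp, hz⟩ := ch 0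
  obtain ⟨h1, h2, h3⟩ := near hG hX h hp hz
  rw [(form hG hX h hp hz (Crv.an hg isOpen_ball (mem_ball_self r0))
    (mem_of_superset (ball_mem_nhds 0 r0) hgG)).1]
  suffices e : deriv (fun w => G w a / G w j) 0 = 0 by simp [e]
  by_contra hne
  have fin := (D.vert t ht a j U Y h fun l => D.Φ (D.e l) (t, f 0 0) (deriv (f 0) 0)).sdiff
    (t := {z})
  have e : (fun w => G w a / G w j) =ᶠ[𝓝 0] fun _ => z := by
    filter_upwards [h3, h1.deriv.continuousAt.eventually_ne hne,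
      h1.continuousAt.eventually (fin.isClosed.isOpen_compl.mem_nhds fun q => q.2 h2)]
      with w q1 q2 q3
    by_contra q
    refine q3 ⟨⟨q1.1, (deriv (fun w => G w a / G w j) w ^ D.m)⁻¹, fun l => ?_⟩, q⟩
    rw [← cst _ w, (form hG hX h q1.1 q1.2 (fa w) (fp w)).2,
      inv_mul_cancel_left₀ (pow_ne_zero _ q2)]
  exact hne (by rw [e.deriv_eq, deriv_const])

open HypX in
theorem hyp (h1 : FibStmt) (h2 : MonStmt) (_h3 : LipStmt) (h4 : LatStmt) : HypStmt := by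
  intro n D η hη
  by_contra hcon
  obtain ⟨R, -, hR⟩ := (h4 D.L).1
  have ex : ∀ k : ℕ, ∃ (G : ℂ → V n) (h : ℂ → ℂ), Nm D.X (ball 0 ((k : ℝ) + 1)) G h ∧
      lam G 0 = 1 ∧ ‖h 0‖ ≤ R ∧
      ∀ z ∈ ball (0 : ℂ) ((k : ℝ) + 1), Far D η (h z) ∧ lam G z ≤ 4 := by
    intro k
    by_contra hk
    refine hcon ⟨16 * ((k : ℝ) + 1) ^ 2, by positivity, fun F h c r hr hN hf => ?_⟩
    refine le_of_not_gt fun q => hk ?_
    obtain ⟨z₀, ρ, ρ0, ρ1, H⟩ := brody hr (by positivity) hN.1 q.le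
    obtain ⟨l, hl, hl'⟩ := hR (h z₀)
    have sc := (R1.scale n F z₀ ρ ρ0).1
    have df : DifferentiableOn ℂ (fun w : ℂ => z₀ + ρ * w) (ball 0 ((k : ℝ) + 1)) := by fun_prop
    refine ⟨fun w => F (z₀ + ρ * w), fun w => h (z₀ + ρ * w) - l,
      ⟨⟨hN.1.1.comp df fun w hw => (H w hw).1, fun w hw => hN.1.2 _ (H w hw).1⟩,
        (hN.2.1.comp df fun w hw => (H w hw).1).sub_const l, fun w hw => ?_⟩, ?_, ?_,
      fun w hw => ⟨fun b hb => ?_, ?_⟩⟩
    · simpa [sub_eq_add_neg] using D.cov.per _ (hN.2.2 _ (H w hw).1) _ (neg_mem hl)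
    · rw [sc, mul_zero, add_zero, ρ1]
    · simpa using hl'
    · rw [sub_sub, add_comm l]
      exact hf _ (H w hw).1 _ (((h4 D.L).2.2 D.S).1 b hb l hl)
    · rw [sc]
      exact (H w hw).2
  choose G h hN h0 hb hf using ex
  obtain ⟨u, hu⟩ : ∃ u : Ultrafilter ℕ, (u : Filter ℕ) ≤ atTop := ⟨.of atTop, Ultrafilter.of_le _⟩
  have evr : ∀ ρ : ℝ, ∀ᶠ k : ℕ in u, ρ ≤ (k : ℝ) + 1 := fun ρ =>
    hu ((tendsto_natCast_atTop_atTop.eventually_ge_atTop ρ).mono fun _ h => by linarith)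
  have evb : ∀ z : ℂ, ∀ᶠ k : ℕ in u, z ∈ ball (0 : ℂ) ((k : ℝ) + 1) := fun z =>
    (evr (‖z‖ + 1)).mono fun k hk => mem_ball_zero_iff.2 (by linarith)
  have k0 : ∀ k : ℕ, (0 : ℂ) ∈ ball (0 : ℂ) ((k : ℝ) + 1) := fun k => mem_ball_self (by positivity)
  obtain ⟨t, -, ht⟩ := (isCompact_closedBall (0 : ℂ) R).ultrafilter_le_nhds
    (u.map fun k => h k 0) (by
      rw [Ultrafilter.coe_map, le_principal_iff, mem_map]
      exact univ_mem' fun k => mem_closedBall_zero_iff.2 (hb k))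
  have ht : Tendsto (fun k => h k 0) u (𝓝 t) := ht
  have tb : t ∉ Bad D.L D.S := fun q => by
    have := ge_of_tendsto' (ht.sub_const t).norm fun k => (hf k 0 (k0 k)).1 t q
    rw [sub_self, norm_zero] at this
    linarith
  have b0 : (0 : ℂ) ∈ Bad D.L D.S := Or.inl (zero_mem _)
  have t0 : t ≠ 0 := fun q => tb (q ▸ b0)
  have lo : ∀ k : ℕ, ∀ z ∈ ball (0 : ℂ) ((k : ℝ) + 1), η ≤ ‖h k z‖ := fun k z hz => by
    simpa using (hf k z hz).1 0 b0
  have up : ∀ k : ℕ, ∀ z ∈ ball (0 : ℂ) ((k : ℝ) + 1), ‖(h k z)⁻¹‖ ≤ η⁻¹ := fun k z hz => by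
    rw [norm_inv]
    exact inv_anti₀ hη (lo k z hz)
  have tz : ∀ z, Tendsto (fun k => h k z) u (𝓝 t) := fun z => by
    have s1 : Tendsto (fun k : ℕ => (η⁻¹ + η⁻¹) / ((k : ℝ) + 1) * dist z 0) u (𝓝 0) := by
      have := ((tendsto_const_nhds (x := η⁻¹ + η⁻¹)).div_atTop
        (tendsto_atTop_add_const_right _ 1 tendsto_natCast_atTop_atTop)).mul_const (dist z 0)
      rw [zero_mul] at this
      exact this.mono_left hu
    have s2 : Tendsto (fun k => (h k z)⁻¹) u (𝓝 t⁻¹) := by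
      refine (ht.inv₀ t0).congr_dist (squeeze_zero' (.of_forall fun _ => dist_nonneg) ?_ s1)
      filter_upwards [evb z] with k hk
      rw [dist_comm]
      refine Complex.dist_le_div_mul_dist_of_mapsTo_ball (f := fun z => (h k z)⁻¹)
        ((hN k).2.1.inv fun w hw => norm_pos_iff.1 (hη.trans_le (lo k w hw))) (fun w hw => ?_) hk
      rw [mem_closedBall_iff_norm]
      exact (norm_sub_le _ _).trans (add_le_add (up k w hw) (up k 0 (k0 k)))
    simpa using s2.inv₀ (inv_ne_zero t0)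
  obtain ⟨g, hg⟩ := h2 n u univ G fun z _ => ⟨1, 4, one_pos, (evr (‖z‖ + 1)).mono fun k hk => by
    have sub : ball z 1 ⊆ ball 0 ((k : ℝ) + 1) := ball_subset_ball' (by
      rw [dist_zero_right]
      linarith)
    exact ⟨G k, crv_mono (hN k).1 sub, fun w hw => ⟨.refl _, (hf k w (sub hw)).2⟩⟩⟩
  have tl : ∀ c r f, Crv (ball c r) f → (∀ w ∈ ball c r, Pp (g w) (f w)) → ∀ w ∈ ball c r,
      Tendsto (fun k => lam (G k) w) u (𝓝 (lam f w)) := fun c r f f1 f2 w hw =>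
    hg.lam (mem_univ w) (Crv.an f1 isOpen_ball hw) (mem_of_superset (isOpen_ball.mem_nhds hw) f2)
      ((evb w).mono fun k hk => ⟨Crv.an (hN k).1 isOpen_ball hk, .of_forall fun _ => .refl _⟩)
  obtain ⟨f, r, r0, f1, f2⟩ := hg.lh 0 (mem_univ _)
  have e0 := h1 n D g t 4 tb hg.lh
    (fun w => hg.mem D.cov.cn (mem_univ w) (tz w) ((evb w).mono fun k hk => (hN k).2.2 w hk))
    (fun c r f f1 f2 w hw => le_of_tendsto (tl c r f f1 f2 w hw)
      ((evb w).mono fun k hk => (hf k w hk).2)) r f r0 f1 f2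
  have e1 := tl 0 r f f1 f2 0 (mem_ball_self r0)
  simp only [h0, e0] at e1
  exact one_ne_zero (tendsto_nhds_unique tendsto_const_nhds e1)

end Pool.Agent.MP_c69980_ag.E1
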