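import Pool.Agent.MP_c69980_ag.E1.Spec
import Pool.Agent.MP_c69980_ag.H66.Alg
import Pool.Agent.MP_c69980_ag.H26.Basic

/-!
Discs lift to the cover; bounds for the derivative of the lift.
-/

set_option autoImplicit false

namespace Pool.Agent.MP_c69980_ag.E1

open Metric Filter Topology MeasureTheory Set Real
open scoped ENNReal ComplexConjugate
open H60 H4

namespace Lip

variable {n : ℕ} {L : PeriodPair} {W : Set (PS n)} {X : Set (Pt n)}

/-- Two continuous lifts differ locally by a constant. -/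
theorem lc (h : LatStmt) (hX : Cov L W X) {f g : ℂ → ℂ} {F : ℂ → V n} {z : ℂ}
    (hf : ContinuousAt f z) (hg : ContinuousAt g z) (h1 : ∀ᶠ w in 𝓝 z, (f w, F w) ∈ X)
    (h2 : ∀ᶠ w in 𝓝 z, (g w, F w) ∈ X) : f =ᶠ[𝓝 z] fun w => g w + (f z - g z) := by
  obtain ⟨r, r0, hr⟩ := ((h L).2.2 ∅).2.2 0
  have h3 : ContinuousAt (fun w => ‖f w - g w - (f z - g z) - 0‖) z := by fun_prop
  filter_upwards [h1, h2, h3.eventually_lt_const (by simpa using r0)] with w a b c
  have := hr _ (Or.inl (sub_mem (hX.uniq _ _ _ a b)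
    (hX.uniq _ _ _ h1.self_of_nhds h2.self_of_nhds))) c.le
  linear_combination this

/-- The derivative of a lift is bounded by `C` times the derivative of the curve at `y`. -/
def Q (X : Set (Pt n)) (C : ℝ) (y : V n) : Prop :=
  ∀ (f : ℂ → ℂ) (F : ℂ → V n) (z f' : ℂ) (F' : V n), HasDerivAt f f' z → HasDerivAt F F' z →
    F z = y → (∀ᶠ w in 𝓝 z, (f w, F w) ∈ X) → ‖f'‖ ≤ C * ‖F'‖

theorem Q.mono {C C' : ℝ} {y : V n} (h : Q X C y) (hC : C ≤ C') : Q X C' y :=
  fun f F z f' F' a b c d => (h f F z f' F' a b c d).trans (by gcongr)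

theorem locQ (h : LatStmt) (hX : Cov L W X) {x : Pt n} (hx : x ∈ X) :
    ∃ C, ∀ᶠ y in 𝓝 x.2, Q X C y := by
  obtain ⟨T, an, -, h1, -⟩ := hX.loc x hx
  refine ⟨‖fderiv ℂ T x.2‖ + 1, ?_⟩
  filter_upwards [an.eventually_analyticAt, h1.eventually_nhds,
    an.fderiv.continuousAt.norm.eventually_lt_const (lt_add_one _)] with y a b c
  rintro f F z f' F' hf hF rfl e
  have d := a.differentiableAt.hasFDerivAt.comp_hasDerivAt z hF
  have := lc h hX hf.continuousAt d.continuousAt e (by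
    filter_upwards [hF.continuousAt.eventually b, e] with w u v using u ((hX.cone _).2 ⟨_, v⟩))
  rw [hf.unique ((d.add_const _).congr_of_eventuallyEq this)]
  exact (ContinuousLinearMap.le_opNorm _ _).trans (by gcongr)

theorem allQ (h : LatStmt) (hX : Cov L W X) :
    ∃ C, 0 < C ∧ ∀ x ∈ X, ‖x.2‖ = 1 → Q X C x.2 := by
  obtain ⟨R, -, hR⟩ := (h L).1
  have hB : IsCompact (closedBall (0 : ℂ) R ×ˢ sphere (0 : V n) 1) :=
    (isCompact_closedBall _ _).prod (isCompact_sphere _ _)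
  have hK : IsCompact (X ∩ closedBall (0 : ℂ) R ×ˢ sphere (0 : V n) 1) :=
    hB.of_isClosed_subset (isClosed_of_closure_subset fun x hx =>
      have a := hB.isClosed.closure_subset (closure_mono inter_subset_right hx)
      ⟨hX.cn.closed x (closure_mono inter_subset_left hx) (ne_of_mem_sphere a.2 one_ne_zero), a⟩)
      inter_subset_right
  obtain ⟨C, hC⟩ := hK.induction_on (p := fun s => ∃ C, ∀ x ∈ s, Q X C x.2)
    ⟨0, fun _ hx => hx.elim⟩ (fun _ _ a ⟨C, b⟩ => ⟨C, fun x hx => b x (a hx)⟩)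
    (fun _ _ ⟨C, a⟩ ⟨C', b⟩ => ⟨max C C', fun x hx => hx.elim
      (fun u => (a x u).mono (le_max_left _ _)) fun u => (b x u).mono (le_max_right _ _)⟩)
    fun x hx => let ⟨C, a⟩ := locQ h hX hx.1
      ⟨_, mem_nhdsWithin_of_mem_nhds (continuous_snd.continuousAt.eventually a), C, fun _ u => u⟩
  refine ⟨max C 1, by positivity, fun x hx h1 => ?_⟩
  obtain ⟨l, hl, h2⟩ := hR x.1
  exact (hC (x.1 + -l, x.2) ⟨hX.per x hx _ (neg_mem hl),
    mem_closedBall_zero_iff.2 (by rwa [← sub_eq_add_neg]), mem_sphere_zero_iff_norm.2 h1⟩).mono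
    (le_max_left _ _)

theorem orth {y : V n} (hy : y ≠ 0) (w : V n) : ∃ b : ℂ,
    ‖((‖y‖ : ℂ))⁻¹ • w + (((‖y‖ : ℂ))⁻¹ * b) • y‖ ^ 2 ≤ n * lamv y w := by
  have p := R1.sq_pos' hy
  have a0 : ((‖y‖ : ℂ))⁻¹ ≠ 0 := by simpa using hy
  refine ⟨-(ip w y / H4.sq y), (R1.norm_sq_le _).trans ?_⟩
  obtain ⟨-, -, -, h1, -, h2, -⟩ := R1.minor n y w hy
  rw [← h1 _ (((‖y‖ : ℂ))⁻¹ * -(ip w y / H4.sq y)) a0]
  set w' := ((‖y‖ : ℂ))⁻¹ • w + (((‖y‖ : ℂ))⁻¹ * -(ip w y / H4.sq y)) • y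
  have h3 : ip w' (((‖y‖ : ℂ))⁻¹ • y) = 0 := by
    have : ip w' y = 0 := by
      have e : ip w' y = ip (((‖y‖ : ℂ))⁻¹ • w) y +
          ip ((((‖y‖ : ℂ))⁻¹ * -(ip w y / H4.sq y)) • y) y := by
        simp only [w', ip, Pi.add_apply, add_mul, Finset.sum_add_distrib]
      rw [e, R1.ip_smul, R1.ip_smul, ← R1.sq_ip, mul_assoc, neg_mul,
        div_mul_cancel₀ _ (Complex.ofReal_ne_zero.2 p.ne')]
      ring
    rw [← R1.ip_conj, R1.ip_smul, ← R1.ip_conj, this]
    simp
  have q := R1.sq_pos' (smul_ne_zero a0 hy)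
  have q' : H4.sq (((‖y‖ : ℂ))⁻¹ • y) ≤ n := by
    rw [R1.sq_smul, norm_inv, Complex.norm_real, norm_norm, inv_pow,
      inv_mul_le_iff₀ (pow_pos (norm_pos_iff.2 hy) 2)]
    linarith
  rw [lamv, h3, norm_zero, zero_pow two_ne_zero, sub_zero, pow_two, mul_div_mul_left _ _ q.ne',
    mul_div_assoc', le_div_iff₀ q, mul_comm]
  exact mul_le_mul_of_nonneg_right q' (R1.sq_nn _)

/-- The sub-mean property of the square of the modulus. -/
theorem sub {g : ℂ → ℂ} {O : Set ℂ} (hg : DifferentiableOn ℂ g O) {z : ℂ} {s : ℝ}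
    (hs : 0 < s) (hz : closedBall z s ⊆ O) :
    ENNReal.ofReal (π * s ^ 2 * ‖g z‖ ^ 2) ≤ mu (fun w => ‖g w‖ ^ 2) (ball z s) := by
  have c1 : ContinuousOn (fun w => ‖g w‖ ^ 2) O := hg.continuousOn.norm.pow 2
  have i1 : IntegrableOn (fun w => ‖g w‖ ^ 2) (ball z s) :=
    ((c1.mono hz).integrableOn_compact (isCompact_closedBall z s)).mono_set ball_subset_closedBall
  have := H26.polar (fun w => ‖g w‖ ^ 2 - ‖g z‖ ^ 2) z s fun r r0 r1 => by
    have hr : closedBall z |r| ⊆ O := by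
      rw [abs_of_pos r0]
      exact (closedBall_subset_closedBall r1.le).trans hz
    have hG : DifferentiableOn ℂ (fun w => 2 * conj (g z) * (g w - g z)) O := by fun_prop
    have ci : ∀ {E : Type} [NormedAddCommGroup E] {f : ℂ → E}, ContinuousOn f O →
        CircleIntegrable f z r := fun hf =>
      ContinuousOn.circleIntegrable' (hf.mono (sphere_subset_closedBall.trans hr))
    have e := Complex.reCLM.circleAverage_comp_comm (ci hG.continuousOn)
    rw [(hG.diffContOnCl_ball hr).circleAverage] at e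
    refine le_trans (le_of_eq (by rw [e]; simp)) (circleAverage_mono
      (ci (Complex.reCLM.continuous.comp_continuousOn hG.continuousOn))
      (ci (c1.sub continuousOn_const)) fun w _ => ?_)
    simp only [Function.comp_apply, Complex.reCLM_apply, Complex.sq_norm, Complex.normSq_apply,
      Complex.mul_re, Complex.mul_im, Complex.sub_re, Complex.sub_im, Complex.conj_re,
      Complex.conj_im, Complex.re_ofNat, Complex.im_ofNat]
    nlinarith [sq_nonneg ((g w).re - (g z).re), sq_nonneg ((g w).im - (g z).im)]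
  rw [integral_sub i1 (integrableOn_const measure_ball_lt_top.ne), setIntegral_const,
    H26.vol_ball z hs, smul_eq_mul, sub_nonneg] at this
  rw [mu, ← ofReal_integral_eq_lintegral_ofReal i1 (Eventually.of_forall fun w => by positivity)]
  exact ENNReal.ofReal_le_ofReal this

end Lip

open Lip

theorem lip (h : LatStmt) : LipStmt := fun n L W X hX => by
  obtain ⟨C, C0, hC⟩ := allQ h hX
  refine ⟨C ^ 2 * (n + 1), by positivity, fun O F f hO ⟨⟨h1, h2⟩, h3, h4⟩ z hz => ?_⟩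
  have hF := (h1.differentiableAt (hO.mem_nhds hz)).hasDerivAt
  have hy := h2 z hz
  obtain ⟨b, hb⟩ := orth hy (deriv F z)
  have a0 : ((‖F z‖ : ℂ))⁻¹ ≠ 0 := by simpa using hy
  have d : HasDerivAt (fun w => ((‖F z‖ : ℂ))⁻¹ * Complex.exp (b * (w - z)))
      (((‖F z‖ : ℂ))⁻¹ * b) z := by
    simpa using ((((hasDerivAt_id z).sub_const z).const_mul b).cexp).const_mul ((‖F z‖ : ℂ))⁻¹
  have := hC _ (hX.cn.scal _ (h4 z hz) _ a0) (by
    simp [norm_smul, norm_ne_zero_iff.2 hy]) f _ z _ _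
    (h3.differentiableAt (hO.mem_nhds hz)).hasDerivAt (d.smul hF) (by simp) (by
      filter_upwards [hO.mem_nhds hz] with w hw using
        hX.cn.scal _ (h4 w hw) _ (mul_ne_zero a0 (Complex.exp_ne_zero _)))
  simp only [sub_self, mul_zero, Complex.exp_zero, mul_one] at this
  have l0 : 0 ≤ lam F z := R1.lamv_nn _ _
  calc ‖deriv f z‖ ^ 2 ≤ (C * _) ^ 2 := pow_le_pow_left₀ (norm_nonneg _) this 2
    _ ≤ C ^ 2 * (n * lam F z) := by rw [mul_pow]; exact mul_le_mul_of_nonneg_left hb (by positivity)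
    _ ≤ _ := by nlinarith [mul_nonneg (sq_nonneg C) l0]

theorem nrm (h : LatStmt) : NrmStmt := fun n L W X hX F c r ⟨h1, h2⟩ => by
  have an := h1.analyticOnNhd isOpen_ball
  have key : ∀ z, ∃ φ : ℂ → ℂ, z ∈ ball c r → ∀ᶠ w in 𝓝 z, AnalyticAt ℂ φ w ∧
      ∀ᶠ u in 𝓝 w, (φ u, F u) ∈ X := fun z => by
    by_cases hz : z ∈ ball c r
    · obtain ⟨t, ht⟩ := (hX.cone _).1 (h2 z hz)
      obtain ⟨T, a, -, b, -⟩ := hX.loc _ ht
      refine ⟨T ∘ F, fun _ => (AnalyticAt.comp (f := F) a (an z hz)).eventually_analyticAt.and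
        (Eventually.eventually_nhds ?_)⟩
      filter_upwards [(an z hz).continuousAt.eventually b, isOpen_ball.mem_nhds hz] with w u v
        using u (h2 w v)
    · exact ⟨0, fun a => (hz a).elim⟩
  choose φ hφ using key
  have e1 : ∀ z ∈ ball c r, (fun w => deriv (φ w) w) =ᶠ[𝓝 z] deriv (φ z) := fun z hz => by
    filter_upwards [hφ z hz, isOpen_ball.mem_nhds hz] with w a b
    have d := (hφ w b).self_of_nhds
    rw [(lc h hX d.1.continuousAt a.1.continuousAt d.2 a.2).deriv_eq, deriv_add_const]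
  have e2 : DifferentiableOn ℂ (fun w => deriv (φ w) w) (ball c r) := fun z hz =>
    ((hφ z hz).self_of_nhds.1.deriv.differentiableAt.congr_of_eventuallyEq
      (e1 z hz)).differentiableWithinAt
  obtain ⟨f, f0, hf⟩ := e2.isExactOn_ball.with_val_at c (φ c c)
  refine ⟨f, ⟨h1, fun z hz => (h2 z hz).1⟩,
    fun z hz => (hf z hz).differentiableAt.differentiableWithinAt, fun z hz => ?_⟩
  have c0 : c ∈ ball c r := mem_ball_self (pos_of_mem_ball hz)
  refine (convex_ball c r).isPreconnected.induction₂'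
    (fun x y => (f x, F x) ∈ X → (f y, F y) ∈ X) (fun x hx => ?_)
    (fun _ _ _ _ _ _ a b u => b (a u)) c0 hz (f0 ▸ (hφ c c0).self_of_nhds.2.self_of_nhds)
  obtain ⟨s, s0, hs⟩ := Metric.eventually_nhds_iff_ball.1
    ((hφ x hx).and ((e1 x hx).and (isOpen_ball.mem_nhds hx)))
  obtain ⟨k, hk⟩ := isOpen_ball.exists_eq_add_of_deriv_eq (convex_ball x s).isPreconnected
    (f := f) (g := φ x) (fun w hw => (hf w (hs w hw).2.2).differentiableAt.differentiableWithinAt)
    (fun w hw => (hs w hw).1.1.differentiableAt.differentiableWithinAt)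
    fun w hw => (hf w (hs w hw).2.2).deriv.trans (hs w hw).2.1
  have e3 : ∀ w ∈ ball x s, (f w, F w) ∈ X ↔ k ∈ L.lattice := fun w hw => by
    have u := (hs w hw).1.2.self_of_nhds
    rw [hk hw]
    exact ⟨fun a => by simpa using hX.uniq _ _ _ a u, hX.per _ u k⟩
  filter_upwards [mem_nhdsWithin_of_mem_nhds (ball_mem_nhds x s0)] with y hy
  rw [e3 y hy, e3 x (mem_ball_self s0)]
  exact ⟨id, id⟩

theorem hd (h : LipStmt) : HdStmt := fun n L W X hX => by
  obtain ⟨C, C0, hC⟩ := h n L W X hX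
  refine ⟨16 * C / π, by positivity, fun F f c ρ μ ρ0 μ0 H hm z hz => ?_⟩
  have hs : closedBall z (ρ / 4) ⊆ ball c ρ :=
    closedBall_subset_ball' (by linarith [mem_ball.1 hz])
  have h1 := sub (H.2.1.deriv isOpen_ball) (by positivity) hs
  have h2 : mu (fun w => ‖deriv f w‖ ^ 2) (ball z (ρ / 4)) ≤ ENNReal.ofReal (C * μ) :=
    calc _ ≤ ∫⁻ w in ball c ρ, ENNReal.ofReal (‖deriv f w‖ ^ 2) :=
          lintegral_mono_set (ball_subset_closedBall.trans hs)
      _ ≤ ∫⁻ w in ball c ρ, ENNReal.ofReal C * ENNReal.ofReal (lam F w) :=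
          setLIntegral_mono' measurableSet_ball fun w hw => by
            rw [← ENNReal.ofReal_mul C0.le]
            exact ENNReal.ofReal_le_ofReal (hC _ F f isOpen_ball H w hw)
      _ ≤ _ := by
          rw [lintegral_const_mul' _ _ ENNReal.ofReal_ne_top, ENNReal.ofReal_mul C0.le]
          exact mul_le_mul_right hm _
  have h3 := (ENNReal.ofReal_le_ofReal_iff (by positivity)).1 (h1.trans h2)
  rw [div_mul_eq_mul_div, le_div_iff₀ pi_pos]
  linarith

end Pool.Agent.MP_c69980_ag.E1
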