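import Pool.Agent.MP_c69980_ag.E1.BaseC

/-!
Surfaces fibred over an elliptic curve: the local submean inequality for a pair of sections.
-/

set_option autoImplicit false

noncomputable section

namespace Pool.Agent.MP_c69980_ag.E1

open MvPolynomial Metric Filter Topology Set MeasureTheory Real
open H60 H4

namespace LocX

variable {n : ℕ} {X : Set (Pt n)} {a j : Fin n} {U K : Set (ℂ × ℂ)} {Y : ℂ × ℂ → V n}
  {t z z' : ℂ}

lemma lamv_pos {y w : V n} (h : wg y w ≠ 0) : 0 < lamv y w := by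
  have y0 : y ≠ 0 := fun e => h (by rw [e, ← zero_smul ℂ w, wg_smul_left, zero_smul])
  have w0 : w ≠ 0 := fun e => h (by rw [e, ← zero_smul ℂ y, wg_smul_right, zero_smul])
  have p := d2_pos y0 w0 fun q => h ((wg_eq_zero y0 w0).2 q.symm)
  rw [d2_lamv y0 w0] at p
  exact (mul_pos_iff_of_pos_right (H84.sq_pos' y0)).1
    ((div_pos_iff_of_pos_right (H84.sq_pos' w0)).1 p)

/-- The error term. -/
def EE (Y : ℂ × ℂ → V n) (q : ℂ × ℂ × ℂ) : ℝ :=
  log (lamv (Y (q.1, q.2.1)) (dd Y q.1 q.2.1 q.2.2) * H4.sq (Y (q.1, q.2.1)) /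
    H4.sq (Y (q.1, q.2.2))) - log (lamv (Y (q.1, q.2.1)) (dz Y (q.1, q.2.1)))

lemma lamv_contOn {α : Type*} [TopologicalSpace α] {f g : α → V n} {A : Set α}
    (hf : ContinuousOn f A) (hg : ContinuousOn g A) (h0 : ∀ x ∈ A, f x ≠ 0) :
    ContinuousOn (fun x => lamv (f x) (g x)) A := fun x hx =>
  ContinuousAt.comp_continuousWithinAt (f := fun x => (f x, g x))
    (g := fun q : V n × V n => lamv q.1 q.2) (lamv_cont (h0 x hx) _) ((hf x hx).prodMk (hg x hx))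

lemma EE_cont (h : Chart X a j U Y) :
    ContinuousOn (EE Y) {q | (q.1, q.2.1) ∈ U ∧ (q.1, q.2.2) ∈ U} := by
  have c1 : ContinuousOn (fun q : ℂ × ℂ × ℂ => Y (q.1, q.2.1))
      {q | (q.1, q.2.1) ∈ U ∧ (q.1, q.2.2) ∈ U} :=
    h.cont.comp (Continuous.continuousOn (by fun_prop)) fun _ hq => hq.1
  have c2 : ContinuousOn (fun q : ℂ × ℂ × ℂ => Y (q.1, q.2.2))
      {q | (q.1, q.2.1) ∈ U ∧ (q.1, q.2.2) ∈ U} :=
    h.cont.comp (Continuous.continuousOn (by fun_prop)) fun _ hq => hq.2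
  have c0 : ContinuousOn (dz Y) U := fun p hp =>
    (dz_an (h.an hp)).continuousAt.continuousWithinAt
  have c3 : ContinuousOn (fun q : ℂ × ℂ × ℂ => dz Y (q.1, q.2.1))
      {q | (q.1, q.2.1) ∈ U ∧ (q.1, q.2.2) ∈ U} :=
    c0.comp (Continuous.continuousOn (by fun_prop)) fun _ hq => hq.1
  refine ContinuousOn.sub (ContinuousOn.log (((lamv_contOn c1 (dd_cont h.2.1)
    fun _ hq => h.ne hq.1).mul (sq_cont.comp_continuousOn c1)).div (sq_cont.comp_continuousOn c2)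
      fun _ hq => (H84.sq_pos' (h.ne hq.2)).ne') fun _ hq => ?_)
    ((lamv_contOn c1 c3 fun _ hq => h.ne hq.1).log fun _ hq => (lamv_pos (h.wg_ne hq.1)).ne')
  exact (div_pos (mul_pos (lamv_pos (h.wg_dd_ne hq.1 hq.2)) (H84.sq_pos' (h.ne hq.1)))
    (H84.sq_pos' (h.ne hq.2))).ne'

lemma EE_diag (h : Chart X a j U Y) (hp : (t, z) ∈ U) : EE Y (t, z, z) = 0 := by
  simp only [EE, dd_self]
  rw [mul_div_cancel_right₀ _ (H84.sq_pos' (h.ne hp)).ne', sub_self]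

lemma EE_small (h : Chart X a j U Y) (hK : IsCompact K) (H : K ⊆ U) {e : ℝ} (he : 0 < e) :
    ∀ᶠ ε in 𝓝[>] (0 : ℝ), ∀ t z z', (t, z) ∈ K → (t, z') ∈ K → ‖z' - z‖ ≤ ε →
      |EE Y (t, z, z')| ≤ e := by
  have k : IsCompact {q : ℂ × ℂ × ℂ | (q.1, q.2.1) ∈ K ∧ (q.1, q.2.2) ∈ K} := by
    refine ((hK.prod hK).image (f := fun p : (ℂ × ℂ) × ℂ × ℂ => (p.1.1, p.1.2, p.2.2))
      (by fun_prop)).of_isClosed_subset ((hK.isClosed.preimage (by fun_prop)).inter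
        (hK.isClosed.preimage (f := fun q : ℂ × ℂ × ℂ => (q.1, q.2.2)) (by fun_prop))) ?_
    rintro ⟨t, z, z'⟩ hq
    exact ⟨((t, z), (t, z')), hq, rfl⟩
  obtain ⟨δ, δ0, hδ⟩ := Metric.uniformContinuousOn_iff.1 (k.uniformContinuousOn_of_continuous
    ((EE_cont h).mono fun _ hq => ⟨H hq.1, H hq.2⟩)) e he
  filter_upwards [nhdsWithin_le_nhds (eventually_lt_nhds δ0)] with ε hε t z z' h1 h2 h3
  have := hδ (t, z, z') ⟨h1, h2⟩ (t, z, z) ⟨h1, h1⟩ (by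
    simpa [Prod.dist_eq, dist_eq_norm, δ0] using h3.trans_lt hε)
  rw [EE_diag h (H h1), Real.dist_eq, sub_zero] at this
  exact this.le

/-- The coefficient of the form `Q` in a chart. -/
def qq (D : Fib n) (Q : PR 3) (Y : ℂ × ℂ → V n) (p : ℂ × ℂ) : ℂ :=
  eval (fun l => fc D.Φ Y (D.e l) p) Q

variable {D : Fib n} {Q : PR 3} {d : ℕ} {s s' : ℂ → V n}

lemma qq_an (h : Chart D.X a j U Y) {p : ℂ × ℂ} (hp : p ∈ U) : AnalyticAt ℂ (qq D Q Y) p := by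
  have := AnalyticAt.aeval_mvPolynomial (fun l => D.frm.an a j U Y h (D.e l) p hp) Q
  simp only [aeval_eq_eval] at this
  exact this

lemma qq_bd (h : Chart D.X a j U Y) (hK : IsCompact K) (H : K ⊆ U) :
    ∀ᶠ A in (atTop : Filter ℝ), ∀ p ∈ K, ‖qq D Q Y p‖ ≤ A := by
  obtain ⟨A, hA⟩ := hK.exists_bound_of_continuousOn (f := qq D Q Y) fun p hp =>
    (qq_an h (H hp)).continuousAt.continuousWithinAt
  filter_upwards [eventually_ge_atTop A] with B hB p hp using (hA p hp).trans hB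

/-- The function `uu` in a chart. -/
lemma point (h : Chart D.X a j U Y) (hd : 0 < d) (hQ : Q.IsHomogeneous d)
    (hV : VanQ D.L D.X D.Φ D.e Q) {l : ℂ} (hl : l ∈ D.L.lattice) (hz : (t - l, z) ∈ U)
    (hz' : (t - l, z') ∈ U) (hy : Pp (s t) (Y (t - l, z))) (hy' : Pp (s' t) (Y (t - l, z')))
    {g : ℂ → ℂ} (hg : g t = (z' - z) ^ (D.m * d) * qq D Q Y (t - l, z)) :
    (t ∈ D.L.lattice → g t = 0) ∧ (t ∈ ZZ D Q s s' ↔ t ∉ D.L.lattice ∧ g t ≠ 0) ∧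
      (t ∈ ZZ D Q s s' →
        uu D Q d s s' t = bt D.L g t + 3 * (D.m * d) * EE Y (t - l, z, z')) := by
  have c := h.shift (fun x hx => D.cov.per x hx l hl) fun x hx => by
    simpa [sub_eq_add_neg] using D.cov.per x hx _ (neg_mem hl)
  have e1 : ∀ i, fc D.Φ (fun p => Y (p.1 - l, p.2)) i (t, z) = fc D.Φ Y i (t - l, z) :=
    fun i => D.frm.shift (p := (t, z)) h hl hz i
  obtain ⟨κ, κ0, -, k2, k3⟩ := D.frm.vt (p := (t, z)) D.cov.cn c hz hy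
    (Rx.vt D.cov.cn (c.rx (p := (t, z)) hz hy))
  have e2 : Uq D Q s t = κ ^ (D.m * d) * qq D Q Y (t - l, z) := by
    rw [pow_mul, qq, ← eval_smul_hom hQ, Uq]
    refine congrArg (fun f => eval f Q) (funext fun i => ?_)
    exact (k3 _).trans (congrArg _ (e1 _))
  have m0 : D.m * d ≠ 0 := (Nat.mul_pos D.frm.m0 hd).ne'
  have e3 : Pp (s t) (s' t) ↔ z' = z := by
    rw [← h.pp_iff hz hz']
    exact ⟨fun q => hy'.symm.trans (q.symm.trans hy), fun q => hy.trans (q.symm.trans hy'.symm)⟩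
  have e4 : t ∈ ZZ D Q s s' ↔ t ∉ D.L.lattice ∧ z' - z ≠ 0 ∧ qq D Q Y (t - l, z) ≠ 0 := by
    simp [ZZ, e2, e3, κ0, sub_eq_zero]
  refine ⟨fun ht => ?_, by simp [e4, hg, m0], fun ht => ?_⟩
  · have := hV _ _ _ _ c (t, z) hz ht
    simp only [e1] at this
    rw [hg, qq, this, mul_zero]
  obtain ⟨-, n1, n2⟩ := e4.1 ht
  have y0 := h.ne hz
  have y1 := h.ne hz'
  have p1 := div_pos (mul_pos (lamv_pos (h.wg_dd_ne hz hz')) (H84.sq_pos' y0)) (H84.sq_pos' y1)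
  have p2 := lamv_pos (h.wg_ne hz)
  have e5 : lamv (Y (t - l, z)) (Y (t - l, z')) =
      ‖z' - z‖ ^ 2 * lamv (Y (t - l, z)) (dd Y (t - l) z z') := by
    simpa [← dd_eq] using lamv_comb y0 one_ne_zero (z' - z) 1 (dd Y (t - l) z z')
  have e6 : d2 (s t) (s' t) = ‖z' - z‖ ^ 2 * (lamv (Y (t - l, z)) (dd Y (t - l) z z') *
      H4.sq (Y (t - l, z)) / H4.sq (Y (t - l, z'))) := by
    rw [hy.d2 hy', d2_lamv y0 y1, e5]
    ring
  have a1 := norm_ne_zero_iff.2 n1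
  have a2 := norm_ne_zero_iff.2 n2
  have a3 := norm_ne_zero_iff.2 κ0
  rw [dz_shift] at k2
  have k2 : lamv (s t) (tv D.X (t, s t)) =
    ‖κ‖ ^ 2 * lamv (Y (t - l, z)) (dz Y (t - l, z)) := k2
  rw [uu, bt, bt, e2, e6, k2, hg, EE, norm_mul, norm_mul, norm_pow, norm_pow,
    log_mul (pow_ne_zero _ a1) p1.ne', log_mul (pow_ne_zero _ a3) p2.ne',
    log_mul (pow_ne_zero _ a3) a2, log_mul (pow_ne_zero _ a1) a2, log_pow, log_pow, log_pow,
    log_pow]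
  push_cast
  ring

/-- A small perturbation keeps half of the gain. -/
lemma perturb {u b E : ℂ → ℝ} {ρ c e : ℝ} (hρ : 0 < ρ) (hE : ContinuousOn E (closedBall t ρ))
    (hb : ∀ w ∈ closedBall t ρ, |E w| ≤ e) (hu : ∀ᵐ w, w ∈ ball t ρ → u w = b w + E w)
    (ht : u t = b t + E t) (hi : IntegrableOn b (ball t ρ))
    (hm : π * ρ ^ 2 * (b t + (c + 2 * e)) ≤ ∫ w in ball t ρ, b w) :
    IntegrableOn u (ball t ρ) ∧ π * ρ ^ 2 * (u t + c) ≤ ∫ w in ball t ρ, u w := by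
  have i1 : IntegrableOn E (ball t ρ) :=
    (hE.integrableOn_compact (isCompact_closedBall t ρ)).mono_set ball_subset_closedBall
  have e1 : (fun w => b w + E w) =ᵐ[volume.restrict (ball t ρ)] u :=
    (ae_restrict_iff' measurableSet_ball).2 (hu.mono fun w hw h => (hw h).symm)
  refine ⟨Integrable.congr (hi.add i1) e1, ?_⟩
  have v : volume.real (ball t ρ) = π * ρ ^ 2 := by
    simp [Measure.real, Complex.volume_ball, hρ.le, mul_comm]
  have e2 : ∫ _ in ball t ρ, -e ≤ ∫ w in ball t ρ, E w :=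
    setIntegral_mono_on (integrableOn_const measure_ball_lt_top.ne) i1 measurableSet_ball
      fun w hw => (abs_le.1 (hb w (ball_subset_closedBall hw))).1
  rw [setIntegral_const, v, smul_eq_mul] at e2
  have e3 := (abs_le.1 (hb t (mem_closedBall_self hρ.le))).2
  have p : 0 < π * ρ ^ 2 := by positivity
  rw [← integral_congr_ae e1, integral_add hi i1, ht]
  nlinarith [mul_le_mul_of_nonneg_left e3 p.le]

end LocX

open LocX in
theorem locS (h1 : UChStmt) (h2 : GainStmt) : LocStmt := by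
  intro n D Q d hd hQ hV
  obtain ⟨J, a, j, U, Y, p, r, ρ₁, ρ1, hC, hU⟩ := h1 n D
  obtain ⟨ρ₀, c, ρ0, c0, hG⟩ := h2 D.L
  obtain ⟨ρ, hρ, r0, r1⟩ : ∃ ρ : ℝ, 0 < ρ ∧ ρ ≤ ρ₀ ∧ 2 * ρ ≤ ρ₁ :=
    ⟨min ρ₀ (ρ₁ / 2), by positivity, min_le_left _ _, by linarith [min_le_right ρ₀ (ρ₁ / 2)]⟩
  obtain ⟨C, hG⟩ := hG ρ hρ r0
  obtain ⟨M, hM⟩ : ∃ M : ℝ, M = 3 * (D.m * d) := ⟨_, rfl⟩
  have M0 : 0 < M := by
    have := D.frm.m0
    rw [hM]
    positivity
  have e0 : 0 < c * ρ ^ 2 / 4 / M := by positivity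
  obtain ⟨ε, ⟨hε, ε1⟩, ε0⟩ := (((eventually_all.2 fun i =>
    EE_small (hC i).1 (isCompact_closedBall _ _) (hC i).2 e0).and
      (nhdsWithin_le_nhds (eventually_le_nhds one_pos))).and self_mem_nhdsWithin).exists
  obtain ⟨A, hA⟩ := (eventually_all.2 fun i =>
    qq_bd (Q := Q) (hC i).1 (isCompact_closedBall _ _) (hC i).2).exists
  obtain ⟨δ, δ0, hU⟩ := hU ε ε0
  refine ⟨δ, ρ, c * ρ ^ 2 / 2, 6 * log A + C + c * ρ ^ 2 / 4, δ0, hρ, by positivity,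
    fun s s' hs hs' t ht hδ => ?_⟩
  obtain ⟨i, l, hl, hU⟩ := hU s hs t
  have ch := (hC i).1
  have sU := (hC i).2
  have sb : ball t (2 * ρ) ⊆ ball t ρ₁ := ball_subset_ball r1
  have u1 := fun w (hw : w ∈ ball t (2 * ρ)) => hU w (sb hw) (s w) (hs.2 w trivial) (by
    rw [(d2_eq_zero (hs.1.ne trivial) (hs.1.ne trivial)).2 (.refl _)]
    exact δ0.le)
  have u2 := fun w (hw : w ∈ ball t (2 * ρ)) => hU w (sb hw) (s' w) (hs'.2 w trivial) (by
    rw [d2_symm]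
    exact hδ w hw)
  obtain ⟨z, hz⟩ : ∃ z : ℂ → ℂ, z = fun w => s w (a i) / s w (j i) := ⟨_, rfl⟩
  obtain ⟨z', hz'⟩ : ∃ z' : ℂ → ℂ, z' = fun w => s' w (a i) / s' w (j i) := ⟨_, rfl⟩
  have v1 : ∀ w ∈ ball t (2 * ρ), (w - l, z w) ∈ closedBall (p i) (r i) ∧
      Pp (s w) (Y i (w - l, z w)) ∧ AnalyticAt ℂ z w := fun w hw => by
    rw [hz]
    exact ⟨(u1 w hw).1, (u1 w hw).2.1,
      (hs.1.ratio trivial _ (ch.eq (sU (u1 w hw).1) (u1 w hw).2.1).1).1⟩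
  have v2 : ∀ w ∈ ball t (2 * ρ), (w - l, z' w) ∈ closedBall (p i) (r i) ∧
      Pp (s' w) (Y i (w - l, z' w)) ∧ AnalyticAt ℂ z' w ∧ ‖z' w - z w‖ ≤ ε := fun w hw => by
    rw [hz, hz']
    exact ⟨(u2 w hw).1, (u2 w hw).2.1,
      (hs'.1.ratio trivial _ (ch.eq (sU (u2 w hw).1) (u2 w hw).2.1).1).1, (u2 w hw).2.2⟩
  obtain ⟨g, hg⟩ : ∃ g : ℂ → ℂ,
      g = fun w => (z' w - z w) ^ (D.m * d) * qq D Q (Y i) (w - l, z w) := ⟨_, rfl⟩
  have pt := fun w (hw : w ∈ ball t (2 * ρ)) => point (g := g) ch hd hQ hV hl (sU (v1 w hw).1)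
    (sU (v2 w hw).1) (v1 w hw).2.1 (v2 w hw).2.1 (congrFun hg w)
  obtain ⟨g1, g2⟩ := hG t g A (fun w hw => by
    rw [hg]
    exact (((((v2 w hw).2.2.1.sub (v1 w hw).2.2).pow _).mul ((qq_an ch (sU (v1 w hw).1)).comp_of_eq
      (f := fun w => (w - l, z w)) ((analyticAt_id.sub analyticAt_const).prod (v1 w hw).2.2)
        rfl)).differentiableAt).differentiableWithinAt) fun w hw => ⟨by
      rw [hg]
      exact (norm_mul_le _ _).trans ((mul_le_of_le_one_left (norm_nonneg _) ((norm_pow _ _).trans_le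
        (pow_le_one₀ (norm_nonneg _) ((v2 w hw).2.2.2.trans ε1)))).trans (hA i _ (v1 w hw).1)),
      (pt w hw).1⟩
  have t0 : t ∈ ball t (2 * ρ) := mem_ball_self (by linarith)
  have sc : closedBall t ρ ⊆ ball t (2 * ρ) := closedBall_subset_ball (by linarith)
  have sb' : ball t ρ ⊆ ball t (2 * ρ) := ball_subset_closedBall.trans sc
  obtain ⟨n1, n2⟩ := (pt t t0).2.1.1 ht
  obtain ⟨g3, g4, g5⟩ := g2 n1 n2
  have b1 : ∀ w ∈ ball t (2 * ρ), |M * EE (Y i) (w - l, z w, z' w)| ≤ c * ρ ^ 2 / 4 :=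
    fun w hw => by
      rw [abs_mul, abs_of_pos M0, mul_comm, ← le_div_iff₀ M0]
      exact hε i _ _ _ (v1 w hw).1 (v2 w hw).1 (v2 w hw).2.2.2
  have ae : ∀ᵐ w, w ∈ ball t ρ → w ∈ ZZ D Q s s' :=
    g3.mono fun w hw h => (pt w (sb' h)).2.1.2 (hw h)
  have et := (pt t t0).2.2 ht
  rw [← hM] at et
  refine ⟨?_, ae, perturb (b := bt D.L g) (E := fun w => M * EE (Y i) (w - l, z w, z' w))
    (e := c * ρ ^ 2 / 4) hρ ?_ (fun w hw => b1 w (sc hw))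
    (ae.mono fun w hw h => hM ▸ (pt w (sb' h)).2.2 (hw h)) et g4 (le_of_eq_of_le (by ring) g5)⟩
  · rw [et]
    exact add_le_add (g1 t (mem_ball_self hρ) n1 n2) (abs_le.1 (b1 t t0)).2
  · refine continuousOn_const.mul ((EE_cont ch).comp (f := fun w => (w - l, z w, z' w))
      (fun w hw => ContinuousAt.continuousWithinAt ?_)
      fun w hw => ⟨sU (v1 w (sc hw)).1, sU (v2 w (sc hw)).1⟩)
    exact (continuousAt_id.sub continuousAt_const).prodMk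
      ((v1 w (sc hw)).2.2.continuousAt.prodMk (v2 w (sc hw)).2.2.1.continuousAt)

end Pool.Agent.MP_c69980_ag.E1
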