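import Pool.Agent.MP_c69980_ag.E1.SpecC
import Pool.Agent.MP_c69980_ag.S12.RedC
import Pool.Agent.MP_c69980_ag.S41.Cv1
import Pool.Agent.MP_c69980_ag.S14.HtBd
import Pool.Agent.MP_c69980_ag.S35.Cd
import Pool.Agent.MP_c69980_ag.S17.A2

/-!
Conditions 1 and 5 imply condition 3.
-/

set_option autoImplicit false

namespace Pool.Agent.MP_c69980_ag.E1

open MvPolynomial Metric Set
open H60 H4 H43

namespace PtX

lemma form {n : ℕ} {W Δ : Set (PS n)} (h : IsZClosed Δ) (hW : ¬ W ⊆ Δ) :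
    ∃ (F : PR n) (d : ℕ), F.IsHomogeneous d ∧ (∀ p ∈ Δ, eval p.rep F = 0) ∧
      ∃ p ∈ W, eval p.rep F ≠ 0 := by
  obtain ⟨S, hS, rfl⟩ := h
  obtain ⟨p, pU, pΔ⟩ := Set.not_subset.1 hW
  simp only [Set.mem_ofPred_eq, not_forall] at pΔ
  obtain ⟨F, FS, hF⟩ := pΔ
  obtain ⟨d, hd⟩ := hS F FS
  exact ⟨F, d, hd, fun q hq => hq F FS, p, pU, hF⟩

end PtX

theorem ptS (h1 : KBStmt) (h2 : RigStmt) : PtStmt := by
  intro n W K _ _ z hW gen wc ⟨Δ₁, c1, n1, hk⟩ ⟨Δ₂, c2, n2, hb⟩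
  obtain ⟨F, d₁, hF, vF, p, pW, pF⟩ := PtX.form c1 n1
  obtain ⟨R, d₂, hR, vR, q, qW, qR⟩ := PtX.form c2 n2
  have zF : aeval z F ≠ 0 := fun e => pF ((gen.1 F d₁ hF).1 e p pW)
  have zR : aeval z R ≠ 0 := fun e => qR ((gen.1 R d₂ hR).1 e q qW)
  refine ⟨{P | ∀ G ∈ ({F * R} : Set (PR n)), eval P.rep G = 0},
    ⟨_, fun G hG => ⟨_, hG ▸ hF.mul hR⟩, rfl⟩, fun e => ?_, fun m Y hY y x hx => ?_⟩
  · have := (gen.1 _ _ (hF.mul hR)).2 fun P hP => e hP _ rfl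
    rw [map_mul] at this
    exact mul_ne_zero zF zR this
  have hx2 : eval x.rep F ≠ 0 ∧ eval x.rep R ≠ 0 := by
    rw [← mul_ne_zero_iff, ← map_mul]
    exact fun e => hx.2 fun G hG => hG ▸ e
  have kb : KB W x := h1 n W x hW wc fun a ha ne =>
    hk x hx.1 a ha ne fun e => hx2.1 (vF x e.1)
  by_contra hinf
  let E := Set.Infinite.natEmbedding _ hinf
  obtain ⟨r, C, L, _, _, v, ι, c, sm, hc, mor, inj⟩ := sRedC n m Y y (fun j => E j) hY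
    (fun j => (E j).2.1) (Subtype.val_injective.comp E.injective)
    fun j j' => (E j).2.2.2.trans (E j').2.2.2.symm
  have h3 := sHtBd sCd
  obtain ⟨pl, cv⟩ := sCv1 h3 r C L v sm
  obtain ⟨d, hdd⟩ := hb r C L v sm.var sm.gen sm.deg sm.reg
  choose z' hz' using fun j => (cv.mor n _).1 (mor j)
  have ran : ∀ j, Set.range ((E j).1 ∘ ι) ⊆ W := fun j =>
    (Set.range_comp_subset_range _ _).trans (E j).2.2.1
  have fc : ∀ j, ((E j).1 ∘ ι) c = x := fun j => by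
    rw [Function.comp_apply, hc]; exact (E j).2.2.2
  have hb1 : ∀ j, ht (z' j) ≤ n ^ 2 * d := fun j =>
    (h3 r n C L v pl _ _ cv (hz' j)).2.1 d (hdd _ (mor j) (ran j) fun e =>
      hx2.2 (vR x (e ⟨c, fc j⟩)))
  obtain ⟨j, j', ne, l, hl⟩ := h2 n W x L (pl c) (n ^ 2 * d) z' hW kb cv.ff
    (fun j G e hG h0 => by
      by_contra q
      obtain ⟨c', hc'⟩ := ((h3 r n C L v pl _ _ cv (hz' j)).2.2 G e hG).1 q
      exact hc' (h0 _ (ran j ⟨c', rfl⟩)))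
    hb1 fun j => fc j ▸ hz' j c
  refine ne (inj (_root_.funext fun c' => ?_))
  exact a2_uni cv.ff (a2_smul (hl ▸ hz' j c')) (hz' j' c')

end Pool.Agent.MP_c69980_ag.E1
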