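import Pool.Agent.MP_c69980_ag.E1.RigA
import Pool.Agent.MP_c69980_ag.S10.Param
import Pool.Agent.MP_c69980_ag.S36.ArcP

/-!
Rigidity of pointed curves of bounded height.
-/

set_option autoImplicit false

noncomputable section

namespace Pool.Agent.MP_c69980_ag.E1

open MvPolynomial Metric Set Filter Topology
open H60 H43 Pool.Agent.MP_f3836a_nt.PK

namespace RigX

variable {L : Type} [Field L] [Algebra ℂ L] {n N : ℕ}

/-- Linear forms in one block of the parameters. -/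
def lf {R : Type} [CommRing R] (e : Fin N → R) (k : Bool × Fin n) :
    MvPolynomial ((Bool × Fin n) × Fin N) R := ∑ i, C (e i) * X (k, i)

lemma ev_lf (e : Fin N → L) (k : Bool × Fin n) (v : (Bool × Fin n) × Fin N → ℂ) :
    ev v (lf e k) = ∑ i, v (k, i) • e i := by
  simp [ev, lf, Algebra.smul_def, mul_comm]

lemma eval_lf (e : Fin N → ℂ) (k : Bool × Fin n) (v : (Bool × Fin n) × Fin N → ℂ) :
    eval v (lf e k) = ∑ i, v (k, i) * e i := by
  simp [lf, mul_comm]

lemma val_lf (h : FFd L) (P : Pl L) {e : Fin N → L} (he : ∀ i, e i ∈ P.V) (k : Bool × Fin n)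
    (v : (Bool × Fin n) × Fin N → ℂ) :
    ev v (lf e k) ∈ P.V ∧ P.val (ev v (lf e k)) = eval v (lf (fun i => P.val (e i)) k) := by
  rw [ev_lf, eval_lf]
  exact val_lin h P he _

/-- The point with parameters `v`. -/
def pt (e : Fin N → L) (v : (Bool × Fin n) × Fin N → ℂ) (a : Fin n) : L :=
  ev v (lf e (true, a)) / ev v (lf e (false, a))

lemma val_pt (h : FFd L) (P : Pl L) {e : Fin N → L} (he : ∀ i, e i ∈ P.V)
    {v : (Bool × Fin n) × Fin N → ℂ} {a : Fin n}
    (h0 : eval v (lf (fun i => P.val (e i)) (false, a)) ≠ 0) :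
    ev v (lf e (false, a)) ≠ 0 ∧ pt e v a ∈ P.V ∧ P.val (pt e v a) =
      eval v (lf (fun i => P.val (e i)) (true, a)) /
        eval v (lf (fun i => P.val (e i)) (false, a)) := by
  rw [← (val_lf h P he _ v).2] at h0 ⊢
  rw [← (val_lf h P he _ v).2]
  exact val_div h P (val_lf h P he _ v).1 (val_lf h P he _ v).1 h0

lemma ev_clear (e : Fin N → L) {v : (Bool × Fin n) × Fin N → ℂ}
    (h0 : ∀ a, ev v (lf e (false, a)) ≠ 0) {F : PR n} {d : ℕ} (hF : F.IsHomogeneous d) :
    ev v (aeval (fun a => lf e (true, a) * ∏ c ∈ Finset.univ.erase a, lf e (false, c)) F) =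
      (∏ c, ev v (lf e (false, c))) ^ d * aeval (pt e v) F := by
  rw [comp_aeval_apply, ← aeval_smul hF]
  refine congrArg (fun z => aeval z F) (funext fun a => ?_)
  rw [map_mul, map_prod, ← Finset.mul_prod_erase _ _ (Finset.mem_univ a), pt]
  have := h0 a
  field_simp

lemma gd_pt (h : FFd L) {W : Set (PS n)} {x : PS n} {b : Fin n} {P : Pl L} {e : Fin N → L}
    (he : ∀ i, e i ∈ P.V) {w : ℕ → (Bool × Fin n) × Fin N → ℂ}
    (w0 : ∀ j a, eval (w j) (lf (fun i => P.val (e i)) (false, a)) ≠ 0)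
    (hw : ∀ j, Gd W x b P (pt e (w j))) {v : (Bool × Fin n) × Fin N → ℂ}
    (hv : ∀ Q : MvPolynomial _ ℂ, (∀ j, eval (w j) Q = 0) → eval v Q = 0)
    (v0 : ∀ a, eval v (lf (fun i => P.val (e i)) (false, a)) ≠ 0) : Gd W x b P (pt e v) := by
  have h1 := fun a => val_pt h P he (v0 a)
  have h2 := fun j a => val_pt h P he (w0 j a)
  refine ⟨?_, fun a => (h1 a).2.1, fun a => ?_, fun F d hF hW => ?_⟩
  · have h3 := ev_van w hv (G := lf e (true, b) - lf e (false, b)) fun j => by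
      rw [map_sub, sub_eq_zero]
      exact (div_eq_one_iff_eq (h2 j b).1).1 (hw j).one
    rw [map_sub, sub_eq_zero] at h3
    exact (div_eq_one_iff_eq (h1 b).1).2 h3
  · have h3 := hv (lf (fun i => P.val (e i)) (true, a) -
        C (x.rep a / x.rep b) * lf (fun i => P.val (e i)) (false, a)) fun j => by
      rw [map_sub, map_mul, eval_C, sub_eq_zero, ← div_eq_iff (w0 j a), ← (h2 j a).2.2]
      exact (hw j).val a
    rw [map_sub, map_mul, eval_C, sub_eq_zero, ← div_eq_iff (v0 a)] at h3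
    rw [(h1 a).2.2, h3]
  · have h3 := ev_van w hv (G := aeval (fun a => lf e (true, a) *
        ∏ c ∈ Finset.univ.erase a, lf e (false, c)) F) fun j => by
      rw [ev_clear e (fun a => (h2 j a).1) hF, (hw j).van F d hF hW, mul_zero]
    rw [ev_clear e (fun a => (h1 a).1) hF] at h3
    exact (mul_eq_zero.1 h3).resolve_left
      (pow_ne_zero _ (Finset.prod_ne_zero_iff.2 fun a _ => (h1 a).1))

lemma vals_fin (hB : BFStmt) (h : FFd L) {W : Set (PS n)} {x : PS n} {b : Fin n} {P Q : Pl L}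
    {e : Fin N → L} (he : ∀ i, e i ∈ P.V) (hQ : ∀ i, e i ∈ Q.V)
    {w : ℕ → (Bool × Fin n) × Fin N → ℂ}
    (w0 : ∀ j a, eval (w j) (lf (fun i => P.val (e i)) (false, a)) ≠ 0)
    (w1 : ∀ j a, eval (w j) (lf (fun i => Q.val (e i)) (false, a)) ≠ 0)
    (hw : ∀ j, Gd W x b P (pt e (w j))) {M : ℝ}
    (hM : ∀ ξ, Gd W x b P ξ → ∀ a, ‖Q.val (ξ a)‖ ≤ M) (a : Fin n) :
    (range fun j => Q.val (pt e (w j) a)).Finite := by
  refine (hB _ {G | ∀ j, eval (w j) G = 0}
    (lf (fun i => Q.val (e i)) (true, a) * ∏ c, lf (fun i => P.val (e i)) (false, c))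
    (lf (fun i => Q.val (e i)) (false, a) * ∏ c, lf (fun i => P.val (e i)) (false, c)) M
    fun v hv h0 => ?_).subset ?_
  · rw [map_mul] at h0
    have h1 := right_ne_zero_of_mul h0
    rw [map_mul, map_mul, mul_div_mul_right _ _ h1,
      ← (val_pt h Q hQ (left_ne_zero_of_mul h0)).2.2]
    rw [map_prod] at h1
    exact hM _ (gd_pt h he w0 hw hv fun c =>
      Finset.prod_ne_zero_iff.1 h1 c (Finset.mem_univ c)) a
  · rintro _ ⟨j, rfl⟩
    have h1 : eval (w j) (∏ c, lf (fun i => P.val (e i)) (false, c)) ≠ 0 := by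
      rw [map_prod]
      exact Finset.prod_ne_zero_iff.2 fun c _ => w0 j c
    refine ⟨w j, fun G hG => hG j, by rw [map_mul]; exact mul_ne_zero (w1 j a) h1, ?_⟩
    rw [map_mul, map_mul, mul_div_mul_right _ _ h1]
    exact (val_pt h Q hQ (w1 j a)).2.2.symm

lemma many {δ : ℝ} (hδ : 0 < δ) {B : Set ℂ} (hB : B.Countable) : (ball (0 : ℂ) δ \ B).Infinite := by
  intro hf
  obtain ⟨s, h1, h2⟩ := ((hB.union hf.countable).dense_compl ℂ).exists_mem_open isOpen_ball
    ⟨0, mem_ball_self hδ⟩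
  exact h1 (by by_cases q : s ∈ B; exacts [Or.inl q, Or.inr ⟨h2, q⟩])

end RigX

open RigX in
theorem rig (hB : BFStmt) : RigStmt := by
  classical
  intro n W x L _ _ P₀ d y hW hK h hy hd hr
  obtain ⟨b, hb⟩ := Function.ne_iff.1 x.rep_nonzero
  have r := fun j => red_ratio h P₀ (hr j) hb
  obtain ⟨α, ε, hε, rfl, hα, inj, -⟩ := sArcP L h P₀
  obtain ⟨N, e, he, par⟩ := sParam L h (α 0) d
  have dg : ∀ j a, deg (y j a / y j b) ≤ d := fun j a => (deg_le_ht _ a b).trans (hd j)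
  choose A B hA hAB using fun j a => par _ ((r j).2 a).1 (dg j a)
  let w : ℕ → (Bool × Fin n) × Fin N → ℂ := fun j k =>
    if k.1.1 then B j k.1.2 k.2 else A j k.1.2 k.2
  have w0 : ∀ j a, eval (w j) (lf (fun i => (α 0).val (e i)) (false, a)) ≠ 0 := fun j a => by
    rw [eval_lf]
    exact hA j a
  have n0 := fun j a => (val_pt h _ he (w0 j a)).1
  have hp : ∀ j a, pt e (w j) a = y j a / y j b := fun j a => by
    rw [pt, div_eq_iff (n0 j a), ev_lf, ev_lf]
    exact (hAB j a).symm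
  have hw : ∀ j, Gd W x b (α 0) (pt e (w j)) := fun j => by
    rw [funext (hp j)]
    refine ⟨div_self (r j).1, fun a => ((r j).2 a).1, fun a => ((r j).2 a).2,
      fun F k hF h0 => ?_⟩
    simp only [div_eq_inv_mul]
    rw [aeval_smul hF, hy j F k hF h0, mul_zero]
  obtain ⟨δ, M, hδ, hM⟩ := key h hW hK hb hε hα
  obtain ⟨η, hη, hE⟩ := Metric.eventually_nhds_iff_ball.1
    (eventually_all.2 fun i => (hα 0 (mem_ball_self hε) _ (he i)).1)
  have hc : (⋃ j, ⋃ a, ball (0 : ℂ) ε ∩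
      α ⁻¹' {P | P.ord (ev (w j) (lf e (false, a))) ≠ 0}).Countable :=
    countable_iUnion fun j => countable_iUnion fun a =>
      (Finite.of_finite_image ((h.b.fin _).subset (by rintro _ ⟨s, hs, rfl⟩; exact hs.2))
        (inj.mono inter_subset_left)).countable
  obtain ⟨T, hT, cT⟩ := (many (lt_min hε (lt_min hδ hη)) hc).exists_subset_card_eq (2 * d + 1)
  have t1 : ∀ s ∈ T, s ∈ ball (0 : ℂ) ε := fun s hs => ball_subset_ball (min_le_left _ _) (hT hs).1
  have t2 : ∀ s ∈ T, s ∈ ball (0 : ℂ) δ := fun s hs =>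
    ball_subset_ball ((min_le_right _ _).trans (min_le_left _ _)) (hT hs).1
  have t3 : ∀ s ∈ T, ∀ i, e i ∈ (α s).V := fun s hs =>
    hE s (ball_subset_ball ((min_le_right _ _).trans (min_le_right _ _)) (hT hs).1)
  have t4 : ∀ s ∈ T, ∀ j a, eval (w j) (lf (fun i => (α s).val (e i)) (false, a)) ≠ 0 :=
    fun s hs j a q => by
      rw [← (val_lf h _ (t3 s hs) _ _).2, val_zero_iff h _ (val_lf h _ (t3 s hs) _ _).1] at q
      exact (hT hs).2 (mem_iUnion.2 ⟨j, mem_iUnion.2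
        ⟨a, t1 s hs, (q.resolve_left (n0 j a)).ne'⟩⟩)
  have fin := Finite.pi' fun k : T × Fin n => vals_fin hB h he (t3 _ k.1.2) w0 (t4 _ k.1.2) hw
    (fun ξ g a => (hM ξ g _ (t2 _ k.1.2) a).2) k.2
  obtain ⟨j, -, j', -, hj, eq⟩ := infinite_univ.exists_ne_map_eq_of_mapsTo
    (f := fun (j : ℕ) (k : T × Fin n) => (α k.1).val (pt e (w j) k.2))
    (fun j _ => by exact fun k => mem_range_self j) fin
  refine ⟨j, j', hj, y j b / y j' b, funext fun a => ?_⟩
  have h5 : y j a / y j b = y j' a / y j' b :=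
    eq_of_vals h (dg j a) (dg j' a) (T.image α)
      (by rw [Finset.card_image_of_injOn (inj.mono t1), cT]) fun P hP => by
        obtain ⟨s, hs, rfl⟩ := Finset.mem_image.1 hP
        rw [← hp, ← hp]
        exact ⟨(hM _ (hw j) s (t2 s hs) a).1, (hM _ (hw j') s (t2 s hs) a).1,
          congrFun eq (⟨s, hs⟩, a)⟩
  rw [div_eq_iff (r j).1] at h5
  rw [h5, Pi.smul_apply, smul_eq_mul]
  ring

end Pool.Agent.MP_c69980_ag.E1
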