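import Pool.Agent.MP_c69980_ag.E1.Main1
import Pool.Agent.MP_c69980_ag.E1.GT
import Pool.Agent.MP_c69980_ag.E1.BF
import Pool.Agent.MP_c69980_ag.E1.Rig
import Pool.Agent.MP_c69980_ag.E1.Pt
import Pool.Agent.MP_c69980_ag.H4.MainB

/-!
Surfaces fibred over an elliptic curve: the five conditions.
-/

set_option autoImplicit false

namespace Pool.Agent.MP_c69980_ag.E1

open H60 H4 MvPolynomial

theorem all5 {n : ℕ} {K : Type} [Field K] [Algebra ℂ K] (d : Dat K n) :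
    PseudoKob d.W ∧ PseudoBrody d.W ∧ H43.PseudoFin d.W ∧ LogGT d.W d.z ∧ PseudoBdd d.W := by
  have k4 := gtS wc tan K n d
  have k1 := kob_dat d k4
  have k2 := brody_of_kob k1
  have k5 := bdd_of_brody (isHomogeneous_one _ _) (Set.ext fun p =>
    ⟨fun h => ⟨fun Z hZ => hZ.2 h, by simp⟩, fun h => h.1 d.W ⟨d.cl, subset_rfl⟩⟩) d.gen d.tr k4 k2
  exact ⟨k1, k2, ptS kb (rig bf) n d.W K d.z d.cl d.gen (wc n d.W d.sm) k1 k5, k4, k5⟩

end Pool.Agent.MP_c69980_ag.E1
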