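import Pool.Agent.MP_c69980_ag.E1.BaseC
import Pool.Agent.MP_c69980_ag.G2.Kob

/-!
Surfaces fibred over an elliptic curve: the analytic package of a surface.
-/

set_option autoImplicit false

noncomputable section

namespace Pool.Agent.MP_c69980_ag.E1

open MvPolynomial Metric Filter Topology Set
open H60 H4

variable {n : ℕ} {K : Type} [Field K] [Algebra ℂ K]

/-- The surface is of general type in the sense of condition 4. -/
def GTStmt : Prop := ∀ (K : Type) [Field K] [Algebra ℂ K] (n : ℕ) (d : Dat K n), LogGT d.W d.z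

lemma bad_mono {L : PeriodPair} {S S' : Finset ℂ} (h : S ⊆ S') : Bad L S ⊆ Bad L S' :=
  fun _ q => q.imp_right fun a => h a

theorem ex_fib (h1 : CovStmt) (h2 : PhiStmt) (h3 : FrmStmt) (h4 : NonregStmt) (h5 : WCStmt)
    (h6 : CritStmt) (h7 : AlgAStmt) (h8 : AlgBStmt) (h9 : VertStmt) (h10 : BlowStmt)
    (h11 : PrpStmt) (h12 : ClsStmt) (d : Dat K n) : ∃ D : Fib n, D.W = d.W ∧ D.X = d.X := by
  classical
  have cov := h1 K n d
  obtain ⟨Φ, kl⟩ := h2 K n d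
  obtain ⟨frm, l0, l1⟩ := h3 K n d Φ kl
  obtain ⟨S₁, b1⟩ := h6 K n d
  obtain ⟨-, a1, a2, a3, a4⟩ := h7 K n d
  obtain ⟨c1, c2, c3⟩ := h8 K n d Φ l0
  obtain ⟨S₂, b2⟩ := h9 n d.N d.L d.X Φ d.e a2 c1 c2
  exact ⟨⟨d.L, d.W, d.X, d.N, d.m, Φ, d.e, S₁ ∪ S₂, cov, frm, h4 n _ _ _ cov (h5 n _ d.sm),
    fun x hx q => b1 x hx fun r => q (bad_mono Finset.subset_union_left r), a1, a2, c1, c2, c3,
    fun t q => b2 t fun r => q (bad_mono Finset.subset_union_right r), a3, a4 _,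
    h12 n _ cov.cn (h11 K n d Φ l1 (h10 K n d Φ kl))⟩, rfl, rfl⟩

theorem kob_of (h1 : ∀ d : Dat K n, ∃ D : Fib n, D.W = d.W ∧ D.X = d.X) (h2 : NDStmt)
    (h3 : AlgAStmt) (d : Dat K n) (h4 : LogGT d.W d.z) : PseudoKob d.W := by
  obtain ⟨D, e1, e2⟩ := h1 d
  obtain ⟨T, t1, t2⟩ := h2 n D
  rw [e1] at t2
  rw [e2] at t1
  obtain ⟨e, he⟩ := t1.1
  obtain ⟨x, -, -⟩ := d.nc
  exact G2.kobS n d.W T e K d.z he (((h3 K n d).1 T e he).1 t1) (fun q => x.1.rep_nonzero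
    (funext fun j => by
      simpa using (d.gen.1 (X j) 1 (isHomogeneous_X _ _)).1 (by simp [q]) x.1 x.2))
    d.gen d.tr h4 t2

end Pool.Agent.MP_c69980_ag.E1
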