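import Pool.Agent.MP_c69980_ag.E1.Spec
import Pool.Agent.MP_c69980_ag.H84.NL
import Pool.Agent.MP_c69980_ag.H66.Rep
import Pool.Agent.MP_c69980_ag.H26.Basic
import Pool.Agent.MP_c69980_ag.H18.Lim1
import Pool.Agent.MP_c69980_ag.H11.Curve

/-!
Normal families, lifts on discs, and inverses of almost affine maps.
-/

set_option autoImplicit false

noncomputable section

namespace Pool.Agent.MP_c69980_ag.E1

open Metric Filter Topology MeasureTheory Set
open H60 H4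

namespace Mon

variable {n : ℕ}

/-- A bounded normalisation of a curve with bounded density on a small disc. -/
theorem nrm (n : ℕ) (r A : ℝ) (hr : 0 < r) : ∃ s : ℝ, 0 < s ∧ s ≤ r ∧ ∀ (t : ℂ) (g : ℂ → V n),
    Crv (ball t r) g → (∀ w ∈ ball t r, lam g w ≤ A) → ∃ Φ : ℂ → V n,
      DifferentiableOn ℂ Φ (ball t s) ∧
        ∀ w ∈ ball t s, ‖Φ w‖ ≤ 2 ∧ 1 ≤ H4.sq (Φ w) ∧ Pp (g w) (Φ w) := by
  obtain ⟨ε, K, e0, K0, hE⟩ := H84.eps R1.lapQ R1.minor R1.rep H26.logSub R1.scale n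
  set m := min ε (1 / 4 / K) with hm
  have m0 : 0 < m := by positivity
  have m1 : K * m ≤ 1 / 4 := by
    have := min_le_right ε (1 / 4 / K)
    rwa [le_div_iff₀ K0, mul_comm] at this
  set B := (|A| + 1) * Real.pi with hB
  have B0 : 0 < B := by positivity
  set ρ := min r (√(m / B)) with hρ
  have ρ0 : 0 < ρ := by positivity
  have ρ1 : ρ ≤ r := min_le_left _ _
  have ρ2 : ρ ^ 2 * B ≤ m := by
    have h1 : ρ ^ 2 ≤ √(m / B) ^ 2 := by gcongr; exact min_le_right _ _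
    rwa [Real.sq_sqrt (by positivity), le_div_iff₀ B0] at h1
  refine ⟨ρ / 16, by positivity, by linarith, fun t g hg hA => ?_⟩
  have sub : ball t ρ ⊆ ball t r := ball_subset_ball ρ1
  have sub' : ball t (ρ / 16) ⊆ ball t r := ball_subset_ball (by linarith)
  have hmu : mu (lam g) (ball t ρ) ≤ ENNReal.ofReal m := by
    calc mu (lam g) (ball t ρ) ≤ ∫⁻ _ in ball t ρ, ENNReal.ofReal (|A| + 1) :=
          setLIntegral_mono' measurableSet_ball fun w hw => ENNReal.ofReal_le_ofReal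
            ((hA w (sub hw)).trans ((le_abs_self A).trans (by linarith)))
      _ = ENNReal.ofReal (ρ ^ 2 * B) := by
          rw [setLIntegral_const, Complex.volume_ball, ← ENNReal.ofReal_pow ρ0.le,
            ← ENNReal.ofReal_coe_nnreal, NNReal.coe_real_pi,
            ← ENNReal.ofReal_mul (by positivity), ← ENNReal.ofReal_mul (by positivity), hB]
          congr 1
          ring
      _ ≤ _ := ENNReal.ofReal_le_ofReal ρ2
  have hd := hE g t ρ m ρ0 ⟨hg.1.mono sub, fun w hw => hg.2 w (sub hw)⟩ m0.le (min_le_left _ _) hmu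
  obtain ⟨p, a, a0, hp, p1, -⟩ := H84.unit (hg.2 t (mem_ball_self hr))
  have key : ∀ w ∈ ball t (ρ / 16), 3 / 4 * H4.sq (g w) ≤ ‖ip (g w) p‖ ^ 2 := fun w hw => by
    have h1 := H84.d2_smul one_ne_zero a0 (g w) (g t)
    have h2 := (hd w hw).2.trans m1
    have h3 := H84.sq_pos' (hg.2 w (sub' hw))
    rw [one_smul, ← hp] at h1
    rw [← h1, d2, p1, mul_one, sub_le_comm, le_div_iff₀ h3] at h2
    linarith
  have ne : ∀ w ∈ ball t (ρ / 16), ip (g w) p ≠ 0 := fun w hw h0 => by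
    have h1 := key w hw
    have h3 := H84.sq_pos' (hg.2 w (sub' hw))
    rw [h0, norm_zero] at h1
    linarith
  refine ⟨fun w => (ip (g w) p)⁻¹ • g w,
    ((H84.ip_hol (hg.1.mono sub') p).inv ne).smul (hg.1.mono sub'), fun w hw => ?_⟩
  have h1 := key w hw
  have h2 := H84.cs (g w) p
  have h3 : 0 < ‖ip (g w) p‖ ^ 2 := pow_pos (norm_pos_iff.2 (ne w hw)) 2
  have h4 : H4.sq ((ip (g w) p)⁻¹ • g w) = H4.sq (g w) / ‖ip (g w) p‖ ^ 2 := by
    rw [H84.sq_smul, norm_inv, inv_pow, inv_mul_eq_div]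
  rw [p1, mul_one] at h2
  refine ⟨(H84.norm_le_sq _).trans ?_, ?_, ip (g w) p, ne w hw, ?_⟩
  · rw [Real.sqrt_le_iff, h4, div_le_iff₀ h3]
    exact ⟨by norm_num, by linarith⟩
  · rw [h4, le_div_iff₀ h3]
    linarith
  · rw [smul_inv_smul₀ (ne w hw)]

theorem pp_trans {x y z : V n} (h : Pp x y) (h' : Pp y z) : Pp x z := by
  obtain ⟨a, a0, rfl⟩ := h
  obtain ⟨b, b0, rfl⟩ := h'
  exact ⟨a * b, mul_ne_zero a0 b0, smul_smul a b z⟩

theorem sq_cont : Continuous (H4.sq : V n → ℝ) := by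
  unfold H4.sq
  fun_prop

/-- Proportionality passes to limits. -/
theorem pp_lim {l : Filter ℕ} [l.NeBot] {x y : ℕ → V n} {X Y : V n} (hx : Tendsto x l (𝓝 X))
    (hy : Tendsto y l (𝓝 Y)) (h : ∀ᶠ k in l, Pp (x k) (y k)) (hX : X ≠ 0) (hY : Y ≠ 0) :
    Pp X Y := by
  obtain ⟨j, hj⟩ := Function.ne_iff.1 hY
  have hj' : Y j ≠ 0 := hj
  have e : X = (X j / Y j) • Y := by
    ext i
    have := tendsto_nhds_unique_of_eventuallyEq
      ((tendsto_pi_nhds.1 hx i).mul (tendsto_pi_nhds.1 hy j))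
      ((tendsto_pi_nhds.1 hx j).mul (tendsto_pi_nhds.1 hy i)) (h.mono fun k hk => by
        obtain ⟨a, -, ha⟩ := hk
        simp only [ha, Pi.smul_apply, smul_eq_mul]
        ring)
    simp only [Pi.smul_apply, smul_eq_mul]
    field_simp
    exact this
  exact ⟨_, fun h0 => hX (by rw [e, h0, zero_smul]), e⟩

end Mon

open Mon

theorem mon : MonStmt := fun n u O F h => by
  let N : ℕ → ℂ → V n := fun k w => ((‖F k w‖⁻¹ : ℝ) : ℂ) • F k w
  have hN : ∀ k w, ‖N k w‖ = ‖F k w‖⁻¹ * ‖F k w‖ := fun k w => by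
    simp only [N, norm_smul, Complex.norm_real, norm_inv, norm_norm]
  have ex : ∀ w, ∃ y, Tendsto (fun k => N k w) u (𝓝 y) := fun w => by
    obtain ⟨y, -, hy⟩ := (isCompact_closedBall (0 : V n) 1).ultrafilter_le_nhds
      (u.map fun k => N k w) (by
        rw [Ultrafilter.coe_map, le_principal_iff, mem_map]
        refine Eventually.of_forall fun k => ?_
        show N k w ∈ closedBall 0 1
        rw [mem_closedBall_zero_iff, hN]
        exact inv_mul_le_one_of_le₀ le_rfl (norm_nonneg _))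
    exact ⟨y, hy⟩
  choose G hG using ex
  refine ⟨G, fun t ht => ?_⟩
  obtain ⟨r, A, r0, hk⟩ := h t ht
  obtain ⟨s, s0, s1, hs⟩ := Mon.nrm n r A r0
  have ex2 : ∀ k, ∃ Φ : ℂ → V n, (∃ g, Crv (ball t r) g ∧
      ∀ w ∈ ball t r, Pp (F k w) (g w) ∧ lam g w ≤ A) → DifferentiableOn ℂ Φ (ball t s) ∧
        ∀ w ∈ ball t s, ‖Φ w‖ ≤ 2 ∧ 1 ≤ H4.sq (Φ w) ∧ Pp (F k w) (Φ w) := fun k => by
    by_cases hc : ∃ g, Crv (ball t r) g ∧ ∀ w ∈ ball t r, Pp (F k w) (g w) ∧ lam g w ≤ A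
    · obtain ⟨g, g1, g2⟩ := hc
      obtain ⟨Φ, f1, f2⟩ := hs t g g1 fun w hw => (g2 w hw).2
      exact ⟨Φ, fun _ => ⟨f1, fun w hw => ⟨(f2 w hw).1, (f2 w hw).2.1,
        pp_trans (g2 w (ball_subset_ball s1 hw)).1 (f2 w hw).2.2⟩⟩⟩
    · exact ⟨0, fun h => absurd h hc⟩
  choose Φ hΦ using ex2
  have ev := hk.mono fun k => hΦ k
  have nz : ∀ y : V n, 1 ≤ H4.sq y → y ≠ 0 := fun y hy h0 => by
    simp [h0, H4.sq] at hy
    linarith
  obtain ⟨H, hH⟩ := H18.ulim u isOpen_ball (A := 2)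
    (ev.mono fun k hk => ⟨hk.1, fun w hw => (hk.2 w hw).1⟩)
  have sub : ball t (s / 2) ⊆ ball t s := ball_subset_ball (by linarith)
  have H0 : ∀ w ∈ ball t s, H w ≠ 0 := fun w hw => nz _ (ge_of_tendsto
    ((sq_cont.tendsto _).comp (hH.tendsto_at hw)) (ev.mono fun k hk => (hk.2 w hw).2.1))
  have F0 : ∀ w ∈ ball t s, ∀ᶠ k in u, F k w ≠ 0 := fun w hw => ev.mono fun k hk => by
    obtain ⟨a, a0, ha⟩ := (hk.2 w hw).2.2
    rw [ha]
    exact smul_ne_zero a0 (nz _ (hk.2 w hw).2.1)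
  refine ⟨s / 2, Φ, H, by positivity, ⟨(hH.differentiableOn (ev.mono fun k hk => hk.1)
    isOpen_ball).mono sub, fun w hw => H0 w (sub hw)⟩, fun w hw => ?_, ev.mono fun k hk =>
      ⟨⟨hk.1.mono sub, fun w hw => nz _ (hk.2 w (sub hw)).2.1⟩,
        fun w hw => (hk.2 w (sub hw)).2.2⟩, ?_⟩
  · refine pp_lim (hG w) (hH.tendsto_at (sub hw)) ?_ (fun h0 => ?_) (H0 w (sub hw))
    · filter_upwards [ev, F0 w (sub hw)] with k hk h0
      refine pp_trans ⟨_, ?_, rfl⟩ (hk.2 w (sub hw)).2.2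
      exact_mod_cast inv_ne_zero (norm_ne_zero_iff.2 h0)
    · have : (1 : ℝ) ≤ ‖G w‖ := ge_of_tendsto (hG w).norm ((F0 w (sub hw)).mono fun k hk => by
        rw [hN, inv_mul_cancel₀ (norm_ne_zero_iff.2 hk)])
      rw [h0, norm_zero] at this
      linarith
  · exact ((tendstoLocallyUniformlyOn_iff_forall_isCompact isOpen_ball).1 hH _
      (closedBall_subset_ball (by linarith)) (isCompact_closedBall t (s / 2))).mono
        ball_subset_closedBall

theorem lift : LiftStmt := fun n s c r R hR hs => by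
  rcases le_or_gt r 0 with r0 | r0
  · rw [ball_eq_empty.2 r0]
    exact ⟨s, ⟨differentiableOn_empty, fun _ h => h.elim⟩, fun _ h => h.elim⟩
  have r1 : (r : ℂ) ≠ 0 := by exact_mod_cast r0.ne'
  have nz : ∀ w ∈ ball c R, s w ≠ 0 := fun w hw => by
    obtain ⟨g, ρ, ρ0, g1, g2⟩ := hs w hw
    obtain ⟨a, a0, ha⟩ := g2 w (mem_ball_self ρ0)
    rw [ha]
    exact smul_ne_zero a0 (g1.2 w (mem_ball_self ρ0))
  have s0 := nz c (mem_ball_self (r0.trans hR))
  classical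
  let f : ℂ → PS n := fun z => if h : s (c + r * z) ≠ 0 then Projectivization.mk ℂ _ h
    else Projectivization.mk ℂ _ s0
  have mem : ∀ z ∈ ball (0 : ℂ) (R / r), c + r * z ∈ ball c R := fun z hz => by
    rw [mem_ball_zero_iff, lt_div_iff₀ r0] at hz
    rw [mem_ball, dist_eq_norm, add_sub_cancel_left, norm_mul, Complex.norm_real,
      Real.norm_of_nonneg r0.le]
    linarith
  have an : ∀ z, AnalyticAt ℂ (fun z : ℂ => c + r * z) z := fun z => by fun_prop
  have hf : Holo (ball 0 (R / r)) f := fun t ht => by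
    obtain ⟨g, ρ, ρ0, g1, g2⟩ := hs _ (mem t ht)
    refine ⟨fun z => g (c + r * z), AnalyticAt.comp (f := fun z : ℂ => c + r * z)
      (g1.1.analyticAt (ball_mem_nhds _ ρ0)) (an t), ?_⟩
    filter_upwards [(an t).continuousAt.preimage_mem_nhds (ball_mem_nhds _ ρ0)] with z hz
    obtain ⟨a, a0, ha⟩ := g2 _ hz
    have h0 : s (c + r * z) ≠ 0 := ha ▸ smul_ne_zero a0 (g1.2 _ hz)
    exact ⟨g1.2 _ hz, (dif_pos h0).trans
      ((Projectivization.mk_eq_mk_iff' _ _ _ _ _).2 ⟨a, ha.symm⟩)⟩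
  obtain ⟨F, F1, F2⟩ := H11.lift3 n f (R / r) ((one_lt_div r0).2 hR) hf
  have mem' : ∀ w ∈ ball c r, (w - c) / r ∈ ball (0 : ℂ) 1 := fun w hw => by
    rw [mem_ball_zero_iff, norm_div, Complex.norm_real, Real.norm_of_nonneg r0.le, div_lt_one r0]
    exact mem_ball_iff_norm.1 hw
  refine ⟨fun w => F ((w - c) / r), ⟨F1.1.comp (by fun_prop) mem', fun w hw => F1.2 _ (mem' w hw)⟩,
    fun w hw => ?_⟩
  obtain ⟨h0, he⟩ := F2 _ (mem' w hw)
  have e : c + r * ((w - c) / r) = w := by field_simp; ring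
  have h1 : s w ≠ 0 := nz w (ball_subset_ball hR.le hw)
  have h2 : s (c + r * ((w - c) / r)) ≠ 0 := by rwa [e]
  obtain ⟨a, ha⟩ := (Projectivization.mk_eq_mk_iff' _ _ _ _ _).1 ((dif_pos h2).symm.trans he)
  rw [e] at ha
  exact ⟨a, fun a0 => h1 (by rw [← ha, a0, zero_smul]), ha.symm⟩

theorem inv : InvStmt := fun l h t₀ c hc hd ht ρ => by
  have c0 : 0 < ‖c‖ := norm_pos_iff.2 hc
  set ε := 2 * ((|ρ| + ‖t₀‖ + 1) / ‖c‖) with hε
  have ε0 : 0 < ε := by positivity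
  refine ⟨ε + 1, ?_⟩
  have h1 := (ht.tendstoLocallyUniformlyOn (s := ball 0 (ε + 2))).deriv (hd _) isOpen_ball
  have h2 := (tendstoLocallyUniformlyOn_iff_forall_isCompact isOpen_ball).1 h1 _
    (closedBall_subset_ball (by linarith)) (isCompact_closedBall (0 : ℂ) (ε + 1))
  have h3 := (ht.tendstoLocallyUniformlyOn (s := univ)).tendsto_at (mem_univ 0)
  filter_upwards [hd (ε + 2), Metric.tendstoUniformlyOn_iff.1 h2 (‖c‖ / 2) (by positivity),
    Metric.tendsto_nhds.1 h3 1 one_pos] with k k1 k2 k3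
  have sub : ball (0 : ℂ) (ε + 1) ⊆ ball 0 (ε + 2) := ball_subset_ball (by linarith)
  have dv : ∀ z ∈ ball (0 : ℂ) (ε + 1), HasDerivAt (fun z => c⁻¹ * h k z) (c⁻¹ * deriv (h k) z) z :=
    fun z hz => ((k1.differentiableAt (isOpen_ball.mem_nhds (sub hz))).hasDerivAt).const_mul _
  have bd : ∀ z ∈ ball (0 : ℂ) (ε + 1), ‖c⁻¹ * deriv (h k) z - 1‖ ≤ 1 / 2 := fun z hz => by
    have a := k2 z (ball_subset_closedBall hz)
    have b : deriv (fun w => t₀ + c * w) z = c := by simp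
    rw [b, dist_comm, dist_eq_norm] at a
    have e : c⁻¹ * deriv (h k) z - 1 = (deriv (h k) z - c) / c := by field_simp
    rw [e, norm_div, div_le_iff₀ c0]
    have a' : ‖deriv (h k) z - c‖ < ‖c‖ / 2 := a
    linarith
  have ap : ApproximatesLinearOn (fun z => c⁻¹ * h k z)
      (ContinuousLinearEquiv.refl ℂ ℂ : ℂ →L[ℂ] ℂ) (ball 0 (ε + 1)) (1 / 2) := fun x hx y hy => by
    have := (convex_ball (0 : ℂ) (ε + 1)).norm_image_sub_le_of_norm_hasDerivWithin_le
      (fun z hz => ((dv z hz).sub (hasDerivAt_id z)).hasDerivWithinAt) bd hy hx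
    simp only [Pi.sub_apply, id] at this
    rw [show c⁻¹ * h k x - x - (c⁻¹ * h k y - y) = c⁻¹ * h k x - c⁻¹ * h k y - (x - y) by ring]
      at this
    simpa using this
  have hN : ‖((ContinuousLinearEquiv.refl ℂ ℂ).symm : ℂ →L[ℂ] ℂ)‖₊ = 1 := by simp
  have hc' : Subsingleton ℂ ∨
      (1 / 2 : NNReal) < ‖((ContinuousLinearEquiv.refl ℂ ℂ).symm : ℂ →L[ℂ] ℂ)‖₊⁻¹ := by
    rw [hN]
    exact Or.inr (by norm_num)
  have tg := ap.closedBall_subset_target hc' isOpen_ball ε0.le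
    (closedBall_subset_ball (x := (0 : ℂ)) (by linarith))
  set e := ap.toOpenPartialHomeomorph _ _ hc' isOpen_ball with he
  have mt : ∀ t ∈ ball (0 : ℂ) ρ, c⁻¹ * t ∈ e.target := fun t ht => tg (by
    rw [mem_ball_zero_iff] at ht
    rw [mul_zero, add_zero] at k3
    have a := dist_triangle4 t 0 t₀ (h k 0)
    have b := le_abs_self ρ
    rw [dist_zero_right, dist_zero_left, dist_comm t₀] at a
    rw [mem_closedBall, hN, dist_eq_norm, ← mul_sub, norm_mul, norm_inv, ← dist_eq_norm, hε]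
    have : ‖c‖⁻¹ * dist t (h k 0) ≤ (|ρ| + ‖t₀‖ + 1) / ‖c‖ := by
      rw [inv_mul_eq_div]
      gcongr
      linarith
    push_cast
    linarith)
  refine ⟨fun t => e.symm (c⁻¹ * t), fun t ht => ?_, fun t ht => ⟨e.map_target (mt t ht), ?_⟩,
    fun _ => e.left_inv (x := 0) (mem_ball_self (by linarith))⟩
  · have m := e.map_target (mt t ht)
    have ne : c⁻¹ * deriv (h k) (e.symm (c⁻¹ * t)) ≠ 0 := fun h0 => by
      have := bd _ m
      rw [h0] at this
      norm_num at this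
    exact (((e.hasDerivAt_symm (mt t ht) ne (dv _ m)).differentiableAt).comp t
      (by fun_prop)).differentiableWithinAt
  · exact mul_left_cancel₀ (inv_ne_zero hc) (e.right_inv (mt t ht))

end Pool.Agent.MP_c69980_ag.E1
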