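import Pool.Agent.MP_c69980_ag.E1.BaseC

/-!
No bubbles, compactness of the space of entire sections, uniform charts.
-/

set_option autoImplicit false

noncomputable section

namespace Pool.Agent.MP_c69980_ag.E1

open MvPolynomial Metric Filter Topology Set
open H60 H4

namespace NBX

variable {n : ℕ}

/-- A free ultrafilter. -/
def uf : Ultrafilter ℕ := Ultrafilter.of atTop

lemma uf_le : (uf : Filter ℕ) ≤ atTop := Ultrafilter.of_le _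

lemma tend {α : Type} [PseudoMetricSpace α] {x : ℕ → α} {c : α}
    (h : ∀ k, dist (x k) c < 1 / ((k : ℝ) + 1)) : Tendsto x atTop (𝓝 c) :=
  tendsto_iff_dist_tendsto_zero.2 (squeeze_zero (fun _ => dist_nonneg) (fun k => (h k).le)
    tendsto_one_div_add_atTop_nhds_zero_nat)

lemma far {D : Fib n} {c t z : ℂ} {r₀ η : ℝ} (h0 : ∀ b ∈ Bad D.L D.S, ‖b - c‖ ≤ r₀ → b = c)
    (h1 : 3 * η ≤ ‖t - c‖) (h2 : 3 * η ≤ r₀ - ‖t - c‖) (hz : dist z t < 2 * η) : Far D η z := by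
  intro b hb
  rw [dist_eq_norm] at hz
  by_cases h : ‖b - c‖ ≤ r₀
  · rw [h0 b hb h]
    have := norm_sub_le_norm_sub_add_norm_sub t z c
    rw [norm_sub_rev t z] at this
    linarith
  · have a := norm_sub_le_norm_sub_add_norm_sub b z c
    have a' := norm_sub_le_norm_sub_add_norm_sub z t c
    rw [norm_sub_rev b z] at a
    push Not at h
    linarith

lemma shift {D : Fib n} {O O' : Set ℂ} {s : ℂ → V n} (H : Nm D.X O s id) {l : ℂ}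
    (hl : l ∈ D.L.lattice) (hm : ∀ t ∈ O', t + l ∈ O) : Nm D.X O' (fun t => s (t + l)) id :=
  ⟨⟨H.1.1.comp (differentiableOn_id.add_const l) hm, fun z hz => H.1.2 _ (hm z hz)⟩,
    differentiableOn_id, fun t ht => by
      simpa using D.cov.per _ (H.2.2 _ (hm t ht)) (-l) (neg_mem hl)⟩

lemma lim (h1 : CptStmt) (D : Fib n) {x : ℕ → Pt n} {x₀ : Pt n} (hx : Tendsto x atTop (𝓝 x₀))
    (h0 : x₀.2 ≠ 0) {s : ℕ → ℂ → V n} (hs : ∀ k, Sc D.X univ (s k))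
    (hp : ∀ k, Pp (x k).2 (s k (x k).1)) :
    ∃ g, Sc D.X univ g ∧ Cv uf univ s g ∧ Pp x₀.2 (g x₀.1) := by
  obtain ⟨g, g1, g2⟩ := h1 n D uf s fun R => .of_forall fun k => (hs k).mono (subset_univ _)
  have hx' := hx.mono_left uf_le
  obtain ⟨y, y1, y2⟩ := g2.pt (mem_univ x₀.1) hx'.fst_nhds
  exact ⟨g, g1, g2, pp_lim hx'.snd_nhds y1 h0 (g1.1.ne (mem_univ _))
    (y2.mono fun k hk => (hp k).trans hk)⟩

/-- Chart data. -/
abbrev T (n : ℕ) : Type :=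
  Fin n × Fin n × Set (ℂ × ℂ) × (ℂ × ℂ → V n) × (ℂ × ℂ) × ℝ

def Ok (D : Fib n) (τ : T n) : Prop :=
  Chart D.X τ.1 τ.2.1 τ.2.2.1 τ.2.2.2.1 ∧ closedBall τ.2.2.2.2.1 τ.2.2.2.2.2 ⊆ τ.2.2.1 ∧
    0 < τ.2.2.2.2.2

def In (τ : T n) (t : ℂ) (y : V n) : Prop :=
  (t, y τ.1 / y τ.2.1) ∈ ball τ.2.2.2.2.1 (τ.2.2.2.2.2 / 2) ∧
    Pp y (τ.2.2.2.1 (t, y τ.1 / y τ.2.1))

def K0 (D : Fib n) (R : ℝ) : Set (Pt n) :=
  {x | x.1 ∈ closedBall 0 R ∧ x.2 ∈ sphere 0 1 ∧ ∃ s, Sc D.X univ s ∧ Pp x.2 (s x.1)}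

def Cov' (D : Fib n) (S : Set (Pt n)) : Prop :=
  ∃ (F : Set (T n)) (ρ : ℝ), F.Finite ∧ 0 < ρ ∧ (∀ τ ∈ F, Ok D τ) ∧
    ∀ x ∈ S, ∀ s, Sc D.X univ s → Pp x.2 (s x.1) → ∃ τ ∈ F, ∀ t ∈ ball x.1 ρ, In τ t (s t)

lemma sub (D : Fib n) (R : ℝ) : closure (K0 D R) ⊆ closedBall 0 R ×ˢ sphere 0 1 :=
  closure_minimal (fun _ h => ⟨h.1, h.2.1⟩) (isClosed_closedBall.prod isClosed_sphere)

lemma loc (h1 : CptStmt) (D : Fib n) (R : ℝ) {x₀ : Pt n} (hx : x₀ ∈ closure (K0 D R)) :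
    ∃ (τ : T n) (ρ : ℝ), 0 < ρ ∧ Ok D τ ∧ ∀ x ∈ ball x₀ ρ, ∀ s, Sc D.X univ s →
      Pp x.2 (s x.1) → ∀ t ∈ ball x.1 ρ, In τ t (s t) := by
  have h0 : x₀.2 ≠ 0 := ne_zero_of_mem_sphere one_ne_zero ⟨_, (sub D R hx).2⟩
  obtain ⟨x, x1, x2⟩ := mem_closure_iff_seq_limit.1 hx
  choose s s1 s2 using fun k => (x1 k).2.2
  obtain ⟨g, g1, -, g3⟩ := lim h1 D x2 h0 s1 s2
  obtain ⟨a, j, U, Y, hc, z, z1, z2⟩ :=
    Rx.pp (g1.rx D.cov.cn D.nonreg isOpen_univ (mem_univ x₀.1)) g3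
  obtain ⟨r, r0, hr⟩ := nhds_basis_closedBall.mem_iff.1 (hc.nhds z1)
  refine ⟨(a, j, U, Y, (x₀.1, z), r), ?_⟩
  by_contra H
  have H' : ∀ k : ℕ, ∃ x ∈ ball x₀ (1 / ((k : ℝ) + 1)), ∃ s, Sc D.X univ s ∧ Pp x.2 (s x.1) ∧
      ∃ t ∈ ball x.1 (1 / ((k : ℝ) + 1)), ¬In (a, j, U, Y, (x₀.1, z), r) t (s t) := by
    intro k
    by_contra q
    push Not at q
    exact H ⟨_, Nat.one_div_pos_of_nat, ⟨hc, hr, r0⟩, q⟩
  clear x x1 x2 s s1 s2 g g1 g3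
  choose x x1 s s1 s2 t t1 t2 using H'
  have x2 := tend x1
  obtain ⟨g, -, g2, g3⟩ := lim h1 D x2 h0 s1 s2
  have t3 : Tendsto t atTop (𝓝 x₀.1) :=
    x2.fst_nhds.congr_dist (squeeze_zero (fun _ => dist_nonneg)
      (fun k => (mem_ball'.1 (t1 k)).le) tendsto_one_div_add_atTop_nhds_zero_nat)
  have t4 := t3.mono_left uf_le
  obtain ⟨w, w1, w2⟩ := g2.pt (mem_univ x₀.1) t4
  have e : Pp (g x₀.1) (Y (x₀.1, z)) := g3.symm.trans z2
  have c := t4.prodMk_nhds w1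
  obtain ⟨k, k1, k2, k3⟩ := (w2.and ((c.eventually (hc.ev D.cov.cn z1 e)).and
    (((hc.tend z1 e).comp c).eventually (ball_mem_nhds _ (half_pos r0))))).exists
  obtain ⟨b1, -, b3⟩ := k2 (D.cov.cn.pp ((s1 k).2 _ (mem_univ _)) k1.symm)
  refine t2 k ⟨?_, ?_⟩
  · change (t k, s k (t k) a / s k (t k) j) ∈ ball (x₀.1, z) (r / 2)
    rw [k1.div]
    exact k3
  · change Pp (s k (t k)) (Y (t k, s k (t k) a / s k (t k) j))
    rw [k1.div]
    exact k1.trans ⟨_, b1, b3⟩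

lemma cover (h1 : CptStmt) (D : Fib n) (R : ℝ) : Cov' D (closure (K0 D R)) := by
  have hK : IsCompact (closure (K0 D R)) :=
    ((isCompact_closedBall 0 R).prod (isCompact_sphere 0 1)).of_isClosed_subset isClosed_closure
      (sub D R)
  refine hK.induction_on (p := Cov' D) ⟨∅, 1, finite_empty, one_pos, by simp, by simp⟩ ?_ ?_ ?_
  · rintro S S' h ⟨F, ρ, a, b, c, d⟩
    exact ⟨F, ρ, a, b, c, fun x hx => d x (h hx)⟩
  · rintro S S' ⟨F, ρ, a, b, c, d⟩ ⟨F', ρ', a', b', c', d'⟩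
    refine ⟨F ∪ F', min ρ ρ', a.union a', lt_min b b', fun τ h => h.elim (c τ) (c' τ), ?_⟩
    rintro x (hx | hx) s s1 s2
    · obtain ⟨τ, p, q⟩ := d x hx s s1 s2
      exact ⟨τ, .inl p, fun t ht => q t (ball_subset_ball (min_le_left _ _) ht)⟩
    · obtain ⟨τ, p, q⟩ := d' x hx s s1 s2
      exact ⟨τ, .inr p, fun t ht => q t (ball_subset_ball (min_le_right _ _) ht)⟩
  · intro x hx
    obtain ⟨τ, ρ, a, b, c⟩ := loc h1 D R hx
    exact ⟨ball x ρ, nhdsWithin_le_nhds (ball_mem_nhds x a), {τ}, ρ, finite_singleton τ, a,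
      fun _ h => h ▸ b, fun y hy s s1 s2 => ⟨τ, rfl, c y hy s s1 s2⟩⟩

end NBX

open NBX

theorem nb (h1 : HypStmt) (h2 : MonStmt) (h3 : LatStmt) (h4 : AlphaStmt) (h5 : RatStmt)
    (h6 : ExtStmt) (h7 : BetaStmt) : NBStmt := by
  intro n D c r hr
  by_contra H
  have H' : ∀ k : ℕ, ∃ s, Nm D.X (ball c r) s id ∧
      ∃ t ∈ ball c (1 / ((k : ℝ) + 1)), (k : ℝ) < lam s t := by
    intro k
    by_contra q
    push Not at q
    exact H ⟨_, k, Nat.one_div_pos_of_nat, q⟩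
  choose s s1 t t1 t2 using H'
  obtain ⟨r₀, r0, hb⟩ := ((h3 D.L).2.2 D.S).2.2 c
  have r1 : 0 < min r r₀ := lt_min hr r0
  have s2 : ∀ k, Nm D.X (ball c (min r r₀)) (s k) id :=
    fun k => (s1 k).mono (ball_subset_ball (min_le_left _ _))
  obtain ⟨G, hG⟩ := h2 n uf (ball c (min r r₀) \ {c}) s fun w hw => by
    have a : 0 < ‖w - c‖ := norm_pos_iff.2 (sub_ne_zero.2 hw.2)
    have b : ‖w - c‖ < min r r₀ := mem_ball_iff_norm.1 hw.1
    obtain ⟨η, e0, e1, e2⟩ : ∃ η : ℝ, 0 < η ∧ 3 * η ≤ ‖w - c‖ ∧ 3 * η ≤ min r r₀ - ‖w - c‖ :=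
      ⟨min ‖w - c‖ (min r r₀ - ‖w - c‖) / 3, div_pos (lt_min a (by linarith)) (by norm_num),
        by linarith [min_le_left ‖w - c‖ (min r r₀ - ‖w - c‖)],
        by linarith [min_le_right ‖w - c‖ (min r r₀ - ‖w - c‖)]⟩
    obtain ⟨A, -, hA⟩ := h1 n D η e0
    have m : ball w (2 * η) ⊆ ball c (min r r₀) :=
      ball_subset_ball' (by rw [dist_eq_norm]; linarith)
    refine ⟨η, A / η ^ 2, e0, .of_forall fun k => ⟨s k,
      crv_mono (s2 k).1 ((ball_subset_ball (by linarith)).trans m), fun v hv => ⟨.refl _, ?_⟩⟩⟩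
    have m' : ball v η ⊆ ball w (2 * η) := ball_subset_ball' (by linarith [mem_ball.1 hv])
    rw [le_div_iff₀ (by positivity)]
    exact hA (s k) id v η e0 ((s2 k).mono (m'.trans m)) fun z hz =>
      far hb e1 (e2.trans (by linarith [min_le_right r r₀])) (m' hz)
  have hS : Sc D.X (ball c (min r r₀) \ {c}) G := ⟨hG.lh, fun w hw =>
    hG.mem D.cov.cn hw tendsto_const_nhds (.of_forall fun k => (s2 k).2.2 w hw.1)⟩
  obtain ⟨𝒮, c1, c2, c3⟩ := D.cls c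
  obtain ⟨A, a1, a2⟩ := (Ultrafilter.eventually_exists_mem_iff (f := uf)
    (P := fun A k => s k c ∈ A) c1).1 (.of_forall fun k =>
      c3 _ ((s2 k).rx D.cov.cn D.nonreg isOpen_ball (mem_ball_self r1)))
  obtain ⟨k₀, k0⟩ := a2.exists
  have hq : Sq D.X uf c (min r r₀) s G := ⟨r1, fun x hx q => D.bad x hx.1 fun b =>
    q (hb _ b (hx.2.trans (min_le_right _ _))), s2, hS, hG, s k₀ c,
    a2.mono fun k hk => ⟨A, (c2 A a1).1, (c2 A a1).2, k0, hk⟩⟩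
  have hE : Ext c G := (h4 n D uf c _ s G hq).elim id fun b =>
    h6 n D c _ G r1 hS (h5 n D uf c _ s G hq b)
  obtain ⟨ρ, B, ρ0, hB⟩ := h7 n D uf c _ s G hq hE
  obtain ⟨k, k1, k2, k3⟩ := (hB.and ((((tend t1).mono_left uf_le).eventually
    (ball_mem_nhds c ρ0)).and ((tendsto_natCast_atTop_atTop.mono_left uf_le).eventually
      (eventually_ge_atTop B)))).exists
  linarith [k1 _ k2, t2 k]

theorem unif (h1 : NBStmt) (h2 : LatStmt) : UnifStmt := by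
  intro n D r hr
  obtain ⟨R, -, hR⟩ := (h2 D.L).1
  obtain ⟨A, hA⟩ := (isCompact_closedBall (0 : ℂ) R).induction_on
    (p := fun S => ∃ A : ℝ, ∀ c ∈ S, ∀ s, Nm D.X (ball c r) s id → lam s c ≤ A) ⟨0, by simp⟩
    (fun S S' h ⟨A, a⟩ => ⟨A, fun c hc => a c (h hc)⟩)
    (fun S S' ⟨A, a⟩ ⟨B, b⟩ => ⟨max A B, fun c hc s hs => hc.elim
      (fun q => (a c q s hs).trans (le_max_left _ _))
      fun q => (b c q s hs).trans (le_max_right _ _)⟩)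
    fun c _ => by
      obtain ⟨ρ, A, ρ0, a⟩ := h1 n D c (r / 2) (half_pos hr)
      refine ⟨ball c (min ρ (r / 2)),
        nhdsWithin_le_nhds (ball_mem_nhds c (lt_min ρ0 (half_pos hr))), A, fun w hw s hs =>
        a s (hs.mono (ball_subset_ball' ?_)) w (ball_subset_ball (min_le_left _ _) hw)⟩
      linarith [mem_ball'.1 hw, min_le_right ρ (r / 2)]
  refine ⟨A, fun s c hs => ?_⟩
  obtain ⟨l, l1, l2⟩ := hR c
  have := hA (c - l) (mem_closedBall_zero_iff.2 l2) _ (shift hs l1 fun t ht => by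
    rw [mem_ball_iff_norm] at ht ⊢
    rwa [show t + l - c = t - (c - l) by ring])
  rwa [lam_shift, sub_add_cancel] at this

theorem cpt (h1 : UnifStmt) (h2 : MonStmt) (h3 : LiftStmt) : CptStmt := by
  intro n D u s hs
  obtain ⟨A, hA⟩ := h1 n D 1 one_pos
  obtain ⟨G, hG⟩ := h2 n u univ s fun t _ => ⟨1, A, one_pos, (hs (‖t‖ + 3)).mono fun k hk => by
    have a : Sc D.X (ball t 3) (s k) :=
      hk.mono (ball_subset_ball' (by rw [dist_zero_right]; linarith))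
    obtain ⟨g, g1, g2⟩ := h3 n (s k) t 2 3 (by norm_num) a.1
    have b := (a.mono (ball_subset_ball (by norm_num))).nm D.cov.cn g1 g2
    have m : ball t 1 ⊆ ball t 2 := ball_subset_ball (by norm_num)
    exact ⟨g, crv_mono g1 m, fun w hw => ⟨g2 w (m hw),
      hA g w (b.mono (ball_subset_ball' (by linarith [mem_ball.1 hw])))⟩⟩⟩
  exact ⟨G, ⟨hG.lh, fun t ht => hG.mem D.cov.cn ht tendsto_const_nhds
    ((hs (‖t‖ + 1)).mono fun k hk => hk.2 t (mem_ball_zero_iff.2 (lt_add_one _)))⟩, hG⟩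

theorem uch (h1 : CptStmt) (h2 : NearStmt) (h3 : LatStmt) : UChStmt := by
  intro n D
  obtain ⟨R, -, hR⟩ := (h3 D.L).1
  obtain ⟨F, ρ, f1, ρ0, f2, f3⟩ := cover h1 D R
  obtain ⟨J, τ, -, rfl⟩ := f1.fin_param
  have ok : ∀ i, Ok D (τ i) := fun i => f2 _ ⟨i, rfl⟩
  refine ⟨J, fun i => (τ i).1, fun i => (τ i).2.1, fun i => (τ i).2.2.1, fun i => (τ i).2.2.2.1,
    fun i => (τ i).2.2.2.2.1, fun i => (τ i).2.2.2.2.2, ρ, ρ0,
    fun i => ⟨(ok i).1, (ok i).2.1⟩, fun ε hε => ?_⟩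
  choose η η0 hη using fun i => h2 n D.X _ _ _ (closedBall (τ i).2.2.2.2.1 ((τ i).2.2.2.2.2 / 2))
    _ (min ε ((τ i).2.2.2.2.2 / 2)) D.cov.cn (ok i).1 (isCompact_closedBall _ _)
    ((closedBall_subset_closedBall (half_le_self (ok i).2.2.le)).trans (ok i).2.1)
    (lt_min hε (half_pos (ok i).2.2))
  obtain ⟨δ, δ1, δ0⟩ := ((eventually_all.2 fun i => nhdsWithin_le_nhds (Iic_mem_nhds (η0 i)) :
    ∀ᶠ δ in 𝓝[>] (0 : ℝ), ∀ i, δ ≤ η i).and self_mem_nhdsWithin).exists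
  refine ⟨δ, δ0, fun s hs c => ?_⟩
  obtain ⟨l, l1, l2⟩ := hR c
  have s1 : Sc D.X univ fun t => s (t + l) := hs.shift D.cov l1 fun _ _ => mem_univ _
  have s0 : ‖s c‖ ≠ 0 := norm_ne_zero_iff.2 (hs.1.ne (mem_univ c))
  have s2 : Pp (((‖s c‖ : ℂ))⁻¹ • s c) (s (c - l + l)) := by
    rw [sub_add_cancel]
    exact .smul (inv_ne_zero (by exact_mod_cast s0)) _
  obtain ⟨_, ⟨i, rfl⟩, hi⟩ := f3 (c - l, ((‖s c‖ : ℂ))⁻¹ • s c) (subset_closure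
    ⟨mem_closedBall_zero_iff.2 l2, by simp [norm_smul, s0], _, s1, s2⟩) _ s1 s2
  refine ⟨i, l, l1, fun t ht y hy hd => ?_⟩
  obtain ⟨q1, q2⟩ := hi (t - l) (by
    rw [mem_ball_iff_norm] at ht ⊢
    rwa [sub_sub_sub_cancel_right])
  simp only [sub_add_cancel] at q1 q2
  obtain ⟨b1, b2, -, b4⟩ := hη i _ (ball_subset_closedBall q1) (t - l, y)
    (by simpa [sub_eq_add_neg] using D.cov.per _ hy (-l) (neg_mem l1))
    (by simpa using (η0 i).le) (by rw [← (Pp.refl y).d2 q2]; exact hd.trans (δ1 i))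
  refine ⟨?_, ⟨_, b1, b4⟩, b2.trans (min_le_left _ _)⟩
  have b5 := dist_triangle (t - l, y (τ i).1 / y (τ i).2.1) (t - l, s t (τ i).1 / s t (τ i).2.1)
    (τ i).2.2.2.2.1
  rw [dist_prod_same_left, dist_eq_norm (y (τ i).1 / y (τ i).2.1)] at b5
  exact mem_closedBall.2 (b5.trans ((add_le_add (b2.trans (min_le_right _ _))
    (mem_ball.1 q1).le).trans_eq (add_halves _)))

end Pool.Agent.MP_c69980_ag.E1
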