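import Pool.Agent.MP_c69980_ag.E1.Base

/-!
Surfaces fibred over an elliptic curve: no charged sequence of discs.
-/

set_option autoImplicit false

noncomputable section

namespace Pool.Agent.MP_c69980_ag.E1

open MvPolynomial Metric Filter Topology MeasureTheory Set
open scoped ENNReal
open H60 H4

namespace NDX

variable {n : ℕ}

lemma mu_mono (ν : ℂ → ℝ) {S S' : Set ℂ} (h : S ⊆ S') : mu ν S ≤ mu ν S' := lintegral_mono_set h

lemma osc {h : ℂ → ℂ} {c : ℂ} {r y : ℝ} (H : DifferentiableOn ℂ h (ball c r))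
    (hy : ∀ z ∈ ball c r, ‖deriv h z‖ ≤ y) : ∀ z ∈ ball c r, ‖h z - h c‖ ≤ y * r := fun z hz => by
  have c1 : c ∈ ball c r := mem_ball_self (pos_of_mem_ball hz)
  exact ((convex_ball c r).norm_image_sub_le_of_norm_deriv_le
    (fun w hw => H.differentiableAt (isOpen_ball.mem_nhds hw)) hy c1 hz).trans
    (mul_le_mul_of_nonneg_left (mem_ball_iff_norm.1 hz).le ((norm_nonneg _).trans (hy c c1)))

lemma far_near {D : Fib n} {η : ℝ} {t t' : ℂ} (h : Far D η t) (h' : ‖t' - t‖ ≤ η / 2) :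
    Far D (η / 2) t' := fun b hb => by
  have h1 := h b hb
  have h2 := norm_sub_le (t' - b) (t' - t)
  rw [show t' - b - (t' - t) = t - b by ring] at h2
  linarith

lemma mu_fin {F : ℂ → V n} {R : ℝ} (h : Crv (ball 0 R) F) (hR : 1 < R) {S : Set ℂ}
    (hS : S ⊆ ball 0 1) : mu (lam F) S ≠ ⊤ := by
  obtain ⟨M, hM⟩ := (isCompact_closedBall (0 : ℂ) 1).exists_bound_of_continuousOn
    ((R1.lapQ n _ F isOpen_ball h).2.1.1.mono (closedBall_subset_ball hR))
  refine ne_top_of_le_ne_top ?_ ((mu_mono _ hS).trans (setLIntegral_mono' measurableSet_ball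
    (g := fun _ => ENNReal.ofReal M) fun z hz =>
      ENNReal.ofReal_le_ofReal ((le_abs_self _).trans (hM z (ball_subset_closedBall hz)))))
  rw [setLIntegral_const]
  exact ENNReal.mul_ne_top ENNReal.ofReal_ne_top measure_ball_lt_top.ne

lemma pp_le {A : PR n} {e : ℕ} {c : ℝ} (hA : A.IsHomogeneous e) {y w : V n} (h : Pp y w)
    (H : c * ‖w‖ ^ e ≤ ‖eval w A‖) : c * ‖y‖ ^ e ≤ ‖eval y A‖ := by
  obtain ⟨a, -, rfl⟩ := h
  rw [eval_smul_hom hA, norm_smul, norm_mul, norm_pow, mul_pow, mul_left_comm]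
  exact mul_le_mul_of_nonneg_left H (by positivity)

lemma far (h3 : LatStmt) (D : Fib n) {A : PR n} {e : ℕ} {c : ℝ} (hA : A.IsHomogeneous e)
    (hc : 0 < c) (H : ∀ x ∈ D.X, x.1 ∈ Bad D.L D.S → eval x.2 A = 0) :
    ∃ η : ℝ, 0 < η ∧ ∀ t y, (t, y) ∈ D.X → c * ‖y‖ ^ e ≤ ‖eval y A‖ → Far D η t := by
  obtain ⟨⟨R₀, -, hR⟩, -, h4⟩ := h3 D.L
  obtain ⟨b1, -, b3⟩ := h4 D.S
  have cB : IsClosed (Bad D.L D.S) := isClosed_of_closure_subset fun t ht => by
    obtain ⟨r, r0, hr⟩ := b3 t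
    obtain ⟨b, hb, hd⟩ := Metric.mem_closure_iff.1 ht r r0
    rw [dist_comm, dist_eq_norm] at hd
    exact hr b hb hd.le ▸ hb
  have cA : Continuous fun x : Pt n => ‖eval x.2 A‖ :=
    ((MvPolynomial.continuous_eval A).comp continuous_snd).norm
  have c1 : IsCompact ((closedBall (0 : ℂ) R₀ ×ˢ sphere (0 : V n) 1) ∩
      {x : Pt n | c ≤ ‖eval x.2 A‖}) :=
    ((isCompact_closedBall _ _).prod (isCompact_sphere _ _)).inter_right
      (isClosed_le continuous_const cA)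
  have c2 : IsCompact (((closedBall (0 : ℂ) R₀ ×ˢ sphere (0 : V n) 1) ∩
      {x : Pt n | c ≤ ‖eval x.2 A‖}) ∩ D.X) :=
    c1.of_isClosed_subset (isClosed_of_closure_subset fun x hx => by
      have a1 := closure_minimal inter_subset_left c1.isClosed hx
      refine ⟨a1, D.cov.cn.closed x (closure_mono inter_subset_right hx) fun h0 => ?_⟩
      have a2 := mem_sphere_zero_iff_norm.1 a1.1.2
      rw [h0, norm_zero] at a2
      exact zero_ne_one a2) inter_subset_left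
  obtain ⟨η, η0, hη⟩ := (c2.image continuous_fst).exists_thickening_subset_open cB.isOpen_compl (by
    rintro _ ⟨x, hx, rfl⟩ hb
    have a1 : c ≤ ‖eval x.2 A‖ := hx.1.2
    rw [H x hx.2 hb, norm_zero] at a1
    linarith)
  refine ⟨η, η0, fun t y hx hy b hb => le_of_not_gt fun q => ?_⟩
  obtain ⟨l, hl, hl'⟩ := hR t
  have y0 : ‖y‖ ≠ 0 := norm_ne_zero_iff.2 (D.cov.cn.nz _ hx)
  have y1 : ((‖y‖ : ℂ))⁻¹ ≠ 0 := inv_ne_zero (Complex.ofReal_ne_zero.2 y0)
  have y2 : ‖((‖y‖ : ℂ)⁻¹ • y : V n)‖ = 1 := by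
    rw [norm_smul, norm_inv, Complex.norm_real, norm_norm, inv_mul_cancel₀ y0]
  have y3 := pp_le hA (Pp.smul y1 y) hy
  rw [y2, one_pow, mul_one] at y3
  refine hη (mem_thickening_iff.2 ⟨t + -l, ⟨(t + -l, (‖y‖ : ℂ)⁻¹ • y),
    ⟨⟨⟨?_, mem_sphere_zero_iff_norm.2 y2⟩, y3⟩,
      D.cov.cn.scal _ (D.cov.per _ hx (-l) (neg_mem hl)) _ y1⟩, rfl⟩, ?_⟩)
    (b1 b hb (-l) (neg_mem hl))
  · rw [mem_closedBall_zero_iff, ← sub_eq_add_neg]
    exact hl'
  · rwa [dist_add_right, dist_comm, dist_eq_norm]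

end NDX

open NDX

theorem ndb (h1 : HdStmt) (h2 : HypStmt) : NDBStmt := by
  intro n D η Λ ε F h R S η0 ε0 H hS hj
  have pi0 := Real.pi_pos
  obtain ⟨T, T0, hT⟩ := h2 n D (η / 2) (half_pos η0)
  obtain ⟨C, C0, hC⟩ := h1 n D.L D.W D.X D.cov
  obtain ⟨r, r1, hr⟩ : ∃ r : ℝ, 1 ≤ r ∧ T * Real.pi < ε * r := ⟨T * Real.pi / ε + 1,
    le_add_of_nonneg_left (by positivity), by rw [mul_add, mul_div_cancel₀ _ ε0.ne']; linarith⟩
  obtain ⟨j, hx⟩ := pow_unbounded_of_one_lt (2 * r + C * |Λ| / (η / 2 / r) ^ 2)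
    (one_lt_two (α := ℝ))
  obtain ⟨k, k1, k2⟩ := ((hj j).and_eventually (H.1.eventually_ge_atTop (Real.exp (3 * j)))).exists
  have ex : ((2 : ℝ) ^ j) ^ 3 ≤ Real.exp (3 * j) := by
    rw [← pow_mul, show (3 * j : ℝ) = (j * 3 : ℕ) * 1 by push_cast; ring, Real.exp_nat_mul]
    exact pow_le_pow_left₀ (by norm_num) (by linarith [Real.add_one_le_exp (1 : ℝ)]) _
  generalize (2 : ℝ) ^ j = x at hx k1 ex
  generalize Real.exp (3 * j) = Y at k1 k2 ex
  have q0 : 0 < η / 2 / r := by positivity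
  have x1 : 2 * r ≤ x := le_trans (le_add_of_nonneg_right (by positivity)) hx.le
  have x2 : C * |Λ| ≤ x * (η / 2 / r) ^ 2 :=
    (div_le_iff₀ (by positivity)).1 (le_trans (le_add_of_nonneg_left (by positivity)) hx.le)
  have x3 : 2 ≤ x := by linarith
  have x4 : x ≤ Y - 1 := by
    nlinarith [mul_nonneg (sub_nonneg.2 x3) (sq_nonneg x), sq_nonneg (x - 1)]
  have ρ0 : 0 < Y - 1 := by linarith
  obtain ⟨N, S1, -, hz⟩ := H.2 k
  have key : ∀ z ∈ S k, lam (F k) z ≤ T / r ^ 2 := fun z zS => by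
    have s1 : ball z (Y - 1) ⊆ ball 0 Y := ball_subset_ball' (by linarith [mem_ball.1 (S1 zS)])
    have N1 := N.mono (s1.trans (ball_subset_ball k2))
    have d := hC (F k) (h k) z (Y - 1) (|Λ| * x) ρ0 (by positivity) N1
      ((lintegral_mono_set s1).trans (k1.trans (ENNReal.ofReal_le_ofReal
        (mul_le_mul_of_nonneg_right (le_abs_self _) (by linarith)))))
    have s2 : ball z r ⊆ ball z ((Y - 1) / 2) := ball_subset_ball (by linarith)
    have N2 : Nm D.X (ball z r) (F k) (h k) := N1.mono (ball_subset_ball (by linarith))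
    rw [le_div_iff₀ (by positivity)]
    refine hT _ _ z r (by linarith) N2 fun w hw => far_near (hz z zS)
      ((osc (y := η / 2 / r) N2.2.1 (fun v hv => ?_) w hw).trans
        (le_of_eq (div_mul_cancel₀ _ (by positivity))))
    refine (pow_le_pow_iff_left₀ (norm_nonneg _) q0.le two_ne_zero).1
      (le_of_mul_le_mul_right ?_ (show 0 < x ^ 2 by positivity))
    have a1 := mul_le_mul_of_nonneg_left (pow_le_pow_left₀ (by linarith) x4 2)
      (sq_nonneg ‖deriv (h k) v‖)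
    have a2 := mul_le_mul_of_nonneg_right x2 (by linarith : 0 ≤ x)
    have a3 := d v (s2 hv)
    linarith
  have m1 : mu (lam (F k)) (S k) ≤ ENNReal.ofReal (T / r ^ 2 * Real.pi) := by
    refine (setLIntegral_mono' (hS k).1 fun z zS => ENNReal.ofReal_le_ofReal (key z zS)).trans ?_
    rw [setLIntegral_const, ENNReal.ofReal_mul (by positivity)]
    refine mul_le_mul_right ((measure_mono S1).trans (le_of_eq ?_)) _
    simp [Complex.volume_ball, ← NNReal.coe_real_pi]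
  have m2 := (ENNReal.ofReal_le_ofReal_iff (by positivity)).1 ((hS k).2.trans m1)
  rw [div_mul_eq_mul_div, le_div_iff₀ (by positivity)] at m2
  have := mul_le_mul_of_nonneg_left (le_self_pow₀ r1 two_ne_zero) ε0.le
  linarith

theorem nd (h1 : CurStmt) (h2 : NrmStmt) (h3 : LatStmt) (h4 : NDAStmt) (h5 : NDBStmt) :
    NDStmt := by
  intro n D
  obtain ⟨R₀, hR₀, hR⟩ := h1 n D
  obtain ⟨B, hB, hB'⟩ := D.badf
  refine ⟨R₀ * B, D.prime _ _ hR₀ hB, ?_⟩
  rintro A e c ε F R S hA ⟨T, hT⟩ hc hε hRt hk alt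
  obtain ⟨η, η0, hη⟩ := far h3 D hA hc fun x hx hb => by
    rw [hT, map_mul, map_mul, hB' x hx hb, mul_zero, zero_mul]
  choose h hN using fun k => h2 n D.L D.W D.X D.cov (F k) 0 (R k) (hk k).2.1
  have sb : ∀ k, S k ⊆ ball 0 (R k) := fun k => (hk k).2.2.2.1.trans (ball_subset_ball (hk k).1)
  have nsq : NSq D η F h R S := ⟨hRt, fun k => ⟨hN k, (hk k).2.2.2.1, (hk k).1, fun z hz =>
    hη _ _ ((hN k).2.2 z (sb k hz)) ((hk k).2.2.2.2.2 z hz)⟩⟩
  have caseA : ∀ Λ : ℝ, Tendsto (fun k => mu (lam (F k)) (S k)) atTop (𝓝 ⊤) →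
      (∀ᶠ k in atTop, mu (lam (F k)) (ball 0 64) ≤ ENNReal.ofReal Λ * mu (lam (F k)) (S k)) →
      False := fun Λ H1 H2 => by
    have fin : ∀ᶠ k in atTop, mu (lam (F k)) (S k) ≠ ⊤ :=
      (hRt.eventually_gt_atTop 1).mono fun k a => mu_fin (hN k).1 a (hk k).2.2.2.1
    obtain ⟨s, hs, t, ht⟩ := h4 n D η Λ F h R S (fun k => (mu (lam (F k)) (S k)).toReal) η0
      nsq (tendsto_atTop.2 fun M => by
        filter_upwards [fin, H1.eventually (lt_mem_nhds (ENNReal.ofReal_lt_top (r := M)))]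
          with k k1 k2
        exact (ENNReal.ofReal_le_iff_le_toReal k1).1 k2.le) (by
        filter_upwards [fin, H2] with k k1 k2
        rw [ENNReal.ofReal_mul' ENNReal.toReal_nonneg, ENNReal.ofReal_toReal k1]
        exact ⟨le_rfl, k2⟩)
    have cl : IsClosed {y : V n | c * ‖y‖ ^ e ≤ ‖eval y A‖} :=
      isClosed_le (by fun_prop) (MvPolynomial.continuous_eval A).norm
    have a1 : c * ‖s t‖ ^ e ≤ ‖eval (s t) A‖ := closure_minimal (by
      rintro y ⟨k, z, hz, hy⟩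
      exact pp_le hA hy ((hk k).2.2.2.2.2 z hz)) cl ht
    rw [hT, map_mul, map_mul, hR s hs t, zero_mul, zero_mul, norm_zero] at a1
    exact (mul_pos hc (pow_pos (norm_pos_iff.2 (hs.1.ne (mem_univ t))) e)).not_ge a1
  rcases alt with ⟨H1, Λ, H2⟩ | ⟨Λ, H⟩
  · exact caseA Λ H1 H2
  by_cases hb : ∃ M : ℕ, ∃ᶠ k in atTop, mu (lam (F k)) (S k) ≤ M
  · obtain ⟨M, hM⟩ := hb
    refine h5 n D η (Λ * M) ε F h R S η0 hε nsq
      (fun k => ⟨(hk k).2.2.1, (hk k).2.2.2.2.1⟩) fun j => ?_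
    refine (hM.and_eventually (H j)).mono ?_
    rintro k ⟨k1, k2⟩
    rw [mul_right_comm, ENNReal.ofReal_mul' (Nat.cast_nonneg M), ENNReal.ofReal_natCast]
    exact k2.trans (mul_le_mul_right k1 _)
  · refine caseA (Λ * 2 ^ 2) (ENNReal.tendsto_nhds_top fun M => ?_) ((H 2).mono fun k a =>
      (mu_mono _ (ball_subset_ball ?_)).trans a)
    · exact (not_frequently.1 fun a => hb ⟨M, a⟩).mono fun k a => not_le.1 a
    · rw [show (3 : ℝ) * (2 : ℕ) = (6 : ℕ) * 1 by norm_num, Real.exp_nat_mul]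
      have := pow_le_pow_left₀ zero_le_two (show 2 ≤ Real.exp 1 by
        linarith [Real.add_one_le_exp 1]) 6
      linarith

end Pool.Agent.MP_c69980_ag.E1
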