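import Pool.Agent.MP_c69980_ag.E1.Base
import Pool.Agent.MP_c69980_ag.G2.Sel

/-!
Row NDA: charged sequences of discs with unbounded mass give entire sections.
-/

set_option autoImplicit false

noncomputable section

namespace Pool.Agent.MP_c69980_ag.E1

open Metric Filter Topology Set
open H60 H4

theorem nda (h1 : HdStmt) (h2 : HypStmt) (h3 : InvStmt) (h4 : CptStmt) (h5 : LatStmt) :
    NDAStmt := by
  classical
  intro n D η Λ F h R S m hη ⟨hR, hN⟩ hm hk
  obtain ⟨C, C0, hC⟩ := h1 n D.L D.W D.X D.cov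
  obtain ⟨A₃, A0, hA⟩ := h2 n D (η / 2) (half_pos hη)
  let u : Ultrafilter ℕ := Ultrafilter.of atTop
  have hu : (u : Filter ℕ) ≤ atTop := Ultrafilter.of_le _
  have C1 : 0 ≤ C * |Λ| := by positivity
  obtain ⟨z, ρ, c, c0, hz, ρ0, hρ, hl⟩ := G2.sel (fun k => lam (F k)) h S m (η / 2)
    (4 * A₃ + C * |Λ| + 1) (half_pos hη) hm (by
      filter_upwards [hk, hR.eventually_ge_atTop 64, hm.eventually_ge_atTop 1] with k k1 k2 k3
      obtain ⟨n1, n2, -, n4⟩ := hN k
      refine ⟨n1.2.1.mono (ball_subset_ball (by linarith)), n2, k1.1, fun w hw => ?_,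
        fun z hz r r0 r1 H w hw => ?_⟩
      · have m0 : 0 ≤ m k := by linarith
        have e1 := hC (F k) (h k) 0 64 (|Λ| * m k) (by norm_num) (by positivity)
          (n1.mono (ball_subset_ball k2)) (k1.2.trans (ENNReal.ofReal_le_ofReal
            (mul_le_mul_of_nonneg_right (le_abs_self Λ) m0))) w
          (ball_subset_ball (by norm_num) hw)
        have e2 : m k ≤ m k ^ 2 := by nlinarith
        have e3 := mul_le_mul_of_nonneg_left e2 C1
        have e4 : 0 ≤ A₃ * m k ^ 2 := by positivity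
        nlinarith [sq_nonneg (‖deriv (h k) w‖ - 1), sq_nonneg ‖deriv (h k) w‖]
      · have z1 : dist z 0 < 1 := n2 hz
        have s1 : ball w (r / 2) ⊆ ball z r := ball_subset_ball' (by linarith [mem_ball.1 hw])
        have e1 := hA (F k) (h k) w (r / 2) (half_pos r0)
          (n1.mono (s1.trans (ball_subset_ball' (by linarith)))) fun v hv b hb => by
            have e2 := n4 z hz b hb
            have e3 := H v (s1 hv)
            have e4 := norm_sub_le_norm_sub_add_norm_sub (h k z) (h k v) b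
            rw [norm_sub_rev (h k z) (h k v)] at e4
            linarith
        linarith) u hu
  obtain ⟨R₀, -, hR₀⟩ := (h5 D.L).1
  choose l hl0 hl1 using fun k => hR₀ (h k (z k))
  obtain ⟨t₀, -, ht⟩ := (isCompact_closedBall (0 : ℂ) R₀).ultrafilter_le_nhds
    (u.map fun k => h k (z k) - l k)
    (le_principal_iff.2 (hz.mono fun k _ => mem_closedBall_zero_iff.2 (hl1 k)))
  change Tendsto _ (u : Filter ℕ) _ at ht
  have hR' : Tendsto (fun k => (ρ k)⁻¹) u atTop :=
    tendsto_inv_nhdsGT_zero.comp (tendsto_nhdsWithin_iff.2 ⟨hρ, Eventually.of_forall ρ0⟩)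
  have hl' : TendstoLocallyUniformly (fun k w => h k (z k + ρ k * w) - l k)
      (fun w => t₀ + c * w) u := by
    have e : (fun (k : ℕ) (w : ℂ) => h k (z k + ρ k * w) - l k) =
        (fun k _ => h k (z k) - l k) + fun k w => h k (z k + ρ k * w) - h k (z k) := by
      funext k w
      simp
    rw [e]
    exact (ht.tendstoUniformly_const (α := ℂ)).tendstoLocallyUniformly.add hl
  have hNm : ∀ᶠ k in u, Nm D.X (ball 0 (ρ k)⁻¹) (fun w => F k (z k + ρ k * w))
      fun w => h k (z k + ρ k * w) - l k := by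
    filter_upwards [hz, hu (hR.eventually_ge_atTop 2)] with k k1 k2
    have mp : MapsTo (fun w : ℂ => z k + ρ k * w) (ball 0 (ρ k)⁻¹) (ball 0 (R k)) := fun w hw => by
      have z1 := mem_ball_zero_iff.1 ((hN k).2.1 k1)
      have z2 := mul_lt_mul_of_pos_left (mem_ball_zero_iff.1 hw) (ρ0 k)
      rw [mul_inv_cancel₀ (ρ0 k).ne'] at z2
      have z3 := norm_add_le (z k) (ρ k * w)
      rw [norm_mul, Complex.norm_real, Real.norm_of_nonneg (ρ0 k).le] at z3
      exact mem_ball_zero_iff.2 (by linarith [show (2 : ℝ) ≤ R k from k2])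
    have df : DifferentiableOn ℂ (fun w : ℂ => z k + ρ k * w) (ball 0 (ρ k)⁻¹) := by fun_prop
    refine ⟨⟨(hN k).1.1.1.comp df mp, fun w hw => (hN k).1.1.2 _ (mp hw)⟩,
      ((hN k).1.2.1.comp df mp).sub_const _, fun w hw => ?_⟩
    simp only [sub_eq_add_neg]
    exact D.cov.per _ ((hN k).1.2.2 _ (mp hw)) (-l k) (neg_mem (hl0 k))
  have hI := h3 u _ t₀ c c0 (fun r => by
    filter_upwards [hNm, hR'.eventually_ge_atTop r] with k k1 k2
    exact k1.2.1.mono (ball_subset_ball k2)) hl'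
  obtain ⟨P, hP⟩ : ∃ P : ℕ → ℕ → Prop, ∀ k N, P k N ↔ ∃ s, Sc D.X (ball 0 N) s ∧
      (h k (z k) - l k ∈ ball (0 : ℂ) N → s (h k (z k) - l k) = F k (z k)) :=
    ⟨_, fun _ _ => Iff.rfl⟩
  have P0 : ∀ k, P k 0 := fun k => (hP k 0).2 ⟨F k, ⟨fun t ht => by simp at ht,
    fun t ht => by simp at ht⟩, fun ht => by simp at ht⟩
  have P1 : ∀ N : ℕ, ∀ᶠ k in u, P k N := fun N => by
    obtain ⟨R', hR''⟩ := hI N
    filter_upwards [hR'', hNm, hR'.eventually_ge_atTop R'] with k ⟨g, g1, g2, g3⟩ k1 k2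
    have mp : MapsTo g (ball 0 N) (ball 0 (ρ k)⁻¹) := fun t ht => ball_subset_ball k2 (g2 t ht).1
    refine (hP k N).2 ⟨fun t => F k (z k + ρ k * g t), ⟨crv_lh
      ⟨k1.1.1.comp g1 mp, fun t ht => k1.1.2 _ (mp ht)⟩ isOpen_ball, fun t ht => ?_⟩, fun ht => ?_⟩
    · have e := k1.2.2 _ (mp ht)
      simp only [(g2 t ht).2] at e
      exact e
    · simp only [mul_zero, add_zero] at g3
      simp only [g3 ht, mul_zero, add_zero]
  choose s hs hs' using fun k => (hP k _).1 (Nat.findGreatest_spec (Nat.zero_le k) (P0 k))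
  have hG : ∀ r : ℝ, ∀ᶠ k in u, r ≤ (Nat.findGreatest (P k) k : ℕ) := fun r => by
    filter_upwards [P1 ⌈r⌉₊, hu (eventually_ge_atTop ⌈r⌉₊)] with k k1 k2
    exact (Nat.le_ceil r).trans (Nat.cast_le.2 (Nat.le_findGreatest k2 k1))
  obtain ⟨g, g1, g2⟩ := h4 n D u s fun r =>
    (hG r).mono fun k a => (hs k).mono (ball_subset_ball a)
  obtain ⟨y, y1, y2⟩ := g2.pt (mem_univ t₀) ht
  refine ⟨g, g1, t₀, mem_closure_of_tendsto y1 ?_⟩
  filter_upwards [y2, hz, hG (R₀ + 1)] with k k1 k2 k3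
  rw [hs' k (mem_ball_zero_iff.2 (by linarith [hl1 k]))] at k1
  exact ⟨k, z k, k2, k1.symm⟩

end Pool.Agent.MP_c69980_ag.E1
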