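import Pool.Agent.MP_c69980_ag.E1.BaseC
import Pool.Agent.MP_c69980_ag.E1.PD

/-!
Properness of a coordinate on a fibre, and finiteness of the critical values.
-/

set_option autoImplicit false

noncomputable section

namespace Pool.Agent.MP_c69980_ag.E1

open MvPolynomial Metric Filter Topology Set
open H60 H4

namespace PrpX

theorem map_ne {P : Polynomial (Polynomial ℂ)} {x : ℂ} (h : P.leadingCoeff.eval x ≠ 0) :
    P.map (Polynomial.evalRingHom x) ≠ 0 := fun e => h <| by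
  have := congrArg (fun Q => Polynomial.coeff Q P.natDegree) e
  simpa using this

theorem fin_roots {P : Polynomial (Polynomial ℂ)} {x : ℂ} (h : P.leadingCoeff.eval x ≠ 0) :
    {w | P.evalEval x w = 0}.Finite :=
  (Polynomial.finite_setOfPred_isRoot (map_ne h)).subset fun w hw =>
    (Polynomial.map_evalRingHom_eval x w P).trans hw

theorem bdd {P : Polynomial (Polynomial ℂ)} {ζ : ℂ} (h : P.leadingCoeff.eval ζ ≠ 0) :
    ∃ M : ℝ, ∀ᶠ x in 𝓝 ζ, ∀ w, P.evalEval x w = 0 → ‖w‖ ≤ M := by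
  let φ : ℂ → ℝ := fun x => (∑ i ∈ Finset.range P.natDegree, ‖(P.coeff i).eval x‖) /
    ‖P.leadingCoeff.eval x‖ + 1
  have hφ : ContinuousAt φ ζ := ((continuous_finsetSum _ fun i _ =>
    (P.coeff i).continuous.norm).continuousAt.div P.leadingCoeff.continuous.norm.continuousAt
      (norm_ne_zero_iff.2 h)).add continuousAt_const
  refine ⟨φ ζ + 1, ?_⟩
  filter_upwards [hφ.eventually (gt_mem_nhds (lt_add_one (φ ζ))),
    P.leadingCoeff.continuous.continuousAt.eventually_ne h] with x h1 h2 w hw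
  refine le_trans ?_ h1.le
  have h3 := (Polynomial.IsRoot.norm_lt_cauchyBound (map_ne h2)
    ((Polynomial.map_evalRingHom_eval x w P).trans hw)).le
  rw [Polynomial.cauchyBound, Polynomial.natDegree_map_of_leadingCoeff_ne_zero _ h2,
    Polynomial.leadingCoeff_map_of_leadingCoeff_ne_zero _ h2, ← NNReal.coe_le_coe] at h3
  refine h3.trans ?_
  rw [NNReal.coe_add, NNReal.coe_div, NNReal.coe_one]
  refine add_le_add_left (div_le_div_of_nonneg_right ?_ (norm_nonneg _)) _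
  have h4 : ((Finset.range P.natDegree).sup fun i => ‖(P.map (Polynomial.evalRingHom x)).coeff i‖₊)
      ≤ ∑ i ∈ Finset.range P.natDegree, ‖(P.coeff i).eval x‖₊ := Finset.sup_le fun i hi => by
    rw [Polynomial.coeff_map]
    exact Finset.single_le_sum (f := fun i => ‖(P.coeff i).eval x‖₊) (fun _ _ => zero_le) hi
  exact (NNReal.coe_le_coe.2 h4).trans_eq (NNReal.coe_sum _ _)

variable {n : ℕ} {K : Type} [Field K] [Algebra ℂ K] {z : Fin n → K} {y : V n}

theorem vl_coord (hy : On z y) (b : Fin n) {j : Fin n} (hj : y j = 1) :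
    Reg z y (z b / z j) ∧ vl z (z b / z j) y = y b := by
  have h : eval y (X j : PR n) ≠ 0 := by simp [hj]
  refine ⟨⟨X b, X j, 1, isHomogeneous_X _ _, isHomogeneous_X _ _, h, by simp⟩, ?_⟩
  simpa [hj] using vl_eq hy (isHomogeneous_X ℂ b) (isHomogeneous_X ℂ j) h

theorem pairs (z : Fin n → K) (G : K) : ∃ s : Finset (PR n), (∀ H ∈ s, ∃ (F : PR n) (e : ℕ),
    F.IsHomogeneous e ∧ H.IsHomogeneous e ∧ G = aeval z F / aeval z H) ∧
    ∀ y, Reg z y G → ∃ H ∈ s, eval y H ≠ 0 := by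
  obtain ⟨s, s1, s2⟩ := (Submodule.fg_span_iff_fg_span_finset_subset {H : PR n | ∃ (F : PR n)
    (e : ℕ), F.IsHomogeneous e ∧ H.IsHomogeneous e ∧ G = aeval z F / aeval z H}).1
    (IsNoetherian.noetherian (Ideal.span _))
  refine ⟨s, fun H hH => s1 hH, fun y ⟨F, H, e, hF, hH, h0, hG⟩ => ?_⟩
  by_contra hn
  push Not at hn
  have : Submodule.span (PR n) {H : PR n | ∃ (F : PR n) (e : ℕ), F.IsHomogeneous e ∧
      H.IsHomogeneous e ∧ G = aeval z F / aeval z H} ≤ RingHom.ker (eval y) := by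
    rw [s2, Submodule.span_le]; exact hn
  exact h0 (this (Submodule.subset_span ⟨F, e, hF, hH, hG⟩))

theorem comb (P : PR n) (y : V n) (α β γ : ℂ) (u v w : V n) :
    ∑ i, eval y (pderiv i P) * (α • u + β • v + γ • w) i = α * ∑ i, eval y (pderiv i P) * u i +
      β * ∑ i, eval y (pderiv i P) * v i + γ * ∑ i, eval y (pderiv i P) * w i := by
  simp only [Finset.mul_sum, ← Finset.sum_add_distrib, Pi.add_apply, Pi.smul_apply, smul_eq_mul]
  exact Finset.sum_congr rfl fun i _ => by ring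

end PrpX

open PrpX in
theorem prp (h1 : DropKStmt) (h2 : CovStmt) : PrpStmt := by
  classical
  intro K _ _ n d Φ hL hB t₀ a j
  have hC := h2 K n d
  obtain ⟨G₀, κ, g1, g2⟩ := hL t₀
  by_cases hG : G₀ = 0
  · have he : ∀ y, (t₀, y) ∉ Rg d.X a j := by
      rintro y ⟨U, Y, c, ζ, z1, -⟩
      exact (g2 a j U Y ζ c z1).1 (by simp [hG, Wd])
    refine ⟨∅, fun ζ _ => ⟨finite_empty.subset fun y hy => he y hy.1, fun u hu _ => ?_⟩⟩
    obtain ⟨y, hy⟩ := hu.exists
    exact absurd hy.1 (he y)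
  have hon : ∀ y, (t₀, y) ∈ d.X → On d.z y := fun y hy => Cone.on d.gen ((hC.cone y).2 ⟨t₀, hy⟩)
  have key : ∀ g : K, ∃ P : Polynomial (Polynomial ℂ), P ≠ 0 ∧ ∀ y, (t₀, y) ∈ d.X → y j = 1 →
      Reg d.z y g → P.evalEval (y a) (vl d.z g y) = 0 := fun g => by
    obtain ⟨P, p0, hP⟩ := h1 K n d.z G₀ (d.z a / d.z j) g d.tr hG
    refine ⟨P, p0, fun y hy hj hg => ?_⟩
    rw [← (vl_coord (hon y hy) a hj).2]
    exact hP y (hon y hy) (g1 y hy).1 (vl_coord (hon y hy) a hj).1 hg (g1 y hy).2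
  choose P p0 hP using fun b => key (d.z b / d.z j)
  choose Q q0 hQ using fun i => key (d.h i / Wd d.D G₀ (d.z a / d.z j) ^ d.m)
  have hP' : ∀ b y, (t₀, y) ∈ d.X → y j = 1 → (P b).evalEval (y a) (y b) = 0 := fun b y hy hj => by
    rw [← (vl_coord (hon y hy) b hj).2]
    exact hP b y hy hj (vl_coord (hon y hy) b hj).1
  refine ⟨(Finset.univ.biUnion fun b => (P b).leadingCoeff.roots.toFinset) ∪
    Finset.univ.biUnion fun i => (Q i).leadingCoeff.roots.toFinset, fun ζ hζ => ?_⟩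
  have k1 : ∀ b, (P b).leadingCoeff.eval ζ ≠ 0 := fun b e => hζ (Finset.mem_union_left _
    (Finset.mem_biUnion.2 ⟨b, Finset.mem_univ _, Multiset.mem_toFinset.2
      ((Polynomial.mem_roots (Polynomial.leadingCoeff_ne_zero.2 (p0 b))).2 e)⟩))
  have k2 : ∀ i, (Q i).leadingCoeff.eval ζ ≠ 0 := fun i e => hζ (Finset.mem_union_right _
    (Finset.mem_biUnion.2 ⟨i, Finset.mem_univ _, Multiset.mem_toFinset.2
      ((Polynomial.mem_roots (Polynomial.leadingCoeff_ne_zero.2 (q0 i))).2 e)⟩))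
  refine ⟨(Finite.pi' fun b => fin_roots (k1 b)).subset fun y hy b => ?_, fun u hu hζ' => ?_⟩
  · exact hy.2.2 ▸ hP' b y (Rg.mem hC.cn hy.1) hy.2.1
  choose M hM using fun b => bdd (k1 b)
  choose N hN using fun i => bdd (k2 i)
  obtain ⟨y₀, -, hy₀⟩ := (isCompact_closedBall (0 : V n) (∑ b, |M b|)).ultrafilter_le_nhds' u (by
    filter_upwards [hu, hζ'.eventually (eventually_all.2 hM)] with y y1 y2
    rw [mem_closedBall_zero_iff, pi_norm_le_iff_of_nonneg (Finset.sum_nonneg fun _ _ =>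
      abs_nonneg _)]
    exact fun b => (y2 b _ (hP' b y (Rg.mem hC.cn y1.1) y1.2)).trans ((le_abs_self _).trans
      (Finset.single_le_sum (f := fun b => |M b|) (fun _ _ => abs_nonneg _) (Finset.mem_univ b))))
  have hj : y₀ j = 1 := tendsto_nhds_unique (((continuous_apply j).tendsto y₀).mono_left hy₀)
    (tendsto_const_nhds.congr' (hu.mono fun y hy => hy.2.symm))
  have ht : Tendsto (fun y : V n => ((t₀, y) : Pt n)) u (𝓝 (t₀, y₀)) :=
    tendsto_const_nhds.prodMk_nhds hy₀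
  refine ⟨y₀, by_contra fun hn => ?_, hy₀⟩
  have hX : (t₀, y₀) ∈ d.X := hC.cn.lim ht (fun e => by
    have e' : y₀ = 0 := e
    simp [e'] at hj) (hu.mono fun y hy => Rg.mem hC.cn hy.1)
  obtain ⟨y, ⟨y1, y2⟩, y3⟩ := ((hu.and (hζ'.eventually (eventually_all.2 hN))).and
    (ht.eventually (hB a j _ hX (by simp [hj]) hn (‖κ‖ * ∑ i, |N i| + 1)))).exists
  have hyX := Rg.mem hC.cn y1.1
  obtain ⟨U, Y, c, ζ', z1, z2⟩ := y1.1
  have e1 := (c.eq z1 z2).2
  obtain ⟨i, hi⟩ := y3 U Y ζ' c z1 e1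
  have e2 : y = Y (t₀, ζ') := by simpa [y1.2] using e1
  obtain ⟨r1, r2⟩ := (g2 a j U Y ζ' c z1).2 i
  rw [← e2] at r1 r2
  rw [r2, norm_mul] at hi
  have h3 := (y2 i _ (hQ i y hyX y1.2 r1)).trans ((le_abs_self _).trans
    (Finset.single_le_sum (f := fun i => |N i|) (fun _ _ => abs_nonneg _) (Finset.mem_univ i)))
  linarith [mul_le_mul_of_nonneg_left h3 (norm_nonneg κ)]

open PrpX in
theorem crit (h1 : SardStmt) (h2 : TanStmt) (h3 : WTStmt) (h4 : WCStmt) (h5 : GStmt)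
    (h6 : CovStmt) : CritStmt := by
  classical
  intro K _ _ n d
  have hC := h6 K n d
  obtain ⟨G, A, -, -, hG⟩ := (h5 K n d).1
  obtain ⟨s, s1, s2⟩ := pairs d.z G
  choose! F e hF hH hFH using s1
  have hv : ∀ H ∈ s, ∀ t y, (t, y) ∈ d.X → t ∉ d.L.lattice → eval y H ≠ 0 →
      eval y (F H) / eval y H = d.L.weierstrassP t := fun H hs t y hy ht h0 => by
    rw [← vl_eq (Cone.on d.gen ((hC.cone y).2 ⟨t, hy⟩)) (hF H hs) (hH H hs) h0, ← hFH H hs]
    exact ((hG _ hy).1 ht).2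
  let S : PR n → Set (V n) := fun H => {y | eval y H ≠ 0 ∧ ∃ t a b j U Y q,
    WCh d.W a b j U Y ∧ q ∈ U ∧ y = Y q ∧ (t, y) ∈ d.X ∧ (t, y) ∉ Rx d.X ∧ t ∉ d.L.lattice}
  have fin : ∀ H ∈ s, ((fun y => eval y (F H) / eval y H) '' S H).Finite := by
    intro H hs
    refine h1 n (S H) (F H) H (fun y hy => hy.1) ?_
    rintro _ ⟨h0, t, a, b, j, U, Y, q, c, hq, rfl, hX, hR, ht⟩ v hP
    obtain ⟨k, P, g, -, -, g0, -, g1, g2⟩ := h2 n d.W a b j U Y d.sm c q hq
    have dY := (c.2.1 q hq).differentiableAt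
    have e1 := g2 v fun l => by
      have a1 := hP (g * P l) (by
        rintro w ⟨-, t', -, -, -, -, -, -, -, -, -, hw, -⟩
        by_cases e : eval w g = 0
        · rw [map_mul, e, zero_mul]
        · rw [map_mul, g1 w ((hC.cone w).2 ⟨t', hw⟩) e l, mul_zero])
      have a2 := g1 _ (c.2.2 q hq).2.2.2.1 g0 l
      simp only [pderiv_mul, map_add, map_mul, a2, mul_zero, zero_add, mul_assoc,
        ← Finset.mul_sum] at a1
      exact (mul_eq_zero.1 a1).resolve_left g0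
    obtain ⟨T, T1, T2, T3, -, T4⟩ := h3 n d.L d.W d.X a b j U Y q t hC c hq hX
    have o := d.L.isClosed_lattice.isOpen_compl.mem_nhds ht
    have dP : DifferentiableAt ℂ d.L.weierstrassP (T q) := by
      rw [T2]
      exact d.L.differentiableOn_weierstrassP.differentiableAt o
    have ev : (fun p => eval (Y p) (F H)) =ᶠ[𝓝 q]
        fun p => d.L.weierstrassP (T p) * eval (Y p) H := by
      filter_upwards [T3, (PD.fd_eval dY H).1.continuousAt.eventually_ne h0,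
        T1.continuousAt.eventually (show (d.L.lattice : Set ℂ)ᶜ ∈ 𝓝 (T q) from T2 ▸ o)]
        with p p1 p2 p3
      rw [← hv H hs _ _ p1 p3 p2, div_mul_cancel₀ _ p2]
    have d1 : HasFDerivAt (fun p => d.L.weierstrassP (T p)) (0 : ℂ × ℂ →L[ℂ] ℂ) q := by
      have := dP.hasFDerivAt.comp q T1.differentiableAt.hasFDerivAt
      rwa [T4 hR, ContinuousLinearMap.comp_zero] at this
    have d2 : ∀ w, ∑ i, eval (Y q) (pderiv i (F H)) * fderiv ℂ Y q w i =
        d.L.weierstrassP t * ∑ i, eval (Y q) (pderiv i H) * fderiv ℂ Y q w i := fun w => by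
      rw [← (PD.fd_eval dY _).2, ← (PD.fd_eval dY _).2, ev.fderiv_eq,
        (d1.fun_mul (PD.fd_eval dY H).1.hasFDerivAt).fderiv, T2]
      simp
    have d3 := ev.self_of_nhds
    simp only [T2] at d3
    rw [e1, comb, comb, euler (hF H hs), euler (hH H hs), dt, dz, d2, d2, d3]
    ring
  refine ⟨(s.finite_toSet.biUnion fin).toFinset, fun x hx hb => by_contra fun hR => hb ?_⟩
  obtain ⟨t, y⟩ := x
  refine or_iff_not_imp_left.2 fun ht => (Finite.mem_toFinset _).2 ?_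
  obtain ⟨a, b, j, U, Y, c, q, hq, hy⟩ := h4 n d.W d.sm y ((hC.cone y).2 ⟨t, hx⟩)
  have hX := hC.cn.pp hx hy.symm
  obtain ⟨H, hs, h0⟩ := s2 _ ((hG _ hX).1 ht).1
  exact mem_biUnion hs ⟨Y q, ⟨h0, t, a, b, j, U, Y, q, c, hq, rfl, hX,
    fun r => hR (Rx.pp r hy), ht⟩, hv H hs t _ hX ht h0⟩

end Pool.Agent.MP_c69980_ag.E1
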