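import Pool.Agent.MP_c69980_ag.E1.BaseC

/-!
Row Push: pushing the surface over a disc towards the central fibre.
-/

set_option autoImplicit false

noncomputable section

namespace Pool.Agent.MP_c69980_ag.E1

open Metric Filter Topology Set
open H60 H4

namespace PushX

variable {n : ℕ} {X : Set (Pt n)} {t₀ : ℂ} {r : ℝ}

/-- Equivariant deformations that move points towards the central fibre. -/
structure PF (X : Set (Pt n)) (t₀ : ℂ) (r : ℝ) (H : ℝ × Pt n → Pt n) (A : Set (Pt n)) :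
    Prop where
  cont : ContinuousOn H (Icc 0 1 ×ˢ Xr X t₀ r)
  zero : ∀ x ∈ Xr X t₀ r, H (0, x) = x
  maps : ∀ x ∈ Xr X t₀ r, ∀ θ ∈ Icc (0 : ℝ) 1, H (θ, x) ∈ X ∧ ‖(H (θ, x)).1 - t₀‖ ≤ ‖x.1 - t₀‖
  equi : ∀ x ∈ Xr X t₀ r, ∀ θ ∈ Icc (0 : ℝ) 1, ∀ c : ℂ, c ≠ 0 →
    H (θ, x.1, c • x.2) = ((H (θ, x)).1, c • (H (θ, x)).2)
  alt : ∀ x ∈ Xr X t₀ r, H (1, x) = x ∨ ‖(H (1, x)).1 - t₀‖ < ‖x.1 - t₀‖
  dec : ∀ x ∈ Xr X t₀ r, x ∈ A → ‖(H (1, x)).1 - t₀‖ < ‖x.1 - t₀‖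

variable {H H' : ℝ × Pt n → Pt n} {A A' : Set (Pt n)}

lemma one_mem : (1 : ℝ) ∈ Icc (0 : ℝ) 1 := ⟨zero_le_one, le_rfl⟩

lemma PF.mem (h : PF X t₀ r H A) {x : Pt n} (hx : x ∈ Xr X t₀ r) {θ : ℝ}
    (hθ : θ ∈ Icc (0 : ℝ) 1) : H (θ, x) ∈ Xr X t₀ r :=
  ⟨(h.maps x hx θ hθ).1, (h.maps x hx θ hθ).2.trans hx.2⟩

lemma PF.id : PF X t₀ r Prod.snd ∅ :=
  ⟨continuousOn_snd, fun _ _ => rfl, fun _ hx _ _ => ⟨hx.1, le_rfl⟩, fun _ _ _ _ _ _ => rfl,
    fun _ _ => .inl rfl, fun _ _ h => h.elim⟩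

lemma PF.mono (h : PF X t₀ r H A) (hA : A' ⊆ A) : PF X t₀ r H A' :=
  ⟨h.cont, h.zero, h.maps, h.equi, h.alt, fun x hx a => h.dec x hx (hA a)⟩

lemma PF.comp (h : PF X t₀ r H A) (h' : PF X t₀ r H' A') :
    PF X t₀ r (fun q => H (q.1, H' q)) (A ∪ A') := by
  have key : ∀ x ∈ Xr X t₀ r, ‖(H' (1, x)).1 - t₀‖ < ‖x.1 - t₀‖ →
      ‖(H (1, H' (1, x))).1 - t₀‖ < ‖x.1 - t₀‖ := fun x hx q =>
    (h.maps _ (h'.mem hx one_mem) 1 one_mem).2.trans_lt q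
  refine ⟨h.cont.comp (continuousOn_fst.prodMk h'.cont) fun q hq => ⟨hq.1, h'.mem hq.2 hq.1⟩,
    fun x hx => ?_, fun x hx θ hθ => ?_, fun x hx θ hθ c hc => ?_, fun x hx => ?_,
    fun x hx a => ?_⟩
  · change H (0, H' (0, x)) = x
    rw [h'.zero x hx, h.zero x hx]
  · exact ⟨(h.maps _ (h'.mem hx hθ) θ hθ).1,
      (h.maps _ (h'.mem hx hθ) θ hθ).2.trans (h'.maps x hx θ hθ).2⟩
  · change H (θ, H' (θ, x.1, c • x.2)) = _
    rw [h'.equi x hx θ hθ c hc, h.equi _ (h'.mem hx hθ) θ hθ c hc]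
  · rcases h'.alt x hx with q | q
    · change H (1, H' (1, x)) = x ∨ ‖(H (1, H' (1, x))).1 - t₀‖ < ‖x.1 - t₀‖
      rw [q]
      exact h.alt x hx
    · exact .inr (key x hx q)
  · rcases h'.alt x hx with q | q
    · change ‖(H (1, H' (1, x))).1 - t₀‖ < ‖x.1 - t₀‖
      rcases a with a | a
      · rw [q]
        exact h.dec x hx a
      · exact key x hx (h'.dec x hx a)
    · exact key x hx q

lemma norm_tau (t : ℂ) {s : ℝ} (s1 : s ≤ 1) :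
    ‖t - (s : ℂ) * (t - t₀) - t₀‖ = (1 - s) * ‖t - t₀‖ := by
  have e : t - (s : ℂ) * (t - t₀) - t₀ = ((1 - s : ℝ) : ℂ) * (t - t₀) := by
    push_cast
    ring
  rw [e, norm_mul, Complex.norm_real, Real.norm_of_nonneg (sub_nonneg.2 s1)]

/-- One push near a regular point. -/
lemma one (h : NearStmt) (hX : Cn X) (r0 : 0 < r) {x₀ : Pt n} (h0 : x₀ ∈ Rx X) (h1 : x₀.1 ≠ t₀) :
    ∃ A ∈ 𝓝 x₀, ∃ H, PF X t₀ r H A := by
  classical
  have x0 := hX.nz _ (Rx.mem hX h0)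
  obtain ⟨a, j, U, Y, c, z, z1, z2⟩ := h0
  obtain ⟨e', e0', he'⟩ := Metric.mem_nhds_iff.1 (c.nhds z1)
  obtain ⟨e, e0, he⟩ : ∃ e : ℝ, 0 < e ∧ closedBall (x₀.1, z) (2 * e) ⊆ U :=
    ⟨e' / 3, by positivity, (closedBall_subset_ball (by linarith)).trans he'⟩
  obtain ⟨η', η0', hη'⟩ := h n X a j U {(x₀.1, z)} Y e hX c isCompact_singleton
    (singleton_subset_iff.2 z1) e0
  obtain ⟨η, η0, η1, η2⟩ : ∃ η : ℝ, 0 < η ∧ η ≤ η' ∧ η ≤ e :=
    ⟨min η' e, lt_min η0' e0, min_le_left _ _, min_le_right _ _⟩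
  obtain ⟨k, k0, k1, k2⟩ : ∃ k : ℝ, 0 < k ∧ k ≤ 1 ∧ k * r ≤ e :=
    ⟨min 1 (e / r), lt_min one_pos (div_pos e0 r0), min_le_left _ _,
      (le_div_iff₀ r0).1 (min_le_right _ _)⟩
  have w0 : Y (x₀.1, z) ≠ 0 := c.ne z1
  let φ : Pt n → ℝ := fun x => ‖x.1 - x₀.1‖ + d2 x.2 (Y (x₀.1, z))
  have φc : ∀ x : Pt n, x.2 ≠ 0 → ContinuousAt φ x := fun x hx =>
    ContinuousAt.add (by fun_prop)
      (d2_lim (l := 𝓝 x) continuousAt_snd tendsto_const_nhds hx w0)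
  have φ0 : ∀ x : Pt n, x.2 ≠ 0 → 0 ≤ φ x := fun x hx =>
    add_nonneg (norm_nonneg _) (H84.d2_nonneg hx w0)
  let s : ℝ × Pt n → ℝ := fun q => q.1 * (k * max 0 (1 - 2 * φ q.2 / η))
  let τ : ℝ × Pt n → ℂ := fun q => q.2.1 - (s q : ℂ) * (q.2.1 - t₀)
  let G : ℝ × Pt n → Pt n := fun q => (τ q, q.2.2 j • Y (τ q, q.2.2 a / q.2.2 j))
  have s01 : ∀ θ ∈ Icc (0 : ℝ) 1, ∀ x : Pt n, x.2 ≠ 0 → 0 ≤ s (θ, x) ∧ s (θ, x) ≤ k := by
    intro θ hθ x hx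
    have a1 : 0 ≤ max 0 (1 - 2 * φ x / η) := le_max_left _ _
    have a2 : max 0 (1 - 2 * φ x / η) ≤ 1 :=
      max_le zero_le_one (sub_le_self _ (div_nonneg (by linarith [φ0 x hx]) η0.le))
    exact ⟨mul_nonneg hθ.1 (mul_nonneg k0.le a1),
      (mul_le_of_le_one_left (mul_nonneg k0.le a1) hθ.2).trans (mul_le_of_le_one_right k0.le a2)⟩
  have nr : ∀ x ∈ X, φ x < η → x.2 j ≠ 0 ∧ ‖x.2 a / x.2 j - z‖ ≤ e ∧
      x.2 = x.2 j • Y (x.1, x.2 a / x.2 j) ∧ ‖x.1 - x₀.1‖ ≤ e := by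
    intro x hx q
    have b1 := H84.d2_nonneg (hX.nz x hx) w0
    have b2 := norm_nonneg (x.1 - x₀.1)
    have q' : ‖x.1 - x₀.1‖ + d2 x.2 (Y (x₀.1, z)) < η := q
    obtain ⟨c1, c2, -, c4⟩ := hη' _ rfl x hx (show ‖x.1 - x₀.1‖ ≤ η' by linarith) (by linarith)
    exact ⟨c1, c2, c4, by linarith⟩
  have inU : ∀ θ ∈ Icc (0 : ℝ) 1, ∀ x ∈ Xr X t₀ r, φ x < η → (τ (θ, x), x.2 a / x.2 j) ∈ U := by
    intro θ hθ x hx q
    obtain ⟨-, c2, -, c4⟩ := nr x hx.1 q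
    obtain ⟨d1, d2⟩ := s01 θ hθ x (hX.nz x hx.1)
    refine he (mem_closedBall.2 ?_)
    rw [Prod.dist_eq]
    refine max_le ?_ ?_
    · have e1 : τ (θ, x) - x₀.1 = x.1 - x₀.1 - (s (θ, x) : ℂ) * (x.1 - t₀) := by
        simp only [τ]
        ring
      have e2 : ‖(s (θ, x) : ℂ) * (x.1 - t₀)‖ ≤ e := by
        rw [norm_mul, Complex.norm_real, Real.norm_of_nonneg d1]
        exact (mul_le_mul d2 hx.2 (norm_nonneg _) k0.le).trans k2
      rw [dist_eq_norm, e1]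
      exact (norm_sub_le _ _).trans (by linarith)
    · rw [dist_eq_norm]
      exact c2.trans (by linarith)
  have fix : ∀ q : ℝ × Pt n, q.2 ∈ X → s q = 0 → (if φ q.2 < η then G q else q.2) = q.2 := by
    intro q hq e1
    split_ifs with b
    · have e2 : τ q = q.2.1 := by simp only [τ, e1, Complex.ofReal_zero, zero_mul, sub_zero]
      simp only [G, e2]
      exact Prod.ext rfl (nr _ hq b).2.2.1.symm
    · rfl
  have big : ∀ q : ℝ × Pt n, η / 2 < φ q.2 → s q = 0 := fun q b => by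
    have : 1 - 2 * φ q.2 / η ≤ 0 := by
      rw [sub_nonpos, le_div_iff₀ η0]
      linarith
    simp only [s, max_eq_left this, mul_zero]
  have fst : ∀ q : ℝ × Pt n, (if φ q.2 < η then G q else q.2).1 = τ q := fun q => by
    split_ifs with b
    · rfl
    · simp only [τ, big q (by linarith [not_lt.1 b]), Complex.ofReal_zero, zero_mul, sub_zero]
  have strict : ∀ x ∈ Xr X t₀ r, x.1 ≠ t₀ → s (1, x) ≠ 0 → ‖τ (1, x) - t₀‖ < ‖x.1 - t₀‖ := by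
    intro x hx b1 b2
    obtain ⟨d1, d2⟩ := s01 1 one_mem x (hX.nz x hx.1)
    rw [norm_tau x.1 (d2.trans k1)]
    exact mul_lt_of_lt_one_left (norm_pos_iff.2 (sub_ne_zero.2 b1))
      (sub_lt_self _ (d1.lt_of_ne' b2))
  refine ⟨{x | φ x < η / 2 ∧ x.1 ≠ t₀}, ?_, fun q => if φ q.2 < η then G q else q.2, ?_,
    fun x hx => fix (0, x) hx.1 (zero_mul _), fun x hx θ hθ => ⟨?_, ?_⟩,
    fun x hx θ hθ b hb => ?_, fun x hx => ?_, fun x hx b => ?_⟩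
  · refine Filter.Eventually.and ((φc x₀ x0).eventually_lt continuousAt_const ?_)
      (continuousAt_fst.eventually_ne h1)
    simp only [φ, sub_self, norm_zero, zero_add, (d2_eq_zero x0 w0).2 z2]
    exact half_pos η0
  · rintro ⟨θ, x⟩ ⟨hθ, hx⟩
    have p1 : ContinuousAt (fun q : ℝ × Pt n => φ q.2) (θ, x) :=
      (φc x (hX.nz x hx.1)).comp_of_eq continuousAt_snd rfl
    by_cases b : φ x < η
    · have p2 : ContinuousAt s (θ, x) := continuousAt_fst.mul (continuousAt_const.mul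
        (continuousAt_const.max (continuousAt_const.sub
          ((continuousAt_const.mul p1).div_const η))))
      have p3 : ContinuousAt τ (θ, x) := ContinuousAt.sub (by fun_prop)
        ((Complex.continuous_ofReal.continuousAt.comp p2).mul (by fun_prop))
      have p4 : ContinuousAt (fun q : ℝ × Pt n => q.2.2 a / q.2.2 j) (θ, x) :=
        ContinuousAt.div (by fun_prop) (by fun_prop) (nr x hx.1 b).1
      have p6 : ContinuousAt (fun q : ℝ × Pt n => q.2.2 j) (θ, x) := by fun_prop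
      have p5 : ContinuousAt G (θ, x) := p3.prodMk (p6.smul
        ((c.an (inU θ hθ x hx b)).continuousAt.comp_of_eq (p3.prodMk p4) rfl))
      refine (p5.congr ?_).continuousWithinAt
      filter_upwards [p1.eventually_lt continuousAt_const b] with q hq using (if_pos hq).symm
    · refine continuousWithinAt_snd.congr_of_eventuallyEq ?_
        (fix (θ, x) hx.1 (big _ (by linarith [not_lt.1 b])))
      filter_upwards [nhdsWithin_le_nhds (continuousAt_const.eventually_lt p1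
        (show η / 2 < φ x by linarith [not_lt.1 b])), self_mem_nhdsWithin] with q q1 q2
      exact fix q q2.2.1 (big q q1)
  · change (if φ x < η then G (θ, x) else x) ∈ X
    split_ifs with b
    · exact hX.scal _ (c.mem (inU θ hθ x hx b)) _ (nr x hx.1 b).1
    · exact hx.1
  · obtain ⟨d1, d2⟩ := s01 θ hθ x (hX.nz x hx.1)
    rw [fst (θ, x), norm_tau x.1 (d2.trans k1)]
    exact mul_le_of_le_one_left (norm_nonneg _) (sub_le_self _ d1)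
  · have e1 : φ (x.1, b • x.2) = φ x :=
      congrArg (fun u => ‖x.1 - x₀.1‖ + u) ((Pp.smul hb x.2).d2 (.refl _))
    have e2 : τ (θ, x.1, b • x.2) = τ (θ, x) := by simp only [τ, s, e1]
    change (if φ (x.1, b • x.2) < η then G (θ, x.1, b • x.2) else (x.1, b • x.2)) =
      ((if φ x < η then G (θ, x) else x).1, b • (if φ x < η then G (θ, x) else x).2)
    rw [e1]
    split_ifs with q
    · simp only [G, e2, Pi.smul_apply, smul_eq_mul, mul_div_mul_left _ _ hb, smul_smul]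
    · rfl
  · by_cases b : s (1, x) = 0
    · exact .inl (fix (1, x) hx.1 b)
    by_cases b' : x.1 = t₀
    · refine .inl ?_
      change (if φ x < η then G (1, x) else x) = x
      split_ifs with q
      · have e2 : τ (1, x) = x.1 := by simp only [τ, b', sub_self, mul_zero, sub_zero]
        simp only [G, e2]
        exact Prod.ext rfl (nr _ hx.1 q).2.2.1.symm
      · rfl
    · exact .inr (fst (1, x) ▸ strict x hx b' b)
  · refine fst (1, x) ▸ strict x hx b.2 (mul_pos one_pos (mul_pos k0 (lt_max_of_lt_right ?_))).ne'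
    rw [sub_pos, div_lt_one η0]
    linarith [b.1]

lemma iter {ε d : ℝ} (h : PF X t₀ r H A)
    (hd : ∀ x ∈ Xr X t₀ r, ε ≤ ‖x.1 - t₀‖ → ‖(H (1, x)).1 - t₀‖ + d ≤ ‖x.1 - t₀‖) (N : ℕ) :
    ∃ G, PF X t₀ r G ∅ ∧ ∀ x ∈ Xr X t₀ r,
      ‖(G (1, x)).1 - t₀‖ ≤ ε ∨ ‖(G (1, x)).1 - t₀‖ + N * d ≤ ‖x.1 - t₀‖ := by
  induction N with
  | zero => exact ⟨_, PF.id, fun x _ => .inr (by simp)⟩
  | succ N ih =>
    obtain ⟨G, g1, g2⟩ := ih
    refine ⟨_, (h.comp g1).mono (empty_subset _), fun x hx => ?_⟩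
    have m := g1.mem hx one_mem
    rcases le_total ‖(G (1, x)).1 - t₀‖ ε with q | q
    · exact .inl ((h.maps _ m 1 one_mem).2.trans q)
    · rcases g2 x hx with q' | q'
      · exact .inl ((h.maps _ m 1 one_mem).2.trans q')
      · have := hd _ m q
        refine .inr ?_
        push_cast
        linarith

end PushX

open PushX in
theorem push (h : NearStmt) : PushStmt := by
  intro n X t₀ ε r hX ε0 hP
  let K : Set (Pt n) := {x | x ∈ Xr X t₀ r ∧ ε ≤ ‖x.1 - t₀‖ ∧ ‖x.2‖ = 1}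
  have hK : IsCompact K := by
    refine ((isCompact_closedBall t₀ r).prod (isCompact_sphere (0 : V n) 1)).of_isClosed_subset
      (isClosed_of_closure_subset fun x hx => ?_)
      fun x hx => ⟨mem_closedBall_iff_norm.2 hx.1.2, mem_sphere_zero_iff_norm.2 hx.2.2⟩
    have f1 : Continuous fun x : Pt n => ‖x.1 - t₀‖ := by fun_prop
    have f2 : Continuous fun x : Pt n => ‖x.2‖ := by fun_prop
    have cl : IsClosed {x : Pt n | ‖x.1 - t₀‖ ≤ r ∧ ε ≤ ‖x.1 - t₀‖ ∧ ‖x.2‖ = 1} :=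
      (isClosed_le f1 continuous_const).inter
        ((isClosed_le continuous_const f1).inter (isClosed_eq f2 continuous_const))
    have sub : K ⊆ {x : Pt n | ‖x.1 - t₀‖ ≤ r ∧ ε ≤ ‖x.1 - t₀‖ ∧ ‖x.2‖ = 1} :=
      fun y hy => ⟨hy.1.2, hy.2⟩
    obtain ⟨a1, a2, a3⟩ := closure_minimal sub cl hx
    exact ⟨⟨hX.closed x (closure_mono (fun y hy => hy.1.1) hx)
      (norm_ne_zero_iff.1 (a3 ▸ one_ne_zero)), a1⟩, a2, a3⟩
  obtain ⟨H, hH⟩ : ∃ H, PF X t₀ r H K := by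
    refine hK.induction_on (p := fun A => ∃ H, PF X t₀ r H A) ⟨_, PF.id⟩
      (fun _ _ hs ⟨H, q⟩ => ⟨H, q.mono hs⟩) (fun _ _ ⟨_, q⟩ ⟨_, q'⟩ => ⟨_, q.comp q'⟩)
      fun x hx => ?_
    have b : x.1 ≠ t₀ := sub_ne_zero.1 (norm_pos_iff.1 (ε0.trans_le hx.2.1))
    obtain ⟨A, a1, a2⟩ := one h hX ((ε0.trans_le hx.2.1).trans_le hx.1.2) (hP x hx.1 b) b
    exact ⟨A, nhdsWithin_le_nhds a1, a2⟩
  have c1 : ContinuousOn (fun x : Pt n => H (1, x)) K :=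
    hH.cont.comp (by fun_prop) fun x hx => ⟨one_mem, hx.1⟩
  have c2 : ContinuousOn (fun x : Pt n => ‖x.1 - t₀‖ - ‖(H (1, x)).1 - t₀‖) K :=
    ContinuousOn.sub (by fun_prop) (c1.fst.sub continuousOn_const).norm
  obtain ⟨d, d0, hd⟩ := hK.exists_forall_le' c2 fun x hx => sub_pos.2 (hH.dec x hx.1 hx)
  have hd' : ∀ x ∈ Xr X t₀ r, ε ≤ ‖x.1 - t₀‖ → ‖(H (1, x)).1 - t₀‖ + d ≤ ‖x.1 - t₀‖ := by
    intro x hx q
    have x0 : ‖x.2‖ ≠ 0 := norm_ne_zero_iff.2 (hX.nz x hx.1)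
    have b : ((‖x.2‖⁻¹ : ℝ) : ℂ) ≠ 0 := Complex.ofReal_ne_zero.2 (inv_ne_zero x0)
    have := hd (x.1, ((‖x.2‖⁻¹ : ℝ) : ℂ) • x.2) ⟨⟨hX.scal x hx.1 _ b, hx.2⟩, q, by
      rw [norm_smul, Complex.norm_real, norm_inv, norm_norm, inv_mul_cancel₀ x0]⟩
    rw [hH.equi x hx 1 one_mem _ b] at this
    linarith
  obtain ⟨N, hN⟩ := exists_nat_gt (r / d)
  obtain ⟨G, g1, g2⟩ := iter hH hd' N
  refine ⟨G, g1.cont, fun x hx => ⟨g1.zero x hx, ⟨(g1.maps x hx 1 one_mem).1, ?_⟩,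
    fun θ hθ => ⟨g1.mem hx hθ, g1.equi x hx θ hθ⟩⟩⟩
  refine (g2 x hx).resolve_right fun q => ?_
  have := (div_lt_iff₀ d0).1 hN
  linarith [norm_nonneg ((G (1, x)).1 - t₀), hx.2]

end Pool.Agent.MP_c69980_ag.E1
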