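import Pool.Agent.MP_c69980_ag.E1.BaseC

/-!
Limits of sections: the ratios of the forms are meromorphic, and the limit extends.
-/

set_option autoImplicit false

noncomputable section

namespace Pool.Agent.MP_c69980_ag.E1

open MvPolynomial Metric Filter Topology Set
open H60 H4

namespace RatX

variable {n : ℕ}

/-- The forms along a section are proportional to an analytic vector. -/
lemma loc (D : Fib n) {O : Set ℂ} {s : ℂ → V n} (hs : Sc D.X O s) (o : IsOpen O) {t₀ : ℂ}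
    (ht : t₀ ∈ O) : ∃ f : Fin D.N → ℂ → ℂ, (∀ l, AnalyticAt ℂ (f l) t₀) ∧ ∀ᶠ t in 𝓝 t₀, ∀ v,
      Vt D.X (t, s t) v → ∃ κ : ℂ, ∀ l, D.Φ l (t, s t) v = κ * f l t := by
  obtain ⟨a, j, U, Y, h, z, hz, hy⟩ := hs.rx D.cov.cn D.nonreg o ht
  have e := (h.ev_pc (τ := id) D.cov.cn hz ht continuousWithinAt_id hs.1.pc
    (eventually_mem_nhdsWithin.mono hs.2) rfl hy).2
  rw [nhdsWithin_eq_nhds.2 (o.mem_nhds ht)] at e
  refine ⟨fun l t => fc D.Φ Y l (t, s t a / s t j), fun l => ?_, e.mono fun t q v hv => ?_⟩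
  · exact (D.frm.an a j U Y h l _ e.self_of_nhds.1).comp_of_eq
      (analyticAt_id.prod (hs.1.ratio ht a (h.eq hz hy).1).1) rfl
  · obtain ⟨κ, -, -, -, hκ⟩ := D.frm.vt D.cov.cn h q.1 q.2 hv
    exact ⟨_, hκ⟩

lemma prod_ne {M : ℕ} (a : Fin M → ℂ) (t₀ : ℂ) : ∀ᶠ t in 𝓝[≠] t₀, ∏ i, (t - a i) ≠ 0 :=
  (eventually_all.2 fun i => nhdsNE_le_cofinite t₀ (eventually_cofinite_ne (a i))).mono
    fun _ h => Finset.prod_ne_zero_iff.2 fun i _ => sub_ne_zero.2 (h i)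

lemma prod_an {M : ℕ} (S : Finset (Fin M)) (a : Fin M → ℂ) (t₀ : ℂ) :
    AnalyticAt ℂ (fun t => ∏ i ∈ S, (t - a i)) t₀ :=
  S.analyticAt_fun_prod fun _ _ => analyticAt_id.sub analyticAt_const

/-- One section: the numerators are holomorphic and bounded. -/
lemma one (D : Fib n) {c : ℂ} {r ρ A : ℝ} {i : Fin D.N} {M : ℕ} {s v : ℂ → V n} (h0 : 0 < ρ)
    (hr : ρ < r) (hs : Nm D.X (ball c r) s id) (hv : VL D.X c ρ s v)
    (hc : ∀ l, ContinuousOn (fun t => D.Φ l (t, s t) (v t)) (closedBall c ρ))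
    (hz : Zv c ρ (fun t => D.Φ i (t, s t) (v t)) M)
    (hb : ∀ l, ∀ t ∈ sphere c ρ, ‖D.Φ l (t, s t) (v t)‖ ≤ A * ‖D.Φ i (t, s t) (v t)‖) :
    ∃ (a : Fin M → ℂ) (R : ℂ → Fin D.N → ℂ), a ∈ closedBall (fun _ => c) ρ ∧
      (DifferentiableOn ℂ R (ball c ρ) ∧ ∀ t ∈ ball c ρ, ‖R t‖ ≤ |A| * (2 * ρ) ^ M) ∧
      ∀ t ∈ ball c ρ, ∀ l, (∏ k, (t - a k)) * D.Φ l (t, s t) (v t) =
        R t l * D.Φ i (t, s t) (v t) := by
  obtain ⟨a, W, ha, hW, he⟩ := hz
  have e1 : ∀ t ∈ closedBall c ρ, D.Φ i (t, s t) (v t) = (∏ k, (t - a k)) * W t :=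
    fun t ht => (he t ht).2
  have e2 : ∀ t ∈ closedBall c ρ, ∀ l, (∏ k, (t - a k)) * D.Φ l (t, s t) (v t) =
      D.Φ l (t, s t) (v t) / W t * D.Φ i (t, s t) (v t) := fun t ht l => by
    rw [e1 t ht, mul_left_comm, div_mul_cancel₀ _ (he t ht).1]
  have c1 : ∀ l, ContinuousOn (fun t => D.Φ l (t, s t) (v t) / W t) (closedBall c ρ) :=
    fun l => (hc l).div hW fun t ht => (he t ht).1
  have m : ∀ t ∈ ball c ρ, closedBall c ρ ∈ 𝓝 t := fun t ht =>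
    mem_of_superset (isOpen_ball.mem_nhds ht) ball_subset_closedBall
  have d1 : ∀ l, ∀ t ∈ ball c ρ, ∏ k, (t - a k) ≠ 0 →
      DifferentiableAt ℂ (fun t => D.Φ l (t, s t) (v t) / W t) t := by
    intro l t ht hp
    obtain ⟨f, f1, f2⟩ := loc D (hs.sc isOpen_ball) isOpen_ball (ball_subset_ball hr.le ht)
    have pa := prod_an Finset.univ a t
    have key : ∀ᶠ w in 𝓝 t, f i w ≠ 0 ∧
        (∏ k, (w - a k)) * f l w / f i w = D.Φ l (w, s w) (v w) / W w := by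
      filter_upwards [f2, m t ht, pa.continuousAt.eventually_ne hp] with w w1 w2 w3
      obtain ⟨κ, hκ⟩ := w1 _ (hv.2 w w2)
      have n1 : κ * f i w ≠ 0 := by
        rw [← hκ, e1 w w2]
        exact mul_ne_zero w3 (he w w2).1
      have n2 := right_ne_zero_of_mul n1
      refine ⟨n2, (div_eq_iff n2).2 (mul_left_cancel₀ (left_ne_zero_of_mul n1) ?_)⟩
      have := e2 w w2 l
      rw [hκ i, ← mul_left_comm, hκ l, ← mul_left_comm] at this
      rw [this, hκ l]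
    exact ((((pa.mul (f1 l)).div (f1 i) key.self_of_nhds.1)).congr
      (key.mono fun w q => q.2)).differentiableAt
  have d2 : DifferentiableOn ℂ (fun t l => D.Φ l (t, s t) (v t) / W t) (ball c ρ) :=
    differentiableOn_pi.2 fun l t ht =>
      (Complex.analyticAt_of_differentiable_on_punctured_nhds_of_continuousAt (by
        filter_upwards [prod_ne a t, nhdsWithin_le_nhds (isOpen_ball.mem_nhds ht)] with w w1 w2
        exact d1 l w w2 w1) ((c1 l).continuousAt (m t ht))).differentiableAt.differentiableWithinAt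
  refine ⟨a, fun t l => D.Φ l (t, s t) (v t) / W t,
    (dist_pi_le_iff h0.le).2 fun k => (ha k).le, ⟨d2, fun t ht => ?_⟩,
    fun t ht => e2 t (ball_subset_closedBall ht)⟩
  refine Complex.norm_le_of_forall_mem_frontier_norm_le isBounded_ball
    (DiffContOnCl.mk_ball d2 (continuousOn_pi.2 c1)) (fun w hw => ?_) (subset_closure ht)
  rw [frontier_ball c h0.ne'] at hw
  have w2 := sphere_subset_closedBall hw
  refine (pi_norm_le_iff_of_nonneg (by positivity)).2 fun l => ?_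
  have b1 : ‖∏ k, (w - a k)‖ ≤ (2 * ρ) ^ M := by
    rw [norm_prod]
    refine (Finset.prod_le_prod (fun _ _ => norm_nonneg _) fun k _ =>
      (?_ : ‖w - a k‖ ≤ 2 * ρ)).trans_eq (by simp)
    have t1 := dist_triangle_right w (a k) c
    have t2 : dist w c ≤ ρ := w2
    have t3 : dist (a k) c < ρ := ha k
    rw [← dist_eq_norm]
    linarith
  rw [norm_div, div_le_iff₀ (norm_pos_iff.2 (he w w2).1)]
  refine (hb l w hw).trans ?_
  rw [e1 w w2, norm_mul, mul_assoc]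
  exact mul_le_mul (le_abs_self A) (mul_le_mul_of_nonneg_right b1 (norm_nonneg _))
    (by positivity) (abs_nonneg A)

/-- Passage to the limit in a chart. -/
lemma lim (D : Fib n) (u : Ultrafilter ℕ) {O : Set ℂ} {s : ℕ → ℂ → V n} {g : ℂ → V n}
    (o : IsOpen O) (hg : Sc D.X O g) (hc : Cv u O s g) {t : ℂ} (ht : t ∈ O) {i l : Fin D.N}
    {P R : ℕ → ℂ} {P₀ R₀ : ℂ} (hP : Tendsto P u (𝓝 P₀)) (hR : Tendsto R u (𝓝 R₀))
    (h : ∀ᶠ k in u, (t, s k t) ∈ D.X ∧ ∃ v, Vt D.X (t, s k t) v ∧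
      P k * D.Φ l (t, s k t) v = R k * D.Φ i (t, s k t) v) :
    P₀ * ph D g l t = R₀ * ph D g i t := by
  have rx := hg.rx D.cov.cn D.nonreg o ht
  obtain ⟨a, j, U, Y, hU, z, hz, hy⟩ := id rx
  obtain ⟨y, y1, y2⟩ := hc.pt ht tendsto_const_nhds
  have c1 : Tendsto (fun k => ((t, y k) : Pt n)) u (𝓝 (t, g t)) :=
    tendsto_const_nhds.prodMk_nhds y1
  have c2 := (hU.tend hz hy).comp c1
  have c3 := fun l => (D.frm.an a j U Y hU l _ hz).continuousAt.tendsto.comp c2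
  have e : P₀ * fc D.Φ Y l (t, z) = R₀ * fc D.Φ Y i (t, z) := by
    refine tendsto_nhds_unique_of_eventuallyEq (hP.mul (c3 l)) (hR.mul (c3 i)) ?_
    filter_upwards [h, y2, c1.eventually (hU.ev D.cov.cn hz hy)] with k ⟨k1, v, k2, k3⟩ k4 k5
    obtain ⟨k6, k7, k8⟩ := k5 (D.cov.cn.pp k1 k4.symm)
    obtain ⟨κ, κ0, -, -, hκ⟩ := D.frm.vt D.cov.cn hU k7 (k4.trans ⟨_, k6, k8⟩) k2
    refine mul_left_cancel₀ (pow_ne_zero D.m κ0) ?_
    rw [hκ l, hκ i, mul_left_comm, mul_left_comm (R k)] at k3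
    exact k3
  obtain ⟨κ, -, -, -, hκ⟩ := D.frm.vt D.cov.cn hU hz hy (Rx.vt D.cov.cn rx)
  rw [ph, ph, hκ l, hκ i, mul_left_comm, e, mul_left_comm]

lemma punct_open (c : ℂ) (r : ℝ) : IsOpen (ball c r \ {c}) := isOpen_ball.sdiff isClosed_singleton

lemma punct_mem (c : ℂ) {r : ℝ} (hr : 0 < r) : ball c r \ {c} ∈ 𝓝[≠] c :=
  sdiff_mem_nhdsWithin_compl (ball_mem_nhds c hr) _

lemma poly_mer (L : PeriodPair) (p : Polynomial ℂ) (c : ℂ) :
    MeromorphicAt (fun t => p.eval (L.weierstrassP t)) c := by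
  simp only [Polynomial.eval_eq_sum_range]
  exact MeromorphicAt.fun_sum fun i _ =>
    (MeromorphicAt.const _ c).fun_mul ((L.meromorphic_weierstrassP c).fun_pow i)

end RatX

theorem ratS : RatStmt := by
  classical
  rintro n D u c r s g ⟨-, -, hs, hg, hc, -⟩ ⟨ρ, A, i, M, h0, hr, h⟩
  have h1 : ∀ᶠ k in u, ∃ q : (ℂ → V n) × (Fin M → ℂ) × (ℂ → Fin D.N → ℂ),
      VL D.X c ρ (s k) q.1 ∧ q.2.1 ∈ closedBall (fun _ => c) ρ ∧
      (DifferentiableOn ℂ q.2.2 (ball c ρ) ∧ ∀ t ∈ ball c ρ, ‖q.2.2 t‖ ≤ |A| * (2 * ρ) ^ M) ∧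
      ∀ t ∈ ball c ρ, ∀ l, (∏ k, (t - q.2.1 k)) * D.Φ l (t, s k t) (q.1 t) =
        q.2.2 t l * D.Φ i (t, s k t) (q.1 t) := h.mono fun k ⟨v, a1, a2, a3, a4⟩ => by
    obtain ⟨a, R, b⟩ := RatX.one D h0 hr (hs k) a1 a2 a3 a4
    exact ⟨(v, a, R), a1, b⟩
  obtain ⟨q, hq⟩ := h1.choice
  obtain ⟨H, hH⟩ := H18.ulim u isOpen_ball (hq.mono fun k b => b.2.2.1)
  have dH := hH.differentiableOn (hq.mono fun k b => b.2.2.1.1) isOpen_ball
  obtain ⟨a, -, ha⟩ := (isCompact_closedBall (fun _ : Fin M => c) ρ).ultrafilter_le_nhds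
    (u.map fun k => (q k).2.1) (by
      rw [Ultrafilter.coe_map, le_principal_iff, mem_map]
      exact hq.mono fun k b => b.2.1)
  have ha : Tendsto (fun k => (q k).2.1) u (𝓝 a) := ha
  have p1 := RatX.prod_an (Finset.univ.filter fun k => ¬a k = c) a c
  have p0 : ∏ k ∈ Finset.univ.filter fun k => ¬a k = c, (c - a k) ≠ 0 :=
    Finset.prod_ne_zero_iff.2 fun k hk => sub_ne_zero.2 (Ne.symm (Finset.mem_filter.1 hk).2)
  refine ⟨i, fun l t => H t l / ∏ k ∈ Finset.univ.filter fun k => ¬a k = c, (t - a k),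
    (Finset.univ.filter fun k => a k = c).card, fun l =>
      (analyticAt_pi_iff.1 (dH.analyticAt (ball_mem_nhds c h0)) l).div p1 p0, ?_⟩
  filter_upwards [RatX.punct_mem c h0, nhdsWithin_le_nhds (p1.continuousAt.eventually_ne p0)]
    with t ht t1 l
  have t2 : t ∈ ball c r \ {c} := ⟨ball_subset_ball hr.le ht.1, ht.2⟩
  have e := RatX.lim D u (RatX.punct_open c r) hg hc t2 (i := i) (l := l)
    (P := fun k => ∏ j, (t - (q k).2.1 j)) (R := fun k => (q k).2.2 t l)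
    (tendsto_finsetProd _ fun j _ => tendsto_const_nhds.sub (tendsto_pi_nhds.1 ha j))
    (tendsto_pi_nhds.1 (hH.tendsto_at ht.1) l) (hq.mono fun k b =>
      ⟨(hs k).2.2 t t2.1, _, b.1.2 t (ball_subset_closedBall ht.1), b.2.2.2 t ht.1 l⟩)
  rw [← Finset.prod_filter_mul_prod_filter_not _ fun k => a k = c,
    Finset.prod_congr rfl fun k hk => by rw [(Finset.mem_filter.1 hk).2], Finset.prod_const] at e
  rw [div_mul_eq_mul_div, eq_div_iff t1, ← e]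
  ring

theorem extS (h1 : MerStmt) (h2 : LatStmt) : ExtStmt := by
  rintro n D c r g hr hg ⟨i, G, M, hG, h⟩
  have key : ∀ᶠ t in 𝓝[≠] c, (t, g t) ∈ D.X ∧ ∃ a j U Y z, ∃ μ : ℂ, Chart D.X a j U Y ∧
      (t, z) ∈ U ∧ Pp (g t) (Y (t, z)) ∧ μ ≠ 0 ∧
      (fun l => G (D.e l) t) = μ • fun l => fc D.Φ Y (D.e l) (t, z) := by
    filter_upwards [RatX.punct_mem c hr, h] with t ht e
    have rx := hg.rx D.cov.cn D.nonreg (RatX.punct_open c r) ht
    obtain ⟨a, j, U, Y, hU, z, hz, hy⟩ := id rx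
    obtain ⟨κ, κ0, -, -, hκ⟩ := D.frm.vt D.cov.cn hU hz hy (Rx.vt D.cov.cn rx)
    have e1 : ∀ l, (t - c) ^ M * κ ^ D.m * fc D.Φ Y l (t, z) = G l t * ph D g i t := fun l => by
      rw [← e l, ph, hκ l, mul_assoc]
    have n1 : (t - c) ^ M * κ ^ D.m ≠ 0 :=
      mul_ne_zero (pow_ne_zero _ (sub_ne_zero.2 ht.2)) (pow_ne_zero _ κ0)
    obtain ⟨l, hl⟩ := D.frm.bpf a j U Y hU _ hz
    have n2 : ph D g i t ≠ 0 := right_ne_zero_of_mul (e1 l ▸ mul_ne_zero n1 hl)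
    refine ⟨hg.2 t ht, a, j, U, Y, z, (t - c) ^ M * κ ^ D.m / ph D g i t, hU, hz, hy,
      div_ne_zero n1 n2, funext fun l => ?_⟩
    rw [Pi.smul_apply, smul_eq_mul, div_mul_eq_mul_div, e1, mul_div_cancel_right₀ _ n2]
  obtain ⟨t₀, ht₀⟩ := (eventually_mem_set.2 (RatX.punct_mem c hr)).exists
  obtain ⟨j, hj⟩ := Function.ne_iff.1 (hg.1.ne ht₀)
  refine h1 n c r g j hr hg.1 ⟨t₀, ht₀, hj⟩ fun b => ?_
  obtain ⟨d, f, Q, q1, q2, q3⟩ := D.alg b j
  have an : ∀ i, AnalyticAt ℂ (fun t => eval (fun l => G (D.e l) t) (Q i)) c := fun i =>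
    eval_an (g := fun t l => G (D.e l) t) (analyticAt_pi_iff.2 fun l => hG _) _
  rcases (an d).eventually_eq_zero_or_eventually_ne_zero with h0 | h0
  · obtain ⟨B, hB, hz⟩ := D.zero (Q d) f (q1 d) q2
    obtain ⟨P, P0, hP⟩ := D.drop B b j hB
    obtain ⟨⟨e, he⟩, -⟩ := hB
    have hl := (h2 D.L).2.1 _ c (Polynomial.leadingCoeff_ne_zero.2 P0)
    refine ⟨P.natDegree, fun i t => (P.coeff i).eval (D.L.weierstrassP t),
      fun i => RatX.poly_mer _ _ _, hl.mono fun t q => q.2, ?_⟩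
    filter_upwards [key, hl, nhdsWithin_le_nhds h0]
      with t ⟨k0, a, j', U, Y, z, μ, k1, k2, k3, k4, k5⟩ k6 k7 k8
    rw [k5, eval_smul_hom (q1 d), mul_eq_zero_iff_left (pow_ne_zero _ k4)] at k7
    have e1 := hP _ k0 k6.1 k8 ((k3.eval he).2 (hz a j' U Y k1 _ k2 k7))
    rw [Polynomial.evalEval, Polynomial.eval_eq_sum_range (p := P),
      Polynomial.eval_finsetSum] at e1
    simpa only [Polynomial.eval_mul, Polynomial.eval_pow, Polynomial.eval_C] using e1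
  · refine ⟨d, _, fun i => (an i).meromorphicAt, h0, ?_⟩
    filter_upwards [key] with t ⟨_, a, j', U, Y, z, μ, k1, k2, k3, _, k5⟩ k8
    have e1 := q3 a j' U Y k1 _ k2 ((k3.coord j).1 k8)
    simp only [k5, eval_smul_hom (q1 _), k3.div, mul_assoc]
    rw [← Finset.mul_sum, e1, mul_zero]

end Pool.Agent.MP_c69980_ag.E1
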