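import Pool.Agent.MP_c69980_ag.E1.BaseC

/-!
Surfaces fibred over an elliptic curve: secant lines, vertical fields, the adjunction identity.
-/

set_option autoImplicit false

noncomputable section

namespace Pool.Agent.MP_c69980_ag.E1

open MvPolynomial Metric Filter Topology Set
open H60 H4

namespace SecX

variable {n : ℕ} {X : Set (Pt n)} {t : ℂ} {a a' y y' : V n}

lemma pos (h : Pp y a) : SS X t a y = wg a (tv X (t, a)) := if_pos h

lemma neg (h : ¬Pp y a) : SS X t a y = wg a y := if_neg h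

lemma two (hX : Cn X) (h : (t, a) ∈ Rx X) (ha : Pp a a') (hy : Pp y y') :
    Pp (SS X t a y) (SS X t a' y') := by
  by_cases e : Pp y a
  · rw [pos e, pos (hy.symm.trans (e.trans ha))]
    exact (Rx.vt_pp hX h ha.symm (Rx.vt hX h) (Rx.vt hX (Rx.pp h ha.symm))).symm
  · rw [neg e, neg fun q => e (hy.trans (q.trans ha.symm))]
    exact ha.wg hy

lemma three (hX : Cn X) (h : (t, a) ∈ Rx X) (h' : (t, y) ∈ Rx X) :
    Pp (SS X t a y) (SS X t y a) := by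
  by_cases e : Pp y a
  · rw [pos e, pos e.symm]
    exact (Rx.vt_pp hX h e (Rx.vt hX h) (Rx.vt hX h')).symm
  · rw [neg e, neg fun q => e q.symm]
    exact ⟨-1, by simp, by rw [wg_anti, neg_one_smul]⟩

lemma four (hX : Cn X) {b j : Fin n} {U : Set (ℂ × ℂ)} {Y : ℂ × ℂ → V n} (h : Chart X b j U Y)
    {z z' : ℂ} (hz : (t, z) ∈ U) (hz' : (t, z') ∈ U) :
    Pp (SS X t (Y (t, z)) (Y (t, z'))) (wg (Y (t, z)) (dd Y t z z')) := by
  by_cases e : z' = z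
  · subst e
    rw [pos (.refl _), dd_self]
    exact h.vt_pp hX hz (.refl _) (Rx.vt hX (h.rx hz (.refl _)))
  · rw [neg fun q => e ((h.pp_iff hz hz').1 q), wg_dd]
    exact .smul (sub_ne_zero.2 e) _

lemma one (hX : Cn X) {α : Type} [TopologicalSpace α] {K : Set α} {τ : α → ℂ} {a y : α → V n}
    (hτ : ContinuousOn τ K) (ha : PC K a) (hy : PC K y)
    (h : ∀ q ∈ K, (τ q, a q) ∈ Rx X ∧ (τ q, y q) ∈ X) :
    PC K fun q => SS X (τ q) (a q) (y q) := by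
  intro q hq
  by_cases e : Pp (y q) (a q)
  · obtain ⟨b, j, U, Y, c, z, z1, z2⟩ := (h q hq).1
    have e1 := (c.ev_pc hX z1 hq (hτ q hq) ha
      (mem_of_superset self_mem_nhdsWithin fun w hw => Rx.mem hX (h w hw).1) rfl z2).2
    have e2 := (c.ev_pc hX z1 hq (hτ q hq) hy
      (mem_of_superset self_mem_nhdsWithin fun w hw => (h w hw).2) rfl (e.trans z2)).2
    have hS := inter_mem self_mem_nhdsWithin (e1.and e2)
    obtain ⟨S, hS, hK, k1, k2⟩ : ∃ S ∈ 𝓝[K] q, S ⊆ K ∧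
        (∀ w ∈ S, (τ w, a w b / a w j) ∈ U ∧ Pp (a w) (Y (τ w, a w b / a w j))) ∧
        ∀ w ∈ S, (τ w, y w b / y w j) ∈ U ∧ Pp (y w) (Y (τ w, y w b / y w j)) :=
      ⟨_, hS, inter_subset_left, fun w hw => hw.2.1, fun w hw => hw.2.2⟩
    have c1 := (ha.mono hK).ratio b fun w hw => (c.eq (k1 w hw).1 (k1 w hw).2).1
    have c2 := (hy.mono hK).ratio b fun w hw => (c.eq (k2 w hw).1 (k2 w hw).2).1
    have c3 := hτ.mono hK
    refine ⟨S, hS, fun w => wg (Y (τ w, a w b / a w j))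
      (dd Y (τ w) (a w b / a w j) (y w b / y w j)), wg_contOn
        (c.cont.comp (c3.prodMk c1) fun w hw => (k1 w hw).1)
        ((dd_cont c.2.1).comp (c3.prodMk (c1.prodMk c2)) fun w hw => ⟨(k1 w hw).1, (k2 w hw).1⟩),
      fun w hw => ⟨c.wg_dd_ne (k1 w hw).1 (k2 w hw).1, ?_⟩⟩
    exact (two hX (h w (hK hw)).1 (k1 w hw).2 (k2 w hw).2).trans
      (four hX c (k1 w hw).1 (k2 w hw).1)
  · obtain ⟨U, hU, f, f1, f2⟩ := ha q hq
    obtain ⟨U', hU', g, g1, g2⟩ := hy q hq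
    have m := inter_mem hU hU'
    have mq := mem_of_mem_nhdsWithin hq m
    have c1 : ContinuousOn (fun w => wg (f w) (g w)) (U ∩ U') :=
      wg_contOn (f1.mono inter_subset_left) (g1.mono inter_subset_right)
    have key : ∀ w ∈ U ∩ U', wg (f w) (g w) = 0 ↔ Pp (y w) (a w) := fun w hw => by
      rw [wg_eq_zero (f2 w hw.1).1 (g2 w hw.2).1]
      exact ⟨fun r => (g2 w hw.2).2.trans (r.trans (f2 w hw.1).2.symm),
        fun r => (g2 w hw.2).2.symm.trans (r.trans (f2 w hw.1).2)⟩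
    have c2 := ((c1 q mq).mono_of_mem_nhdsWithin m).tendsto.eventually_ne
      fun r => e ((key q mq).1 r)
    refine ⟨_, inter_mem m c2, fun w => wg (f w) (g w), c1.mono inter_subset_left,
      fun w hw => ⟨hw.2, ?_⟩⟩
    have k : SS X (τ w) (a w) (y w) = wg (a w) (y w) := neg fun r => hw.2 ((key w hw.1).2 r)
    exact (Pp.of_eq k).trans ((f2 w hw.1.1).2.wg (g2 w hw.1.2).2)

lemma vt_smul (hX : Cn X) (h : (t, y) ∈ Rx X) {v : V n} (hv : Vt X (t, y) v) {κ : ℂ}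
    (hκ : κ ≠ 0) : Vt X (t, y) (κ • v) := by
  obtain ⟨b, j, U, Y, c, z, z1, z2⟩ := h
  obtain ⟨α, β, α0, rfl⟩ := (c.vt_iff hX z1 z2).1 hv
  exact (c.vt_iff hX z1 z2).2 ⟨κ * α, κ * β, mul_ne_zero hκ α0, by
    rw [smul_add, smul_smul, smul_smul]⟩

/-- The local form of the values of the forms. -/
lemma loc (D : Fib n) {c : ℂ} {ρ r : ℝ} {s v : ℂ → V n} (hr : ρ < r)
    (hs : Nm D.X (ball c r) s id) (hv : VL D.X c ρ s v) (i : Fin D.N) (ht : t ∈ closedBall c ρ) :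
    ∃ e φ : ℂ → ℂ, AnalyticAt ℂ φ t ∧ ∀ᶠ w in 𝓝 t, w ∈ closedBall c ρ →
      ContinuousWithinAt e (closedBall c ρ) w ∧ e w ≠ 0 ∧ D.Φ i (w, s w) (v w) = e w • φ w := by
  have hX := D.cov.cn
  have sub : closedBall c ρ ⊆ ball c r := closedBall_subset_ball hr
  obtain ⟨b, j, U, Y, k, z, z1, z2⟩ := hs.rx hX D.nonreg isOpen_ball (sub ht)
  have cs : ContinuousOn s (ball c r) := hs.1.1.continuousOn
  have e1 := (k.ev_pc (τ := id) hX z1 (sub ht) continuousWithinAt_id (PC.of_cont cs hs.1.2)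
    (mem_of_superset self_mem_nhdsWithin hs.2.2) rfl z2).2
  rw [nhdsWithin_eq_nhds.2 (isOpen_ball.mem_nhds (sub ht))] at e1
  have a1 := ((crv_lh hs.1 isOpen_ball).ratio (sub ht) b (k.eq z1 z2).1).1
  refine ⟨fun w => (wg (s w) (v w) (j, b) / s w j ^ 2) ^ D.m,
    fun w => fc D.Φ Y i (w, s w b / s w j),
    AnalyticAt.comp (f := fun w => (w, s w b / s w j))
      (D.frm.an b j U Y k i _ e1.self_of_nhds.1) (analyticAt_id.prod a1),
    e1.mono fun w hw hK => ?_⟩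
  obtain ⟨κ, κ0, h1, -, h2⟩ := D.frm.vt hX k hw.1 hw.2 (hv.2 w hK)
  have j0 : s w j ≠ 0 := (k.eq hw.1 hw.2).1
  have h3 : wg (s w) (v w) (j, b) / s w j ^ 2 = κ := by
    rw [h1, Pi.smul_apply, k.wg_dz hw.1, smul_eq_mul, mul_one,
      mul_div_cancel_left₀ _ (pow_ne_zero 2 j0)]
  refine ⟨((continuousWithinAt_pi.1 (hv.1 w hK) (j, b)).div
    ((continuousWithinAt_pi.1 ((cs.mono sub) w hK) j).pow 2) (pow_ne_zero 2 j0)).pow _, ?_, ?_⟩
  · simp only [h3]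
    exact pow_ne_zero _ κ0
  · simp only [h3]
    exact h2 i

lemma gs (D : Fib n) {c : ℂ} {ρ r : ℝ} {s : ℂ → V n} (hr : ρ < r)
    (hs : Nm D.X (ball c r) s id) : Gs D.X c ρ s :=
  ⟨(PC.of_cont hs.1.1.continuousOn hs.1.2).mono (closedBall_subset_ball hr), fun _ ht =>
    hs.rx D.cov.cn D.nonreg isOpen_ball (closedBall_subset_ball hr ht)⟩

end SecX

open SecX

theorem sec : SecStmt := fun _ _ hX =>
  ⟨fun _ _ _ _ _ _ hτ ha hy h => one hX hτ ha hy h, fun _ _ _ _ _ h ha hy => two hX h ha hy,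
    fun _ _ _ h h' => three hX h h', fun _ _ _ _ h _ _ _ hz hz' => four hX h hz hz'⟩

theorem vlS (h1 : SecStmt) (h2 : HCStmt) : VLStmt := by
  intro n D c ρ r s _ hr hs
  have hX := D.cov.cn
  obtain ⟨p1, p2⟩ := gs D hr hs
  obtain ⟨g, g1, g2⟩ := h2 (Fin n × Fin n) c ρ _ ((h1 n D.X hX).1 ℂ _ id s s continuousOn_id p1 p1
    fun t ht => ⟨p2 t ht, Rx.mem hX (p2 t ht)⟩)
  have ex : ∀ t ∈ closedBall c ρ, ∃ κ : ℂ, κ ≠ 0 ∧ g t = κ • wg (s t) (tv D.X (t, s t)) :=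
    fun t ht => (g2 t ht).2.symm.trans (.of_eq (pos (.refl _)))
  choose! κ hκ using ex
  have hv : VL D.X c ρ s fun t => κ t • tv D.X (t, s t) :=
    ⟨g1.congr fun t ht => (wg_smul_right _ _ _).trans (hκ t ht).2.symm,
      fun t ht => vt_smul hX (p2 t ht) (Rx.vt hX (p2 t ht)) (hκ t ht).1⟩
  refine ⟨_, hv, fun i => ⟨fun t ht => ?_, fun t ht => ?_⟩⟩
  · obtain ⟨e, φ, a1, a2⟩ := loc D hr hs hv i ht
    have a3 := a2.self_of_nhds ht
    refine (a3.1.smul a1.continuousAt.continuousWithinAt).congr_of_eventuallyEq ?_ a3.2.2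
    filter_upwards [self_mem_nhdsWithin, nhdsWithin_le_nhds a2] with w w1 w2 using (w2 w1).2.2
  · obtain ⟨e, φ, a1, a2⟩ := loc D hr hs hv i (ball_subset_closedBall ht)
    refine ⟨e, φ, a1, ?_⟩
    filter_upwards [a2, isOpen_ball.mem_nhds ht] with w w1 w2
    have a3 := w1 (ball_subset_closedBall w2)
    exact ⟨a3.1.continuousAt (mem_of_superset (isOpen_ball.mem_nhds w2) ball_subset_closedBall),
      a3.2⟩

theorem star (h1 : StarAStmt) (h2 : StarBStmt) (h3 : RelStmt) (h4 : DgStmt) (h5 : WindStmt) :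
    StarStmt := by
  intro n D a j U Y c ρ r s s' σ σ' v v' i k k' I I' J J' hρ hr hP hC hs hs' hσ hσ' hT hq c1 c2
    hv hv' z1 z2 z3 z4 z5 z6
  have sub : sphere c ρ ⊆ ball c r := sphere_subset_closedBall.trans (closedBall_subset_ball hr)
  have n1 : ∀ t ∈ sphere c ρ, s t j ≠ 0 := fun t ht =>
    (hC.eq (by simpa [zb] using hT.2 (0, t) ⟨by simp, ht⟩) (hT.1 t ht).1).1
  have n2 : ∀ t ∈ sphere c ρ, s' t j ≠ 0 := fun t ht =>
    (hC.eq (by simpa [zb] using hT.2 (1, t) ⟨by simp, ht⟩) (hT.1 t ht).2).1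
  obtain ⟨ν, hν⟩ := (h5 c ρ hρ).1 (fun t => s t j / s' t j)
    ((continuousOn_pi.1 (hs.1.1.continuousOn.mono sub) j).div
      (continuousOn_pi.1 (hs'.1.1.continuousOn.mono sub) j) n2)
    fun t ht => div_ne_zero (n1 t ht) (n2 t ht)
  obtain ⟨cy, d1⟩ := h1 n D a j U Y c ρ r s s' σ ν I J hρ hr hC hs hs' hσ hT
    (fun q h => (hq q h).2.1) hν z3 z5
  obtain ⟨-, d2⟩ := h1 n D a j U Y c ρ r s s' σ' ν I' J' hρ hr hC hs hs' hσ' hT
    (fun q h => (hq q h).2.2) hν z4 z6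
  obtain ⟨d, d', d3, d4, e⟩ := h2 n D a j U Y c ρ r s s' v v' i ν k k' hρ hr hC hs hs' hT
    (fun q h => (hq q h).1) hν hv hv' z1 z2
  have e1 := (h4 _ c ρ hρ).1 _ _ _ _ _ d3 ((h3 n D.X c ρ σ s D.cov.cn hρ hP (gs D hr hσ)
    (gs D hr hs) c1 c ρ _ _ _ _ hρ cy).1 d1)
  have e2 := (h4 _ c ρ hρ).1 _ _ _ _ _ d4 ((h3 n D.X c ρ σ' s' D.cov.cn hρ hP (gs D hr hσ')
    (gs D hr hs') c2 c ρ _ _ _ _ hρ cy).1 d2)
  rw [e1, e2] at e
  zify
  linear_combination e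

end Pool.Agent.MP_c69980_ag.E1
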