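import Pool.Agent.MP_c69980_ag.E1.Spec

/-!
Winding numbers on a circle, and the zeros of a function on a disc.
-/

set_option autoImplicit false

noncomputable section

namespace Pool.Agent.MP_c69980_ag.E1

open Metric Filter Topology Set Complex

namespace Wind

/-- The two ends of a homotopy of nonvanishing functions differ by an exponential. -/
theorem logH {α : Type} [TopologicalSpace α] (K : Set α) (H : ℝ × α → ℂ)
    (hc : ContinuousOn H (Icc 0 1 ×ˢ K)) (h0 : ∀ q ∈ Icc (0 : ℝ) 1 ×ˢ K, H q ≠ 0) :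
    ∃ φ : α → ℂ, ContinuousOn φ K ∧ ∀ x ∈ K, H (1, x) = H (0, x) * exp (φ x) := by
  classical
  have m0 : ∀ x : K, ((0 : ℝ), x.1) ∈ Icc (0 : ℝ) 1 ×ˢ K := fun x => ⟨⟨le_rfl, zero_le_one⟩, x.2⟩
  have m1 : ∀ q : unitInterval × K, ((q.1 : ℝ), q.2.1) ∈ Icc (0 : ℝ) 1 ×ˢ K :=
    fun q => ⟨q.1.2, q.2.2⟩
  have c1 : Continuous fun q : unitInterval × K => H (q.1, q.2.1) :=
    hc.comp_continuous (by fun_prop) m1
  have c0 : Continuous fun q : unitInterval × K => H (0, q.2.1) :=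
    hc.comp_continuous (by fun_prop) fun q => m0 q.2
  let F : C(unitInterval × K, {z : ℂ // z ≠ 0}) :=
    ⟨fun q => ⟨H (q.1, q.2.1) / H (0, q.2.1), div_ne_zero (h0 _ (m1 q)) (h0 _ (m0 q.2))⟩,
      (c1.div c0 fun q => h0 _ (m0 q.2)).subtype_mk _⟩
  have hF : ∀ a : K, F (0, a) = ⟨exp ((0 : C(K, ℂ)) a), exp_ne_zero _⟩ := fun a =>
    Subtype.ext (by simpa [F] using h0 _ (m0 a))
  let Λ := isCoveringMap_exp.liftHomotopy F 0 hF
  have hΛ : ∀ q, exp (Λ q) = H (q.1, q.2.1) / H (0, q.2.1) := fun q =>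
    congrArg Subtype.val (congrFun (isCoveringMap_exp.liftHomotopy_lifts F 0 hF) q)
  refine ⟨fun x => if h : x ∈ K then Λ (1, ⟨x, h⟩) else 0, ?_, fun x hx => ?_⟩
  · rw [continuousOn_iff_continuous_domRestrict]
    have : K.domRestrict (fun x => if h : x ∈ K then Λ (1, ⟨x, h⟩) else 0) =
        fun x => Λ (1, x) := funext fun x => dif_pos x.2
    rw [this]; fun_prop
  · simp only [dif_pos hx, hΛ]
    rw [mul_div_cancel₀ _ (h0 _ (m0 ⟨x, hx⟩))]
    rfl

theorem const_exp {g : ℝ → ℂ} (hg : Continuous g) (h : ∀ θ, exp (g θ) = 1) (a b : ℝ) :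
    g a = g b :=
  isCoveringMap_exp.const_of_comp hg (fun x y => Subtype.ext ((h x).trans (h y).symm)) a b

theorem ne {c t : ℂ} {ρ : ℝ} (hρ : 0 < ρ) (ht : t ∈ sphere c ρ) : t - c ≠ 0 := by
  intro h
  rw [mem_sphere_iff_norm, h, norm_zero] at ht
  exact hρ.ne ht

theorem circ (c : ℂ) {ρ : ℝ} (hρ : 0 < ρ) (θ : ℝ) (k : ℤ) :
    (circleMap c ρ θ - c) ^ k = exp (k * (log ρ + θ * I)) := by
  rw [exp_int_mul, exp_add, exp_log (by exact_mod_cast hρ.ne')]
  simp [circleMap]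

end Wind

section lemmas

variable {c : ℂ} {ρ : ℝ} {f g : ℂ → ℂ} {k l : ℤ}

theorem Wn.congr (h : Wn c ρ f k) (e : ∀ t ∈ sphere c ρ, g t = f t) : Wn c ρ g k := by
  obtain ⟨φ, hφ, h⟩ := h
  exact ⟨φ, hφ, fun t ht => (e t ht).trans (h t ht)⟩

theorem Wn.mul (hρ : 0 < ρ) (hf : Wn c ρ f k) (hg : Wn c ρ g l) :
    Wn c ρ (fun t => f t * g t) (k + l) := by
  obtain ⟨φ, hφ, hf⟩ := hf
  obtain ⟨ψ, hψ, hg⟩ := hg
  refine ⟨fun t => φ t + ψ t, hφ.add hψ, fun t ht => ?_⟩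
  simp only [hf t ht, hg t ht, zpow_add₀ (Wind.ne hρ ht), exp_add]
  ring

theorem Wn.inv (hf : Wn c ρ f k) : Wn c ρ (fun t => (f t)⁻¹) (-k) := by
  obtain ⟨φ, hφ, hf⟩ := hf
  exact ⟨fun t => -φ t, hφ.neg, fun t ht => by simp only [hf t ht, zpow_neg, exp_neg, mul_inv]⟩

theorem Wn.div (hρ : 0 < ρ) (hf : Wn c ρ f k) (hg : Wn c ρ g l) :
    Wn c ρ (fun t => f t / g t) (k - l) := by
  simpa only [div_eq_mul_inv, sub_eq_add_neg] using hf.mul hρ hg.inv

theorem Wn.zpow (hf : Wn c ρ f k) (m : ℤ) : Wn c ρ (fun t => f t ^ m) (m * k) := by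
  obtain ⟨φ, hφ, hf⟩ := hf
  refine ⟨fun t => m * φ t, continuousOn_const.mul hφ, fun t ht => ?_⟩
  simp only [hf t ht, exp_int_mul, mul_zpow]
  rw [mul_comm m, zpow_mul]

theorem Wn.pow (hf : Wn c ρ f k) (m : ℕ) : Wn c ρ (fun t => f t ^ m) (m * k) := by
  simpa only [zpow_natCast] using hf.zpow m

theorem Wn.const (c : ℂ) (ρ : ℝ) {a : ℂ} (ha : a ≠ 0) : Wn c ρ (fun _ => a) 0 :=
  ⟨fun _ => log a, continuousOn_const, fun t _ => by simp [exp_log ha]⟩

theorem Wn.ne (hρ : 0 < ρ) (hf : Wn c ρ f k) {t : ℂ} (ht : t ∈ sphere c ρ) : f t ≠ 0 := by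
  obtain ⟨φ, -, hf⟩ := hf
  rw [hf t ht]
  exact mul_ne_zero (zpow_ne_zero _ (Wind.ne hρ ht)) (exp_ne_zero _)

theorem Wn.cont (hρ : 0 < ρ) (hf : Wn c ρ f k) : ContinuousOn f (sphere c ρ) := by
  obtain ⟨φ, hφ, hf⟩ := hf
  exact (((continuousOn_id.sub continuousOn_const).zpow₀ k fun t ht =>
    Or.inl (Wind.ne hρ ht)).mul hφ.cexp).congr hf

theorem Zv.wn (hw : WindStmt) (hρ : 0 < ρ) {G : ℂ → ℂ} {m : ℕ} (h : Zv c ρ G m) :
    Wn c ρ G m := by
  obtain ⟨a, U, ha, hU, h⟩ := h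
  obtain ⟨-, -, h3, -, h5⟩ := hw c ρ hρ
  have := (h5 m a ha).mul hρ (h3 U hU fun t ht => (h t ht).1)
  rw [add_zero] at this
  exact this.congr fun t ht => (h t (sphere_subset_closedBall ht)).2

end lemmas

namespace Wind

variable {c : ℂ} {ρ : ℝ}

theorem ex (hρ : 0 < ρ) (f : ℂ → ℂ) (hf : ContinuousOn f (sphere c ρ))
    (h0 : ∀ t ∈ sphere c ρ, f t ≠ 0) : ∃ k, Wn c ρ f k := by
  have hm := circleMap_mem_sphere c hρ.le
  have hγ : Continuous fun θ => f (circleMap c ρ θ) :=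
    hf.comp_continuous (continuous_circleMap c ρ) hm
  obtain ⟨φ, hφ, h1⟩ := logH (univ : Set ℝ) (fun q => f (circleMap c ρ (q.1 * q.2)))
    (hγ.comp (continuous_fst.mul continuous_snd)).continuousOn fun q _ => h0 _ (hm _)
  rw [continuousOn_univ] at hφ
  simp only [one_mul, zero_mul, mem_univ, forall_true_left] at h1
  have h2 : ∀ θ, exp (φ (θ + 2 * Real.pi) - φ θ) = 1 := fun θ => by
    have h3 := h1 (θ + 2 * Real.pi)
    rw [periodic_circleMap c ρ θ, h1 θ] at h3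
    rw [exp_sub, ← mul_left_cancel₀ (h0 _ (hm 0)) h3, div_self (exp_ne_zero _)]
  obtain ⟨k, hk⟩ := exp_eq_one_iff.1 (h2 0)
  have h3 := const_exp (g := fun θ => φ (θ + 2 * Real.pi) - φ θ) (by fun_prop) h2
  let ψ : ℝ → ℂ := fun θ => log (f (circleMap c ρ 0)) + φ θ - k * (log ρ + θ * I)
  have hψ : Continuous ψ := by fun_prop
  have hp : Function.Periodic ψ (2 * Real.pi) := fun θ => by
    have h4 := (h3 θ 0).trans hk
    simp only [ψ]
    push_cast
    linear_combination h4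
  have hl : Continuous hp.lift := hψ.quotient_liftOn' _
  refine ⟨k, fun t => ψ (arg (t - c)), fun t ht => ?_, fun t ht => ?_⟩
  · have h5 : ContinuousAt (fun t : ℂ => ((arg (t - c) : ℝ) : Real.Angle)) t :=
      ContinuousAt.comp (f := fun t : ℂ => t - c) (continuousAt_arg_coe_angle (ne hρ ht))
        (by fun_prop)
    exact (hl.continuousAt.comp h5).continuousWithinAt
  · have h6 : circleMap c ρ (arg (t - c)) = t := by
      have := norm_mul_exp_arg_mul_I (t - c)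
      rw [mem_sphere_iff_norm.1 ht] at this
      rw [circleMap, this, add_sub_cancel]
    have h7 := circ c hρ (arg (t - c)) k
    have h8 := h1 (arg (t - c))
    rw [h6] at h7 h8
    simp only [ψ]
    rw [h7, h8, ← exp_add, add_sub_cancel, exp_add, exp_log (h0 _ (hm 0))]

theorem uniq (hρ : 0 < ρ) (f : ℂ → ℂ) (k l : ℤ) (hk : Wn c ρ f k) (hl : Wn c ρ f l) : k = l := by
  obtain ⟨φ, hφ, h⟩ := hk.div hρ hl
  have hm := circleMap_mem_sphere c hρ.le
  have h1 : Continuous fun θ => φ (circleMap c ρ θ) :=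
    hφ.comp_continuous (continuous_circleMap c ρ) hm
  have h2 := const_exp (g := fun θ => ((k - l : ℤ) : ℂ) * (log ρ + θ * I) + φ (circleMap c ρ θ))
    (Continuous.add (by fun_prop) h1) (fun θ => by
      rw [exp_add, ← circ c hρ, ← h _ (hm θ)]
      exact div_self (hl.ne hρ (hm θ))) (0 + 2 * Real.pi) 0
  simp only [periodic_circleMap c ρ 0] at h2
  have h3 : ((k - l : ℤ) : ℂ) * (2 * Real.pi * I) = 0 := by
    push_cast at h2 ⊢
    linear_combination h2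
  have h4 := (mul_eq_zero.1 h3).resolve_right two_pi_I_ne_zero
  exact sub_eq_zero.1 (by exact_mod_cast h4)

theorem seg {s : ℝ} (hs : s ∈ Icc (0 : ℝ) 1) (t : ℂ) : ‖c + s * (t - c) - c‖ ≤ ‖t - c‖ := by
  rw [add_sub_cancel_left, norm_mul, norm_real, Real.norm_of_nonneg hs.1]
  exact mul_le_of_le_one_left (norm_nonneg _) hs.2

theorem disc (hρ : 0 < ρ) (f : ℂ → ℂ) (hf : ContinuousOn f (closedBall c ρ))
    (h0 : ∀ t ∈ closedBall c ρ, f t ≠ 0) : Wn c ρ f 0 := by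
  have hm : ∀ q ∈ Icc (0 : ℝ) 1 ×ˢ sphere c ρ, c + q.1 * (q.2 - c) ∈ closedBall c ρ :=
    fun q hq => mem_closedBall_iff_norm.2 ((seg hq.1 _).trans (mem_sphere_iff_norm.1 hq.2).le)
  obtain ⟨φ, hφ, h1⟩ := logH (sphere c ρ) (fun q => f (c + q.1 * (q.2 - c)))
    (hf.comp (by fun_prop) hm) fun q hq => h0 _ (hm q hq)
  refine ⟨fun t => log (f c) + φ t, continuousOn_const.add hφ, fun t ht => ?_⟩
  have := h1 t ht
  simp only [ofReal_one, one_mul, add_sub_cancel, ofReal_zero, zero_mul, add_zero] at this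
  rw [this, exp_add, exp_log (h0 c (mem_closedBall_self hρ.le)), zpow_zero, one_mul]

theorem band (H : ℝ × ℂ → ℂ) (hH : ContinuousOn H (Bn c ρ)) (h0 : ∀ q ∈ Bn c ρ, H q ≠ 0) :
    Wn c ρ (fun t => H (0, t) / H (1, t)) 0 := by
  obtain ⟨φ, hφ, h1⟩ := logH (sphere c ρ) H hH h0
  refine ⟨fun t => -φ t, hφ.neg, fun t ht => ?_⟩
  have h2 : H (0, t) ≠ 0 := h0 _ ⟨⟨le_rfl, zero_le_one⟩, ht⟩
  simp only [h1 t ht, zpow_zero, one_mul, exp_neg]
  rw [div_mul_cancel_left₀ h2]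

theorem lin {a : ℂ} (ha : a ∈ ball c ρ) : Wn c ρ (fun t => t - a) 1 := by
  obtain ⟨φ, hφ, h1⟩ := logH (sphere c ρ) (fun q => q.2 - (c + q.1 * (a - c))) (by fun_prop)
    fun q hq h => by
      have h2 := (seg (c := c) hq.1 a).trans_lt (mem_ball_iff_norm.1 ha)
      rw [← sub_eq_zero.1 h, mem_sphere_iff_norm.1 hq.2] at h2
      exact lt_irrefl _ h2
  refine ⟨φ, hφ, fun t ht => ?_⟩
  simpa using h1 t ht

theorem prod (hρ : 0 < ρ) (k : ℕ) (a : Fin k → ℂ) (ha : ∀ i, a i ∈ ball c ρ) :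
    Wn c ρ (fun t => ∏ i, (t - a i)) k := by
  induction k with
  | zero => simpa using Wn.const c ρ one_ne_zero
  | succ k ih =>
    simp only [Fin.prod_univ_castSucc]
    push_cast
    exact (ih (fun i => a i.castSucc) fun i => ha _).mul hρ (lin (ha _))

variable {E : Type} [NormedAddCommGroup E] [NormedSpace ℂ E]

/-- Removal of one zero. -/
theorem step {G : ℂ → E} {a : ℂ} (ha : a ∈ ball c ρ) (hG : ContinuousOn G (closedBall c ρ))
    (hU : UA (ball c ρ) G) (hn : ¬∀ᶠ w in 𝓝 a, G w = 0) : ∃ (m : ℕ) (G₁ : ℂ → E),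
      ContinuousOn G₁ (closedBall c ρ) ∧ UA (ball c ρ) G₁ ∧ G₁ a ≠ 0 ∧
        ∀ w, G w = (w - a) ^ m • G₁ w := by
  classical
  obtain ⟨e, φ, hφ, he⟩ := hU a ha
  obtain ⟨m, ψ, hψ, h0, hm⟩ := hφ.exists_eventuallyEq_pow_smul_nonzero_iff.2 fun h => hn (by
    filter_upwards [he, h] with w h1 h2
    rw [h1.2.2, h2, smul_zero])
  let G₁ : ℂ → E := fun w => if w = a then e a • ψ a else ((w - a) ^ m)⁻¹ • G w
  have h1 : ∀ᶠ w in 𝓝 a, G₁ w = e w • ψ w := by
    filter_upwards [he, hm] with w h1 h2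
    by_cases hw : w = a
    · simp [G₁, hw]
    · simp only [G₁, if_neg hw]
      rw [h1.2.2, h2, smul_comm (e w), inv_smul_smul₀ (pow_ne_zero _ (sub_ne_zero.2 hw))]
  have h2 : ∀ t, t ≠ a → ∀ᶠ w in 𝓝 t, w ≠ a ∧ G₁ w = ((w - a) ^ m)⁻¹ • G w := fun t ht => by
    filter_upwards [isOpen_ne.mem_nhds ht] with w hw
    exact ⟨hw, if_neg hw⟩
  have h3 : ∀ t, t ≠ a → ContinuousAt (fun w => ((w - a) ^ m)⁻¹) t := fun t ht =>
    ContinuousAt.inv₀ (by fun_prop) (pow_ne_zero _ (sub_ne_zero.2 ht))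
  refine ⟨m, G₁, fun t ht => ?_, fun t ht => ?_, ?_, fun w => ?_⟩
  · by_cases hta : t = a
    · subst hta
      exact ((he.self_of_nhds.1.smul hψ.continuousAt).congr
        (h1.mono fun _ h => h.symm)).continuousWithinAt
    · exact ((h3 t hta).continuousWithinAt.smul (hG t ht)).congr_of_eventuallyEq
        (((h2 t hta).mono fun _ h => h.2).filter_mono nhdsWithin_le_nhds) (if_neg hta)
  · by_cases hta : t = a
    · subst hta
      refine ⟨e, ψ, hψ, ?_⟩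
      filter_upwards [he, h1] with w h4 h5
      exact ⟨h4.1, h4.2.1, h5⟩
    · obtain ⟨e', φ', hφ', he'⟩ := hU t ht
      refine ⟨fun w => ((w - a) ^ m)⁻¹ * e' w, φ', hφ', ?_⟩
      filter_upwards [he', h2 t hta] with w h4 h5
      exact ⟨(h3 w h5.1).mul h4.1,
        mul_ne_zero (inv_ne_zero (pow_ne_zero _ (sub_ne_zero.2 h5.1))) h4.2.1,
        by rw [h5.2, h4.2.2, mul_smul]⟩
  · simp only [G₁, if_pos]
    exact smul_ne_zero he.self_of_nhds.2.1 h0
  · by_cases hw : w = a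
    · subst hw
      simp only [G₁, if_pos]
      rw [he.self_of_nhds.2.2, hm.self_of_nhds, smul_comm]
    · simp only [G₁, if_neg hw]
      rw [smul_inv_smul₀ (pow_ne_zero _ (sub_ne_zero.2 hw))]

theorem ind (F : Finset ℂ) : ∀ G : ℂ → E, (∀ a ∈ F, a ∈ ball c ρ) →
    ContinuousOn G (closedBall c ρ) → UA (ball c ρ) G →
    (∀ a ∈ F, ¬∀ᶠ w in 𝓝 a, G w = 0) → (∀ t ∈ closedBall c ρ, G t = 0 → t ∈ F) →
    ∃ k, Zv c ρ G k := by
  classical
  induction F using Finset.induction_on with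
  | empty =>
    intro G _ hG _ _ h0
    exact ⟨0, Fin.elim0, G, fun i => i.elim0, hG, fun t ht => ⟨fun h => by simpa using h0 t ht h,
      by simp⟩⟩
  | insert a F _ ih =>
    intro G hF hG hU hn h0
    have ha := hF a (Finset.mem_insert_self a F)
    obtain ⟨m, G₁, c1, u1, n1, e1⟩ := step ha hG hU (hn a (Finset.mem_insert_self a F))
    obtain ⟨k, b, U, hb, hUc, h⟩ := ih G₁ (fun x hx => hF x (Finset.mem_insert_of_mem hx)) c1 u1
      (fun x hx h => hn x (Finset.mem_insert_of_mem hx)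
        (h.mono fun w hw => by rw [e1, hw, smul_zero]))
      fun t ht h => (Finset.mem_insert.1 (h0 t ht (by rw [e1, h, smul_zero]))).resolve_left
        fun hta => n1 (hta ▸ h)
    refine ⟨m + k, Fin.append (fun _ => a) b, U, fun i => ?_, hUc, fun t ht => ⟨(h t ht).1, ?_⟩⟩
    · refine Fin.addCases (fun j => ?_) (fun j => ?_) i
      · simpa using ha
      · simpa using hb j
    · rw [e1, (h t ht).2, Fin.prod_univ_add, smul_smul]
      simp

theorem alt {G : ℂ → E} (hU : UA (ball c ρ) G) {t : ℂ} (ht : t ∈ ball c ρ) :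
    (∀ᶠ w in 𝓝 t, G w = 0) ∨ ∀ᶠ w in 𝓝[≠] t, G w ≠ 0 := by
  obtain ⟨e, φ, hφ, he⟩ := hU t ht
  refine hφ.eventually_eq_zero_or_eventually_ne_zero.imp (fun h => ?_) fun h => ?_
  · filter_upwards [he, h] with w h1 h2
    rw [h1.2.2, h2, smul_zero]
  · filter_upwards [he.filter_mono nhdsWithin_le_nhds, h] with w h1 h2
    rw [h1.2.2]
    exact smul_ne_zero h1.2.1 h2

theorem nloc (hρ : 0 < ρ) {G : ℂ → E} (hG : ContinuousOn G (closedBall c ρ))
    (h0 : ∀ t ∈ sphere c ρ, G t ≠ 0) (hU : UA (ball c ρ) G) {t : ℂ} (ht : t ∈ ball c ρ) :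
    ¬∀ᶠ w in 𝓝 t, G w = 0 := by
  intro h
  have h1 : ball c ρ ⊆ {x | ∀ᶠ w in 𝓝 x, G w = 0} := by
    refine (convex_ball c ρ).isPreconnected.subset_of_closure_inter_subset
      isOpen_setOfPred_eventually_nhds ⟨t, ht, h⟩ fun x hx => (alt hU hx.2).elim id fun h2 => ?_
    obtain ⟨w, hw, h3⟩ := ((mem_closure_iff_frequently.1 hx.1).and_eventually
      (eventually_nhdsWithin_iff.1 h2)).exists
    by_cases hwx : w = x
    · exact hwx ▸ hw
    · exact absurd (Filter.Eventually.self_of_nhds hw) (h3 hwx)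
  have h2 : EqOn G (fun _ => 0) (closedBall c ρ) :=
    EqOn.of_subset_closure (s := ball c ρ)
      (fun x hx => Filter.Eventually.self_of_nhds (p := fun w => G w = 0) (h1 hx)) hG
      continuousOn_const ball_subset_closedBall (closure_ball c hρ.ne').ge
  have hm := circleMap_mem_sphere c hρ.le 0
  exact h0 _ hm (h2 (sphere_subset_closedBall hm))

end Wind

theorem wind : WindStmt := fun _ _ hρ =>
  ⟨Wind.ex hρ, Wind.uniq hρ, Wind.disc hρ, Wind.band, Wind.prod hρ⟩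

theorem fac : FacStmt := by
  intro E _ _ _ c ρ G hρ hG h0 hU
  have hb : ∀ t ∈ closedBall c ρ, G t = 0 → t ∈ ball c ρ := fun t ht h =>
    mem_ball.2 (lt_of_le_of_ne (mem_closedBall.1 ht) fun h' => h0 t (mem_sphere.2 h') h)
  have hZ : IsCompact (closedBall c ρ ∩ G ⁻¹' {0}) :=
    (isCompact_closedBall c ρ).of_isClosed_subset
      (hG.preimage_isClosed_of_isClosed isClosed_closedBall isClosed_singleton) inter_subset_left
  obtain ⟨F, hF, hc⟩ := hZ.elim_nhds_subcover (fun t => {w | w ≠ t → G w ≠ 0}) fun t ht =>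
    eventually_nhdsWithin_iff.1 ((Wind.alt hU (hb t ht.1 ht.2)).resolve_left
      (Wind.nloc hρ hG h0 hU (hb t ht.1 ht.2)))
  refine Wind.ind F G (fun a ha => hb a (hF a ha).1 (hF a ha).2) hG hU
    (fun a ha => Wind.nloc hρ hG h0 hU (hb a (hF a ha).1 (hF a ha).2)) fun t ht h => ?_
  obtain ⟨x, hx, h1⟩ := mem_iUnion₂.1 (hc ⟨ht, h⟩)
  by_cases htx : t = x
  · exact htx ▸ hx
  · exact absurd h (h1 htx)

end Pool.Agent.MP_c69980_ag.E1
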