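import Pool.Agent.MP_c69980_ag.E1.BaseC
import Pool.Agent.MP_c69980_ag.E1.Wind

/-!
The degrees of the fields of secant lines on the sphere made of two sections and a band.
-/

set_option autoImplicit false

noncomputable section

namespace Pool.Agent.MP_c69980_ag.E1

open Metric Filter Topology Set
open H60 H4

namespace StarAX

variable {n : ℕ} {X : Set (Pt n)} {a j : Fin n} {U : Set (ℂ × ℂ)} {Y : ℂ × ℂ → V n} {c : ℂ}
  {ρ r : ℝ} {s s' σ v : ℂ → V n}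

lemma zb0 (a j : Fin n) (s s' : ℂ → V n) (t : ℂ) : zb a j s s' (0, t) = s t a / s t j := by
  simp [zb]

lemma zb1 (a j : Fin n) (s s' : ℂ → V n) (t : ℂ) : zb a j s s' (1, t) = s' t a / s' t j := by
  simp [zb]

lemma bn0 {t : ℂ} (ht : t ∈ sphere c ρ) : ((0 : ℝ), t) ∈ Bn c ρ := ⟨⟨le_rfl, zero_le_one⟩, ht⟩

lemma bn1 {t : ℂ} (ht : t ∈ sphere c ρ) : ((1 : ℝ), t) ∈ Bn c ρ := ⟨⟨zero_le_one, le_rfl⟩, ht⟩

lemma cont (hr : ρ < r) (hs : Nm X (ball c r) s id) : ContinuousOn s (closedBall c ρ) :=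
  hs.1.1.continuousOn.mono (closedBall_subset_ball hr)

lemma pc (hr : ρ < r) (hs : Nm X (ball c r) s id) : PC (closedBall c ρ) s :=
  .of_cont (cont hr hs) fun t ht => hs.1.2 t (closedBall_subset_ball hr ht)

lemma px (hr : ρ < r) (hs : Nm X (ball c r) s id) :
    PX (Xr X c ρ) (closedBall c ρ) fun t => (t, s t) :=
  ⟨continuousOn_id, pc hr hs, fun t ht =>
    ⟨hs.2.2 t (closedBall_subset_ball hr ht), mem_closedBall_iff_norm.1 ht⟩⟩

/-- The fibre coordinates over the circle. -/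
lemma tb (hr : ρ < r) (hC : Chart X a j U Y) (hs : Nm X (ball c r) s id)
    (hs' : Nm X (ball c r) s' id) (hT : Tb a j U Y c ρ s s') :
    (∀ t ∈ sphere c ρ, (t, s t a / s t j) ∈ U ∧ (t, s' t a / s' t j) ∈ U) ∧
    ContinuousOn (fun t => s t a / s t j) (sphere c ρ) ∧
    ContinuousOn (fun t => s' t a / s' t j) (sphere c ρ) ∧ ContinuousOn (zb a j s s') (Bn c ρ) := by
  have h1 : ∀ t ∈ sphere c ρ, (t, s t a / s t j) ∈ U ∧ (t, s' t a / s' t j) ∈ U := fun t ht =>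
    ⟨zb0 a j s s' t ▸ hT.2 _ (bn0 ht), zb1 a j s s' t ▸ hT.2 _ (bn1 ht)⟩
  have h2 := ((pc hr hs).mono sphere_subset_closedBall).ratio a
    fun t ht => (hC.eq (h1 t ht).1 (hT.1 t ht).1).1
  have h3 := ((pc hr hs').mono sphere_subset_closedBall).ratio a
    fun t ht => (hC.eq (h1 t ht).2 (hT.1 t ht).2).1
  refine ⟨h1, h2, h3, ContinuousOn.add (ContinuousOn.mul (by fun_prop) ?_)
    (ContinuousOn.mul (by fun_prop) ?_)⟩
  · exact h2.comp continuousOn_snd fun q hq => hq.2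
  · exact h3.comp continuousOn_snd fun q hq => hq.2

lemma pcSS (h1 : SecStmt) (hX : Cn X) (hN : NonregP X) (hr : ρ < r) (hs : Nm X (ball c r) s id)
    (hσ : Nm X (ball c r) σ id) : PC (closedBall c ρ) fun t => SS X t (σ t) (s t) :=
  (h1 n X hX).1 ℂ _ id σ s continuousOn_id (pc hr hσ) (pc hr hs) fun t ht =>
    ⟨hσ.rx hX hN isOpen_ball (closedBall_subset_ball hr ht),
      hs.2.2 t (closedBall_subset_ball hr ht)⟩

/-- The unit in the factorisation generates the field of secant lines. -/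
lemma lift (h1 : SecStmt) (hX : Cn X) (hN : NonregP X) (hρ : 0 < ρ) (hr : ρ < r)
    (hs : Nm X (ball c r) s id) (hσ : Nm X (ball c r) σ id) {I : ℕ} {b : Fin I → ℂ}
    {W : ℂ → Wg n} (hW : ContinuousOn W (closedBall c ρ)) (h : ∀ t ∈ closedBall c ρ,
      W t ≠ 0 ∧ wg (σ t) (s t) = (∏ i, (t - b i)) • W t) :
    Lf (closedBall c ρ) (fun t => SS X t (σ t) (s t)) W := by
  refine ⟨hW, fun t ht => ⟨(h t ht).1, (pcSS h1 hX hN hr hs hσ).pp_of_freq ht (hW t ht)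
    (h t ht).1 ?_⟩⟩
  have h2 : Dense (range b)ᶜ := (finite_range b).countable.dense_compl ℂ
  have h3 : t ∈ closure (ball c ρ ∩ (range b)ᶜ) :=
    closure_minimal (h2.open_subset_closure_inter isOpen_ball) isClosed_closure
      ((closure_ball c hρ.ne').ge ht)
  refine frequently_nhdsWithin_iff.2 ((mem_closure_iff_frequently.1 h3).mono fun w hw => ?_)
  have h4 := ball_subset_closedBall hw.1
  have h5 : (∏ i, (w - b i)) ≠ 0 :=
    Finset.prod_ne_zero_iff.2 fun i _ => sub_ne_zero.2 fun e => hw.2 ⟨i, e.symm⟩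
  have h6 := closedBall_subset_ball hr h4
  have h7 : ¬Pp (s w) (σ w) := fun q => smul_ne_zero h5 (h w h4).1
    ((h w h4).2.symm.trans ((wg_eq_zero (hσ.1.2 w h6) (hs.1.2 w h6)).2 q))
  exact ⟨⟨_, h5, (if_neg h7).trans (h w h4).2⟩, h4⟩

/-- The band for a section that lies in the chart. -/
lemma band (h1 : SecStmt) (hX : Cn X) (hC : Chart X a j U Y) {z : ℂ → ℂ} {ζ : ℝ × ℂ → ℂ}
    (hz : ContinuousOn z (sphere c ρ)) (hζ : ContinuousOn ζ (Bn c ρ))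
    (m : ∀ t ∈ sphere c ρ, (t, z t) ∈ U ∧ Pp (s t) (Y (t, z t)))
    (m' : ∀ q ∈ Bn c ρ, (q.2, ζ q) ∈ U) :
    Lf (Bn c ρ) (fun q => SS X q.2 (s q.2) (Y (q.2, ζ q)))
      fun q => wg (Y (q.2, z q.2)) (dd Y q.2 (z q.2) (ζ q)) := by
  have c1 : ContinuousOn (fun q : ℝ × ℂ => z q.2) (Bn c ρ) :=
    hz.comp continuousOn_snd fun q hq => hq.2
  refine ⟨wg_contOn (hC.cont.comp (continuousOn_snd.prodMk c1) fun q hq => (m _ hq.2).1)
    ((dd_cont hC.2.1).comp (continuousOn_snd.prodMk (c1.prodMk hζ))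
      fun q hq => ⟨(m _ hq.2).1, m' q hq⟩), fun q hq => ⟨hC.wg_dd_ne (m _ hq.2).1 (m' q hq), ?_⟩⟩
  exact ((h1 n X hX).2.1 _ _ _ _ _ (hC.rx (m _ hq.2).1 (m _ hq.2).2) (m _ hq.2).2 (.refl _)).trans
    ((h1 n X hX).2.2.2 a j U Y hC _ _ _ (m _ hq.2).1 (m' q hq))

/-- The tangent lines along a section. -/
lemma self (hX : Cn X) (hN : NonregP X) (hr : ρ < r) (hs : Nm X (ball c r) s id)
    (hv : VL X c ρ s v) :
    Lf (closedBall c ρ) (fun t => SS X t (s t) (s t)) fun t => wg (s t) (v t) := by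
  refine ⟨hv.1, fun t ht => ⟨(hv.2 t ht).1, ?_⟩⟩
  have h2 := hs.rx hX hN isOpen_ball (closedBall_subset_ball hr ht)
  exact (Pp.of_eq (if_pos (.refl _))).trans
    (Rx.vt_pp hX h2 (.refl _) (hv.2 t ht) (Rx.vt hX h2))

/-- The scalar of a vertical vector field in the chart. -/
lemma scal {N m : ℕ} {L : PeriodPair} {Φ : Fin N → Pt n → V n → ℂ} (F : Frm L X m Φ) (hX : Cn X)
    (hC : Chart X a j U Y) {z : ℂ → ℂ} (hz : ContinuousOn z (sphere c ρ))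
    (h : ∀ t ∈ sphere c ρ, (t, z t) ∈ U ∧ Pp (s t) (Y (t, z t))) (hv : VL X c ρ s v) (i : Fin N) :
    ∃ μ : ℂ → ℂ, ContinuousOn μ (sphere c ρ) ∧ ∀ t ∈ sphere c ρ, μ t ≠ 0 ∧
      wg (s t) (v t) = μ t • wg (Y (t, z t)) (dz Y (t, z t)) ∧
      Φ i (t, s t) (v t) = (μ t / s t j ^ 2) ^ m * fc Φ Y i (t, z t) := by
  have c1 : ContinuousOn (fun t => ((t, z t) : ℂ × ℂ)) (sphere c ρ) := continuousOn_id.prodMk hz
  have c2 : ContinuousOn (dz Y) U := fun p hp => (dz_an (hC.an hp)).continuousAt.continuousWithinAt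
  obtain ⟨μ, hμ, e⟩ := ratio (hv.1.mono sphere_subset_closedBall)
    (wg_contOn (hC.cont.comp c1 fun t ht => (h t ht).1) (c2.comp c1 fun t ht => (h t ht).1))
    (fun t ht => hC.wg_ne (h t ht).1)
    fun t ht => hC.vt_pp hX (h t ht).1 (h t ht).2 (hv.2 t (sphere_subset_closedBall ht))
  refine ⟨μ, hμ, fun t ht => ⟨(e t ht).1, (e t ht).2, ?_⟩⟩
  obtain ⟨κ, -, k1, -, k2⟩ := F.vt hX hC (h t ht).1 (h t ht).2
    (hv.2 t (sphere_subset_closedBall ht))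
  have k3 : μ t = s t j ^ 2 * κ :=
    smul_left_injective ℂ (hC.wg_ne (h t ht).1) ((e t ht).2.symm.trans k1)
  rw [k3, mul_div_cancel_left₀ _ (pow_ne_zero 2 (hC.eq (h t ht).1 (h t ht).2).1)]
  exact k2 i

end StarAX

open StarAX

theorem starA (h1 : SecStmt) (h2 : WindStmt) : StarAStmt := by
  intro n D a j U Y c ρ r s s' σ ν I J hρ hr hC hs hs' hσ hT hm hν hI hJ
  have hX := D.cov.cn
  obtain ⟨t1, -, -, t4⟩ := tb hr hC hs hs' hT
  have cY : ContinuousOn (fun q : ℝ × ℂ => Y (q.2, zb a j s s' q)) (Bn c ρ) :=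
    hC.cont.comp (continuousOn_snd.prodMk t4) hT.2
  have sb : ∀ q ∈ Bn c ρ, q.2 ∈ closedBall c ρ := fun q hq => sphere_subset_closedBall hq.2
  refine ⟨⟨px hr hs, px hr hs', ⟨continuousOn_snd, .of_cont cY fun q hq => hC.ne (hT.2 q hq),
    fun q hq => ⟨hC.mem (hT.2 q hq), mem_closedBall_iff_norm.1 (sb q hq)⟩⟩, fun t ht =>
      ⟨rfl, ?_, rfl, ?_⟩⟩, ?_⟩
  · simp only [zb0]
    exact (hT.1 t ht).1.symm
  · simp only [zb1]
    exact (hT.1 t ht).2.symm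
  obtain ⟨b, W, hb, hW, e⟩ := hI
  obtain ⟨b', W', hb', hW', e'⟩ := hJ
  simp only at e e'
  have w1 := (h2 c ρ hρ).2.2.2.2 I b hb
  have w2 := (h2 c ρ hρ).2.2.2.2 J b' hb'
  refine ⟨W, W', fun q => wg (σ q.2) (Y (q.2, zb a j s s' q)),
    fun t => s t j / ∏ i, (t - b i), fun t => s' t j / ∏ i, (t - b' i),
    lift h1 hX D.nonreg hρ hr hs hσ hW e, lift h1 hX D.nonreg hρ hr hs' hσ hW' e',
    ⟨wg_contOn ((cont hr hσ).comp continuousOn_snd sb) cY, fun q hq => ⟨fun h0 => hm q hq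
      ((wg_eq_zero (hσ.1.2 _ (closedBall_subset_ball hr (sb q hq))) (hC.ne (hT.2 q hq))).1
        h0).symm, .of_eq (if_neg fun h => hm q hq h.symm)⟩⟩, fun t ht => ⟨?_, ?_⟩,
    ((hν.mul hρ w2).div hρ w1).congr fun t ht => ?_⟩
  · simp only [zb0]
    rw [div_eq_inv_mul, mul_smul, ← wg_smul_right, ← (hC.eq (t1 t ht).1 (hT.1 t ht).1).2,
      (e t (sphere_subset_closedBall ht)).2, inv_smul_smul₀ (w1.ne hρ ht)]
  · simp only [zb1]
    rw [div_eq_inv_mul, mul_smul, ← wg_smul_right, ← (hC.eq (t1 t ht).2 (hT.1 t ht).2).2,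
      (e' t (sphere_subset_closedBall ht)).2, inv_smul_smul₀ (w2.ne hρ ht)]
  · have := w1.ne hρ ht
    have := w2.ne hρ ht
    have := (hC.eq (t1 t ht).2 (hT.1 t ht).2).1
    field_simp

theorem starB (h1 : SecStmt) (h2 : WindStmt) (h3 : HCStmt) : StarBStmt := by
  intro n D a j U Y c ρ r s s' v v' i ν k k' hρ hr hC hs hs' hT hf hν hv hv' hk hk'
  have hX := D.cov.cn
  obtain ⟨t1, t2, t3, t4⟩ := tb hr hC hs hs' hT
  obtain ⟨w1, w2, -, w4, -⟩ := h2 c ρ hρ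
  have m : ∀ t ∈ sphere c ρ, (t, s t a / s t j) ∈ U ∧ Pp (s t) (Y (t, s t a / s t j)) :=
    fun t ht => ⟨(t1 t ht).1, (hT.1 t ht).1⟩
  have m' : ∀ t ∈ sphere c ρ, (t, s' t a / s' t j) ∈ U ∧ Pp (s' t) (Y (t, s' t a / s' t j)) :=
    fun t ht => ⟨(t1 t ht).2, (hT.1 t ht).2⟩
  have rx : ∀ t ∈ closedBall c ρ, (t, s t) ∈ Rx D.X ∧ (t, s' t) ∈ Rx D.X := fun t ht =>
    ⟨hs.rx hX D.nonreg isOpen_ball (closedBall_subset_ball hr ht),
      hs'.rx hX D.nonreg isOpen_ball (closedBall_subset_ball hr ht)⟩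
  obtain ⟨W, hW⟩ := h3 _ c ρ _ (pcSS h1 hX D.nonreg hr hs' hs)
  have hW' : Lf (closedBall c ρ) (fun t => SS D.X t (s' t) (s t)) W :=
    hW.congr fun t ht => (h1 n D.X hX).2.2.1 _ _ _ (rx t ht).2 (rx t ht).1
  have b1 := band h1 hX hC t2 t4 m hT.2
  have b2 := band h1 hX hC t3 t4 m' hT.2
  obtain ⟨μ, c1, e1⟩ := scal D.frm hX hC t2 m hv i
  obtain ⟨μ', c2, e2⟩ := scal D.frm hX hC t3 m' hv' i
  have b3 := b1.comp (φ := fun t => ((1 : ℝ), t)) (L := sphere c ρ) (by fun_prop) fun t ht => bn1 ht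
  simp only [zb1] at b3
  obtain ⟨q, c3, e3⟩ := ratio (hW.1.mono sphere_subset_closedBall) b3.1 (fun t ht => (b3.2 t ht).1)
    fun t ht => ((hW.2 t (sphere_subset_closedBall ht)).2.symm.trans ((h1 n D.X hX).2.1 _ _ _ _ _
      (rx t (sphere_subset_closedBall ht)).1 (.refl _) (m' t ht).2)).trans (b3.2 t ht).2
  obtain ⟨d, hd⟩ := w1 (fun t => μ t / q t) (c1.div c3 fun t ht => (e3 t ht).1)
    fun t ht => div_ne_zero (e1 t ht).1 (e3 t ht).1
  obtain ⟨d', hd'⟩ := w1 (fun t => q t / μ' t) (c3.div c2 fun t ht => (e2 t ht).1)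
    fun t ht => div_ne_zero (e3 t ht).1 (e2 t ht).1
  refine ⟨d, d', ⟨_, W, _, μ, q, self hX D.nonreg hr hs hv, hW, b1, fun t ht => ⟨?_, ?_⟩, hd⟩,
    ⟨W, _, _, q, μ', hW', self hX D.nonreg hr hs' hv', b2, fun t ht => ⟨?_, ?_⟩, hd'⟩, ?_⟩
  · simp only [zb0, dd_self]
    exact (e1 t ht).2.1
  · simp only [zb1]
    exact (e3 t ht).2
  · simp only [zb0]
    rw [dd_symm, wg_dd']
    exact (e3 t ht).2
  · simp only [zb1, dd_self]
    exact (e2 t ht).2.1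
  have a1 := w4 (fun q => fc D.Φ Y i (q.2, zb a j s s' q))
    ((D.frm.an a j U Y hC i).continuousOn.comp (continuousOn_snd.prodMk t4) hT.2) hf
  simp only [zb0, zb1] at a1
  have a2 := ((((hd.mul hρ hd').div hρ (hν.pow 2)).pow D.m).mul hρ a1).congr
    (g := fun t => D.Φ i (t, s t) (v t) / D.Φ i (t, s' t) (v' t)) fun t ht => by
      have := (e1 t ht).1
      have := (e2 t ht).1
      have := (e3 t ht).1
      have := (hC.eq (m t ht).1 (m t ht).2).1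
      have := (hC.eq (m' t ht).1 (m' t ht).2).1
      rw [(e1 t ht).2.2, (e2 t ht).2.2, mul_div_mul_comm, ← div_pow]
      congr 2
      field_simp
  have a3 := w2 _ _ _ ((hk.wn h2 hρ).div hρ (hk'.wn h2 hρ)) a2
  rw [a3]
  push_cast
  ring

end Pool.Agent.MP_c69980_ag.E1
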