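import Pool.Agent.MP_c69980_ag.E1.WCA

/-!
Charts of a smooth surface, its tangent spaces, and the function `t` in a chart.
-/

set_option autoImplicit false

noncomputable section

namespace Pool.Agent.MP_c69980_ag.E1

open MvPolynomial Metric Filter Topology Set
open H60 H4

namespace WC

variable {n : ℕ} {W : Set (PS n)} {a b j : Fin n} {U : Set (ℂ × ℂ)} {Y : ℂ × ℂ → V n} {q : ℂ × ℂ}

lemma coord (hY : AnalyticAt ℂ Y q) (i : Fin n) {L : ℂ × ℂ →L[ℂ] ℂ} {s : ℂ}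
    (h : ∀ᶠ p in 𝓝 q, Y p i = L p + s) (v : ℂ × ℂ) : fderiv ℂ Y q v i = L v := by
  have h1 : HasFDerivAt (fun p => Y p i) ((ContinuousLinearMap.proj i).comp (fderiv ℂ Y q)) q :=
    hasFDerivAt_pi'.1 hY.differentiableAt.hasFDerivAt i
  have h2 : HasFDerivAt (fun p => Y p i) L q :=
    (L.hasFDerivAt.add_const s).congr_of_eventuallyEq h
  exact congrArg (· v) (h1.unique h2)

lemma coords (h : WCh W a b j U Y) (hq : q ∈ U) (v : ℂ × ℂ) :
    fderiv ℂ Y q v a = v.1 ∧ fderiv ℂ Y q v b = v.2 ∧ fderiv ℂ Y q v j = 0 := by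
  have e := h.1.eventually_mem hq
  exact ⟨coord (h.2.1 q hq) a (L := .fst ℂ ℂ ℂ) (s := 0)
      (e.mono fun p hp => by simpa using (h.2.2 p hp).2.1) v,
    coord (h.2.1 q hq) b (L := .snd ℂ ℂ ℂ) (s := 0)
      (e.mono fun p hp => by simpa using (h.2.2 p hp).2.2.1) v,
    coord (h.2.1 q hq) j (L := 0) (s := 1) (e.mono fun p hp => by simpa using (h.2.2 p hp).1) v⟩

lemma quo (a b : Fin n) {y : V n} (h : y j ≠ 0) :
    AnalyticAt ℂ (fun w : V n => (w a / w j, w b / w j)) y :=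
  have e : ∀ i, AnalyticAt ℂ (fun w : V n => w i) y := fun i =>
    (ContinuousLinearMap.proj i : V n →L[ℂ] ℂ).analyticAt y
  ((e a).div (e j) h).prod ((e b).div (e j) h)

lemma nrm_tend {y : V n} (h : y j = 1) (s : ℂ) :
    Tendsto (fun w : V n => (s / w j) • w) (𝓝 y) (𝓝 (s • y)) := by
  have : ContinuousAt (fun w : V n => (s / w j) • w) y :=
    (continuousAt_const.div (continuous_apply j).continuousAt (by simp [h])).smul continuousAt_id
  simpa [h] using this.tendsto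

lemma rx_smul {X : Set (Pt n)} {t s : ℂ} {y : V n} (hs : s ≠ 0) (h : (t, y) ∈ Rx X) :
    (t, s • y) ∈ Rx X := by
  obtain ⟨a, j, U, Y, hc, z, hz, r, hr, e⟩ := h
  exact ⟨a, j, U, Y, hc, z, hz, s * r, mul_ne_zero hs hr, by
    rw [mul_smul]; exact congrArg (s • ·) e⟩

end WC

open WC

theorem wc : WCStmt := by
  intro n W h y hy
  obtain ⟨c, e, P, d, g, hc, hP, hg, h0, hr, hW⟩ := smo h hy
  have hz : ∀ k, eval y (P k) = 0 := (hW y hy.1 h0).1 hy
  obtain ⟨a, b, j, hj, hi⟩ := pick hr (mem_Kr.2 fun k => euler (hP k) (hz k)) hy.1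
  let f : V n → (Fin c → ℂ) × (ℂ × ℂ) × ℂ := fun w => (fun k => eval w (P k), (w a, w b), w j)
  have ea : ∀ i, AnalyticAt ℂ (fun w : V n => w i) y := fun i =>
    (ContinuousLinearMap.proj i : V n →L[ℂ] ℂ).analyticAt y
  have hf : AnalyticAt ℂ f y :=
    (AnalyticAt.pi fun k => an (P k) y).prod (((ea a).prod (ea b)).prod (ea j))
  have hf' : HasFDerivAt f ((ContinuousLinearMap.pi fun k => gr (P k) y).prod
      (((ContinuousLinearMap.proj a).prod (ContinuousLinearMap.proj b)).prod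
        (ContinuousLinearMap.proj j))) y :=
    (hasFDerivAt_pi.2 fun k => hasF (P k) y).prodMk
      (((hasFDerivAt_apply a y).prodMk (hasFDerivAt_apply b y)).prodMk (hasFDerivAt_apply j y))
  obtain ⟨G, hG, hl, hrr⟩ := WC.inv hf hf' (fun v hv => by
    simp only [ContinuousLinearMap.prod_apply, Prod.mk_eq_zero, ContinuousLinearMap.proj_apply,
      funext_iff, ContinuousLinearMap.pi_apply, Pi.zero_apply] at hv
    exact hi v (mem_Kr.2 hv.1) hv.2.1.1 hv.2.1.2 hv.2.2) (by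
    simp only [Module.finrank_prod, Module.finrank_fin_fun, Module.finrank_self]
    omega)
  let ι : ℂ × ℂ → (Fin c → ℂ) × (ℂ × ℂ) × ℂ := fun p => (0, y j • p, y j)
  have hι : ∀ p, AnalyticAt ℂ ι p := fun p =>
    analyticAt_const.prod ((analyticAt_const.fun_smul analyticAt_id).prod analyticAt_const)
  let q : ℂ × ℂ := (y a / y j, y b / y j)
  have hq : ι q = f y := by
    refine Prod.ext (funext fun k => (hz k).symm) (Prod.ext (Prod.ext ?_ ?_) rfl) <;>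
      exact mul_div_cancel₀ _ hj
  have hy' : G (f y) = y := hl.self_of_nhds
  have t1 : Tendsto ι (𝓝 q) (𝓝 (f y)) := hq ▸ (hι q).continuousAt.tendsto
  have t2 : Tendsto G (𝓝 (f y)) (𝓝 y) := by simpa [hy'] using hG.continuousAt.tendsto
  have ev : ∀ᶠ p in 𝓝 q, AnalyticAt ℂ G (ι p) ∧ f (G (ι p)) = ι p ∧
      ∀ᶠ w in 𝓝 (G (ι p)), G (f w) = w ∧ eval w g ≠ 0 :=
    (t1.eventually hG.eventually_analyticAt).and ((t1.eventually hrr).and ((t2.comp t1).eventually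
      (hl.and ((an g y).continuousAt.eventually_ne h0)).eventually_nhds))
  obtain ⟨U, hU, hUo, hqU⟩ := _root_.eventually_nhds_iff.1 ev
  refine ⟨a, b, j, U, fun p => (y j)⁻¹ • G (ι p), ⟨hUo, fun p hp =>
    analyticAt_const.fun_smul ((hU p hp).1.comp (hι p)), fun p hp => ?_⟩, q, hqU, y j, hj, ?_⟩
  · obtain ⟨-, h1, h2⟩ := hU p hp
    have h3 : G (ι p) j = y j := congrArg (·.2.2) h1
    have h4 : G (ι p) a = y j * p.1 := congrArg (·.2.1.1) h1
    have h5 : G (ι p) b = y j * p.2 := congrArg (·.2.1.2) h1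
    have h6 : G (ι p) ≠ 0 := fun e => hj (by rw [← h3, e]; rfl)
    have h7 : ((y j)⁻¹ • G (ι p)) j = 1 := by simp [h3, hj]
    refine ⟨h7, by simp [h4, hj], by simp [h5, hj], cone_smul ((hW _ h6 h2.self_of_nhds.2).2
      fun k => congrArg (·.1 k) h1) (inv_ne_zero hj), ?_⟩
    have t3 := nrm_tend h7 (y j)
    rw [smul_inv_smul₀ hj] at t3
    filter_upwards [t3.eventually h2, (continuous_apply j).continuousAt.eventually_ne
      (h7.trans_ne one_ne_zero)] with w h8 h9 hw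
    have h10 := cone_smul hw (div_ne_zero hj h9)
    have h11 : ι (w a / w j, w b / w j) = f ((y j / w j) • w) := by
      refine Prod.ext (funext fun k => ((hW _ h10.1 h8.2).1 h10 k).symm)
        (Prod.ext (Prod.ext ?_ ?_) ?_) <;> simp only [ι, f, Prod.smul_mk, smul_eq_mul,
          Pi.smul_apply] <;> field_simp
    simp only [h11, h8.1, smul_smul]
    rw [show w j * ((y j)⁻¹ * (y j / w j)) = 1 by field_simp, one_smul]
  · simp only [hq, hy', smul_inv_smul₀ hj]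

theorem tan : TanStmt := by
  intro n W a b j U Y h hY q hq
  obtain ⟨h1, h2, h3, hy, -⟩ := hY.2.2 q hq
  obtain ⟨c, e, P, d, g, hc, hP, hg, h0, hr, hW⟩ := smo h hy
  refine ⟨c, P, g, fun k => ⟨_, hP k⟩, ⟨_, hg⟩, h0, hc, fun y hy h => (hW y hy.1 h).1 hy,
    fun v hv => ?_⟩
  have hv' : v ∈ Kr P (Y q) := mem_Kr.2 fun k => by rw [gr_apply, hv]
  have hA := hY.2.1 q hq
  have m1 : ∀ u, fderiv ℂ Y q u ∈ Kr P (Y q) := fun u => mem_Kr.2 fun k => by
    have d1 := (hasF (P k) (Y q)).comp q hA.differentiableAt.hasFDerivAt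
    have d2 : HasFDerivAt ((fun w : V n => eval w (P k)) ∘ Y) (0 : ℂ × ℂ →L[ℂ] ℂ) q := by
      refine (hasFDerivAt_const (0 : ℂ) q).congr_of_eventuallyEq ?_
      filter_upwards [hY.1.eventually_mem hq,
        ((an g (Y q)).continuousAt.comp hA.continuousAt).eventually_ne h0] with p hp h4
      exact (hW _ (hY.2.2 p hp).2.2.2.1.1 h4).1 (hY.2.2 p hp).2.2.2.1 k
    exact congrArg (· u) (d1.unique d2)
  have m2 : Y q ∈ Kr P (Y q) := mem_Kr.2 fun k => euler (hP k) ((hW _ hy.1 h0).1 hy k)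
  obtain ⟨c1, c2, c3⟩ := coords hY hq (1, 0)
  obtain ⟨c4, c5, c6⟩ := coords hY hq (0, 1)
  have l1 := ct_lt m2 (h1.trans_ne one_ne_zero)
  have l2 := ct_lt (mem_ct.2 ⟨m1 (1, 0), c3⟩) (c1.trans_ne one_ne_zero)
  have l3 := ct_lt (mem_ct.2 ⟨mem_ct.2 ⟨m1 (0, 1), c6⟩, c4⟩) (c5.trans_ne one_ne_zero)
  have hb : ct (ct (ct (Kr P (Y q)) j) a) b = ⊥ := Submodule.finrank_eq_zero.1 (by omega)
  rw [← sub_eq_zero, ← Submodule.mem_bot ℂ, ← hb]
  refine mem_ct.2 ⟨mem_ct.2 ⟨mem_ct.2 ⟨sub_mem hv' (add_mem (add_mem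
    (Submodule.smul_mem _ _ (m1 _)) (Submodule.smul_mem _ _ (m1 _)))
    (Submodule.smul_mem _ _ m2)), ?_⟩, ?_⟩, ?_⟩ <;>
    simp only [dt, dz, Pi.sub_apply, Pi.add_apply, Pi.smul_apply, smul_eq_mul, c1, c2, c3, c4, c5,
      c6, h1, h2, h3] <;> ring

theorem wt (h : GenStmt) : WTStmt := by
  intro n L W X a b j U Y q t hC hY hq hx
  obtain ⟨h1, h2, h3, hy, h4⟩ := hY.2.2 q hq
  have hA := hY.2.1 q hq
  obtain ⟨T, hT, e1, e2, e3⟩ := hC.loc _ hx
  replace e1 : T (Y q) = t := e1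
  have hj : Y q j ≠ 0 := h1.trans_ne one_ne_zero
  have hT' : AnalyticAt ℂ (fun p => T (Y p)) q := AnalyticAt.comp (f := Y) hT hA
  have f1 : ∀ᶠ p in 𝓝 q, (T (Y p), Y p) ∈ X := by
    filter_upwards [hY.1.eventually_mem hq, hA.continuousAt.tendsto.eventually e2] with p hp h5
    exact h5 (hY.2.2 p hp).2.2.2.1
  have t0 : Tendsto (fun x : Pt n => x.2) (𝓝 (t, Y q)) (𝓝 (Y q)) := continuousAt_snd
  have t1 : Tendsto (fun x : Pt n => (x.1, (1 / x.2 j) • x.2)) (𝓝 (t, Y q)) (𝓝 (t, Y q)) := by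
    have := (nrm_tend h1 1).comp t0
    rw [one_smul] at this
    exact (continuousAt_fst (p := ((t, Y q) : Pt n))).tendsto.prodMk_nhds this
  have f2 : ∀ᶠ x in 𝓝 ((t, Y q) : Pt n), x ∈ X → x.1 = T (Y (x.2 a / x.2 j, x.2 b / x.2 j)) ∧
      Pp x.2 (Y (x.2 a / x.2 j, x.2 b / x.2 j)) := by
    filter_upwards [t0.eventually h4, t1.eventually e3,
      t0.eventually ((continuous_apply j).continuousAt.eventually_ne hj)] with x h5 h6 h7 hx
    have h8 := h5 ((hC.cone _).2 ⟨x.1, hx⟩)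
    refine ⟨(h6 (hC.cn.scal x hx _ (one_div_ne_zero h7))).trans (congrArg T ?_), _, h7, h8⟩
    rw [one_div, inv_smul_eq_iff₀ h7]
    exact h8
  refine ⟨fun p => T (Y p), hT', e1, f1, f2, fun hn => ?_⟩
  have t2 : Tendsto (fun x : Pt n => (x.2 a / x.2 j, x.2 b / x.2 j)) (𝓝 (T (Y q), Y q)) (𝓝 q) := by
    have := (quo a b hj).continuousAt.tendsto.comp t0
    simp only [h1, h2, h3, div_one] at this
    exact e1 ▸ this
  have key : ∀ i, fderiv ℂ (fun p => T (Y p)) q (1, 0) * (dz Y q i * Y q j - Y q i * dz Y q j) =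
      fderiv ℂ (fun p => T (Y p)) q (0, 1) * (dt Y q i * Y q j - Y q i * dt Y q j) := fun i => by
    by_contra hne
    exact hn ⟨i, j, e1 ▸ h n X i j Y (fun p => T (Y p)) _ q hC.cn hA hT' hj f1 t2 (e1 ▸ f2) hne⟩
  obtain ⟨c1, c2, c3⟩ := coords hY hq (1, 0)
  obtain ⟨c4, c5, c6⟩ := coords hY hq (0, 1)
  have k1 := key a
  have k2 := key b
  simp only [dt, dz, c1, c2, c3, c4, c5, c6, h1, mul_zero, mul_one, sub_zero] at k1 k2
  exact ContinuousLinearMap.prod_ext (ContinuousLinearMap.ext_ring (by simpa using k2))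
    (ContinuousLinearMap.ext_ring (by simpa using k1.symm))

theorem nonreg (h : WTStmt) : NonregStmt := by
  intro n L W X hC hW x hx hn F u hF hu he e0
  obtain ⟨a, b, j, U, Y, hY, q, hq, s, hs, e1⟩ := hW x.2 ((hC.cone _).2 ⟨x.1, hx⟩)
  obtain ⟨h1, h2, h3, -⟩ := hY.2.2 q hq
  have e2 : s⁻¹ • x.2 = Y q := by rw [e1, inv_smul_smul₀ hs]
  obtain ⟨T, hT, -, -, f2, f3⟩ := h n L W X a b j U Y q x.1 hC hY hq
    (e2 ▸ hC.cn.scal x hx _ (inv_ne_zero hs))
  have f4 := f3 fun hr => hn (by simpa [← e1] using rx_smul hs hr)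
  have hF' : AnalyticAt ℂ (fun w => s⁻¹ • F w) 0 := analyticAt_const.fun_smul hF
  have e3 : s⁻¹ • F 0 = Y q := by rw [← e2, ← e0]
  have hj : (s⁻¹ • F 0) j ≠ 0 := by rw [e3, h1]; exact one_ne_zero
  have hQ := (quo a b hj).comp (f := fun w => s⁻¹ • F w) hF'
  have t1 : Tendsto (fun w => (u w, s⁻¹ • F w)) (𝓝 0) (𝓝 (x.1, Y q)) := by
    have := (hu.prod hF').continuousAt.tendsto
    rwa [e3, show u 0 = x.1 from congrArg Prod.fst e0] at this
  have e4 : ((fun w : V n => (w a / w j, w b / w j)) ∘ fun w => s⁻¹ • F w) 0 = q := by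
    simp only [Function.comp_apply, e3, h1, h2, h3, div_one]
  have d1 : HasFDerivAt T (0 : ℂ × ℂ →L[ℂ] ℂ)
      (((fun w : V n => (w a / w j, w b / w j)) ∘ fun w => s⁻¹ • F w) 0) := by
    rw [e4, ← f4]
    exact hT.differentiableAt.hasFDerivAt
  have d2 := d1.comp_hasDerivAt 0 hQ.differentiableAt.hasDerivAt
  refine (d2.congr_of_eventuallyEq ?_).deriv
  filter_upwards [he, t1.eventually f2] with w h4 h5
  exact (h5 (hC.cn.scal _ h4 _ (inv_ne_zero hs))).1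

end Pool.Agent.MP_c69980_ag.E1
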