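import Pool.Agent.MP_c69980_ag.E1.Main0
import Pool.Agent.MP_c69980_ag.E1.AlgA
import Pool.Agent.MP_c69980_ag.E1.AlgB
import Pool.Agent.MP_c69980_ag.E1.Alpha
import Pool.Agent.MP_c69980_ag.E1.Bar
import Pool.Agent.MP_c69980_ag.E1.Beta
import Pool.Agent.MP_c69980_ag.E1.Blow
import Pool.Agent.MP_c69980_ag.E1.Chart
import Pool.Agent.MP_c69980_ag.E1.Cls
import Pool.Agent.MP_c69980_ag.E1.Cov
import Pool.Agent.MP_c69980_ag.E1.Ell
import Pool.Agent.MP_c69980_ag.E1.Exp
import Pool.Agent.MP_c69980_ag.E1.Fin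
import Pool.Agent.MP_c69980_ag.E1.Frm
import Pool.Agent.MP_c69980_ag.E1.Gain
import Pool.Agent.MP_c69980_ag.E1.Germ
import Pool.Agent.MP_c69980_ag.E1.HL
import Pool.Agent.MP_c69980_ag.E1.Hyp
import Pool.Agent.MP_c69980_ag.E1.Lip
import Pool.Agent.MP_c69980_ag.E1.Loc
import Pool.Agent.MP_c69980_ag.E1.Mon
import Pool.Agent.MP_c69980_ag.E1.NB
import Pool.Agent.MP_c69980_ag.E1.ND
import Pool.Agent.MP_c69980_ag.E1.NDA
import Pool.Agent.MP_c69980_ag.E1.PD
import Pool.Agent.MP_c69980_ag.E1.Phi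
import Pool.Agent.MP_c69980_ag.E1.Prp
import Pool.Agent.MP_c69980_ag.E1.Push
import Pool.Agent.MP_c69980_ag.E1.Rat
import Pool.Agent.MP_c69980_ag.E1.Sec
import Pool.Agent.MP_c69980_ag.E1.StarA
import Pool.Agent.MP_c69980_ag.E1.WC
import Pool.Agent.MP_c69980_ag.E1.Wind

/-!
Surfaces fibred over an elliptic curve: assembly.
-/

set_option autoImplicit false

namespace Pool.Agent.MP_c69980_ag.E1

open H60 H4

theorem aEll : EllStmt := ell lat

theorem aDg : DgStmt := dg hl wind

theorem aVL : VLStmt := vlS sec (hc hl)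

theorem aStar : StarStmt :=
  star (starA sec wind) (starB sec wind (hc hl)) (rel sec aDg (push near) (germ sec aDg)) aDg wind

theorem aHyp : HypStmt := hyp fib mon (lip lat) lat

/-- No bubbles. -/
theorem aNB : NBStmt :=
  nb aHyp mon lat (alpha tube near gen aStar aVL fac) ratS (extS mer lat) (beta near aStar aVL fac)

theorem aCpt : CptStmt := cpt (unif aNB lat) mon lift

/-- Expansivity on half-planes. -/
theorem aExp : ExpStmt :=
  expS (exp0 (locS (uch aCpt near lat) (gain lat aEll)) bar lat) (secFin lat) lat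

/-- The set of entire sections is finite. -/
theorem aFin : FinStmt := finS aExp aCpt lat

theorem aND : NDStmt :=
  nd (cur aFin lift lat) (nrm lat) lat (nda (hd (lip lat)) aHyp inv aCpt lat)
    (ndb (hd (lip lat)) aHyp)

theorem aCov : CovStmt := cov lat aEll

theorem aG : GStmt := gS aEll aCov

theorem aJac : JacStmt := jac (pdS tan)

theorem aAlgA : AlgAStmt := algA aCov aG wc

theorem kob_dat {n : ℕ} {K : Type} [Field K] [Algebra ℂ K] (d : Dat K n) (h : LogGT d.W d.z) :
    PseudoKob d.W :=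
  kob_of (ex_fib aCov (phi aJac wc aCov) (frm aJac wc aG aCov) (nonreg (wt gen)) wc
    (crit sard tan (wt gen) wc aG aCov) aAlgA (algB aCov aG aAlgA) vert
    (blow (wt gen) gen aJac wc aCov) (prp dropK aCov) cls) aND aAlgA d h

end Pool.Agent.MP_c69980_ag.E1
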