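import Pool.Agent.MP_c69980_ag.E1.Spec

/-!
Surfaces fibred over an elliptic curve: from the function field to the analytic package.
-/

set_option autoImplicit false

noncomputable section

namespace Pool.Agent.MP_c69980_ag.E1

open MvPolynomial Metric Filter Topology Set
open H60 H4

variable {n : ℕ}

/-- The hypotheses of the theorem. -/
structure Dat (K : Type) [Field K] [Algebra ℂ K] (n : ℕ) where
  W : Set (PS n)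
  z : Fin n → K
  D : Fin 2 → Derivation ℂ K K
  m : ℕ
  N : ℕ
  h : Fin N → K
  e : Fin 3 → Fin N
  L : PeriodPair
  u : W → PS 3
  cl : IsZClosed W
  gen : GenPt W z
  tr : Algebra.trdeg ℂ K = 2
  sm : Smo W
  li : LinearIndependent K D
  m0 : 0 < m
  ind : AlgebraicIndependent ℂ ![h (e 1) / h (e 0), h (e 2) / h (e 0)]
  bpf : ∀ x ∈ W, (∀ i, h i ∈ pluri z D m x) ∧ ∃ i, pluri z D m x ≤ Submodule.span _ {h i}
  mor : IsMor u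
  ell : ∀ x, u x ∈ Ell L
  nc : ∃ x y, u x ≠ u y

section

variable {K : Type} [Field K] [Algebra ℂ K]

/-- The pull-back of the cone to the universal cover of the elliptic curve. -/
def Dat.X (d : Dat K n) : Set (Pt n) :=
  {x | ∃ (h : x.2 ≠ 0) (hw : Projectivization.mk ℂ x.2 h ∈ d.W),
    Pp (d.u ⟨_, hw⟩).rep (th d.L x.1)}

/-- The two-form of a pair of coordinates. -/
def Dat.wd (d : Dat K n) (a b j : Fin n) : K := Wd d.D (d.z a / d.z j) (d.z b / d.z j)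

end

/-- The Jacobian determinant. -/
def jb (f g : ℂ × ℂ → ℂ) (p : ℂ × ℂ) : ℂ :=
  fderiv ℂ f p (1, 0) * fderiv ℂ g p (0, 1) - fderiv ℂ f p (0, 1) * fderiv ℂ g p (1, 0)

/-- `Y` parametrises an open part of `W` by `y a / y j` and `y b / y j`. -/
def WCh (W : Set (PS n)) (a b j : Fin n) (U : Set (ℂ × ℂ)) (Y : ℂ × ℂ → V n) : Prop :=
  IsOpen U ∧ AnalyticOnNhd ℂ Y U ∧ ∀ p ∈ U, Y p j = 1 ∧ Y p a = p.1 ∧ Y p b = p.2 ∧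
    Y p ∈ Cone W ∧ ∀ᶠ y in 𝓝 (Y p), y ∈ Cone W → y = y j • Y (y a / y j, y b / y j)

/-- Charts of `W` cover the cone. -/
def WC (W : Set (PS n)) : Prop :=
  ∀ y ∈ Cone W, ∃ a b j U Y, WCh W a b j U Y ∧ ∃ q ∈ U, Pp y (Y q)

/-! ### Row WC: charts of a smooth surface -/

def WCStmt : Prop := ∀ (n : ℕ) (W : Set (PS n)), Smo W → WC W

/-- The Zariski tangent space. -/
def TanStmt : Prop := ∀ (n : ℕ) (W : Set (PS n)) (a b j : Fin n) (U : Set (ℂ × ℂ))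
  (Y : ℂ × ℂ → V n), Smo W → WCh W a b j U Y → ∀ q ∈ U,
  ∃ (c : ℕ) (P : Fin c → PR n) (g : PR n), (∀ k, ∃ e, (P k).IsHomogeneous e) ∧
    (∃ e, g.IsHomogeneous e) ∧ eval (Y q) g ≠ 0 ∧ c + 3 = n ∧
    (∀ y ∈ Cone W, eval y g ≠ 0 → ∀ k, eval y (P k) = 0) ∧
    ∀ v : V n, (∀ k, ∑ i, eval (Y q) (pderiv i (P k)) * v i = 0) →
      v = (v a - q.1 * v j) • dt Y q + (v b - q.2 * v j) • dz Y q + v j • Y q

/-- The function `t` in a chart of `W`. -/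
def WTStmt : Prop := ∀ (n : ℕ) (L : PeriodPair) (W : Set (PS n)) (X : Set (Pt n)) (a b j : Fin n)
  (U : Set (ℂ × ℂ)) (Y : ℂ × ℂ → V n) (q : ℂ × ℂ) (t : ℂ), Cov L W X → WCh W a b j U Y → q ∈ U →
  (t, Y q) ∈ X → ∃ T : ℂ × ℂ → ℂ, AnalyticAt ℂ T q ∧ T q = t ∧ (∀ᶠ q' in 𝓝 q, (T q', Y q') ∈ X) ∧
    (∀ᶠ x in 𝓝 ((t, Y q) : Pt n), x ∈ X → x.1 = T (x.2 a / x.2 j, x.2 b / x.2 j) ∧
      Pp x.2 (Y (x.2 a / x.2 j, x.2 b / x.2 j))) ∧ ((t, Y q) ∉ Rx X → fderiv ℂ T q = 0)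

def NonregStmt : Prop := ∀ (n : ℕ) (L : PeriodPair) (W : Set (PS n)) (X : Set (Pt n)), Cov L W X →
  WC W → NonregP X

/-! ### Row PD: derivatives of regular functions -/

def PDStmt : Prop := ∀ (K : Type) [Field K] [Algebra ℂ K] (n : ℕ) (d : Dat K n) (a b j : Fin n)
  (U : Set (ℂ × ℂ)) (Y : ℂ × ℂ → V n), WCh d.W a b j U Y → ∀ q ∈ U, d.wd a b j ≠ 0 ∧
  ∀ f, Reg d.z (Y q) f → ∀ i, Reg d.z (Y q) (pd d.D ![d.z a / d.z j, d.z b / d.z j] i f) ∧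
    vl d.z (pd d.D ![d.z a / d.z j, d.z b / d.z j] i f) (Y q) =
      fderiv ℂ (fun p => vl d.z f (Y p)) q (![(1, 0), (0, 1)] i)

def JacStmt : Prop := ∀ (K : Type) [Field K] [Algebra ℂ K] (n : ℕ) (d : Dat K n) (a b j : Fin n)
  (U : Set (ℂ × ℂ)) (Y : ℂ × ℂ → V n), WCh d.W a b j U Y → ∀ q ∈ U, d.wd a b j ≠ 0 ∧
  (∀ f g, Reg d.z (Y q) f → Reg d.z (Y q) g → Reg d.z (Y q) (Wd d.D f g / d.wd a b j) ∧
    vl d.z (Wd d.D f g / d.wd a b j) (Y q) =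
      jb (fun p => vl d.z f (Y p)) (fun p => vl d.z g (Y p)) q) ∧
  (∀ i, Reg d.z (Y q) (d.h i / d.wd a b j ^ d.m)) ∧
  ∃ i, vl d.z (d.h i / d.wd a b j ^ d.m) (Y q) ≠ 0

/-! ### Row Cov: the cover and the functions that come from the base -/

def CovStmt : Prop := ∀ (K : Type) [Field K] [Algebra ℂ K] (n : ℕ) (d : Dat K n), Cov d.L d.W d.X

section

variable {K : Type} [Field K] [Algebra ℂ K]

/-- `G` is the function `℘ (t)`, and `A` vanishes over the lattice. -/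
def GP (d : Dat K n) (G A : K) : Prop :=
  (∀ s : ℂ, G ≠ algebraMap ℂ K s) ∧ A ≠ 0 ∧ ∀ x ∈ d.X,
    (x.1 ∉ d.L.lattice → Reg d.z x.2 G ∧ vl d.z G x.2 = d.L.weierstrassP x.1) ∧
    (x.1 ∈ d.L.lattice → Reg d.z x.2 A ∧ vl d.z A x.2 = 0)

/-- The forms `Φ` are the forms `h i`. -/
def KL (d : Dat K n) (Φ : Fin d.N → Pt n → V n → ℂ) : Prop :=
  ∀ a j U Y, Chart d.X a j U Y → ∀ p ∈ U, ∀ l ∈ d.L.lattice, ∀ (c α β : ℂ) (i : Fin d.N) (f g : K),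
    c ≠ 0 → Reg d.z (Y p) f → Reg d.z (Y p) g → Wd d.D f g ≠ 0 →
    Reg d.z (Y p) (d.h i / Wd d.D f g ^ d.m) →
    Φ i (p.1 + l, c • Y p) (α • dz Y p + β • Y p) = (α / c) ^ d.m *
      (vl d.z (d.h i / Wd d.D f g ^ d.m) (Y p) *
        jb (fun q => vl d.z f (Y q)) (fun q => vl d.z g (Y q)) p ^ d.m)

/-- The coefficients are values of finitely many elements of the function field. -/
def Lk0 (d : Dat K n) (Φ : Fin d.N → Pt n → V n → ℂ) : Prop :=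
  ∀ a j U Y, Chart d.X a j U Y → ∀ p ∈ U, ∃ (a' b' j' : Fin n) (κ : ℂ), κ ≠ 0 ∧
    d.wd a' b' j' ≠ 0 ∧ ∀ i, Reg d.z (Y p) (d.h i / d.wd a' b' j' ^ d.m) ∧
      fc Φ Y i p = κ * vl d.z (d.h i / d.wd a' b' j' ^ d.m) (Y p)

/-- The same on one fibre, with a constant factor. -/
def Lk1 (d : Dat K n) (Φ : Fin d.N → Pt n → V n → ℂ) : Prop :=
  ∀ t₀, ∃ (G₀ : K) (κ : ℂ), (∀ y, (t₀, y) ∈ d.X → Reg d.z y G₀ ∧ vl d.z G₀ y = 0) ∧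
    ∀ a j U Y ζ, Chart d.X a j U Y → (t₀, ζ) ∈ U → Wd d.D G₀ (d.z a / d.z j) ≠ 0 ∧
      ∀ i, Reg d.z (Y (t₀, ζ)) (d.h i / Wd d.D G₀ (d.z a / d.z j) ^ d.m) ∧ fc Φ Y i (t₀, ζ) =
        κ * vl d.z (d.h i / Wd d.D G₀ (d.z a / d.z j) ^ d.m) (Y (t₀, ζ))

end

/-- The coefficients blow up where `(t, y a / y j)` stops being a chart. -/
def Blow {N : ℕ} (X : Set (Pt n)) (Φ : Fin N → Pt n → V n → ℂ) : Prop :=
  ∀ a j, ∀ x ∈ X, x.2 j ≠ 0 → x ∉ Rg X a j → ∀ M : ℝ, ∀ᶠ x' in 𝓝 x, ∀ U Y ζ, Chart X a j U Y →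
    (x'.1, ζ) ∈ U → x'.2 = x'.2 j • Y (x'.1, ζ) → ∃ i, M ≤ ‖fc Φ Y i (x'.1, ζ)‖

def GStmt : Prop := ∀ (K : Type) [Field K] [Algebra ℂ K] (n : ℕ) (d : Dat K n),
  (∃ G A, GP d G A) ∧ ∀ t₀, ∃ (G₀ : K) (ψ : ℂ → ℂ), AnalyticAt ℂ ψ t₀ ∧ ψ t₀ = 0 ∧
    deriv ψ t₀ ≠ 0 ∧ ∀ y, (t₀, y) ∈ d.X → Reg d.z y G₀ ∧
      ∀ᶠ x in 𝓝 ((t₀, y) : Pt n), x ∈ d.X → vl d.z G₀ x.2 = ψ x.1

/-! ### Rows Phi, Frm, Blow: the relative forms -/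

def PhiStmt : Prop := ∀ (K : Type) [Field K] [Algebra ℂ K] (n : ℕ) (d : Dat K n), ∃ Φ, KL d Φ

def FrmStmt : Prop := ∀ (K : Type) [Field K] [Algebra ℂ K] (n : ℕ) (d : Dat K n)
  (Φ : Fin d.N → Pt n → V n → ℂ), KL d Φ → Frm d.L d.X d.m Φ ∧ Lk0 d Φ ∧ Lk1 d Φ

def BlowStmt : Prop := ∀ (K : Type) [Field K] [Algebra ℂ K] (n : ℕ) (d : Dat K n)
  (Φ : Fin d.N → Pt n → V n → ℂ), KL d Φ → Blow d.X Φ

/-! ### Rows AlgA, AlgB: algebra in the function field -/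

def DropKStmt : Prop := ∀ (K : Type) [Field K] [Algebra ℂ K] (n : ℕ) (z : Fin n → K) (A f g : K),
  Algebra.trdeg ℂ K = 2 → A ≠ 0 → ∃ P : Polynomial (Polynomial ℂ), P ≠ 0 ∧ ∀ y, On z y →
    Reg z y A → Reg z y f → Reg z y g → vl z A y = 0 → P.evalEval (vl z f y) (vl z g y) = 0

def AlgAStmt : Prop := ∀ (K : Type) [Field K] [Algebra ℂ K] (n : ℕ) (d : Dat K n),
  (∀ (B : PR n) (e : ℕ), B.IsHomogeneous e → (NZ d.X B ↔ aeval d.z B ≠ 0)) ∧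
    PrimeP d.X ∧ DropP d.L d.X ∧ BigP d.X ∧ ∀ S, BadfP d.L d.X S

def AlgBStmt : Prop := ∀ (K : Type) [Field K] [Algebra ℂ K] (n : ℕ) (d : Dat K n)
  (Φ : Fin d.N → Pt n → V n → ℂ), Lk0 d Φ →
  ZeroP d.X Φ d.e ∧ AlgP d.X Φ d.e ∧ VanP d.L d.X Φ d.e

def VertStmt : Prop := ∀ (n N : ℕ) (L : PeriodPair) (X : Set (Pt n)) (Φ : Fin N → Pt n → V n → ℂ)
  (e : Fin 3 → Fin N), DropP L X → ZeroP X Φ e → AlgP X Φ e → ∃ S, VertP L X Φ e S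

/-! ### Row Sard: critical values -/

def SardStmt : Prop := ∀ (n : ℕ) (S : Set (V n)) (A B : PR n), (∀ y ∈ S, eval y B ≠ 0) →
  (∀ y ∈ S, ∀ v : V n, (∀ P : PR n, (∀ w ∈ S, eval w P = 0) →
      ∑ i, eval y (pderiv i P) * v i = 0) →
    (∑ i, eval y (pderiv i A) * v i) * eval y B = eval y A * ∑ i, eval y (pderiv i B) * v i) →
  ((fun y => eval y A / eval y B) '' S).Finite

def CritStmt : Prop := ∀ (K : Type) [Field K] [Algebra ℂ K] (n : ℕ) (d : Dat K n),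
  ∃ S, BadP d.L d.X S

/-! ### Rows Prop, Cls: finitely many classes in each fibre -/

/-- The coordinate `y a` is proper with finite fibres outside a finite set. -/
def Prp (X : Set (Pt n)) (t₀ : ℂ) (a j : Fin n) (S : Finset ℂ) : Prop :=
  ∀ ζ ∉ S, {y | (t₀, y) ∈ Rg X a j ∧ y j = 1 ∧ y a = ζ}.Finite ∧
    ∀ (u : Ultrafilter (V n)), (∀ᶠ y in u, (t₀, y) ∈ Rg X a j ∧ y j = 1) →
      Tendsto (fun y : V n => y a) u (𝓝 ζ) → ∃ y, (t₀, y) ∈ Rg X a j ∧ (u : Filter (V n)) ≤ 𝓝 y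

def PrpStmt : Prop := ∀ (K : Type) [Field K] [Algebra ℂ K] (n : ℕ) (d : Dat K n)
  (Φ : Fin d.N → Pt n → V n → ℂ), Lk1 d Φ → Blow d.X Φ → ∀ t₀ a j, ∃ S, Prp d.X t₀ a j S

def ClsStmt : Prop := ∀ (n : ℕ) (X : Set (Pt n)), Cn X → (∀ t₀ a j, ∃ S, Prp X t₀ a j S) → ClsP X

end Pool.Agent.MP_c69980_ag.E1
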