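import Pool.Agent.MP_c69980_ag.E1.SpecC
import Pool.Agent.MP_c69980_ag.S17.A2

/-!
Values of functions at places, and the discs given by a local parameter.
-/

set_option autoImplicit false

noncomputable section

namespace Pool.Agent.MP_c69980_ag.E1.RigX

open MvPolynomial Metric Set Filter Topology
open H60 H43 Pool.Agent.MP_f3836a_nt.PK

variable {L : Type} [Field L] [Algebra ℂ L] {n : ℕ}

lemma aeval_smul {A : Type} [CommRing A] [Algebra ℂ A] {F : PR n} {e : ℕ} (h : F.IsHomogeneous e)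
    (l : A) (z : Fin n → A) : aeval (fun i => l * z i) F = l ^ e * aeval z F := by
  rw [aeval_def, eval₂_eq', aeval_def, eval₂_eq', Finset.mul_sum]
  refine Finset.sum_congr rfl fun m hm => ?_
  have h1 := h (mem_support_iff.1 hm)
  rw [Finsupp.weight_apply, Finsupp.sum_fintype _ _ (by simp)] at h1
  have h3 : ∑ i, m i = e := by simpa using h1
  simp only [mul_pow, Finset.prod_mul_distrib, Finset.prod_pow_eq_pow_sum, h3]
  ring

section Val

variable (h : FFd L) (P : Pl L)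
include h

lemma val_const (c : ℂ) : P.val (algebraMap ℂ L c) = c := (h.a.hom P).choose_spec.2 c

lemma val_one : P.val (1 : L) = 1 := by simpa using val_const h P 1

lemma val_mul {x y : L} (hx : x ∈ P.V) (hy : y ∈ P.V) : P.val (x * y) = P.val x * P.val y := by
  obtain ⟨χ, e, -⟩ := h.a.hom P
  have h3 := map_mul χ ⟨_, hx⟩ ⟨_, hy⟩
  rwa [e, e, e] at h3

lemma val_add {x y : L} (hx : x ∈ P.V) (hy : y ∈ P.V) : P.val (x + y) = P.val x + P.val y := by
  obtain ⟨χ, e, -⟩ := h.a.hom P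
  have h3 := map_add χ ⟨_, hx⟩ ⟨_, hy⟩
  rwa [e, e, e] at h3

lemma val_sub {x y : L} (hx : x ∈ P.V) (hy : y ∈ P.V) : P.val (x - y) = P.val x - P.val y := by
  obtain ⟨χ, e, -⟩ := h.a.hom P
  have h3 := map_sub χ ⟨_, hx⟩ ⟨_, hy⟩
  rwa [e, e, e] at h3

lemma val_zero_iff {x : L} (hx : x ∈ P.V) : P.val x = 0 ↔ x = 0 ∨ 0 < P.ord x := by
  rw [← h.a.val P x hx 0, map_zero, sub_zero]
  rfl

lemma val_div {x y : L} (hx : x ∈ P.V) (hy : y ∈ P.V) (h0 : P.val y ≠ 0) :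
    y ≠ 0 ∧ x / y ∈ P.V ∧ P.val (x / y) = P.val x / P.val y := by
  have h1 : y ∉ P.V.nonunits := fun q =>
    h0 ((h.a.val P _ hy 0).1 ((h.a.zero P _).2 (by simpa using q)))
  rw [ValuationSubring.mem_nonunits_iff_or, not_or, not_not] at h1
  have h2 : x / y ∈ P.V := by
    rw [div_eq_mul_inv]
    exact mul_mem hx h1.2
  refine ⟨h1.1, h2, ?_⟩
  rw [eq_div_iff h0, ← val_mul h P h2 hy, div_mul_cancel₀ _ h1.1]

lemma val_aeval {ι : Type} {z : ι → L} (hz : ∀ i, z i ∈ P.V) (F : MvPolynomial ι ℂ) :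
    aeval z F ∈ P.V ∧ P.val (aeval z F) = eval (fun i => P.val (z i)) F := by
  induction F using MvPolynomial.induction_on with
  | C c => rw [aeval_C, eval_C]; exact ⟨P.const c, val_const h P c⟩
  | add F G hF hG =>
    rw [map_add, map_add, val_add h P hF.1 hG.1, hF.2, hG.2]
    exact ⟨add_mem hF.1 hG.1, rfl⟩
  | mul_X F i hF =>
    rw [map_mul, map_mul, aeval_X, eval_X, val_mul h P hF.1 (hz i), hF.2]
    exact ⟨mul_mem hF.1 (hz i), rfl⟩

lemma val_lin {N : ℕ} {e : Fin N → L} (he : ∀ i, e i ∈ P.V) (a : Fin N → ℂ) :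
    ∑ i, a i • e i ∈ P.V ∧ P.val (∑ i, a i • e i) = ∑ i, a i * P.val (e i) := by
  have h1 := val_aeval h P he (∑ i, C (a i) * X i)
  simp only [map_sum, map_mul, aeval_C, aeval_X, eval_C, eval_X] at h1
  simpa only [Algebra.smul_def] using h1

lemma red_ratio {y : Fin n → L} {x : PS n} (a : Red P y x) {b : Fin n} (hb : x.rep b ≠ 0) :
    y b ≠ 0 ∧ ∀ i, y i / y b ∈ P.V ∧ P.val (y i / y b) = x.rep i / x.rep b := by
  obtain ⟨c, c1, c2, e⟩ := a
  rw [← x.mk_rep, Projectivization.mk_eq_mk_iff'] at e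
  obtain ⟨u, hu⟩ := e
  have h1 : ∀ i, x.rep i = u * P.val (c * y i) := fun i => (congrFun hu i).symm
  rw [h1] at hb
  have h2 := fun i => val_div h P (c1 i) (c1 b) (right_ne_zero_of_mul hb)
  have h3 := left_ne_zero_of_mul (h2 b).1
  refine ⟨right_ne_zero_of_mul (h2 b).1, fun i => ?_⟩
  rw [h1, h1, mul_div_mul_left _ _ (left_ne_zero_of_mul hb), ← mul_div_mul_left (y i) (y b) h3]
  exact (h2 i).2

lemma red_ex {y : Fin n → L} {b : Fin n} (hb : y b ≠ 0) : ∃ x, Red P y x := by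
  obtain ⟨i, -, hi⟩ := Finset.exists_max_image Finset.univ (fun i => P.V.valuation (y i))
    ⟨b, Finset.mem_univ b⟩
  have h2 : 0 < P.V.valuation (y i) := (P.V.valuation.pos_iff.2 hb).trans_le (hi b (by simp))
  have h3 : y i ≠ 0 := P.V.valuation.pos_iff.1 h2
  refine ⟨_, (y i)⁻¹, fun k => ?_, fun q => ?_, rfl⟩
  · rw [← P.V.valuation_le_one_iff, map_mul, map_inv₀, inv_mul_le_one₀ h2]
    exact hi k (by simp)
  · have := congrFun q i
    rw [inv_mul_cancel₀ h3, val_one h] at this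
    exact one_ne_zero this

lemma red_mem {W : Set (PS n)} (hW : IsZClosed W) {y : Fin n → L} {x : PS n} (a : Red P y x)
    (hy : ∀ (F : PR n) (e : ℕ), F.IsHomogeneous e → (∀ p ∈ W, eval p.rep F = 0) →
      aeval y F = 0) : x ∈ W := by
  obtain ⟨S, hS, rfl⟩ := hW
  obtain ⟨c, c1, c2, e⟩ := a
  rw [← x.mk_rep, Projectivization.mk_eq_mk_iff'] at e
  obtain ⟨u, hu⟩ := e
  intro F hF
  obtain ⟨d, hd⟩ := hS F hF
  have h1 := (val_aeval h P c1 F).2
  rw [aeval_smul hd, hy F d hd fun p hp => hp F hF, mul_zero, ← map_zero (algebraMap ℂ L),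
    val_const h] at h1
  rw [← hu, eval_smul_hom hd, ← h1, mul_zero]

end Val

lemma holo (h : FFd L) {α : ℂ → Pl L} {ε : ℝ} (hε : 0 < ε) (hα : Arc α (ball 0 ε))
    {y : Fin n → L} {ρ : Pl L → PS n} (hρ : ∀ P, Red P y (ρ P)) :
    Holo (ball 0 1) fun s => ρ (α (ε * s)) := by
  intro t ht
  have h1 : (ε : ℂ) * t ∈ ball (0 : ℂ) ε := by
    rw [mem_ball_zero_iff] at ht ⊢
    rw [norm_mul, Complex.norm_real, Real.norm_of_nonneg hε.le]
    exact mul_lt_of_lt_one_right hε ht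
  obtain ⟨c, c1, c2, -⟩ := hρ (α (ε * t))
  have h2 : AnalyticAt ℂ (fun s : ℂ => (ε : ℂ) * s) t := by fun_prop
  have h3 : AnalyticAt ℂ (fun s i => (α (ε * s)).val (c * y i)) t :=
    analyticAt_pi_iff.2 fun i => (hα _ h1 _ (c1 i)).2.comp_of_eq h2 rfl
  refine ⟨_, h3, ?_⟩
  have h4 := eventually_all.2 fun i => h2.continuousAt.tendsto.eventually (hα _ h1 _ (c1 i)).1
  filter_upwards [h4, h3.continuousAt.eventually_ne c2] with s a b
  exact ⟨b, a2_uni h (hρ _) ⟨c, a, b, rfl⟩⟩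

/-- Normalised points of `W` through `x`. -/
structure Gd (W : Set (PS n)) (x : PS n) (b : Fin n) (P : Pl L) (ξ : Fin n → L) : Prop where
  one : ξ b = 1
  mem : ∀ a, ξ a ∈ P.V
  val : ∀ a, P.val (ξ a) = x.rep a / x.rep b
  van : ∀ (F : PR n) (e : ℕ), F.IsHomogeneous e → (∀ p ∈ W, eval p.rep F = 0) → aeval ξ F = 0

lemma key (h : FFd L) {W : Set (PS n)} (hW : IsZClosed W) {x : PS n} (hK : KB W x) {b : Fin n}
    (hb : x.rep b ≠ 0) {α : ℂ → Pl L} {ε : ℝ} (hε : 0 < ε) (hα : Arc α (ball 0 ε)) :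
    ∃ δ M : ℝ, 0 < δ ∧ ∀ ξ, Gd W x b (α 0) ξ → ∀ s ∈ ball (0 : ℂ) δ, ∀ a,
      ξ a ∈ (α s).V ∧ ‖(α s).val (ξ a)‖ ≤ M := by
  obtain ⟨η, M, h0, -, hM⟩ := hK b hb
  refine ⟨ε * η, M, mul_pos hε h0, fun ξ g s hs a => ?_⟩
  choose ρ hρ using fun P : Pl L => red_ex h P (y := ξ) (b := b) (by rw [g.one]; exact one_ne_zero)
  have e0 : (ε : ℂ) ≠ 0 := by exact_mod_cast hε.ne'
  have h1 : Red (α 0) ξ x := by
    have h2 : (fun i => (α 0).val (1 * ξ i)) = (x.rep b)⁻¹ • x.rep := by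
      funext i
      rw [one_mul, g.val, Pi.smul_apply, smul_eq_mul, div_eq_inv_mul]
    refine ⟨1, fun i => by rw [one_mul]; exact g.mem i,
      by rw [h2]; exact smul_ne_zero (inv_ne_zero hb) x.rep_nonzero, ?_⟩
    refine x.mk_rep.symm.trans ((Projectivization.mk_eq_mk_iff' _ _ _ _ _).2 ⟨x.rep b, ?_⟩)
    rw [h2, smul_smul, mul_inv_cancel₀ hb, one_smul]
  have h3 := hM _ (holo h hε hα hρ) (fun t _ => red_mem h _ hW (hρ _) g.van)
    (by rw [mul_zero]; exact a2_uni h (hρ _) h1) (s / ε) (by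
      rw [mem_ball_zero_iff] at hs ⊢
      rw [norm_div, Complex.norm_real, Real.norm_of_nonneg hε.le, div_lt_iff₀' hε]
      exact hs)
  simp only [mul_div_cancel₀ s e0] at h3
  have h4 : (ρ (α s)).rep b ≠ 0 := fun q => (ρ (α s)).rep_nonzero (funext fun i => by
    have := h3 i
    rw [q, norm_zero, mul_zero] at this
    exact norm_le_zero_iff.1 this)
  have h5 := (red_ratio h _ (hρ (α s)) h4).2 a
  rw [g.one, div_one] at h5
  refine ⟨h5.1, ?_⟩
  rw [h5.2, norm_div, div_le_iff₀ (norm_pos_iff.2 h4)]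
  exact h3 a

lemma eq_of_vals (h : FFd L) {x y : L} {d : ℕ} (hx : deg x ≤ d) (hy : deg y ≤ d)
    (T : Finset (Pl L)) (hT : T.card = 2 * d + 1)
    (H : ∀ P ∈ T, x ∈ P.V ∧ y ∈ P.V ∧ P.val x = P.val y) : x = y := by
  by_contra hne
  have h0 : x - y ≠ 0 := sub_ne_zero.2 hne
  have h1 : deg (x - y)⁻¹ ≤ 2 * d := by
    rw [h.deg_inv, sub_eq_add_neg]
    have := h.deg_add x (-y)
    rw [h.deg_neg] at this
    omega
  have h2 := Finset.card_nsmul_le_sum T (fun P => lam P (x - y)⁻¹) 1 fun P hP => by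
    obtain ⟨a, b, c⟩ := H P hP
    have h3 := ((val_zero_iff h P (sub_mem a b)).1
      (by rw [val_sub h P a b, c, sub_self])).resolve_left h0
    simp only [lam, h.ord_inv]
    omega
  have h4 := h.sum_le_deg (x - y)⁻¹ T
  rw [hT, smul_eq_mul] at h2
  omega

/-- Evaluation at a complex point. -/
def ev {ι : Type} (v : ι → ℂ) : MvPolynomial ι L →ₐ[ℂ] L :=
  (aeval fun k => algebraMap ℂ L (v k) : MvPolynomial ι L →ₐ[L] L).restrictScalars ℂ

lemma ev_van {ι J : Type} (w : J → ι → ℂ) {v : ι → ℂ}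
    (hv : ∀ Q : MvPolynomial ι ℂ, (∀ j, eval (w j) Q = 0) → eval v Q = 0)
    {G : MvPolynomial ι L} (hG : ∀ j, ev (w j) G = 0) : ev v G = 0 := by
  refine (Module.forall_dual_apply_eq_zero_iff ℂ _).1 fun φ => ?_
  have e : ∀ u : ι → ℂ, φ (ev u G) = eval u (∑ m ∈ G.support, monomial m (φ (coeff m G))) :=
    fun u => by
      rw [ev, AlgHom.restrictScalars_apply, aeval_def, eval₂_eq, map_sum, map_sum]
      refine Finset.sum_congr rfl fun m _ => ?_
      simp only [← map_pow, ← map_prod]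
      rw [eval_monomial, mul_comm, ← Algebra.smul_def, map_smul, smul_eq_mul, mul_comm]
      rfl
  rw [e]
  exact hv _ fun j => by rw [← e, hG, map_zero]

end Pool.Agent.MP_c69980_ag.E1.RigX
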