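import Pool.Agent.MP_c69980_ag.G2.Spec
import Pool.Agent.MP_c69980_ag.E1.Defs

/-!
Surfaces fibred over an elliptic curve: the analytic package and the analytic statements.
-/

set_option autoImplicit false

noncomputable section

namespace Pool.Agent.MP_c69980_ag.E1

open MvPolynomial Metric Filter Topology MeasureTheory Set
open scoped ContDiff ENNReal ComplexConjugate
open H60 H4

abbrev V (n : ℕ) : Type := Fin n → ℂ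
abbrev Pt (n : ℕ) : Type := ℂ × V n
abbrev Wg (n : ℕ) : Type := Fin n × Fin n → ℂ

section gen

variable {E : Type} [NormedAddCommGroup E] [NormedSpace ℂ E]

/-- Proportional vectors. -/
def Pp (y w : E) : Prop := ∃ c : ℂ, c ≠ 0 ∧ y = c • w

/-- A continuous field of lines, given by arbitrary generators. -/
def PC {α : Type} [TopologicalSpace α] (K : Set α) (v : α → E) : Prop :=
  ∀ x ∈ K, ∃ U ∈ 𝓝[K] x, ∃ g : α → E, ContinuousOn g U ∧ ∀ y ∈ U, g y ≠ 0 ∧ Pp (v y) (g y)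

/-- A continuous generator of a field of lines. -/
def Lf {α : Type} [TopologicalSpace α] (K : Set α) (v g : α → E) : Prop :=
  ContinuousOn g K ∧ ∀ x ∈ K, g x ≠ 0 ∧ Pp (v x) (g x)

/-- `f` has winding number `k` on the circle. -/
def Wn (c : ℂ) (ρ : ℝ) (f : ℂ → ℂ) (k : ℤ) : Prop :=
  ∃ φ : ℂ → ℂ, ContinuousOn φ (sphere c ρ) ∧
    ∀ t ∈ sphere c ρ, f t = (t - c) ^ k * Complex.exp (φ t)

/-- `G` has `k` zeros in the disc. -/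
def Zv (c : ℂ) (ρ : ℝ) (G : ℂ → E) (k : ℕ) : Prop :=
  ∃ (a : Fin k → ℂ) (U : ℂ → E), (∀ i, a i ∈ ball c ρ) ∧ ContinuousOn U (closedBall c ρ) ∧
    ∀ t ∈ closedBall c ρ, U t ≠ 0 ∧ G t = (∏ i, (t - a i)) • U t

/-- Locally an analytic function times a continuous unit. -/
def UA (O : Set ℂ) (G : ℂ → E) : Prop :=
  ∀ t ∈ O, ∃ (e : ℂ → ℂ) (φ : ℂ → E), AnalyticAt ℂ φ t ∧
    ∀ᶠ w in 𝓝 t, ContinuousAt e w ∧ e w ≠ 0 ∧ G w = e w • φ w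

/-- The band: the parameter interval times the circle. -/
def Bn (c : ℂ) (ρ : ℝ) : Set (ℝ × ℂ) := Icc 0 1 ×ˢ sphere c ρ

/-- Fields of lines on two discs and on a band that joins their boundaries. -/
def L3 (c : ℂ) (ρ : ℝ) (v v' : ℂ → E) (w : ℝ × ℂ → E) : Prop :=
  PC (closedBall c ρ) v ∧ PC (closedBall c ρ) v' ∧ PC (Bn c ρ) w ∧
    ∀ t ∈ sphere c ρ, Pp (w (0, t)) (v t) ∧ Pp (w (1, t)) (v' t)

/-- The degree of such a field of lines on the sphere. -/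
def Dg (c : ℂ) (ρ : ℝ) (v v' : ℂ → E) (w : ℝ × ℂ → E) (k : ℤ) : Prop :=
  ∃ (g g' : ℂ → E) (G : ℝ × ℂ → E) (κ κ' : ℂ → ℂ), Lf (closedBall c ρ) v g ∧
    Lf (closedBall c ρ) v' g' ∧ Lf (Bn c ρ) w G ∧
    (∀ t ∈ sphere c ρ, g t = κ t • G (0, t) ∧ g' t = κ' t • G (1, t)) ∧
    Wn c ρ (fun t => κ t / κ' t) k

end gen

variable {n : ℕ}

/-- The exterior product. -/
def wg (y w : V n) : Wg n := fun p => y p.1 * w p.2 - y p.2 * w p.1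

/-- Holomorphic maps to projective space, given by arbitrary homogeneous coordinates. -/
def LH (O : Set ℂ) (s : ℂ → V n) : Prop :=
  ∀ t ∈ O, ∃ (g : ℂ → V n) (r : ℝ), 0 < r ∧ Crv (ball t r) g ∧ ∀ w ∈ ball t r, Pp (s w) (g w)

/-- Locally uniform convergence of holomorphic maps to projective space. -/
def Cv (u : Filter ℕ) (O : Set ℂ) (F : ℕ → ℂ → V n) (G : ℂ → V n) : Prop :=
  ∀ t ∈ O, ∃ (r : ℝ) (g : ℕ → ℂ → V n) (G' : ℂ → V n), 0 < r ∧ Crv (ball t r) G' ∧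
    (∀ w ∈ ball t r, Pp (G w) (G' w)) ∧
    (∀ᶠ k in u, Crv (ball t r) (g k) ∧ ∀ w ∈ ball t r, Pp (F k w) (g k w)) ∧
    TendstoUniformlyOn g G' u (ball t r)

def dt (Y : ℂ × ℂ → V n) (p : ℂ × ℂ) : V n := fderiv ℂ Y p (1, 0)
def dz (Y : ℂ × ℂ → V n) (p : ℂ × ℂ) : V n := fderiv ℂ Y p (0, 1)

open Classical in
/-- The divided difference in the second variable. -/
def dd (Y : ℂ × ℂ → V n) (t z z' : ℂ) : V n :=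
  if z = z' then dz Y (t, z) else (z' - z)⁻¹ • (Y (t, z') - Y (t, z))

/-- `Y` parametrises an open part of `X` by `t` and `z = y a / y j`. -/
def Chart (X : Set (Pt n)) (a j : Fin n) (U : Set (ℂ × ℂ)) (Y : ℂ × ℂ → V n) : Prop :=
  IsOpen U ∧ AnalyticOnNhd ℂ Y U ∧ ∀ p ∈ U, Y p j = 1 ∧ Y p a = p.2 ∧ (p.1, Y p) ∈ X ∧
    ∀ᶠ x in 𝓝 ((p.1, Y p) : Pt n), x ∈ X → x.2 = x.2 j • Y (x.1, x.2 a / x.2 j)

def Rg (X : Set (Pt n)) (a j : Fin n) : Set (Pt n) :=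
  {x | ∃ U Y, Chart X a j U Y ∧ ∃ z, (x.1, z) ∈ U ∧ Pp x.2 (Y (x.1, z))}

/-- The regular points of the fibration. -/
def Rx (X : Set (Pt n)) : Set (Pt n) := {x | ∃ a j, x ∈ Rg X a j}

/-- Vertical tangent vectors. -/
def Vt (X : Set (Pt n)) (x : Pt n) (v : V n) : Prop :=
  wg x.2 v ≠ 0 ∧ ∃ g : ℂ → V n, AnalyticAt ℂ g 0 ∧ g 0 = x.2 ∧ deriv g 0 = v ∧
    ∀ᶠ w in 𝓝 (0 : ℂ), (x.1, g w) ∈ X

/-- A chosen vertical tangent vector. -/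
def tv (X : Set (Pt n)) (x : Pt n) : V n := Classical.epsilon (Vt X x)

open Classical in
/-- The secant line, or the tangent line. -/
def SS (X : Set (Pt n)) (t : ℂ) (a y : V n) : Wg n :=
  if Pp y a then wg a (tv X (t, a)) else wg a y

/-- Closed cones. -/
structure Cn (X : Set (Pt n)) : Prop where
  nz : ∀ x ∈ X, x.2 ≠ 0
  scal : ∀ x ∈ X, ∀ c : ℂ, c ≠ 0 → (x.1, c • x.2) ∈ X
  closed : ∀ x ∈ closure X, x.2 ≠ 0 → x ∈ X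

/-- The bad values. -/
def Bad (L : PeriodPair) (S : Finset ℂ) : Set ℂ := {t | t ∈ L.lattice ∨ L.weierstrassP t ∈ S}

def NZ (X : Set (Pt n)) (B : PR n) : Prop := (∃ e, B.IsHomogeneous e) ∧ ∃ x ∈ X, eval x.2 B ≠ 0

/-- The pull-back `X` of the cone over `W` to the universal cover of the elliptic curve. -/
structure Cov (L : PeriodPair) (W : Set (PS n)) (X : Set (Pt n)) : Prop where
  cn : Cn X
  cone : ∀ y, y ∈ Cone W ↔ ∃ t, (t, y) ∈ X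
  per : ∀ x ∈ X, ∀ l ∈ L.lattice, (x.1 + l, x.2) ∈ X
  uniq : ∀ t t' y, (t, y) ∈ X → (t', y) ∈ X → t - t' ∈ L.lattice
  loc : ∀ x ∈ X, ∃ T : V n → ℂ, AnalyticAt ℂ T x.2 ∧ T x.2 = x.1 ∧
    (∀ᶠ y in 𝓝 x.2, y ∈ Cone W → (T y, y) ∈ X) ∧ ∀ᶠ x' in 𝓝 x, x' ∈ X → x'.1 = T x'.2

/-- The coefficient of a relative form in a chart. -/
def fc {N : ℕ} (Φ : Fin N → Pt n → V n → ℂ) (Y : ℂ × ℂ → V n) (i : Fin N) (p : ℂ × ℂ) : ℂ :=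
  Φ i (p.1, Y p) (dz Y p)

/-- Relative pluricanonical forms without common zeros. -/
structure Frm {N : ℕ} (L : PeriodPair) (X : Set (Pt n)) (m : ℕ) (Φ : Fin N → Pt n → V n → ℂ) :
    Prop where
  m0 : 0 < m
  an : ∀ a j U Y, Chart X a j U Y → ∀ i, AnalyticOnNhd ℂ (fc Φ Y i) U
  hom : ∀ a j U Y, Chart X a j U Y → ∀ p ∈ U, ∀ l ∈ L.lattice, ∀ (c α β : ℂ) (i : Fin N), c ≠ 0 →
    Φ i (p.1 + l, c • Y p) (α • dz Y p + β • Y p) = (α / c) ^ m * fc Φ Y i p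
  bpf : ∀ a j U Y, Chart X a j U Y → ∀ p ∈ U, ∃ i, fc Φ Y i p ≠ 0

section props

variable {N : ℕ} (L : PeriodPair) (X : Set (Pt n)) (Φ : Fin N → Pt n → V n → ℂ)
  (e : Fin 3 → Fin N) (S : Finset ℂ)

/-- At a point that is not regular the differential of `t` vanishes. -/
def NonregP : Prop := ∀ x ∈ X, x ∉ Rx X → ∀ (F : ℂ → V n) (h : ℂ → ℂ), AnalyticAt ℂ F 0 →
  AnalyticAt ℂ h 0 → (∀ᶠ w in 𝓝 (0 : ℂ), (h w, F w) ∈ X) → (h 0, F 0) = x → deriv h 0 = 0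

def BadP : Prop := ∀ x ∈ X, x.1 ∉ Bad L S → x ∈ Rx X

def PrimeP : Prop := ∀ B B', NZ X B → NZ X B' → NZ X (B * B')

def DropP : Prop := ∀ B a j, NZ X B → ∃ P : Polynomial (Polynomial ℂ), P ≠ 0 ∧ ∀ x ∈ X,
  x.1 ∉ L.lattice → x.2 j ≠ 0 → eval x.2 B = 0 →
    P.evalEval (L.weierstrassP x.1) (x.2 a / x.2 j) = 0

def ZeroP : Prop := ∀ (Q : PR 3) (d : ℕ), Q.IsHomogeneous d → Q ≠ 0 → ∃ B, NZ X B ∧
  ∀ a j U Y, Chart X a j U Y → ∀ p ∈ U, eval (fun l => fc Φ Y (e l) p) Q = 0 → eval (Y p) B = 0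

def AlgP : Prop := ∀ b k : Fin n, ∃ (d f : ℕ) (Q : ℕ → PR 3), (∀ i, (Q i).IsHomogeneous f) ∧
  Q d ≠ 0 ∧ ∀ a j U Y, Chart X a j U Y → ∀ p ∈ U, Y p k ≠ 0 → ∑ i ∈ Finset.range (d + 1),
    eval (fun l => fc Φ Y (e l) p) (Q i) * (Y p b / Y p k) ^ i = 0

def VanQ (Q : PR 3) : Prop := ∀ a j U Y, Chart X a j U Y →
  ∀ p ∈ U, p.1 ∈ L.lattice → eval (fun l => fc Φ Y (e l) p) Q = 0

def VanP : Prop := ∃ (Q : PR 3) (d : ℕ), 0 < d ∧ Q.IsHomogeneous d ∧ Q ≠ 0 ∧ VanQ L X Φ e Q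

def VertP : Prop := ∀ t ∉ Bad L S, ∀ a j U Y, Chart X a j U Y → ∀ c : Fin 3 → ℂ,
  {ζ | (t, ζ) ∈ U ∧ ∃ κ : ℂ, ∀ l, fc Φ Y (e l) (t, ζ) = κ * c l}.Finite

def BigP : Prop := ∃ a b j : Fin n, ∀ (R : PR 3) (d : ℕ), R.IsHomogeneous d → R ≠ 0 →
  ∃ x ∈ X, eval ![x.2 a, x.2 b, x.2 j] R ≠ 0

def BadfP : Prop := ∃ B, NZ X B ∧ ∀ x ∈ X, x.1 ∈ Bad L S → eval x.2 B = 0

def ClsP : Prop := ∀ t₀, ∃ 𝒮 : Set (Set (V n)), 𝒮.Finite ∧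
  (∀ A ∈ 𝒮, IsPreconnected A ∧ ∀ y ∈ A, (t₀, y) ∈ Rx X) ∧ ∀ y, (t₀, y) ∈ Rx X → ∃ A ∈ 𝒮, y ∈ A

end props

/-- The analytic package. -/
structure Fib (n : ℕ) where
  L : PeriodPair
  W : Set (PS n)
  X : Set (Pt n)
  N : ℕ
  m : ℕ
  Φ : Fin N → Pt n → V n → ℂ
  e : Fin 3 → Fin N
  S : Finset ℂ
  cov : Cov L W X
  frm : Frm L X m Φ
  nonreg : NonregP X
  bad : BadP L X S
  prime : PrimeP X
  drop : DropP L X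
  zero : ZeroP X Φ e
  alg : AlgP X Φ e
  van : VanP L X Φ e
  vert : VertP L X Φ e S
  big : BigP X
  badf : BadfP L X S
  cls : ClsP X

/-- Discs in `X`. -/
def Nm (X : Set (Pt n)) (O : Set ℂ) (F : ℂ → V n) (h : ℂ → ℂ) : Prop :=
  Crv O F ∧ DifferentiableOn ℂ h O ∧ ∀ z ∈ O, (h z, F z) ∈ X

/-- Holomorphic sections over `O`. -/
def Sc (X : Set (Pt n)) (O : Set ℂ) (s : ℂ → V n) : Prop := LH O s ∧ ∀ t ∈ O, (t, s t) ∈ X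

def Far (D : Fib n) (η : ℝ) (t : ℂ) : Prop := ∀ b ∈ Bad D.L D.S, η ≤ ‖t - b‖

/-- `T` represents all the sections with the property `P`. -/
def Rp (X : Set (Pt n)) (P : (ℂ → V n) → Prop) (T : Set (ℂ → V n)) : Prop :=
  (∀ s ∈ T, Sc X univ s ∧ P s) ∧ ∀ s, Sc X univ s → P s → ∃ s' ∈ T, ∀ t, Pp (s t) (s' t)

/-! ### Row Ell: the elliptic curve -/

def EllStmt : Prop := ∀ L : PeriodPair, LH univ (th L) ∧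
  (∀ t t', Pp (th L t) (th L t') → t - t' ∈ L.lattice) ∧
  (∀ t₀, ∃ (a j : Fin 3) (ψ : ℂ → ℂ), AnalyticAt ℂ ψ t₀ ∧ deriv ψ t₀ ≠ 0 ∧
    ∀ᶠ t in 𝓝 t₀, th L t j ≠ 0 ∧ ψ t = th L t a / th L t j) ∧
  ∀ t₀ w₀, Pp w₀ (th L t₀) → ∃ τ : V 3 → ℂ, AnalyticAt ℂ τ w₀ ∧ τ w₀ = t₀ ∧
    (∀ᶠ w in 𝓝 w₀, (∃ t, Pp w (th L t)) → Pp w (th L (τ w))) ∧
    ∀ᶠ q in 𝓝 ((t₀, w₀) : Pt 3), Pp q.2 (th L q.1) → q.1 = τ q.2

def LatStmt : Prop := ∀ L : PeriodPair,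
  (∃ R : ℝ, 0 < R ∧ ∀ t : ℂ, ∃ l ∈ L.lattice, ‖t - l‖ ≤ R) ∧
  (∀ (p : Polynomial ℂ) (t₀ : ℂ), p ≠ 0 →
    ∀ᶠ t in 𝓝[≠] t₀, t ∉ L.lattice ∧ p.eval (L.weierstrassP t) ≠ 0) ∧
  ∀ S : Finset ℂ, (∀ t ∈ Bad L S, ∀ l ∈ L.lattice, t + l ∈ Bad L S) ∧
    (∃ r : ℝ, 0 < r ∧ ∀ t ∈ Bad L S, ∀ t' ∈ Bad L S, t ≠ t' → r ≤ ‖t - t'‖) ∧
    ∀ t₀, ∃ r : ℝ, 0 < r ∧ ∀ t ∈ Bad L S, ‖t - t₀‖ ≤ r → t = t₀

/-- The potential on the base. -/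
def bt (L : PeriodPair) (g : ℂ → ℂ) (t : ℂ) : ℝ :=
  6 * Real.log ‖g t‖ + Real.log (H4.sq ![L.weierstrassP t, L.derivWeierstrassP t, 1])

def GainStmt : Prop := ∀ L : PeriodPair, ∃ ρ₀ c : ℝ, 0 < ρ₀ ∧ 0 < c ∧ ∀ ρ, 0 < ρ → ρ ≤ ρ₀ →
  ∃ C : ℝ, ∀ (t₀ : ℂ) (g : ℂ → ℂ) (A : ℝ), DifferentiableOn ℂ g (ball t₀ (2 * ρ)) →
    (∀ t ∈ ball t₀ (2 * ρ), ‖g t‖ ≤ A ∧ (t ∈ L.lattice → g t = 0)) →
    (∀ t ∈ ball t₀ ρ, t ∉ L.lattice → g t ≠ 0 → bt L g t ≤ 6 * Real.log A + C) ∧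
    (t₀ ∉ L.lattice → g t₀ ≠ 0 → (∀ᵐ t, t ∈ ball t₀ ρ → t ∉ L.lattice ∧ g t ≠ 0) ∧
      IntegrableOn (bt L g) (ball t₀ ρ) ∧
      Real.pi * ρ ^ 2 * (bt L g t₀ + c * ρ ^ 2) ≤ ∫ t in ball t₀ ρ, bt L g t)

/-! ### Row Mon: normal families and lifts -/

def MonStmt : Prop := ∀ (n : ℕ) (u : Ultrafilter ℕ) (O : Set ℂ) (F : ℕ → ℂ → V n),
  (∀ t ∈ O, ∃ r A : ℝ, 0 < r ∧ ∀ᶠ k in u, ∃ g, Crv (ball t r) g ∧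
    ∀ w ∈ ball t r, Pp (F k w) (g w) ∧ lam g w ≤ A) → ∃ G, Cv u O F G

def LiftStmt : Prop := ∀ (n : ℕ) (s : ℂ → V n) (c : ℂ) (r R : ℝ), r < R → LH (ball c R) s →
  ∃ g, Crv (ball c r) g ∧ ∀ w ∈ ball c r, Pp (s w) (g w)

/-! ### Row Lip: discs lift to the cover -/

def LipStmt : Prop := ∀ (n : ℕ) (L : PeriodPair) (W : Set (PS n)) (X : Set (Pt n)), Cov L W X →
  ∃ C : ℝ, 0 < C ∧ ∀ (O : Set ℂ) (F : ℂ → V n) (h : ℂ → ℂ), IsOpen O → Nm X O F h →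
    ∀ z ∈ O, ‖deriv h z‖ ^ 2 ≤ C * lam F z

def NrmStmt : Prop := ∀ (n : ℕ) (L : PeriodPair) (W : Set (PS n)) (X : Set (Pt n)), Cov L W X →
  ∀ (F : ℂ → V n) (c : ℂ) (r : ℝ), Dk W c r F → ∃ h, Nm X (ball c r) F h

def HdStmt : Prop := ∀ (n : ℕ) (L : PeriodPair) (W : Set (PS n)) (X : Set (Pt n)), Cov L W X →
  ∃ C : ℝ, 0 < C ∧ ∀ (F : ℂ → V n) (h : ℂ → ℂ) (c : ℂ) (ρ μ : ℝ), 0 < ρ → 0 ≤ μ →
    Nm X (ball c ρ) F h → mu (lam F) (ball c ρ) ≤ ENNReal.ofReal μ →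
    ∀ z ∈ ball c (ρ / 2), ‖deriv h z‖ ^ 2 * ρ ^ 2 ≤ C * μ

/-! ### Row Hyp: hyperbolicity away from the bad fibres -/

def HypStmt : Prop := ∀ (n : ℕ) (D : Fib n) (η : ℝ), 0 < η → ∃ A : ℝ, 0 < A ∧
  ∀ (F : ℂ → V n) (h : ℂ → ℂ) (c : ℂ) (r : ℝ), 0 < r → Nm D.X (ball c r) F h →
    (∀ z ∈ ball c r, Far D η (h z)) → lam F c * r ^ 2 ≤ A

/-- Entire curves in good fibres with bounded derivative are constant. -/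
def FibStmt : Prop := ∀ (n : ℕ) (D : Fib n) (G : ℂ → V n) (t : ℂ) (A : ℝ), t ∉ Bad D.L D.S →
  LH univ G → (∀ w, (t, G w) ∈ D.X) →
  (∀ c r g, Crv (ball c r) g → (∀ w ∈ ball c r, Pp (G w) (g w)) → ∀ w ∈ ball c r, lam g w ≤ A) →
  ∀ r g, 0 < r → Crv (ball 0 r) g → (∀ w ∈ ball (0 : ℂ) r, Pp (G w) (g w)) → lam g 0 = 0

/-! ### Rows Wind, HL: winding numbers and fields of lines -/

def WindStmt : Prop := ∀ (c : ℂ) (ρ : ℝ), 0 < ρ →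
  (∀ f : ℂ → ℂ, ContinuousOn f (sphere c ρ) → (∀ t ∈ sphere c ρ, f t ≠ 0) → ∃ k, Wn c ρ f k) ∧
  (∀ (f : ℂ → ℂ) (k l : ℤ), Wn c ρ f k → Wn c ρ f l → k = l) ∧
  (∀ f : ℂ → ℂ, ContinuousOn f (closedBall c ρ) → (∀ t ∈ closedBall c ρ, f t ≠ 0) →
    Wn c ρ f 0) ∧
  (∀ H : ℝ × ℂ → ℂ, ContinuousOn H (Bn c ρ) → (∀ q ∈ Bn c ρ, H q ≠ 0) →
    Wn c ρ (fun t => H (0, t) / H (1, t)) 0) ∧
  ∀ (k : ℕ) (a : Fin k → ℂ), (∀ i, a i ∈ ball c ρ) → Wn c ρ (fun t => ∏ i, (t - a i)) k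

def FacStmt : Prop := ∀ (E : Type) [NormedAddCommGroup E] [NormedSpace ℂ E] [CompleteSpace E]
  (c : ℂ) (ρ : ℝ) (G : ℂ → E), 0 < ρ → ContinuousOn G (closedBall c ρ) →
  (∀ t ∈ sphere c ρ, G t ≠ 0) → UA (ball c ρ) G → ∃ k, Zv c ρ G k

def HLStmt : Prop := ∀ (ι α : Type) [Fintype ι] [PseudoMetricSpace α] (K : Set α)
  (v : ℝ × α → ι → ℂ) (g : α → ι → ℂ), IsCompact K → PC (Icc 0 1 ×ˢ K) v →
  Lf K (fun x => v (0, x)) g → ∃ G, Lf (Icc 0 1 ×ˢ K) v G ∧ ∀ x ∈ K, G (0, x) = g x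

def HCStmt : Prop := ∀ (ι : Type) [Fintype ι] (c : ℂ) (ρ : ℝ) (v : ℂ → ι → ℂ),
  PC (closedBall c ρ) v → ∃ g, Lf (closedBall c ρ) v g

def DgStmt : Prop := ∀ (ι : Type) [Fintype ι] (c : ℂ) (ρ : ℝ), 0 < ρ →
  (∀ (v v' : ℂ → ι → ℂ) (w : ℝ × ℂ → ι → ℂ) (k l : ℤ), Dg c ρ v v' w k → Dg c ρ v v' w l → k = l) ∧
  ∀ (v v' : ℝ × ℂ → ι → ℂ) (w : ℝ × ℝ × ℂ → ι → ℂ) (k : ℤ), PC (Icc 0 1 ×ˢ closedBall c ρ) v →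
    PC (Icc 0 1 ×ˢ closedBall c ρ) v' → PC (Icc 0 1 ×ˢ Bn c ρ) w →
    (∀ θ ∈ Icc (0 : ℝ) 1, ∀ t ∈ sphere c ρ,
      Pp (w (θ, 0, t)) (v (θ, t)) ∧ Pp (w (θ, 1, t)) (v' (θ, t))) →
    (Dg c ρ (fun t => v (0, t)) (fun t => v' (0, t)) (fun q => w (0, q)) k ↔
      Dg c ρ (fun t => v (1, t)) (fun t => v' (1, t)) (fun q => w (1, q)) k)

/-! ### Row Chart: charts -/

/-- The inverse function theorem for parametrisations of `X`. -/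
def GenStmt : Prop := ∀ (n : ℕ) (X : Set (Pt n)) (a j : Fin n) (Y : ℂ × ℂ → V n) (T : ℂ × ℂ → ℂ)
  (Q : Pt n → ℂ × ℂ) (p : ℂ × ℂ), Cn X → AnalyticAt ℂ Y p → AnalyticAt ℂ T p → Y p j ≠ 0 →
  (∀ᶠ q in 𝓝 p, (T q, Y q) ∈ X) → Tendsto Q (𝓝 (T p, Y p)) (𝓝 p) →
  (∀ᶠ x in 𝓝 ((T p, Y p) : Pt n), x ∈ X → x.1 = T (Q x) ∧ Pp x.2 (Y (Q x))) →
  fderiv ℂ T p (1, 0) * (dz Y p a * Y p j - Y p a * dz Y p j) ≠
    fderiv ℂ T p (0, 1) * (dt Y p a * Y p j - Y p a * dt Y p j) → (T p, Y p) ∈ Rg X a j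

def TubeStmt : Prop := ∀ (n : ℕ) (X : Set (Pt n)) (a j : Fin n) (K : Set ℂ) (g : ℂ → V n), Cn X →
  IsCompact K → PC K g → (∀ t ∈ K, (t, g t) ∈ Rg X a j) →
  ∃ U Y, Chart X a j U Y ∧ ∀ t ∈ K, (t, g t a / g t j) ∈ U ∧ Pp (g t) (Y (t, g t a / g t j))

def NearStmt : Prop := ∀ (n : ℕ) (X : Set (Pt n)) (a j : Fin n) (U K : Set (ℂ × ℂ))
  (Y : ℂ × ℂ → V n) (ε : ℝ), Cn X → Chart X a j U Y → IsCompact K → K ⊆ U → 0 < ε →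
  ∃ η : ℝ, 0 < η ∧ ∀ p ∈ K, ∀ x ∈ X, ‖x.1 - p.1‖ ≤ η → d2 x.2 (Y p) ≤ η →
    x.2 j ≠ 0 ∧ ‖x.2 a / x.2 j - p.2‖ ≤ ε ∧ (x.1, x.2 a / x.2 j) ∈ U ∧
      x.2 = x.2 j • Y (x.1, x.2 a / x.2 j)

/-! ### Row Sec: the field of secant lines -/

def SecStmt : Prop := ∀ (n : ℕ) (X : Set (Pt n)), Cn X →
  (∀ (α : Type) [TopologicalSpace α] (K : Set α) (τ : α → ℂ) (a y : α → V n), ContinuousOn τ K →
    PC K a → PC K y → (∀ q ∈ K, (τ q, a q) ∈ Rx X ∧ (τ q, y q) ∈ X) →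
    PC K fun q => SS X (τ q) (a q) (y q)) ∧
  (∀ t a a' y y', (t, a) ∈ Rx X → Pp a a' → Pp y y' → Pp (SS X t a y) (SS X t a' y')) ∧
  (∀ t a y, (t, a) ∈ Rx X → (t, y) ∈ Rx X → Pp (SS X t a y) (SS X t y a)) ∧
  ∀ a j U Y, Chart X a j U Y → ∀ t z z', (t, z) ∈ U → (t, z') ∈ U →
    Pp (SS X t (Y (t, z)) (Y (t, z'))) (wg (Y (t, z)) (dd Y t z z'))

/-! ### Rows Push, Rel -/

def Xr (X : Set (Pt n)) (t₀ : ℂ) (r : ℝ) : Set (Pt n) := {x | x ∈ X ∧ ‖x.1 - t₀‖ ≤ r}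

/-- All the points over the punctured disc are regular. -/
def Pun (X : Set (Pt n)) (t₀ : ℂ) (r : ℝ) : Prop := ∀ x ∈ Xr X t₀ r, x.1 ≠ t₀ → x ∈ Rx X

def PushStmt : Prop := ∀ (n : ℕ) (X : Set (Pt n)) (t₀ : ℂ) (ε r : ℝ), Cn X → 0 < ε → Pun X t₀ r →
  ∃ H : ℝ × Pt n → Pt n, ContinuousOn H (Icc 0 1 ×ˢ Xr X t₀ r) ∧ ∀ x ∈ Xr X t₀ r,
    H (0, x) = x ∧ H (1, x) ∈ Xr X t₀ ε ∧ ∀ θ ∈ Icc (0 : ℝ) 1, H (θ, x) ∈ Xr X t₀ r ∧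
      ∀ c : ℂ, c ≠ 0 → H (θ, x.1, c • x.2) = ((H (θ, x)).1, c • (H (θ, x)).2)

/-- A continuous map to `A`, up to scaling. -/
def PX {α : Type} [TopologicalSpace α] (A : Set (Pt n)) (K : Set α) (x : α → Pt n) : Prop :=
  ContinuousOn (fun q => (x q).1) K ∧ PC K (fun q => (x q).2) ∧ MapsTo x K A

/-- A sphere in `A`: two discs and a band. -/
def Cy (A : Set (Pt n)) (c : ℂ) (ρ : ℝ) (x x' : ℂ → Pt n) (b : ℝ × ℂ → Pt n) : Prop :=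
  PX A (closedBall c ρ) x ∧ PX A (closedBall c ρ) x' ∧ PX A (Bn c ρ) b ∧ ∀ t ∈ sphere c ρ,
    (b (0, t)).1 = (x t).1 ∧ Pp (b (0, t)).2 (x t).2 ∧
      (b (1, t)).1 = (x' t).1 ∧ Pp (b (1, t)).2 (x' t).2

/-- The field of secant lines to the section `a`. -/
def Sa (X : Set (Pt n)) (a : ℂ → V n) (x : Pt n) : Wg n := SS X x.1 (a x.1) x.2

/-- Its degree on a sphere. -/
def Dl (X : Set (Pt n)) (a : ℂ → V n) (c : ℂ) (ρ : ℝ) (x x' : ℂ → Pt n) (b : ℝ × ℂ → Pt n)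
    (k : ℤ) : Prop :=
  Dg c ρ (fun t => Sa X a (x t)) (fun t => Sa X a (x' t)) (fun q => Sa X a (b q)) k

/-- Continuous sections through regular points. -/
def Gs (X : Set (Pt n)) (t₀ : ℂ) (r : ℝ) (a : ℂ → V n) : Prop :=
  PC (closedBall t₀ r) a ∧ ∀ t ∈ closedBall t₀ r, (t, a t) ∈ Rx X

/-- Two points in one connected set of regular points of the fibre. -/
def Cl (X : Set (Pt n)) (t₀ : ℂ) (y y' : V n) : Prop :=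
  ∃ A : Set (V n), IsPreconnected A ∧ (∀ w ∈ A, (t₀, w) ∈ Rx X) ∧ y ∈ A ∧ y' ∈ A

/-- The degrees for `a` and `a'` agree on all spheres over the disc of radius `r`. -/
def Eqv (X : Set (Pt n)) (t₀ : ℂ) (r : ℝ) (a a' : ℂ → V n) : Prop :=
  ∀ (c : ℂ) (ρ : ℝ) (x x' : ℂ → Pt n) (b : ℝ × ℂ → Pt n) (k : ℤ), 0 < ρ →
    Cy (Xr X t₀ r) c ρ x x' b → (Dl X a c ρ x x' b k ↔ Dl X a' c ρ x x' b k)

def GermStmt : Prop := ∀ (n : ℕ) (X : Set (Pt n)) (t₀ : ℂ) (r : ℝ) (a a' : ℂ → V n), Cn X →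
  0 < r → Gs X t₀ r a → Gs X t₀ r a' → Cl X t₀ (a t₀) (a' t₀) →
  ∃ ε : ℝ, 0 < ε ∧ ε ≤ r ∧ Eqv X t₀ ε a a'

def RelStmt : Prop := ∀ (n : ℕ) (X : Set (Pt n)) (t₀ : ℂ) (r : ℝ) (a a' : ℂ → V n), Cn X →
  0 < r → Pun X t₀ r → Gs X t₀ r a → Gs X t₀ r a' → Cl X t₀ (a t₀) (a' t₀) → Eqv X t₀ r a a'

/-! ### Row Star: the adjunction identity -/

/-- A continuous vertical vector field along `s`. -/
def VL (X : Set (Pt n)) (c : ℂ) (ρ : ℝ) (s v : ℂ → V n) : Prop :=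
  ContinuousOn (fun t => wg (s t) (v t)) (closedBall c ρ) ∧
    ∀ t ∈ closedBall c ρ, Vt X (t, s t) (v t)

def VLStmt : Prop := ∀ (n : ℕ) (D : Fib n) (c : ℂ) (ρ r : ℝ) (s : ℂ → V n), 0 < ρ → ρ < r →
  Nm D.X (ball c r) s id → ∃ v, VL D.X c ρ s v ∧ ∀ i,
    ContinuousOn (fun t => D.Φ i (t, s t) (v t)) (closedBall c ρ) ∧
      UA (ball c ρ) fun t => D.Φ i (t, s t) (v t)

/-- The fibre coordinate on the band between `s` and `s'`. -/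
def zb (a j : Fin n) (s s' : ℂ → V n) (q : ℝ × ℂ) : ℂ :=
  (1 - (q.1 : ℂ)) * (s q.2 a / s q.2 j) + (q.1 : ℂ) * (s' q.2 a / s' q.2 j)

/-- Over the circle, `s` and `s'` lie in one chart. -/
def Tb (a j : Fin n) (U : Set (ℂ × ℂ)) (Y : ℂ × ℂ → V n) (c : ℂ) (ρ : ℝ) (s s' : ℂ → V n) : Prop :=
  (∀ t ∈ sphere c ρ, Pp (s t) (Y (t, s t a / s t j)) ∧ Pp (s' t) (Y (t, s' t a / s' t j))) ∧
    ∀ q ∈ Bn c ρ, (q.2, zb a j s s' q) ∈ U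

/-- The sphere made of `s`, `s'` and the band. -/
def Ds (X : Set (Pt n)) (a j : Fin n) (Y : ℂ × ℂ → V n) (c : ℂ) (ρ : ℝ) (s s' σ : ℂ → V n)
    (k : ℤ) : Prop :=
  Dl X σ c ρ (fun t => (t, s t)) (fun t => (t, s' t)) (fun q => (q.2, Y (q.2, zb a j s s' q))) k

/-- The degree for a section that misses the band. -/
def StarAStmt : Prop := ∀ (n : ℕ) (D : Fib n) (a j : Fin n) (U : Set (ℂ × ℂ)) (Y : ℂ × ℂ → V n)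
  (c : ℂ) (ρ r : ℝ) (s s' σ : ℂ → V n) (ν : ℤ) (I J : ℕ), 0 < ρ → ρ < r → Chart D.X a j U Y →
  Nm D.X (ball c r) s id → Nm D.X (ball c r) s' id → Nm D.X (ball c r) σ id → Tb a j U Y c ρ s s' →
  (∀ q ∈ Bn c ρ, ¬Pp (σ q.2) (Y (q.2, zb a j s s' q))) → Wn c ρ (fun t => s t j / s' t j) ν →
  Zv c ρ (fun t => wg (σ t) (s t)) I → Zv c ρ (fun t => wg (σ t) (s' t)) J →
  Cy (Xr D.X c ρ) c ρ (fun t => (t, s t)) (fun t => (t, s' t))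
      (fun q => (q.2, Y (q.2, zb a j s s' q))) ∧ Ds D.X a j Y c ρ s s' σ (ν + J - I)

/-- The degrees for the two sections themselves. -/
def StarBStmt : Prop := ∀ (n : ℕ) (D : Fib n) (a j : Fin n) (U : Set (ℂ × ℂ)) (Y : ℂ × ℂ → V n)
  (c : ℂ) (ρ r : ℝ) (s s' v v' : ℂ → V n) (i : Fin D.N) (ν : ℤ) (k k' : ℕ), 0 < ρ → ρ < r →
  Chart D.X a j U Y → Nm D.X (ball c r) s id → Nm D.X (ball c r) s' id → Tb a j U Y c ρ s s' →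
  (∀ q ∈ Bn c ρ, fc D.Φ Y i (q.2, zb a j s s' q) ≠ 0) → Wn c ρ (fun t => s t j / s' t j) ν →
  VL D.X c ρ s v → VL D.X c ρ s' v' → Zv c ρ (fun t => D.Φ i (t, s t) (v t)) k →
  Zv c ρ (fun t => D.Φ i (t, s' t) (v' t)) k' → ∃ d d' : ℤ, Ds D.X a j Y c ρ s s' s d ∧
    Ds D.X a j Y c ρ s s' s' d' ∧ (k : ℤ) - k' = D.m * (d + d' - 2 * ν)

def StarStmt : Prop := ∀ (n : ℕ) (D : Fib n) (a j : Fin n) (U : Set (ℂ × ℂ)) (Y : ℂ × ℂ → V n)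
  (c : ℂ) (ρ r : ℝ) (s s' σ σ' v v' : ℂ → V n) (i : Fin D.N) (k k' I I' J J' : ℕ), 0 < ρ → ρ < r →
  Pun D.X c ρ → Chart D.X a j U Y → Nm D.X (ball c r) s id → Nm D.X (ball c r) s' id →
  Nm D.X (ball c r) σ id → Nm D.X (ball c r) σ' id → Tb a j U Y c ρ s s' →
  (∀ q ∈ Bn c ρ, fc D.Φ Y i (q.2, zb a j s s' q) ≠ 0 ∧ ¬Pp (σ q.2) (Y (q.2, zb a j s s' q)) ∧
    ¬Pp (σ' q.2) (Y (q.2, zb a j s s' q))) →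
  Cl D.X c (σ c) (s c) → Cl D.X c (σ' c) (s' c) → VL D.X c ρ s v → VL D.X c ρ s' v' →
  Zv c ρ (fun t => D.Φ i (t, s t) (v t)) k → Zv c ρ (fun t => D.Φ i (t, s' t) (v' t)) k' →
  Zv c ρ (fun t => wg (σ t) (s t)) I → Zv c ρ (fun t => wg (σ' t) (s t)) I' →
  Zv c ρ (fun t => wg (σ t) (s' t)) J → Zv c ρ (fun t => wg (σ' t) (s' t)) J' →
  k + D.m * (I + I') = k' + D.m * (J + J')

/-! ### Rows Alpha, Ext, Beta, NB: no bubbles -/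

/-- A sequence of sections over a disc that converges on the punctured disc. -/
def Sq (X : Set (Pt n)) (u : Ultrafilter ℕ) (c : ℂ) (r : ℝ) (s : ℕ → ℂ → V n) (g : ℂ → V n) :
    Prop :=
  0 < r ∧ Pun X c r ∧ (∀ k, Nm X (ball c r) (s k) id) ∧ Sc X (ball c r \ {c}) g ∧
    Cv u (ball c r \ {c}) s g ∧ ∃ y, ∀ᶠ k in u, Cl X c y (s k c)

def Ext (c : ℂ) (g : ℂ → V n) : Prop :=
  ∃ g' : ℂ → V n, AnalyticAt ℂ g' c ∧ g' c ≠ 0 ∧ ∀ᶠ t in 𝓝[≠] c, Pp (g t) (g' t)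

/-- The value of the form `i` along the section `g`. -/
def ph (D : Fib n) (g : ℂ → V n) (i : Fin D.N) (t : ℂ) : ℂ := D.Φ i (t, g t) (tv D.X (t, g t))

/-- The ratios of the forms along `g` are meromorphic at `c`. -/
def Rat (D : Fib n) (c : ℂ) (g : ℂ → V n) : Prop :=
  ∃ (i : Fin D.N) (G : Fin D.N → ℂ → ℂ) (M : ℕ), (∀ l, AnalyticAt ℂ (G l) c) ∧
    ∀ᶠ t in 𝓝[≠] c, ∀ l, (t - c) ^ M * ph D g l t = G l t * ph D g i t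

/-- The numbers of zeros of one form along the sections are bounded. -/
def Bz (D : Fib n) (u : Ultrafilter ℕ) (c : ℂ) (r : ℝ) (s : ℕ → ℂ → V n) : Prop :=
  ∃ (ρ A : ℝ) (i : Fin D.N) (M : ℕ), 0 < ρ ∧ ρ < r ∧ ∀ᶠ k in u, ∃ v, VL D.X c ρ (s k) v ∧
    (∀ l, ContinuousOn (fun t => D.Φ l (t, s k t) (v t)) (closedBall c ρ)) ∧
    Zv c ρ (fun t => D.Φ i (t, s k t) (v t)) M ∧
    ∀ l, ∀ t ∈ sphere c ρ, ‖D.Φ l (t, s k t) (v t)‖ ≤ A * ‖D.Φ i (t, s k t) (v t)‖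

def AlphaStmt : Prop := ∀ (n : ℕ) (D : Fib n) (u : Ultrafilter ℕ) (c : ℂ) (r : ℝ)
  (s : ℕ → ℂ → V n) (g : ℂ → V n), Sq D.X u c r s g → Ext c g ∨ Bz D u c r s

def RatStmt : Prop := ∀ (n : ℕ) (D : Fib n) (u : Ultrafilter ℕ) (c : ℂ) (r : ℝ)
  (s : ℕ → ℂ → V n) (g : ℂ → V n), Sq D.X u c r s g → Bz D u c r s → Rat D c g

/-- Roots of polynomials with analytic coefficients are meromorphic. -/
def MerStmt : Prop := ∀ (n : ℕ) (c : ℂ) (r : ℝ) (g : ℂ → V n) (j : Fin n), 0 < r →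
  LH (ball c r \ {c}) g → (∃ t ∈ ball c r \ {c}, g t j ≠ 0) →
  (∀ b, ∃ (d : ℕ) (A : ℕ → ℂ → ℂ), (∀ i, MeromorphicAt (A i) c) ∧ (∀ᶠ t in 𝓝[≠] c, A d t ≠ 0) ∧
    ∀ᶠ t in 𝓝[≠] c, g t j ≠ 0 → ∑ i ∈ Finset.range (d + 1), A i t * (g t b / g t j) ^ i = 0) →
  Ext c g

def ExtStmt : Prop := ∀ (n : ℕ) (D : Fib n) (c : ℂ) (r : ℝ) (g : ℂ → V n), 0 < r →
  Sc D.X (ball c r \ {c}) g → Rat D c g → Ext c g

def BetaStmt : Prop := ∀ (n : ℕ) (D : Fib n) (u : Ultrafilter ℕ) (c : ℂ) (r : ℝ)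
  (s : ℕ → ℂ → V n) (g : ℂ → V n), Sq D.X u c r s g → Ext c g →
  ∃ ρ A : ℝ, 0 < ρ ∧ ∀ᶠ k in u, ∀ t ∈ ball c ρ, lam (s k) t ≤ A

def NBStmt : Prop := ∀ (n : ℕ) (D : Fib n) (c : ℂ) (r : ℝ), 0 < r → ∃ ρ A : ℝ, 0 < ρ ∧
  ∀ s, Nm D.X (ball c r) s id → ∀ t ∈ ball c ρ, lam s t ≤ A

def UnifStmt : Prop := ∀ (n : ℕ) (D : Fib n) (r : ℝ), 0 < r → ∃ A : ℝ,
  ∀ s c, Nm D.X (ball c r) s id → lam s c ≤ A

def CptStmt : Prop := ∀ (n : ℕ) (D : Fib n) (u : Ultrafilter ℕ) (s : ℕ → ℂ → V n),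
  (∀ R : ℝ, ∀ᶠ k in u, Sc D.X (ball 0 R) (s k)) → ∃ g, Sc D.X univ g ∧ Cv u univ s g

/-! ### Rows UCh, Bar, Exp: expansivity on half-planes -/

/-- Finitely many charts serve for all entire sections. -/
def UChStmt : Prop := ∀ (n : ℕ) (D : Fib n), ∃ (J : ℕ) (a j : Fin J → Fin n)
  (U : Fin J → Set (ℂ × ℂ)) (Y : Fin J → ℂ × ℂ → V n) (p : Fin J → ℂ × ℂ) (r : Fin J → ℝ) (ρ : ℝ),
  0 < ρ ∧ (∀ i, Chart D.X (a i) (j i) (U i) (Y i) ∧ closedBall (p i) (r i) ⊆ U i) ∧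
  ∀ ε : ℝ, 0 < ε → ∃ δ : ℝ, 0 < δ ∧ ∀ s, Sc D.X univ s → ∀ c, ∃ i, ∃ l ∈ D.L.lattice,
    ∀ t ∈ ball c ρ, ∀ y, (t, y) ∈ D.X → d2 y (s t) ≤ δ →
      (t - l, y (a i) / y (j i)) ∈ closedBall (p i) (r i) ∧
      Pp y (Y i (t - l, y (a i) / y (j i))) ∧ ‖y (a i) / y (j i) - s t (a i) / s t (j i)‖ ≤ ε

def BarStmt : Prop := ∀ (u : ℂ → ℝ) (Z : Set ℂ) (e : ℂ) (y₀ ρ c C : ℝ), ‖e‖ = 1 → 0 < ρ → 0 < c →
  (∀ t ∈ Z, y₀ < (t * conj e).re → u t ≤ C) →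
  (∀ t ∈ Z, y₀ + ρ ≤ (t * conj e).re → (∀ᵐ w, w ∈ ball t ρ → w ∈ Z) ∧ IntegrableOn u (ball t ρ) ∧
    Real.pi * ρ ^ 2 * (u t + c) ≤ ∫ w in ball t ρ, u w) → ∀ t ∈ Z, (t * conj e).re ≤ y₀ + ρ

/-- The value of the form `Q` along the section `s`. -/
def Uq (D : Fib n) (Q : PR 3) (s : ℂ → V n) (t : ℂ) : ℂ := eval (fun l => ph D s (D.e l) t) Q

/-- The almost subharmonic function of a pair of sections. -/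
def uu (D : Fib n) (Q : PR 3) (d : ℕ) (s s' : ℂ → V n) (t : ℂ) : ℝ :=
  3 * (D.m * d) * (Real.log (d2 (s t) (s' t)) - Real.log (lamv (s t) (tv D.X (t, s t)))) +
    bt D.L (Uq D Q s) t

def ZZ (D : Fib n) (Q : PR 3) (s s' : ℂ → V n) : Set ℂ :=
  {t | t ∉ D.L.lattice ∧ ¬Pp (s t) (s' t) ∧ Uq D Q s t ≠ 0}

def LocStmt : Prop := ∀ (n : ℕ) (D : Fib n) (Q : PR 3) (d : ℕ), 0 < d → Q.IsHomogeneous d →
  VanQ D.L D.X D.Φ D.e Q → ∃ δ ρ c C : ℝ, 0 < δ ∧ 0 < ρ ∧ 0 < c ∧ ∀ s s', Sc D.X univ s →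
    Sc D.X univ s' → ∀ t ∈ ZZ D Q s s', (∀ w ∈ ball t (2 * ρ), d2 (s w) (s' w) ≤ δ) →
      uu D Q d s s' t ≤ C ∧ (∀ᵐ w, w ∈ ball t ρ → w ∈ ZZ D Q s s') ∧
      IntegrableOn (uu D Q d s s') (ball t ρ) ∧
      Real.pi * ρ ^ 2 * (uu D Q d s s' t + c) ≤ ∫ w in ball t ρ, uu D Q d s s' w

/-- `s` and `s'` are close on a half-plane. -/
def Hc (s s' : ℂ → V n) (δ : ℝ) : Prop :=
  ∃ (e : ℂ) (y₀ : ℝ), ‖e‖ = 1 ∧ ∀ t, y₀ < (t * conj e).re → d2 (s t) (s' t) ≤ δ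

def Exp0Stmt : Prop := ∀ (n : ℕ) (D : Fib n), ∃ (δ : ℝ) (B : PR n), 0 < δ ∧ NZ D.X B ∧
  ∀ s s', Sc D.X univ s → Sc D.X univ s' → Hc s s' δ →
    (∀ t, Pp (s t) (s' t)) ∨ ∀ t, eval (s t) B = 0

def SecFinStmt : Prop := ∀ (n : ℕ) (D : Fib n) (B : PR n), NZ D.X B →
  ∃ T : Set (ℂ → V n), T.Finite ∧ Rp D.X (fun s => ∀ t, eval (s t) B = 0) T

def ExpStmt : Prop := ∀ (n : ℕ) (D : Fib n), ∃ δ : ℝ, 0 < δ ∧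
  ∀ s s', Sc D.X univ s → Sc D.X univ s' → Hc s s' δ → ∀ t, Pp (s t) (s' t)

def FinStmt : Prop := ∀ (n : ℕ) (D : Fib n),
  ∃ T : Set (ℂ → V n), T.Finite ∧ Rp D.X (fun _ => True) T

def CurStmt : Prop := ∀ (n : ℕ) (D : Fib n), ∃ R, NZ D.X R ∧
  ∀ s, Sc D.X univ s → ∀ t, eval (s t) R = 0

/-! ### Row ND: charged sequences of discs -/

def InvStmt : Prop := ∀ (l : Filter ℕ) (h : ℕ → ℂ → ℂ) (t₀ c : ℂ), c ≠ 0 →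
  (∀ R : ℝ, ∀ᶠ k in l, DifferentiableOn ℂ (h k) (ball 0 R)) →
  TendstoLocallyUniformly h (fun w => t₀ + c * w) l → ∀ ρ : ℝ, ∃ R : ℝ, ∀ᶠ k in l,
    ∃ g : ℂ → ℂ, DifferentiableOn ℂ g (ball 0 ρ) ∧ (∀ t ∈ ball (0 : ℂ) ρ, g t ∈ ball (0 : ℂ) R ∧
      h k (g t) = t) ∧ (h k 0 ∈ ball (0 : ℂ) ρ → g (h k 0) = 0)

def NSq (D : Fib n) (η : ℝ) (F : ℕ → ℂ → V n) (h : ℕ → ℂ → ℂ) (R : ℕ → ℝ) (S : ℕ → Set ℂ) : Prop :=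
  Tendsto R atTop atTop ∧ ∀ k, Nm D.X (ball 0 (R k)) (F k) (h k) ∧ S k ⊆ ball 0 1 ∧ 1 ≤ R k ∧
    ∀ z ∈ S k, Far D η (h k z)

def NDAStmt : Prop := ∀ (n : ℕ) (D : Fib n) (η Λ : ℝ) (F : ℕ → ℂ → V n) (h : ℕ → ℂ → ℂ)
  (R : ℕ → ℝ) (S : ℕ → Set ℂ) (μ : ℕ → ℝ), 0 < η → NSq D η F h R S → Tendsto μ atTop atTop →
  (∀ᶠ k in atTop, ENNReal.ofReal (μ k) ≤ mu (lam (F k)) (S k) ∧
    mu (lam (F k)) (ball 0 64) ≤ ENNReal.ofReal (Λ * μ k)) →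
  ∃ s, Sc D.X univ s ∧ ∃ t, s t ∈ closure {y | ∃ k, ∃ z ∈ S k, Pp y (F k z)}

def NDBStmt : Prop := ∀ (n : ℕ) (D : Fib n) (η Λ ε : ℝ) (F : ℕ → ℂ → V n) (h : ℕ → ℂ → ℂ)
  (R : ℕ → ℝ) (S : ℕ → Set ℂ), 0 < η → 0 < ε → NSq D η F h R S →
  (∀ k, MeasurableSet (S k) ∧ ENNReal.ofReal ε ≤ mu (lam (F k)) (S k)) →
  (∀ j : ℕ, ∃ᶠ k in atTop,
    mu (lam (F k)) (ball 0 (Real.exp (3 * j))) ≤ ENNReal.ofReal (Λ * 2 ^ j)) → False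

def NDStmt : Prop := ∀ (n : ℕ) (D : Fib n), ∃ T, NZ D.X T ∧ G2.NoChg D.W T

end Pool.Agent.MP_c69980_ag.E1
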