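import Pool.Agent.MP_c69980_ag.E1.BaseC
import Pool.Agent.MP_c69980_ag.H43.Spec7

/-!
Smooth projective surfaces: conditions 1 and 5 imply condition 3.
-/

set_option autoImplicit false

noncomputable section

namespace Pool.Agent.MP_c69980_ag.E1

open MvPolynomial Metric Set
open H60 H4

/-- Bounded rational functions on locally closed sets take finitely many values. -/
def BFStmt : Prop := ∀ (ι : Type) [Finite ι] (I : Set (MvPolynomial ι ℂ)) (A B : MvPolynomial ι ℂ)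
  (M : ℝ), (∀ v : ι → ℂ, (∀ P ∈ I, eval v P = 0) → eval v B ≠ 0 → ‖eval v A / eval v B‖ ≤ M) →
  {c | ∃ v : ι → ℂ, (∀ P ∈ I, eval v P = 0) ∧ eval v B ≠ 0 ∧ eval v A / eval v B = c}.Finite

/-- Discs centred at `x` stay in a bounded part of a chart. -/
def KB {n : ℕ} (W : Set (PS n)) (x : PS n) : Prop :=
  ∀ b, x.rep b ≠ 0 → ∃ ε M : ℝ, 0 < ε ∧ ε ≤ 1 ∧ ∀ f : ℂ → PS n, Holo (ball 0 1) f →
    MapsTo f (ball 0 1) W → f 0 = x →
      ∀ s ∈ ball (0 : ℂ) ε, ∀ a, ‖(f s).rep a‖ ≤ M * ‖(f s).rep b‖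

def KBStmt : Prop := ∀ (n : ℕ) (W : Set (PS n)) (x : PS n), IsZClosed W → WC W →
  (∀ q ∈ W, x ≠ q → 0 < kob W x q) → KB W x

/-- Rigidity of pointed curves of bounded height. -/
def RigStmt : Prop := ∀ (n : ℕ) (W : Set (PS n)) (x : PS n) (L : Type) [Field L] [Algebra ℂ L]
  (P₀ : H43.Pl L) (d : ℕ) (y : ℕ → Fin n → L), IsZClosed W → KB W x → H43.FFd L →
  (∀ j (F : PR n) (e : ℕ), F.IsHomogeneous e → (∀ p ∈ W, eval p.rep F = 0) → aeval (y j) F = 0) →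
  (∀ j, H43.ht (y j) ≤ d) → (∀ j, H43.Red P₀ (y j) x) → ∃ j j', j ≠ j' ∧ ∃ l : L, y j = l • y j'

def PtStmt : Prop := ∀ (n : ℕ) (W : Set (PS n)) (K : Type) [Field K] [Algebra ℂ K] (z : Fin n → K),
  IsZClosed W → GenPt W z → WC W → PseudoKob W → PseudoBdd W → H43.PseudoFin W

end Pool.Agent.MP_c69980_ag.E1
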