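import Pool.Agent.MP_c69980_ag.E1.SpecB

/-!
Charts of a smooth surface: differentials of forms, and the local inverse.
-/

set_option autoImplicit false

noncomputable section

namespace Pool.Agent.MP_c69980_ag.E1

open MvPolynomial Metric Filter Topology Set
open H60 H4

namespace WC

variable {n c : ℕ}

/-- The differential of a polynomial. -/
def gr (P : PR n) (y : V n) : V n →L[ℂ] ℂ :=
  ∑ i, eval y (pderiv i P) • ContinuousLinearMap.proj i

lemma gr_apply (P : PR n) (y v : V n) : gr P y v = ∑ i, eval y (pderiv i P) * v i := by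
  simp [gr]

lemma an (P : PR n) (y : V n) : AnalyticAt ℂ (fun w : V n => eval w P) y :=
  AnalyticOnNhd.eval_mvPolynomial P y trivial

lemma hasF (P : PR n) (y : V n) : HasFDerivAt (fun w : V n => eval w P) (gr P y) y := by
  induction P using MvPolynomial.induction_on with
  | C c =>
    have : gr (C c) y = 0 := by ext1 v; simp [gr_apply]
    rw [this]
    simpa using hasFDerivAt_const c y
  | add p q hp hq =>
    have : gr (p + q) y = gr p y + gr q y := by
      ext1 v; simp [gr_apply, add_mul, Finset.sum_add_distrib]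
    rw [this]
    simpa using hp.fun_add hq
  | mul_X p i hp =>
    have h := hp.fun_mul (hasFDerivAt_apply (𝕜 := ℂ) i y)
    simp only [map_mul, eval_X]
    refine h.congr_fderiv ?_
    ext1 v
    simp only [gr_apply, Derivation.leibniz, smul_eq_mul, map_add, map_mul, add_mul,
      Finset.sum_add_distrib, eval_X, pderiv_X, mul_assoc, ← Finset.mul_sum,
      add_apply, smul_apply, ContinuousLinearMap.proj_apply]
    simp [Pi.single_apply, apply_ite (eval y)]

lemma euler {P : PR n} {d : ℕ} (h : P.IsHomogeneous d) {y : V n} (h0 : eval y P = 0) :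
    gr P y y = 0 := by
  have := congrArg (eval y) h.sum_X_mul_pderiv
  simp only [map_sum, map_mul, eval_X, map_nsmul, h0, smul_zero] at this
  rw [gr_apply, ← this]
  exact Finset.sum_congr rfl fun i _ => mul_comm _ _

lemma gr_smul {P : PR n} {d : ℕ} (h : P.IsHomogeneous d) (t : ℂ) (y v : V n) :
    gr P (t • y) v = t ^ (d - 1) * gr P y v := by
  simp only [gr_apply, eval_smul_hom h.pderiv, Finset.mul_sum, mul_assoc]

/-- The common kernel of the differentials. -/
def Kr (P : Fin c → PR n) (y : V n) : Submodule ℂ (V n) :=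
  LinearMap.ker (Matrix.mulVecLin (Matrix.of fun k i => eval y (pderiv i (P k))))

lemma mem_Kr {P : Fin c → PR n} {y v : V n} : v ∈ Kr P y ↔ ∀ k, gr (P k) y v = 0 := by
  simp [Kr, funext_iff, gr_apply, Matrix.mulVec, dotProduct]

lemma rank_Kr {P : Fin c → PR n} {y : V n} (hc : c + 3 = n)
    (li : LinearIndependent ℂ fun k i => eval y (pderiv i (P k))) :
    Module.finrank ℂ (Kr P y) = 3 := by
  have h1 := LinearMap.finrank_range_add_finrank_ker
    (Matrix.mulVecLin (Matrix.of fun k i => eval y (pderiv i (P k))))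
  have h2 : (Matrix.of fun k i => eval y (pderiv i (P k))).rank = Fintype.card (Fin c) :=
    LinearIndependent.rank_matrix li
  rw [Matrix.rank, Fintype.card_fin] at h2
  rw [h2, Module.finrank_fin_fun] at h1
  change c + Module.finrank ℂ (Kr P y) = n at h1
  omega

/-- Vectors of `K` with vanishing coordinate `a`. -/
def ct (K : Submodule ℂ (V n)) (a : Fin n) : Submodule ℂ (V n) :=
  K ⊓ LinearMap.ker (LinearMap.proj a : V n →ₗ[ℂ] ℂ)

lemma mem_ct {K : Submodule ℂ (V n)} {a : Fin n} {v : V n} : v ∈ ct K a ↔ v ∈ K ∧ v a = 0 := by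
  simp [ct]

lemma ct_lt {K : Submodule ℂ (V n)} {a : Fin n} {v : V n} (h : v ∈ K) (h0 : v a ≠ 0) :
    Module.finrank ℂ (ct K a) < Module.finrank ℂ K :=
  Submodule.finrank_lt_finrank_of_lt
    (lt_of_le_of_ne inf_le_left fun e => h0 (mem_ct.1 (e.symm ▸ h : v ∈ ct K a)).2)

lemma cut (K : Submodule ℂ (V n)) (j : Fin n) {m : ℕ} (h : Module.finrank ℂ K ≤ m + 1) :
    ∃ a, Module.finrank ℂ (ct K a) ≤ m := by
  by_cases hK : K = ⊥
  · refine ⟨j, ?_⟩
    have : ct K j = ⊥ := le_bot_iff.1 (hK ▸ inf_le_left)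
    rw [this, finrank_bot]
    exact Nat.zero_le _
  · obtain ⟨v, hv, h0⟩ := Submodule.exists_mem_ne_zero_of_ne_bot hK
    obtain ⟨a, ha⟩ := Function.ne_iff.1 h0
    have := ct_lt hv ha
    exact ⟨a, by omega⟩

lemma pick {K : Submodule ℂ (V n)} (h : Module.finrank ℂ K = 3) {y : V n} (hy : y ∈ K)
    (h0 : y ≠ 0) : ∃ a b j, y j ≠ 0 ∧ ∀ v ∈ K, v a = 0 → v b = 0 → v j = 0 → v = 0 := by
  obtain ⟨j, hj⟩ := Function.ne_iff.1 h0
  have h1 := ct_lt hy hj
  obtain ⟨a, ha⟩ := cut (ct K j) j (m := 1) (by omega)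
  obtain ⟨b, hb⟩ := cut (ct (ct K j) a) j (m := 0) (by omega)
  have hb' : ct (ct (ct K j) a) b = ⊥ := Submodule.finrank_eq_zero.1 (by omega)
  refine ⟨a, b, j, hj, fun v hv h2 h3 h4 => ?_⟩
  have : v ∈ ct (ct (ct K j) a) b := mem_ct.2 ⟨mem_ct.2 ⟨mem_ct.2 ⟨hv, h4⟩, h2⟩, h3⟩
  rwa [hb', Submodule.mem_bot] at this

/-- The analytic inverse function theorem. -/
lemma inv {E F : Type} [NormedAddCommGroup E] [NormedSpace ℂ E] [FiniteDimensional ℂ E]
    [NormedAddCommGroup F] [NormedSpace ℂ F] [FiniteDimensional ℂ F] {f : E → F} {x : E}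
    {f' : E →L[ℂ] F} (hf : AnalyticAt ℂ f x) (h' : HasFDerivAt f f' x)
    (hi : ∀ v, f' v = 0 → v = 0) (hr : Module.finrank ℂ E = Module.finrank ℂ F) :
    ∃ g : F → E, AnalyticAt ℂ g (f x) ∧ (∀ᶠ y in 𝓝 x, g (f y) = y) ∧
      ∀ᶠ w in 𝓝 (f x), f (g w) = w := by
  have _ : CompleteSpace E := FiniteDimensional.complete ℂ E
  have h1 : Function.Injective f' := (injective_iff_map_eq_zero f').2 hi
  have h2 : Function.Surjective f' :=
    (LinearMap.injective_iff_surjective_of_finrank_eq_finrank (f := (f' : E →ₗ[ℂ] F)) hr).1 h1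
  let e : E ≃L[ℂ] F :=
    (LinearEquiv.ofBijective (f' : E →ₗ[ℂ] F) ⟨h1, h2⟩).toContinuousLinearEquiv
  have he : HasFDerivAt f (e : E →L[ℂ] F) x := h'
  have hc : ContDiffAt ℂ ⊤ f x := hf.contDiffAt
  have hs := hc.hasStrictFDerivAt' he (by simp)
  exact ⟨hc.localInverse he (by simp), (hc.to_localInverse he (by simp)).analyticAt,
    hs.eventually_left_inverse, hs.eventually_right_inverse⟩

lemma cone_smul {W : Set (PS n)} {y : V n} (h : y ∈ Cone W) {t : ℂ} (ht : t ≠ 0) :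
    t • y ∈ Cone W := by
  obtain ⟨h0, h1⟩ := h
  refine ⟨smul_ne_zero ht h0, ?_⟩
  rwa [(Projectivization.mk_eq_mk_iff' ℂ _ _ (smul_ne_zero ht h0) h0).2 ⟨t, rfl⟩]

/-- The Jacobian criterion at a point of the cone. -/
lemma smo {W : Set (PS n)} (h : Smo W) {y : V n} (hy : y ∈ Cone W) :
    ∃ (c e : ℕ) (P : Fin c → PR n) (d : Fin c → ℕ) (g : PR n), c + 3 = n ∧
      (∀ k, (P k).IsHomogeneous (d k)) ∧ g.IsHomogeneous e ∧ eval y g ≠ 0 ∧
      Module.finrank ℂ (Kr P y) = 3 ∧
      ∀ w : V n, w ≠ 0 → eval w g ≠ 0 → (w ∈ Cone W ↔ ∀ k, eval w (P k) = 0) := by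
  obtain ⟨c, e, P, d, g, hc, hP, hg, h0, li, hW⟩ := h _ hy.2
  refine ⟨c, e, P, d, g, hc, hP, hg, (eval_mk hg hy.1).not.1 h0, ?_, fun w hw hw' => ?_⟩
  · rw [← rank_Kr hc li]
    obtain ⟨t, t0, ht⟩ := rep_mk hy.1
    have : Kr P y = Kr P (Projectivization.mk ℂ y hy.1).rep := by
      ext v
      simp [mem_Kr, ht, gr_smul (hP _), t0]
    rw [this]
  · have := hW (Projectivization.mk ℂ w hw) ((eval_mk hg hw).not.2 hw')
    simp only [eval_mk (hP _)] at this
    rw [← this]
    exact ⟨fun h => h.2, fun h => ⟨hw, h⟩⟩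

end WC

end Pool.Agent.MP_c69980_ag.E1
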